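import Mathlib
import Pool.Agent.Lib.MP_9dd88f_nt.Defs
import Pool.Agent.Lib.MP_9dd88f_nt.DE.Defs

/-!
# Definitions for the lower bound `F k ≥ exp (2 ^ ((1 / 2 - ε) k))`
-/

namespace Pool.Agent.Lib.MP_9dd88f_nt.HF

open Finset

/-- The least `r ≥ 1` with `x ∣ D + r` (for `x ≥ 1`). -/
def gap (x D : ℕ) : ℕ := x - D % x

/-- Every prime factor of `r` is at least `Q`. -/
def Rough (Q r : ℕ) : Prop := ∀ p : ℕ, p.Prime → p ∣ r → Q ≤ p

/-- The product of the primes below `Q`. -/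
def W (Q : ℕ) : ℕ := ∏ p ∈ (range Q).filter Nat.Prime, p

/-- The sieving level `⌈t / √(log t)⌉`. -/
noncomputable def Qf (t : ℕ) : ℕ := ⌈(t : ℝ) / √(Real.log t)⌉₊

/-- The primes of `(A, B]`. -/
def primesIoc (A B : ℕ) : Finset ℕ := (Ioc A B).filter Nat.Prime

/-- The primes of `(t, t ^ K]`. -/
noncomputable def pool (K : ℝ) (t : ℕ) : Finset ℕ := primesIoc t ⌊(t : ℝ) ^ K⌋₊

/-- The character transform of a weight on `[0, x)`. -/
noncomputable def hat (x : ℕ) (f : ℕ → ℝ) (χ : DirichletCharacter ℂ x) : ℂ :=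
  ∑ r ∈ range x, (f r : ℂ) * χ r

/-- `|1 + χ(p)|² / 4`. -/
noncomputable def fac {x : ℕ} (χ : DirichletCharacter ℂ x) (p : ℕ) : ℝ := ‖1 + χ p‖ ^ 2 / 4

open Classical in
/-- The characters modulo `x` that are biased on `s`. -/
noncomputable def bad (x : ℕ) (s : Finset ℕ) (η : ℝ) : Finset (DirichletCharacter ℂ x) :=
  univ.filter (fun ψ => η * s.card < ‖∑ p ∈ s, ψ p‖)

/-- The properties of the weight. -/
structure IsWeight (x Q X : ℕ) (f : ℕ → ℝ) : Prop where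
  nonneg : ∀ r, 0 ≤ f r
  le_one : ∀ r, f r ≤ 1
  supp : ∀ r, f r ≠ 0 → r < X ∧ r.Coprime x ∧ Rough Q r
  mass : (X : ℝ) / (256 * W Q) ≤ ∑ r ∈ range x, f r
  hat_le : ∀ χ : DirichletCharacter ℂ x, χ ≠ 1 → ‖hat x f χ‖ ≤ √x * x.divisors.card

open Classical in
/-- The `L²` mass of the nonprincipal characters after the primes `p`. -/
noncomputable def Xi (x : ℕ) (f : ℕ → ℝ) {t : ℕ} (p : Fin t → ℕ) : ℝ :=
  ∑ χ ∈ (univ : Finset (DirichletCharacter ℂ x)).erase 1,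
    ‖hat x f χ‖ ^ 2 / (∑ r ∈ range x, f r) ^ 2 * ∏ i, fac χ (p i)

/-- The next numerator is below `nxt κ γ t x`. -/
noncomputable def nxt (κ γ : ℝ) (t x : ℕ) : ℝ :=
  max ((x : ℝ) * 2 ^ (-(γ * t))) ((x : ℝ) ^ (1 - κ / 4))

/-- The exponent `c` of the saving. -/
noncomputable def cc (K γ σf : ℝ) : ℝ := min ((1 - 1 / K) * σf / 16) ((1 - γ) / 8)

/-- The values `v i` with the divisors of `x` replaced by `1`. -/
def drp (x : ℕ) {u : ℕ} (v : Fin u → ℕ) (i : Fin u) : ℕ := if v i ∣ x then 1 else v i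

open Classical in
/-- The sets of indices that reduce the numerator `x`. -/
noncomputable def good (K γ : ℝ) (t x g : ℕ) (p : Fin t → ℕ) : Finset (Finset (Fin t)) :=
  univ.filter (fun S => (gap x (g * sp p S) : ℝ) < nxt (1 - 1 / K) γ t x ∧
    Rough (Qf t) (gap x (g * sp p S)))

/-- Proposition 1: the main group `p` and the large primes `g`. -/
structure Main1 (K γ σf σ1 : ℝ) (t J : ℕ) (p : Fin t → ℕ) (g : Fin J → ℕ) : Prop where
  inj : Function.Injective p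
  prime : ∀ i, (p i).Prime ∧ t < p i ∧ (p i : ℝ) ≤ (t : ℝ) ^ K
  gprime : ∀ j, (g j).Prime ∧ (2 : ℝ) ^ (σ1 * t) < g j ∧ (g j : ℝ) ≤ 2 ^ (3 * σ1 * t + 3)
  good : ∀ x : ℕ, (2 : ℝ) ^ (σf * t) ≤ x → (x : ℝ) < 2 ^ (σ1 * t) →
    ∃ j, (2 : ℝ) ^ ((1 - γ) * t / 2) ≤ ((good K γ t x (g j) p).card : ℝ)

/-- Proposition 2: the final group `v`. -/
structure Main2 (θ : ℝ) (t u : ℕ) (v : Fin u → ℕ) : Prop where
  inj : Function.Injective v
  prime : ∀ i, (v i).Prime ∧ t < v i ∧ v i ≤ t ^ 20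
  good : ∀ x : ℕ, 1 ≤ x → (x : ℝ) < 2 ^ (θ * t / 20) → Rough (Qf t) x →
    ∀ q, q ∣ x → 1 < q → GoodMod (drp x v) q

/-- `x / N` is a sum of at most `h` distinct unit fractions with denominators outside `Z`. -/
def Rep (h x N : ℕ) (Z : Finset ℕ) : Prop :=
  ∃ T : Finset ℕ, T.card ≤ h ∧ (∀ n ∈ T, 0 < n ∧ n ∉ Z) ∧ ∑ n ∈ T, (1 : ℚ) / n = (x : ℚ) / N

/-- One reduction step for the numerator `x`, multiples of `M` and `cap` forbidden values. -/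
def StepAt (κ γ : ℝ) (t M cap x : ℕ) : Prop :=
  ∀ N, 0 < N → M ∣ N → ∀ Z : Finset ℕ, Z.card ≤ cap →
    ∃ n1 N' r : ℕ, 0 < n1 ∧ n1 ∉ Z ∧ 0 < N' ∧ M ∣ N' ∧ 1 ≤ r ∧ (r : ℝ) < nxt κ γ t x ∧
      Rough (Qf t) r ∧ (x : ℚ) / N = 1 / n1 + r / N'

/-- The final representation of the numerator `x`. -/
def FinAt (h M cap x : ℕ) : Prop :=
  ∀ N, 0 < N → M ∣ N → ∀ Z : Finset ℕ, Z.card ≤ cap → Rep h x N Z

/-- The thresholds `b_i`. -/
noncomputable def thr (κ γ σf : ℝ) : ℕ → ℝ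
  | 0 => σf
  | i + 1 => min (thr κ γ σf i + γ) (thr κ γ σf i / (1 - κ / 4))

/-- The Sylvester numbers `1, 2, 6, 42, …`. -/
def syl : ℕ → ℕ
  | 0 => 1
  | m + 1 => syl m * (syl m + 1)

/-- The number used in the last step: a `k`-element solution with an element divisible by `M`. -/
def SolDvd (k M : ℕ) : Prop :=
  ∃ S : Finset ℕ, S.card = k ∧ (∀ n ∈ S, 0 < n) ∧ (∃ n ∈ S, M ∣ n) ∧ ∑ n ∈ S, (1 : ℚ) / n = 1

end Pool.Agent.Lib.MP_9dd88f_nt.HF
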