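import Mathlib
import Pool.Agent.Lib.MP_9dd88f_nt.HF.Defs

/-!
# Parseval and inversion for the transform of a weight
-/

namespace Pool.Agent.Lib.MP_9dd88f_nt.HF

open Finset Filter

private theorem parsa_conj {x : ℕ} [NeZero x] (χ : DirichletCharacter ℂ x) {r : ℕ}
    (hr : r.Coprime x) :
    (starRingEnd ℂ) (χ (r : ZMod x)) = χ ((r : ZMod x)⁻¹) := by
  have hu : IsUnit (r : ZMod x) := (ZMod.isUnit_iff_coprime r x).mpr hr
  have hne : χ (r : ZMod x) ≠ 0 := (hu.map χ).ne_zero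
  have h1 : ‖χ (r : ZMod x)‖ = 1 := by
    obtain ⟨a, ha⟩ := hu
    rw [← ha]
    exact DirichletCharacter.unit_norm_eq_one χ a
  have h2 : (starRingEnd ℂ) (χ (r : ZMod x)) * χ (r : ZMod x) = 1 := by
    rw [mul_comm, Complex.mul_conj, Complex.normSq_eq_norm_sq, h1]
    norm_num
  have h3 : χ ((r : ZMod x)⁻¹) * χ (r : ZMod x) = 1 := by
    rw [← map_mul, ZMod.inv_mul_of_unit _ hu, map_one]
  exact mul_right_cancel₀ hne (h2.trans h3.symm)

private theorem parsa_orth {x : ℕ} [NeZero x] {a b : ℕ} (ha : a.Coprime x) (hax : a < x)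
    (hbx : b < x) :
    ∑ χ : DirichletCharacter ℂ x, (starRingEnd ℂ) (χ (a : ZMod x)) * χ (b : ZMod x) =
      if a = b then (x.totient : ℂ) else 0 := by
  have hu : IsUnit (a : ZMod x) := (ZMod.isUnit_iff_coprime a x).mpr ha
  have h := DirichletCharacter.sum_char_inv_mul_char_eq ℂ hu (b : ZMod x)
  calc ∑ χ : DirichletCharacter ℂ x, (starRingEnd ℂ) (χ (a : ZMod x)) * χ (b : ZMod x)
      = ∑ χ : DirichletCharacter ℂ x, χ ((a : ZMod x)⁻¹) * χ (b : ZMod x) := by
        refine sum_congr rfl fun χ _ => ?_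
        rw [parsa_conj χ ha]
    _ = if (a : ZMod x) = (b : ZMod x) then (x.totient : ℂ) else 0 := h
    _ = if a = b then (x.totient : ℂ) else 0 := by
        by_cases hab : a = b
        · simp [hab]
        · have : ¬ (a : ZMod x) = (b : ZMod x) := by
            intro h'
            rw [ZMod.natCast_eq_natCast_iff'] at h'
            rw [Nat.mod_eq_of_lt hax, Nat.mod_eq_of_lt hbx] at h'
            exact hab h'
          simp [hab, this]

/-- The key sum: `∑_χ conj f^(χ) χ(r) = f(r) φ(x)`. -/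
private theorem parsa_inv {x : ℕ} (hx : 0 < x) (f : ℕ → ℝ) (hf : ∀ r, f r ≠ 0 → r.Coprime x) (r : ℕ)
    (hr : r < x) : (f r : ℂ) * x.totient =
      ∑ χ : DirichletCharacter ℂ x, (starRingEnd ℂ) (hat x f χ) * χ (r : ZMod x) := by
  have : NeZero x := ⟨hx.ne'⟩
  have h1 : ∑ χ : DirichletCharacter ℂ x, (starRingEnd ℂ) (hat x f χ) * χ (r : ZMod x) =
      ∑ s ∈ range x, (f s : ℂ) *
        ∑ χ : DirichletCharacter ℂ x, (starRingEnd ℂ) (χ (s : ZMod x)) * χ (r : ZMod x) := by
    simp only [hat, map_sum, map_mul, Complex.conj_ofReal, sum_mul, mul_sum]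
    rw [sum_comm]
    refine sum_congr rfl fun s _ => sum_congr rfl fun χ _ => ?_
    ring
  rw [h1]
  have h2 : ∀ s ∈ range x, (f s : ℂ) *
        ∑ χ : DirichletCharacter ℂ x, (starRingEnd ℂ) (χ (s : ZMod x)) * χ (r : ZMod x) =
        if s = r then (f r : ℂ) * x.totient else 0 := by
    intro s hs
    by_cases h0 : f s = 0
    · by_cases hsr : s = r
      · subst hsr
        simp [h0]
      · simp [h0, hsr]
    · rw [parsa_orth (hf s h0) (mem_range.mp hs) hr]
      by_cases hsr : s = r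
      · subst hsr
        simp
      · simp [hsr]
  rw [sum_congr rfl h2, sum_ite_eq' (range x) r]
  simp [hr]

/-- **Job Pars (a).** Parseval for the transform of a weight: `∑_χ |f^(χ)|² = φ(x) ∑ f(r)²`.

Proof. Expand `|f^(χ)|² = ∑_{r,r'} f(r) f(r') χ(r) conj χ(r')`; `conj (χ r') = χ (r'⁻¹)` for a unit `r'` (`MulChar.star_apply`,
`MulChar.inv_apply`, or `‖χ r'‖ = 1`), and `DirichletCharacter.sum_char_inv_mul_char_eq`. Only coprime `r, r' < x` matter, and
`(r : ZMod x) = r'` iff `r = r'`. (For `x = 1`: `range 1 = {0}`, `0` is coprime to `1`: fine.) -/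
theorem parseval_hat {x : ℕ} (hx : 0 < x) (f : ℕ → ℝ) (hf : ∀ r, f r ≠ 0 → r.Coprime x) :
    ∑ χ : DirichletCharacter ℂ x, ‖hat x f χ‖ ^ 2 = x.totient * ∑ r ∈ range x, f r ^ 2 := by
  have : NeZero x := ⟨hx.ne'⟩
  have h1 : ((∑ χ : DirichletCharacter ℂ x, ‖hat x f χ‖ ^ 2 : ℝ) : ℂ) =
      ((x.totient * ∑ r ∈ range x, f r ^ 2 : ℝ) : ℂ) := by
    push_cast
    calc ∑ χ : DirichletCharacter ℂ x, ((‖hat x f χ‖ : ℝ) : ℂ) ^ 2
        = ∑ χ : DirichletCharacter ℂ x, (starRingEnd ℂ) (hat x f χ) * hat x f χ := by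
          refine sum_congr rfl fun χ _ => ?_
          rw [mul_comm, Complex.mul_conj, Complex.normSq_eq_norm_sq]
          push_cast
          rfl
      _ = ∑ χ : DirichletCharacter ℂ x, ∑ r ∈ range x,
            (f r : ℂ) * ((starRingEnd ℂ) (hat x f χ) * χ (r : ZMod x)) := by
          refine sum_congr rfl fun χ _ => ?_
          conv_lhs => rw [show hat x f χ = ∑ r ∈ range x, (f r : ℂ) * χ r from rfl]
          rw [mul_sum]
          refine sum_congr rfl fun r _ => ?_
          rw [show (starRingEnd ℂ) (∑ r ∈ range x, (f r : ℂ) * χ r) =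
            (starRingEnd ℂ) (hat x f χ) from rfl]
          ring
      _ = ∑ r ∈ range x, (f r : ℂ) *
            ∑ χ : DirichletCharacter ℂ x, (starRingEnd ℂ) (hat x f χ) * χ (r : ZMod x) := by
          rw [sum_comm]
          refine sum_congr rfl fun r _ => ?_
          rw [mul_sum]
      _ = ∑ r ∈ range x, (f r : ℂ) * ((f r : ℂ) * x.totient) := by
          refine sum_congr rfl fun r hr => ?_
          rw [← parsa_inv hx f hf r (mem_range.mp hr)]
      _ = (x.totient : ℂ) * ∑ r ∈ range x, (f r : ℂ) ^ 2 := by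
          rw [mul_sum]
          refine sum_congr rfl fun r _ => ?_
          ring
  exact_mod_cast h1

/-- **Job Pars (d).** Inversion: `f(r) = (1/φ(x)) ∑_χ conj f^(χ) χ(r)` for `r < x`.

Proof. `∑_χ (∑_{r'} f(r') conj χ(r')) χ(r) = ∑_{r'} f(r') φ(x) [r' = r]`; for `r` not coprime to `x` both sides are `0`. -/
theorem hat_inv {x : ℕ} (hx : 0 < x) (f : ℕ → ℝ) (hf : ∀ r, f r ≠ 0 → r.Coprime x) (r : ℕ)
    (hr : r < x) : (f r : ℂ) * x.totient =
      ∑ χ : DirichletCharacter ℂ x, (starRingEnd ℂ) (hat x f χ) * χ (r : ZMod x) :=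
  parsa_inv hx f hf r hr

end Pool.Agent.Lib.MP_9dd88f_nt.HF
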