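import Mathlib
import Pool.Agent.Lib.MP_9dd88f_nt.HF.Defs

/-!
# Parseval on the dual side and counting coincidences
-/

namespace Pool.Agent.Lib.MP_9dd88f_nt.HF

open Finset Filter

private theorem parsb_normsq {ι : Type*} (s : Finset ι) (f : ι → ℂ) :
    ((‖∑ i ∈ s, f i‖ ^ 2 : ℝ) : ℂ) = ∑ i ∈ s, ∑ j ∈ s, f i * star (f j) := by
  have h : ((‖∑ i ∈ s, f i‖ ^ 2 : ℝ) : ℂ) = (∑ i ∈ s, f i) * star (∑ i ∈ s, f i) := by
    rw [Complex.ofReal_pow]
    exact (Complex.mul_conj' _).symm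
  rw [h, star_sum, Finset.sum_mul_sum]

private theorem parsb_star {x : ℕ} [NeZero x] (χ : DirichletCharacter ℂ x) {a : ZMod x}
    (ha : IsUnit a) : star (χ a) = χ a⁻¹ := by
  obtain ⟨u, rfl⟩ := ha
  have h1 : χ (u : ZMod x) * χ (u : ZMod x)⁻¹ = 1 := by
    rw [← map_mul, ZMod.mul_inv_of_unit _ u.isUnit, map_one]
  have h2 : χ (u : ZMod x) * star (χ (u : ZMod x)) = 1 := by
    have h3 := Complex.mul_conj' (χ (u : ZMod x))
    rw [DirichletCharacter.unit_norm_eq_one χ u] at h3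
    rw [Complex.star_def, h3]
    norm_num
  have h4 : χ (u : ZMod x) ≠ 0 := by
    intro h0
    rw [h0, zero_mul] at h1
    exact zero_ne_one h1
  exact mul_left_cancel₀ h4 (h2.trans h1.symm)

/-- **Job Pars (b).** Parseval on the dual side: for coefficients `c_χ`,
`∑_{a < x, (a, x) = 1} |∑_χ c_χ χ(a)|² = φ(x) ∑_χ |c_χ|²`.

Proof. Expand; `∑_{a coprime} χ(a) conj χ'(a) = ∑_{a : ZMod x} (χ * χ'⁻¹)(a) = φ(x) [χ = χ']` (`MulChar.sum_eq_zero_of_ne_one`,
`MulChar.sum_one_eq_card_units`, `ZMod.card_units_eq_totient`). -/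
theorem parseval_dual {x : ℕ} (hx : 0 < x) (c : DirichletCharacter ℂ x → ℂ) :
    ∑ a ∈ (range x).filter (fun a => a.Coprime x), ‖∑ χ, c χ * χ (a : ZMod x)‖ ^ 2 =
      x.totient * ∑ χ, ‖c χ‖ ^ 2 := by
  classical
  have : NeZero x := ⟨hx.ne'⟩
  -- the sum over the residues
  have h1 : ∑ a ∈ (range x).filter (fun a => a.Coprime x), ‖∑ χ, c χ * χ (a : ZMod x)‖ ^ 2 =
      ∑ a : ZMod x, ‖∑ χ, c χ * χ a‖ ^ 2 := by
    rw [Finset.sum_filter]
    have h2 : ∀ a ∈ range x, (if a.Coprime x then ‖∑ χ, c χ * χ (a : ZMod x)‖ ^ 2 else 0) =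
        ‖∑ χ, c χ * χ (a : ZMod x)‖ ^ 2 := by
      intro a _
      by_cases ha : a.Coprime x
      · rw [if_pos ha]
      · rw [if_neg ha]
        have h3 : ∀ χ : DirichletCharacter ℂ x, χ (a : ZMod x) = 0 := by
          intro χ
          apply MulChar.map_nonunit
          rwa [ZMod.isUnit_iff_coprime]
        simp [h3]
    rw [Finset.sum_congr rfl h2]
    refine Finset.sum_nbij' (fun a => (a : ZMod x)) ZMod.val ?_ ?_ ?_ ?_ ?_
    · intro a _
      exact Finset.mem_univ _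
    · intro a _
      exact Finset.mem_range.2 (ZMod.val_lt a)
    · intro a ha
      exact ZMod.val_natCast_of_lt (Finset.mem_range.1 ha)
    · intro a _
      exact ZMod.natCast_zmod_val a
    · intro a _
      rfl
  rw [h1]
  apply Complex.ofReal_injective
  rw [Complex.ofReal_sum, Complex.ofReal_mul, Complex.ofReal_natCast, Complex.ofReal_sum]
  have h4 : ∀ a : ZMod x, ((‖∑ χ, c χ * χ a‖ ^ 2 : ℝ) : ℂ) =
      ∑ χ : DirichletCharacter ℂ x, ∑ ψ : DirichletCharacter ℂ x,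
        c χ * star (c ψ) * (χ * ψ⁻¹) a := by
    intro a
    rw [parsb_normsq]
    refine Finset.sum_congr rfl fun χ _ => Finset.sum_congr rfl fun ψ _ => ?_
    rw [star_mul', MulChar.star_apply', MulChar.mul_apply]
    ring
  rw [Finset.sum_congr rfl fun a _ => h4 a, Finset.sum_comm]
  rw [Finset.mul_sum]
  refine Finset.sum_congr rfl fun χ _ => ?_
  rw [Finset.sum_comm]
  have h5 : ∀ ψ : DirichletCharacter ℂ x, ∑ a : ZMod x, c χ * star (c ψ) * (χ * ψ⁻¹) a =
      if ψ = χ then c χ * star (c χ) * (x.totient : ℂ) else 0 := by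
    intro ψ
    rw [← Finset.mul_sum]
    by_cases hψ : ψ = χ
    · subst hψ
      rw [if_pos rfl, mul_inv_cancel, MulChar.sum_one_eq_card_units, ZMod.card_units_eq_totient]
    · rw [if_neg hψ, MulChar.sum_eq_zero_of_ne_one, mul_zero]
      intro h6
      exact hψ (mul_inv_eq_one.1 h6).symm
  rw [Finset.sum_congr rfl fun ψ _ => h5 ψ, Finset.sum_ite_eq' Finset.univ χ, if_pos (Finset.mem_univ _)]
  have h7 : ((‖c χ‖ ^ 2 : ℝ) : ℂ) = c χ * star (c χ) := by
    rw [Complex.ofReal_pow]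
    exact (Complex.mul_conj' _).symm
  rw [h7]
  ring

/-- **Job Pars (c).** Counting coincidences: for a finite family `F : ι → ℕ`,
`∑_χ |∑_i χ(F i)|² = φ(x) #{(i, j) : F i ≡ F j mod x, (F i, x) = (F j, x) = 1}`.

Proof. As (a): expand and use `sum_char_inv_mul_char_eq`; `ZMod.natCast_eq_natCast_iff`. -/
theorem parseval_count {x : ℕ} (hx : 0 < x) {ι : Type*} [Fintype ι] [DecidableEq ι] (G : ι → ℕ) :
    ∑ χ : DirichletCharacter ℂ x, ‖∑ i, χ (G i : ZMod x)‖ ^ 2 =
      x.totient * (((univ : Finset (ι × ι)).filter (fun ij => (G ij.1).Coprime x ∧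
        (G ij.2).Coprime x ∧ G ij.1 ≡ G ij.2 [MOD x])).card : ℝ) := by
  classical
  have : NeZero x := ⟨hx.ne'⟩
  apply Complex.ofReal_injective
  rw [Complex.ofReal_sum, Complex.ofReal_mul, Complex.ofReal_natCast, Complex.ofReal_natCast]
  have h4 : ∀ χ : DirichletCharacter ℂ x, ((‖∑ i, χ (G i : ZMod x)‖ ^ 2 : ℝ) : ℂ) =
      ∑ ij : ι × ι, χ (G ij.1 : ZMod x) * star (χ (G ij.2 : ZMod x)) := by
    intro χ
    rw [parsb_normsq, Fintype.sum_prod_type]
  rw [Finset.sum_congr rfl fun χ _ => h4 χ, Finset.sum_comm]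
  have h5 : ∀ ij : ι × ι, ∑ χ : DirichletCharacter ℂ x,
      χ (G ij.1 : ZMod x) * star (χ (G ij.2 : ZMod x)) =
      if (G ij.1).Coprime x ∧ (G ij.2).Coprime x ∧ G ij.1 ≡ G ij.2 [MOD x]
        then (x.totient : ℂ) else 0 := by
    rintro ⟨i, j⟩
    by_cases hj : (G j).Coprime x
    · have hu : IsUnit ((G j : ℕ) : ZMod x) := (ZMod.isUnit_iff_coprime _ _).2 hj
      have h6 : ∀ χ : DirichletCharacter ℂ x, χ (G i : ZMod x) * star (χ (G j : ZMod x)) =
          χ ((G j : ZMod x))⁻¹ * χ (G i : ZMod x) := by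
        intro χ
        rw [parsb_star χ hu, mul_comm]
      rw [Finset.sum_congr rfl fun χ _ => h6 χ]
      have h7 := DirichletCharacter.sum_char_inv_mul_char_eq ℂ hu (G i : ZMod x)
      rw [h7]
      by_cases hij : ((G j : ℕ) : ZMod x) = ((G i : ℕ) : ZMod x)
      · rw [if_pos hij, if_pos]
        have h8 : (G i).Coprime x := by
          rw [← ZMod.isUnit_iff_coprime, ← hij]
          exact hu
        exact ⟨h8, hj, (ZMod.natCast_eq_natCast_iff _ _ _).1 hij.symm⟩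
      · rw [if_neg hij, if_neg]
        rintro ⟨-, -, h9⟩
        exact hij ((ZMod.natCast_eq_natCast_iff _ _ _).2 h9).symm
    · rw [if_neg fun h9 => hj h9.2.1]
      refine Finset.sum_eq_zero fun χ _ => ?_
      have h10 : χ (G j : ZMod x) = 0 := by
        apply MulChar.map_nonunit
        rwa [ZMod.isUnit_iff_coprime]
      rw [h10, star_zero, mul_zero]
  rw [Finset.sum_congr rfl fun ij _ => h5 ij, ← Finset.sum_filter, Finset.sum_const, nsmul_eq_mul,
    mul_comm]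

end Pool.Agent.Lib.MP_9dd88f_nt.HF
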