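import Mathlib
import Pool.Agent.Lib.MP_9dd88f_nt.HF.ParsA
import Pool.Agent.Lib.MP_9dd88f_nt.HF.ParsB

/-!
# Parseval identities
-/

namespace Pool.Agent.Lib.MP_9dd88f_nt.HF

open Finset Filter



end Pool.Agent.Lib.MP_9dd88f_nt.HF
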