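import Mathlib
import Pool.Agent.Lib.MP_9dd88f_nt.DE.CardProdModEqLe
import Pool.Agent.Lib.MP_9dd88f_nt.HF.Pars

/-!
# The number of bad characters
-/

namespace Pool.Agent.Lib.MP_9dd88f_nt.HF

open Finset Filter

/-- **Job BadCard.** `#bad ≤ 2 m! (Y / (η² |s|))^m` when `x ≤ Y ^ m`.

Proof. For `ψ`: `(∑_{p∈s} ψ(p))^m = ∑_{v ∈ s^m} ψ(∏ v_i)` (`Finset.sum_pow'`/`Finset.prod_univ_sum` with `Fintype.piFinset`), so by
`parseval_count` (index type: the subtype of `Fintype.piFinset (fun _ : Fin m => s)`)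
`∑_ψ |∑_{p∈s} ψ(p)|^(2m) = φ(x) #{(v, v') : ∏v ≡ ∏v', coprime to x} ≤ φ(x) ∑_v #{v' : ∏ v' ≡ ∏ v} ≤ φ(x) |s|^m m! 2 Y^m / x`
by `card_prod_modEq_le` (DE/CardProdModEqLe.lean). Each `ψ ∈ bad x s η` contributes `≥ (η |s|)^(2m)` to the left side, and
`φ(x) ≤ x`. So `#bad * (η|s|)^(2m) ≤ |s|^m m! 2 Y^m`. -/
theorem bad_card_le {x Y m : ℕ} (hx : 0 < x) (s : Finset ℕ) (hs : ∀ p ∈ s, p.Prime ∧ p ≤ Y)
    (hs0 : s.Nonempty) (η : ℝ) (hη : 0 < η) (hxY : x ≤ Y ^ m) :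
    ((bad x s η).card : ℝ) ≤ 2 * m.factorial * ((Y : ℝ) / (η ^ 2 * s.card)) ^ m := by
  classical
  set P : Finset (Fin m → ℕ) := Fintype.piFinset (fun _ : Fin m => s) with hP
  let G : {v // v ∈ P} → ℕ := fun v => ∏ i, v.1 i
  have hpow : ∀ ψ : DirichletCharacter ℂ x, ∑ v : {v // v ∈ P}, ψ ((G v : ℕ) : ZMod x) =
      (∑ p ∈ s, ψ (p : ZMod x)) ^ m := by
    intro ψ
    rw [Finset.sum_pow', ← hP, ← Finset.sum_coe_sort P]
    refine Finset.sum_congr rfl fun v _ => ?_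
    simp only [G]
    rw [Nat.cast_prod, map_prod]
  have hcount := parseval_count hx G
  have hPc : (P.card : ℝ) = (s.card : ℝ) ^ m := by
    rw [hP, Fintype.card_piFinset]
    simp
  have hx0 : (0 : ℝ) < x := by exact_mod_cast hx
  have hsc : (0 : ℝ) < s.card := by exact_mod_cast hs0.card_pos
  have hcard : ((((univ : Finset ({v // v ∈ P} × {v // v ∈ P})).filter (fun ij => (G ij.1).Coprime x ∧
        (G ij.2).Coprime x ∧ G ij.1 ≡ G ij.2 [MOD x])).card : ℕ) : ℝ) ≤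
      (s.card : ℝ) ^ m * (m.factorial * (2 * (Y : ℝ) ^ m / x)) := by
    have h1 : (((univ : Finset ({v // v ∈ P} × {v // v ∈ P})).filter (fun ij => (G ij.1).Coprime x ∧
        (G ij.2).Coprime x ∧ G ij.1 ≡ G ij.2 [MOD x])).card) ≤
        ∑ v : {v // v ∈ P}, (P.filter (fun v' => ∏ i, v' i ≡ G v [MOD x])).card := by
      rw [Finset.card_filter, Fintype.sum_prod_type]
      refine Finset.sum_le_sum fun v _ => ?_
      have h2 : ∑ v' : {v // v ∈ P}, (if (G v).Coprime x ∧ (G v').Coprime x ∧ G v ≡ G v' [MOD x]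
          then 1 else 0) ≤ ((univ : Finset {v // v ∈ P}).filter (fun v' => G v' ≡ G v [MOD x])).card := by
        rw [Finset.card_filter]
        refine Finset.sum_le_sum fun v' _ => ?_
        by_cases h3 : G v' ≡ G v [MOD x]
        · rw [if_pos h3]
          split_ifs <;> simp
        · rw [if_neg h3, if_neg fun h4 => h3 h4.2.2.symm]
      refine h2.trans ?_
      refine Finset.card_le_card_of_injOn (fun v' => v'.1) ?_ ?_
      · intro v' hv'
        rw [Finset.mem_coe, Finset.mem_filter] at hv' ⊢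
        exact ⟨v'.2, hv'.2⟩
      · intro v' _ v'' _ h
        exact Subtype.ext h
    have h2 : ((∑ v : {v // v ∈ P}, (P.filter (fun v' => ∏ i, v' i ≡ G v [MOD x])).card : ℕ) : ℝ) ≤
        (s.card : ℝ) ^ m * (m.factorial * (2 * (Y : ℝ) ^ m / x)) := by
      rw [Nat.cast_sum]
      have h3 : ∀ v ∈ (univ : Finset {v // v ∈ P}),
          (((P.filter (fun v' => ∏ i, v' i ≡ G v [MOD x])).card : ℕ) : ℝ) ≤
            m.factorial * (2 * (Y : ℝ) ^ m / x) := fun v _ =>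
        card_prod_modEq_le m x (G v) Y s hs hx hxY
      refine (Finset.sum_le_sum h3).trans (le_of_eq ?_)
      rw [Finset.sum_const, Finset.card_univ, Fintype.card_coe, nsmul_eq_mul, hPc]
    exact (by exact_mod_cast h1 : _ ≤ _).trans h2
  have hφ : (x.totient : ℝ) ≤ x := by exact_mod_cast Nat.totient_le x
  have hup : ∑ χ : DirichletCharacter ℂ x, ‖∑ i, χ (G i : ZMod x)‖ ^ 2 ≤
      (s.card : ℝ) ^ m * (m.factorial * (2 * (Y : ℝ) ^ m)) := by
    rw [hcount]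
    calc (x.totient : ℝ) * _ ≤ x * ((s.card : ℝ) ^ m * (m.factorial * (2 * (Y : ℝ) ^ m / x))) := by
          refine mul_le_mul hφ hcard (Nat.cast_nonneg _) hx0.le
      _ = _ := by
          field_simp
  have hlow : ((bad x s η).card : ℝ) * (η * s.card) ^ (2 * m) ≤
      ∑ χ : DirichletCharacter ℂ x, ‖∑ i, χ (G i : ZMod x)‖ ^ 2 := by
    have h1 : ∀ χ ∈ bad x s η, (η * s.card) ^ (2 * m) ≤ ‖∑ i, χ (G i : ZMod x)‖ ^ 2 := by
      intro χ hχ
      rw [bad, Finset.mem_filter] at hχ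
      rw [hpow χ, norm_pow, ← pow_mul, mul_comm m 2]
      exact pow_le_pow_left₀ (by positivity) hχ.2.le _
    calc ((bad x s η).card : ℝ) * (η * s.card) ^ (2 * m) = ∑ _χ ∈ bad x s η, (η * s.card) ^ (2 * m) := by
          rw [Finset.sum_const, nsmul_eq_mul]
      _ ≤ ∑ χ ∈ bad x s η, ‖∑ i, χ (G i : ZMod x)‖ ^ 2 := Finset.sum_le_sum h1
      _ ≤ _ := Finset.sum_le_sum_of_subset_of_nonneg (Finset.subset_univ _) fun _ _ _ => by positivity
  have hpos : (0 : ℝ) < (η * s.card) ^ (2 * m) := by positivity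
  have h5 : ((bad x s η).card : ℝ) ≤ (s.card : ℝ) ^ m * (m.factorial * (2 * (Y : ℝ) ^ m)) /
      (η * s.card) ^ (2 * m) := by
    rw [le_div_iff₀ hpos]
    exact hlow.trans hup
  refine h5.trans (le_of_eq ?_)
  rw [div_pow, mul_pow, mul_pow, pow_mul, pow_mul]
  field_simp
  ring

end Pool.Agent.Lib.MP_9dd88f_nt.HF
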