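import Mathlib
import Pool.Agent.Lib.MP_9dd88f_nt.HF.Defs

/-!
# Chebyshev bounds for the pools
-/

namespace Pool.Agent.Lib.MP_9dd88f_nt.HF

open Finset Filter

private theorem primesc_count (A n : ℕ) :
    Nat.primeCounting n ≤ (primesIoc A n).card + A := by
  have h1 : Nat.primeCounting n = ((Finset.range (n + 1)).filter Nat.Prime).card := by
    show Nat.count Nat.Prime (n + 1) = _
    rw [Nat.count_eq_card_filter_range]
  rw [h1]
  have h2 : (Finset.range (n + 1)).filter Nat.Prime ⊆ primesIoc A n ∪ Finset.Ioc 0 A := by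
    intro p hp
    rw [Finset.mem_filter, Finset.mem_range] at hp
    rw [Finset.mem_union, primesIoc, Finset.mem_filter, Finset.mem_Ioc, Finset.mem_Ioc]
    have h3 := hp.2.pos
    rcases Nat.lt_or_ge A p with h | h
    · exact Or.inl ⟨⟨h, by omega⟩, hp.2⟩
    · exact Or.inr ⟨h3, h⟩
  refine (Finset.card_le_card h2).trans ((Finset.card_union_le _ _).trans ?_)
  rw [Nat.card_Ioc, Nat.sub_zero]

/-- **Job PrimesC (a).** `#{p prime : t < p ≤ t^K} ≥ t^(K - κ')` for large `t`.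

Proof. `Chebyshev.pi_ge` (Mathlib; see DE/Pool.lean for its use) gives `π(N) ≥ (N log 2 - log (N+1)) / log N`-type bounds, so
`π(N) ≥ N / (4 log N)` for large `N = ⌊t^K⌋`; `N ≥ t^K / 2`, `log N ≤ K log t`, subtract `t` (`t = o(t^(K-κ'))`, because
`κ' < K - 1`), and `log t = o(t^κ')`. -/
theorem pool_card (K κ' : ℝ) (hK : 1 < K) (hκ : 0 < κ') (hκ' : κ' < K - 1) :
    ∀ᶠ t : ℕ in atTop, (t : ℝ) ^ (K - κ') ≤ ((pool K t).card : ℝ) := by
  have hcast : Tendsto (fun t : ℕ => (t : ℝ)) atTop atTop := tendsto_natCast_atTop_atTop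
  have hxK : Tendsto (fun t : ℕ => (t : ℝ) ^ K) atTop atTop :=
    (tendsto_rpow_atTop (by linarith)).comp hcast
  have e1 : ∀ᶠ x : ℝ in atTop, Real.log (x + 2) ≤ (1 / 16) * (x + 2) := by
    have h := (Real.isLittleO_log_id_atTop.bound (show (0 : ℝ) < 1 / 16 by norm_num))
    have h' : Tendsto (fun x : ℝ => x + 2) atTop atTop :=
      tendsto_atTop_add_const_right _ _ tendsto_id
    filter_upwards [h'.eventually h, eventually_ge_atTop (1 : ℝ)] with x hx hx1
    rw [id_eq, Real.norm_eq_abs, Real.norm_eq_abs, abs_of_pos (show (0 : ℝ) < x + 2 by linarith)]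
      at hx
    exact (le_abs_self _).trans hx
  have e2 : ∀ᶠ t : ℕ in atTop, 4 * K * Real.log t ≤ (t : ℝ) ^ κ' := by
    have h := (isLittleO_log_rpow_atTop hκ).bound (show (0 : ℝ) < 1 / (4 * K) by positivity)
    filter_upwards [hcast.eventually h, eventually_ge_atTop 1] with t ht ht1
    have h1 : (1 : ℝ) ≤ (t : ℝ) := by exact_mod_cast ht1
    have h2 : 0 ≤ (t : ℝ) ^ κ' := Real.rpow_nonneg (by linarith) _
    rw [Real.norm_eq_abs, Real.norm_eq_abs, abs_of_nonneg h2] at ht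
    have h3 := (le_abs_self (Real.log (t : ℝ))).trans ht
    have hK0 : 0 < 4 * K := by linarith
    rw [one_div, inv_mul_eq_div, le_div_iff₀ hK0] at h3
    linarith
  filter_upwards [hxK.eventually e1, e2, hxK.eventually (eventually_ge_atTop (100 : ℝ)),
    eventually_ge_atTop 2] with t h1 h2 h3 h4
  have ht2 : (2 : ℝ) ≤ (t : ℝ) := by exact_mod_cast h4
  have ht0 : (0 : ℝ) < (t : ℝ) := by linarith
  have hlt : 0 < Real.log t := Real.log_pos (by linarith)
  have hx1 : (1 : ℝ) < (t : ℝ) ^ K := by linarith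
  have hlogx : Real.log ((t : ℝ) ^ K) = K * Real.log t := Real.log_rpow ht0 K
  have hlogx0 : 0 < Real.log ((t : ℝ) ^ K) := Real.log_pos hx1
  have hpi := Chebyshev.pi_ge' hx1
  rw [div_le_iff₀ hlogx0, hlogx] at hpi
  have hcnt : ((Nat.primeCounting ⌊(t : ℝ) ^ K⌋₊ : ℕ) : ℝ) ≤ ((pool K t).card : ℝ) + t := by
    have h := primesc_count t ⌊(t : ℝ) ^ K⌋₊
    unfold pool
    exact_mod_cast h
  have hlog2 := Real.log_two_gt_d9
  have hsplit : (t : ℝ) ^ K = (t : ℝ) ^ (K - κ') * (t : ℝ) ^ κ' := by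
    rw [← Real.rpow_add ht0]
    congr 1
    ring
  have hy0 : 0 < (t : ℝ) ^ (K - κ') := Real.rpow_pos_of_pos ht0 _
  have hty : (t : ℝ) ≤ (t : ℝ) ^ (K - κ') := by
    calc (t : ℝ) = (t : ℝ) ^ (1 : ℝ) := (Real.rpow_one _).symm
      _ ≤ (t : ℝ) ^ (K - κ') := Real.rpow_le_rpow_of_exponent_le (by linarith) (by linarith)
  have hKl : 0 < K * Real.log t := by positivity
  have h5 : (1 / 2) * (t : ℝ) ^ K ≤ ((t : ℝ) ^ K - 1) * Real.log 2 -
      Real.log ((t : ℝ) ^ K + 2) := by nlinarith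
  have h6 : (t : ℝ) ^ (K - κ') * (4 * (K * Real.log t)) ≤ (t : ℝ) ^ K := by
    rw [hsplit]
    refine mul_le_mul_of_nonneg_left ?_ hy0.le
    linarith
  have h7 : (2 * (t : ℝ) ^ (K - κ')) * (K * Real.log t) ≤
      (((pool K t).card : ℝ) + t) * (K * Real.log t) := by
    have h8 := mul_le_mul_of_nonneg_right hcnt hKl.le
    linarith
  have h9 := le_of_mul_le_mul_right h7 hKl
  linarith

/-- **Job PrimesC (b).** `#{p prime : t < p ≤ t^20} ≥ t^(19.9)` for large `t` (from (a) or directly). -/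
theorem pool_card_fin : ∀ᶠ t : ℕ in atTop,
    (t : ℝ) ^ (19.9 : ℝ) ≤ ((primesIoc t (t ^ 20)).card : ℝ) := by
  filter_upwards [pool_card 20 (1 / 10) (by norm_num) (by norm_num) (by norm_num)] with t ht
  have h1 : ⌊(t : ℝ) ^ (20 : ℝ)⌋₊ = t ^ 20 := by
    have h2 : (t : ℝ) ^ (20 : ℝ) = ((t ^ 20 : ℕ) : ℝ) := by
      rw [show (20 : ℝ) = ((20 : ℕ) : ℝ) by norm_num, Real.rpow_natCast]
      push_cast
      rfl
    rw [h2, Nat.floor_natCast]
  unfold pool at ht
  rw [h1] at ht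
  have h3 : (20 : ℝ) - 1 / 10 = 19.9 := by norm_num
  rwa [h3] at ht

end Pool.Agent.Lib.MP_9dd88f_nt.HF
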