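import Mathlib
import Pool.Agent.Lib.MP_9dd88f_nt.HF.BadCard
import Pool.Agent.Lib.MP_9dd88f_nt.HF.PrimesC

/-!
# The number of bad characters for the main group
-/

namespace Pool.Agent.Lib.MP_9dd88f_nt.HF

open Finset Filter

/-- **Job BadMain.** For large `t` and all `2^(σf t) ≤ x < 2^(σ1 t)`:
`#bad x (pool K t) (t^(-κ')) ≤ x^(1/K + 3 κ') 2^(c1 t)`.

Proof. `s = pool K t`, `Y = ⌊t^K⌋` (`t^K / 2 ≤ Y ≤ t^K`), `m = ⌈log x / log Y⌉` (so `x ≤ Y^m` and, as `x > 1`, `m ≥ 1`, `Y^(m-1) < x`).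
`m ≤ σ1 t log 2 / log Y + 1`, in particular `m ≤ t` and `2^m ≤ 2^(c2 t)` for any given `c2 > 0` and large `t`.
`bad_card_le`: `#bad ≤ 2 m! (Y / (η² |s|))^m`, `m! ≤ m^m ≤ t^m`, `Y / (η² |s|) ≤ t^K t^(2κ') / t^(K-κ') = t^(3κ')` (`pool_card` with `κ'`;
for this use `κ' < K - 1`). So `#bad ≤ 2 t^(m (1 + 3κ'))`. From `(t^K/2)^(m-1) ≤ Y^(m-1) < x`: `t^(m-1) ≤ (x 2^m)^(1/K)`,
`t^m ≤ t x^(1/K) 2^m`. Hence `#bad ≤ 2 (t 2^m)^(1+3κ') x^((1+3κ')/K) ≤ x^(1/K+3κ') 2^(c1 t)` for large `t` (`K ≥ 1`, `x ≥ 1`). -/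
theorem bad_main (K κ' σf σ1 c1 : ℝ) (hK : 1 < K) (hκ : 0 < κ') (hκ' : κ' < K - 1)
    (hσf : 0 < σf) (hσ : σf < σ1) (hc : 0 < c1) :
    ∀ᶠ t : ℕ in atTop, ∀ x : ℕ, (2 : ℝ) ^ (σf * t) ≤ x → (x : ℝ) < 2 ^ (σ1 * t) →
      ((bad x (pool K t) ((t : ℝ) ^ (-κ'))).card : ℝ) ≤
        (x : ℝ) ^ (1 / K + 3 * κ') * 2 ^ (c1 * t) := by
  set a : ℝ := 1 + 3 * κ' with ha
  have ha0 : 0 < a := by positivity
  set c2 : ℝ := min 1 (c1 / (4 * a)) with hc2
  have hc20 : 0 < c2 := lt_min one_pos (by positivity)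
  have hσ1 : 0 < σ1 := hσf.trans hσ
  obtain ⟨j, hj⟩ := exists_nat_ge (2 * σ1 / c2)
  have hj0 : (0 : ℝ) < j := lt_of_lt_of_le (by positivity) hj
  have hK0 : 0 < K := by linarith
  have htend : Tendsto (fun t : ℕ => (t : ℝ) ^ K) atTop atTop :=
    (tendsto_rpow_atTop hK0).comp tendsto_natCast_atTop_atTop
  have E2 := htend.eventually_ge_atTop ((2 : ℝ) ^ j * 2 + 2)
  have E4 : ∀ᶠ t : ℕ in atTop, 2 * (t : ℝ) ^ a ≤ (2 : ℝ) ^ (c1 / 2 * t) := by
    have h1 := (isLittleO_rpow_exp_pos_mul_atTop a (b := Real.log 2 * (c1 / 2))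
      (mul_pos (Real.log_pos (by norm_num)) (by positivity))).def (c := 1 / 2) (by norm_num)
    have h2 := tendsto_natCast_atTop_atTop.eventually h1
    filter_upwards [h2] with t ht
    rw [Real.norm_of_nonneg (by positivity), Real.norm_of_nonneg (by positivity)] at ht
    have h3 : (2 : ℝ) ^ (c1 / 2 * t) = Real.exp (Real.log 2 * (c1 / 2) * t) := by
      rw [Real.rpow_def_of_pos two_pos]
      ring_nf
    rw [h3]
    linarith
  have E5 := tendsto_natCast_atTop_atTop.eventually_ge_atTop (max 1 (2 / c2))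
  filter_upwards [pool_card K κ' hK hκ hκ', E2, E4, E5] with t h1 h2 h4 h5 x hx1 hx2
  have ht1 : (1 : ℝ) ≤ t := (le_max_left _ _).trans h5
  have ht2 : 2 / c2 ≤ (t : ℝ) := (le_max_right _ _).trans h5
  have ht0 : (0 : ℝ) < t := by linarith
  set T : ℝ := (t : ℝ) ^ K with hT
  have h2j : (1 : ℝ) ≤ 2 ^ j := one_le_pow₀ (by norm_num)
  set Y : ℕ := ⌊T⌋₊ with hYdef
  have hY1 : (Y : ℝ) ≤ T := Nat.floor_le (by linarith)
  have hY2 : T / 2 ≤ Y := by
    have := Nat.sub_one_lt_floor T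
    rw [← hYdef] at this
    linarith
  have hYj : (2 : ℝ) ^ j + 1 ≤ Y := by linarith
  have hYn : 1 < Y := by
    have : (1 : ℝ) < Y := by linarith
    exact_mod_cast this
  have hx1' : (1 : ℝ) < x := by
    refine lt_of_lt_of_le ?_ hx1
    exact Real.one_lt_rpow (by norm_num) (by positivity)
  have hxn : 1 < x := by exact_mod_cast hx1'
  obtain ⟨m', hm'⟩ : ∃ m', Nat.clog Y x = m' + 1 :=
    Nat.exists_eq_add_one.2 (Nat.clog_pos hYn hxn)
  set m : ℕ := m' + 1 with hm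
  have hxm : x ≤ Y ^ m := hm' ▸ Nat.le_pow_clog hYn x
  have hxm' : Y ^ m' < x := by
    have := Nat.pow_pred_clog_lt_self hYn hxn
    rw [hm'] at this
    exact this
  have hxmR : ((Y : ℝ)) ^ m' < x := by exact_mod_cast hxm'
  -- `m ≤ c2 t`
  have hmc : (m : ℝ) ≤ c2 * t := by
    have k1 : ((2 : ℝ) ^ j) ^ m' ≤ (Y : ℝ) ^ m' := pow_le_pow_left₀ (by positivity) (by linarith) _
    have k2 : (2 : ℝ) ^ ((j : ℝ) * m') < 2 ^ (σ1 * t) := by
      calc (2 : ℝ) ^ ((j : ℝ) * m') = ((2 : ℝ) ^ j) ^ m' := by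
            rw [← pow_mul, ← Real.rpow_natCast, Nat.cast_mul]
        _ ≤ (Y : ℝ) ^ m' := k1
        _ < x := hxmR
        _ < _ := hx2
    have k3 : (j : ℝ) * m' < σ1 * t := (Real.rpow_lt_rpow_left_iff (by norm_num)).1 k2
    have k4 : 2 * σ1 ≤ j * c2 := by
      rw [div_le_iff₀ hc20] at hj
      exact hj
    have k5 : (m' : ℝ) ≤ c2 * t / 2 := by
      by_contra hcon
      push Not at hcon
      have : σ1 * t ≤ j * m' := by
        calc σ1 * t = (2 * σ1) * (t / 2) := by ring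
          _ ≤ (j * c2) * (t / 2) := by
              refine mul_le_mul_of_nonneg_right k4 (by positivity)
          _ = j * (c2 * t / 2) := by ring
          _ ≤ j * m' := mul_le_mul_of_nonneg_left hcon.le hj0.le
      linarith
    have k6 : 2 ≤ c2 * t := by
      rw [div_le_iff₀ hc20] at ht2
      linarith
    rw [hm]
    push_cast
    linarith
  have hmt : m ≤ t := by
    have k1 : (m : ℝ) ≤ t := by
      refine hmc.trans ?_
      have : c2 ≤ 1 := min_le_left _ _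
      nlinarith
    exact_mod_cast k1
  -- the bound of the number of bad characters
  have hs : ∀ p ∈ pool K t, p.Prime ∧ p ≤ Y := by
    intro p hp
    unfold pool primesIoc at hp
    rw [Finset.mem_filter, Finset.mem_Ioc] at hp
    exact ⟨hp.2, hp.1.2⟩
  have hcard0 : (0 : ℝ) < ((pool K t).card : ℝ) := lt_of_lt_of_le (by positivity) h1
  have hs0 : (pool K t).Nonempty := Finset.card_pos.1 (by exact_mod_cast hcard0)
  have hη : (0 : ℝ) < (t : ℝ) ^ (-κ') := by positivity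
  have hb := bad_card_le (zero_lt_one.trans hxn) (pool K t) hs hs0 ((t : ℝ) ^ (-κ')) hη hxm
  have hq : (Y : ℝ) / (((t : ℝ) ^ (-κ')) ^ 2 * (pool K t).card) ≤ (t : ℝ) ^ (3 * κ') := by
    rw [div_le_iff₀ (by positivity)]
    calc (Y : ℝ) ≤ T := hY1
      _ = (t : ℝ) ^ (3 * κ') * (((t : ℝ) ^ (-κ')) ^ 2 * (t : ℝ) ^ (K - κ')) := by
          rw [← Real.rpow_natCast ((t : ℝ) ^ (-κ')) 2, ← Real.rpow_mul ht0.le, ← Real.rpow_add ht0,
            ← Real.rpow_add ht0, hT]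
          congr 1
          push_cast
          ring
      _ ≤ _ := by
          refine mul_le_mul_of_nonneg_left ?_ (by positivity)
          exact mul_le_mul_of_nonneg_left h1 (by positivity)
  have hfac : ((m.factorial : ℕ) : ℝ) ≤ (t : ℝ) ^ m := by
    have k1 : m.factorial ≤ m ^ m := Nat.factorial_le_pow m
    have k2 : m ^ m ≤ t ^ m := Nat.pow_le_pow_left hmt m
    exact_mod_cast k1.trans k2
  have hb2 : ((bad x (pool K t) ((t : ℝ) ^ (-κ'))).card : ℝ) ≤ 2 * ((t : ℝ) ^ m) ^ a := by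
    refine hb.trans ?_
    calc 2 * (m.factorial : ℝ) * ((Y : ℝ) / (((t : ℝ) ^ (-κ')) ^ 2 * (pool K t).card)) ^ m
        ≤ 2 * (t : ℝ) ^ m * ((t : ℝ) ^ (3 * κ')) ^ m := by
          refine mul_le_mul ?_ ?_ (by positivity) (by positivity)
          · exact mul_le_mul_of_nonneg_left hfac (by norm_num)
          · exact pow_le_pow_left₀ (by positivity) hq m
      _ = 2 * ((t : ℝ) ^ m) ^ a := by
          rw [mul_assoc, ← mul_pow]
          congr 1
          have e1 : (t : ℝ) * (t : ℝ) ^ (3 * κ') = (t : ℝ) ^ a := by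
            rw [ha, Real.rpow_add ht0, Real.rpow_one]
          rw [e1, ← Real.rpow_natCast, ← Real.rpow_natCast, ← Real.rpow_mul ht0.le,
            ← Real.rpow_mul ht0.le, mul_comm]
  -- `t^m ≤ t 2^m x^(1/K)`
  have htm : (t : ℝ) ^ m ≤ t * 2 ^ m * (x : ℝ) ^ (1 / K) := by
    have k1 : (T / 2) ^ m' ≤ x := (pow_le_pow_left₀ (by positivity) hY2 m').trans hxmR.le
    have k2 : T ^ m' ≤ 2 ^ m * x := by
      rw [div_pow, div_le_iff₀ (by positivity)] at k1
      calc T ^ m' ≤ x * 2 ^ m' := k1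
        _ ≤ x * 2 ^ m := by
            refine mul_le_mul_of_nonneg_left ?_ (by linarith)
            exact pow_le_pow_right₀ (by norm_num) (by omega)
        _ = _ := by ring
    have k3 : ((t : ℝ) ^ m') = (T ^ m') ^ (1 / K) := by
      rw [hT, ← Real.rpow_natCast ((t : ℝ) ^ K) m', ← Real.rpow_mul ht0.le, ← Real.rpow_mul ht0.le,
        ← Real.rpow_natCast]
      congr 1
      field_simp
    have k4 : (T ^ m') ^ (1 / K) ≤ (2 ^ m * (x : ℝ)) ^ (1 / K) :=
      Real.rpow_le_rpow (by positivity) k2 (by positivity)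
    have k5 : (2 ^ m * (x : ℝ)) ^ (1 / K) ≤ 2 ^ m * (x : ℝ) ^ (1 / K) := by
      rw [Real.mul_rpow (by positivity) (by positivity)]
      refine mul_le_mul_of_nonneg_right ?_ (by positivity)
      calc ((2 : ℝ) ^ m) ^ (1 / K) ≤ ((2 : ℝ) ^ m) ^ (1 : ℝ) := by
            refine Real.rpow_le_rpow_of_exponent_le (one_le_pow₀ (by norm_num)) ?_
            rw [div_le_one hK0]
            exact hK.le
        _ = 2 ^ m := Real.rpow_one _
    calc (t : ℝ) ^ m = t * (t : ℝ) ^ m' := by rw [hm]; ring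
      _ ≤ t * (2 ^ m * (x : ℝ) ^ (1 / K)) := by
          refine mul_le_mul_of_nonneg_left ?_ ht0.le
          rw [k3]
          exact k4.trans k5
      _ = _ := by ring
  have hx0 : (0 : ℝ) < x := by linarith
  have hxa : ((x : ℝ) ^ (1 / K)) ^ a ≤ (x : ℝ) ^ (1 / K + 3 * κ') := by
    rw [← Real.rpow_mul hx0.le]
    refine Real.rpow_le_rpow_of_exponent_le hx1'.le ?_
    have k1 : 1 / K * (3 * κ') ≤ 1 * (3 * κ') := by
      refine mul_le_mul_of_nonneg_right ?_ (by positivity)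
      rw [div_le_one hK0]
      exact hK.le
    rw [ha]
    linarith
  have h2m : ((2 : ℝ) ^ m) ^ a ≤ 2 ^ (c1 / 4 * t) := by
    rw [← Real.rpow_natCast, ← Real.rpow_mul (by norm_num)]
    refine Real.rpow_le_rpow_of_exponent_le (by norm_num) ?_
    calc (m : ℝ) * a ≤ (c2 * t) * a := mul_le_mul_of_nonneg_right hmc ha0.le
      _ ≤ (c1 / (4 * a) * t) * a := by
          refine mul_le_mul_of_nonneg_right ?_ ha0.le
          exact mul_le_mul_of_nonneg_right (min_le_right _ _) ht0.le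
      _ = c1 / 4 * t := by field_simp
  have hfin : ((t : ℝ) ^ m) ^ a ≤ (t : ℝ) ^ a * 2 ^ (c1 / 4 * t) * (x : ℝ) ^ (1 / K + 3 * κ') := by
    calc ((t : ℝ) ^ m) ^ a ≤ (t * 2 ^ m * (x : ℝ) ^ (1 / K)) ^ a :=
          Real.rpow_le_rpow (by positivity) htm ha0.le
      _ = (t : ℝ) ^ a * ((2 : ℝ) ^ m) ^ a * ((x : ℝ) ^ (1 / K)) ^ a := by
          rw [Real.mul_rpow (by positivity) (by positivity), Real.mul_rpow (by positivity) (by positivity)]
      _ ≤ _ := by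
          refine mul_le_mul ?_ hxa (by positivity) (by positivity)
          exact mul_le_mul_of_nonneg_left h2m (by positivity)
  have hpow : (2 : ℝ) ^ (c1 / 2 * t) * 2 ^ (c1 / 4 * t) ≤ 2 ^ (c1 * t) := by
    rw [← Real.rpow_add (by norm_num)]
    refine Real.rpow_le_rpow_of_exponent_le (by norm_num) ?_
    have : 0 ≤ c1 * t := by positivity
    linarith
  calc ((bad x (pool K t) ((t : ℝ) ^ (-κ'))).card : ℝ) ≤ 2 * ((t : ℝ) ^ m) ^ a := hb2
    _ ≤ 2 * ((t : ℝ) ^ a * 2 ^ (c1 / 4 * t) * (x : ℝ) ^ (1 / K + 3 * κ')) :=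
        mul_le_mul_of_nonneg_left hfin (by norm_num)
    _ = (x : ℝ) ^ (1 / K + 3 * κ') * ((2 * (t : ℝ) ^ a) * 2 ^ (c1 / 4 * t)) := by ring
    _ ≤ (x : ℝ) ^ (1 / K + 3 * κ') * (2 ^ (c1 / 2 * t) * 2 ^ (c1 / 4 * t)) := by
        refine mul_le_mul_of_nonneg_left ?_ (by positivity)
        exact mul_le_mul_of_nonneg_right h4 (by positivity)
    _ ≤ _ := mul_le_mul_of_nonneg_left hpow (by positivity)

end Pool.Agent.Lib.MP_9dd88f_nt.HF
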