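import Mathlib
import Pool.Agent.Lib.MP_9dd88f_nt.UB.Div
import Pool.Agent.Lib.MP_9dd88f_nt.HF.Defs

/-!
# Subexponential quantities, part 1
-/

namespace Pool.Agent.Lib.MP_9dd88f_nt.HF

open Finset Filter

/-- **Job NumW (a).** `W Q ≤ 4^Q`. Proof. `primorial_le_four_pow` (`W Q = primorial (Q - 1)` for `Q ≥ 1`, `W 0 = 1`), `W Q ≥ 1`. -/
theorem W_le (Q : ℕ) : 1 ≤ W Q ∧ W Q ≤ 4 ^ Q := by
  rcases Q with _ | n
  · simp [W]
  · have h : W (n + 1) = primorial n := rfl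
    rw [h]
    refine ⟨primorial_pos n, (primorial_le_four_pow n).trans ?_⟩
    exact Nat.pow_le_pow_right (by norm_num) (Nat.le_succ n)

private theorem numw_log_tendsto : Tendsto (fun t : ℕ => Real.log (t : ℝ)) atTop atTop :=
  Real.tendsto_log_atTop.comp tendsto_natCast_atTop_atTop

private theorem numw_sqrt_tendsto : Tendsto (fun t : ℕ => √(Real.log (t : ℝ))) atTop atTop :=
  Real.tendsto_sqrt_atTop.comp numw_log_tendsto

/-- **Job NumW (b).** `Qf t = ⌈t / √(log t)⌉ = o(t)`, `Qf t ≥ t^0.9`, `Qf t → ∞`. -/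
theorem Qf_small (c : ℝ) (hc : 0 < c) : ∀ᶠ t : ℕ in atTop, (Qf t : ℝ) ≤ c * t := by
  have h1 := numw_sqrt_tendsto.eventually_ge_atTop (2 / c)
  have h2 := (tendsto_natCast_atTop_atTop (R := ℝ)).eventually_ge_atTop (2 / c)
  filter_upwards [h1, h2] with t ht1 ht2
  have ht0 : (0 : ℝ) ≤ t := Nat.cast_nonneg t
  have hs : 0 < 2 / c := by positivity
  have hs' : 0 < √(Real.log (t : ℝ)) := lt_of_lt_of_le hs ht1
  have h3 : (t : ℝ) / √(Real.log t) ≤ c / 2 * t := by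
    rw [div_le_iff₀ hs']
    have h4 : c / 2 * (2 / c) = 1 := by field_simp
    have h5 : 1 ≤ c / 2 * √(Real.log (t : ℝ)) := by
      rw [← h4]
      exact mul_le_mul_of_nonneg_left ht1 (by positivity)
    nlinarith [mul_le_mul_of_nonneg_left h5 ht0]
  have h6 : (1 : ℝ) ≤ c / 2 * t := by
    have h4 : c / 2 * (2 / c) = 1 := by field_simp
    rw [← h4]
    exact mul_le_mul_of_nonneg_left ht2 (by positivity)
  have h7 : (Qf t : ℝ) < (t : ℝ) / √(Real.log t) + 1 := by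
    rw [Qf]
    exact Nat.ceil_lt_add_one (by positivity)
  linarith

theorem Qf_large : ∀ᶠ t : ℕ in atTop, (t : ℝ) ^ (0.9 : ℝ) ≤ Qf t := by
  have h1 : ∀ᶠ x : ℝ in atTop, Real.log x ≤ x ^ (0.2 : ℝ) := by
    have h := (isLittleO_log_rpow_atTop (r := (0.2 : ℝ)) (by norm_num)).bound (c := 1) one_pos
    filter_upwards [h, eventually_ge_atTop (1 : ℝ)] with x hx hx1
    rw [one_mul, Real.norm_of_nonneg (Real.log_nonneg hx1),
      Real.norm_of_nonneg (Real.rpow_nonneg (by linarith) _)] at hx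
    exact hx
  have h2 := (tendsto_natCast_atTop_atTop (R := ℝ)).eventually h1
  have h3 := numw_log_tendsto.eventually_gt_atTop 0
  filter_upwards [h2, h3, eventually_ge_atTop 1] with t ht hlog ht1
  have ht0 : (0 : ℝ) < t := by exact_mod_cast ht1
  have hs' : 0 < √(Real.log (t : ℝ)) := Real.sqrt_pos.mpr hlog
  have h4 : √(Real.log (t : ℝ)) ≤ (t : ℝ) ^ (0.1 : ℝ) := by
    rw [Real.sqrt_le_left (by positivity)]
    calc Real.log (t : ℝ) ≤ (t : ℝ) ^ (0.2 : ℝ) := ht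
      _ = ((t : ℝ) ^ (0.1 : ℝ)) ^ 2 := by
        rw [← Real.rpow_natCast, ← Real.rpow_mul ht0.le]
        norm_num
  have h5 : (t : ℝ) ^ (0.9 : ℝ) ≤ (t : ℝ) / √(Real.log t) := by
    rw [le_div_iff₀ hs']
    calc (t : ℝ) ^ (0.9 : ℝ) * √(Real.log (t : ℝ)) ≤ (t : ℝ) ^ (0.9 : ℝ) * (t : ℝ) ^ (0.1 : ℝ) :=
          mul_le_mul_of_nonneg_left h4 (by positivity)
      _ = (t : ℝ) := by
        rw [← Real.rpow_add ht0]
        norm_num
  exact h5.trans (Nat.le_ceil _)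

theorem Qf_ge (n : ℕ) : ∀ᶠ t : ℕ in atTop, n ≤ Qf t := by
  have h1 : Tendsto (fun t : ℕ => (t : ℝ) ^ (0.9 : ℝ)) atTop atTop :=
    (tendsto_rpow_atTop (by norm_num)).comp tendsto_natCast_atTop_atTop
  filter_upwards [Qf_large, h1.eventually_ge_atTop (n : ℝ)] with t ht hn
  exact_mod_cast hn.trans ht

private theorem numw_four_pow (n : ℕ) : ((4 : ℝ)) ^ n = (2 : ℝ) ^ (2 * (n : ℝ)) := by
  rw [Real.rpow_mul (by norm_num), Real.rpow_natCast]
  norm_num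

/-- **Job NumW (c).** `W(Qf t) ≤ 2^(ct)` for large `t`: from (a), (b). -/
theorem W_small (c : ℝ) (hc : 0 < c) : ∀ᶠ t : ℕ in atTop, (W (Qf t) : ℝ) ≤ 2 ^ (c * t) := by
  filter_upwards [Qf_small (c / 2) (by positivity)] with t ht
  have h1 : (W (Qf t) : ℝ) ≤ (4 : ℝ) ^ (Qf t) := by exact_mod_cast (W_le (Qf t)).2
  rw [numw_four_pow] at h1
  refine h1.trans (Real.rpow_le_rpow_of_exponent_le (by norm_num) ?_)
  linarith

private theorem numw_const_le (A c : ℝ) (hc : 0 < c) :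
    ∀ᶠ t : ℕ in atTop, A ≤ (2 : ℝ) ^ (c * t) := by
  have h1 : Tendsto (fun t : ℕ => (2 : ℝ) ^ (c * (t : ℝ))) atTop atTop := by
    have h2 : Tendsto (fun x : ℝ => (2 : ℝ) ^ (c * x)) atTop atTop :=
      (tendsto_rpow_atTop_of_base_gt_one 2 (by norm_num)).comp
        (tendsto_id.const_mul_atTop hc)
    exact h2.comp tendsto_natCast_atTop_atTop
  exact h1.eventually_ge_atTop A

private theorem numw_self_le (c : ℝ) (hc : 0 < c) :
    ∀ᶠ t : ℕ in atTop, (t : ℝ) ≤ (2 : ℝ) ^ (c * t) := by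
  have hb : 0 < Real.log 2 * c := mul_pos (Real.log_pos (by norm_num)) hc
  have h := (isLittleO_rpow_exp_pos_mul_atTop 1 hb).bound (c := 1) one_pos
  have h2 := (tendsto_natCast_atTop_atTop (R := ℝ)).eventually h
  filter_upwards [h2] with t ht
  rw [Real.rpow_one, one_mul, Real.norm_of_nonneg (Nat.cast_nonneg t),
    Real.norm_of_nonneg (Real.exp_pos _).le] at ht
  rw [Real.rpow_def_of_pos (by norm_num)]
  rw [show Real.log 2 * (c * (t : ℝ)) = Real.log 2 * c * t by ring]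
  exact ht

/-- **Job NumW (d).** `d(x) ≤ 2^(ct)` for all `0 < x < 2^(σ1 t)`, `t` large.

Proof. `UB.divisor_bound` with `δ = c / (2 σ1)`: `d(x) ≤ C x^δ ≤ C 2^(c t / 2) ≤ 2^(c t)`. -/
theorem div_small (σ1 c : ℝ) (hσ : 0 < σ1) (hc : 0 < c) : ∀ᶠ t : ℕ in atTop, ∀ x : ℕ, 0 < x →
    (x : ℝ) < 2 ^ (σ1 * t) → (x.divisors.card : ℝ) ≤ 2 ^ (c * t) := by
  obtain ⟨C, hC1, hC⟩ := UB.divisor_bound (c / (2 * σ1)) (by positivity)
  filter_upwards [numw_const_le C (c / 2) (by positivity)] with t ht x hx hx2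
  have hx0 : (0 : ℝ) ≤ x := Nat.cast_nonneg x
  have h1 : (x : ℝ) ^ (c / (2 * σ1)) ≤ (2 : ℝ) ^ (c / 2 * t) := by
    calc (x : ℝ) ^ (c / (2 * σ1)) ≤ ((2 : ℝ) ^ (σ1 * t)) ^ (c / (2 * σ1)) :=
          Real.rpow_le_rpow hx0 hx2.le (by positivity)
      _ = (2 : ℝ) ^ (c / 2 * t) := by
          rw [← Real.rpow_mul (by norm_num)]
          refine congrArg (fun z : ℝ => (2 : ℝ) ^ z) ?_
          field_simp
  calc (x.divisors.card : ℝ) ≤ C * (x : ℝ) ^ (c / (2 * σ1)) := hC x hx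
    _ ≤ (2 : ℝ) ^ (c / 2 * t) * (2 : ℝ) ^ (c / 2 * t) :=
        mul_le_mul ht h1 (by positivity) (by positivity)
    _ = (2 : ℝ) ^ (c * t) := by
        rw [← Real.rpow_add (by norm_num)]
        refine congrArg (fun z : ℝ => (2 : ℝ) ^ z) ?_
        ring

/-- **Job NumW (e).** The parameters of the weight are admissible: for large `t`, all `2^(σf t) ≤ x < 2^(σ1 t)` and
`X = ⌈nxt κ γ t x⌉` one has `X ≤ x`, `1 ≤ Qf t`, `1024 W Q ≤ X` with `W = W (Qf t)`, `Q = Qf t`.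

Proof. `nxt ≤ x` because `2^(-γt) ≤ 1` and `x^(1-κ/4) ≤ x` (`x ≥ 1`), so `⌈nxt⌉ ≤ x`. `X ≥ x^(1-κ/4) ≥ 2^(σf t / 2)` (`κ ≤ 1`),
and `1024 W Q ≤ 2^(σf t / 2)` by (b), (c). -/
theorem weight_cond (κ γ σf σ1 : ℝ) (hκ : 0 < κ) (hκ1 : κ ≤ 1) (hγ : 0 < γ) (hσf : 0 < σf)
    (hσ : σf < σ1) : ∀ᶠ t : ℕ in atTop, ∀ x : ℕ, (2 : ℝ) ^ (σf * t) ≤ x →
      (x : ℝ) < 2 ^ (σ1 * t) → ⌈nxt κ γ t x⌉₊ ≤ x ∧ 1 ≤ Qf t ∧
        1024 * W (Qf t) * Qf t ≤ ⌈nxt κ γ t x⌉₊ := by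
  have hc8 : 0 < σf / 8 := by positivity
  filter_upwards [W_small (σf / 8) hc8, Qf_small 1 one_pos, Qf_ge 1, numw_self_le (σf / 8) hc8,
    numw_const_le 1024 (σf / 8) hc8] with t hW hQ hQ1 ht hA x hx1 hx2
  have ht0 : (0 : ℝ) ≤ t := Nat.cast_nonneg t
  have hx1' : (1 : ℝ) ≤ x := le_trans (Real.one_le_rpow (by norm_num) (by positivity)) hx1
  have hx0 : (0 : ℝ) ≤ x := by linarith
  refine ⟨?_, hQ1, ?_⟩
  · rw [Nat.ceil_le, nxt, max_le_iff]
    constructor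
    · have h1 : (2 : ℝ) ^ (-(γ * t)) ≤ 1 :=
        Real.rpow_le_one_of_one_le_of_nonpos (by norm_num) (by
          have : 0 ≤ γ * t := by positivity
          linarith)
      calc (x : ℝ) * 2 ^ (-(γ * t)) ≤ x * 1 := mul_le_mul_of_nonneg_left h1 hx0
        _ = x := mul_one _
    · calc (x : ℝ) ^ (1 - κ / 4) ≤ (x : ℝ) ^ (1 : ℝ) :=
            Real.rpow_le_rpow_of_exponent_le hx1' (by linarith)
        _ = x := Real.rpow_one _
  · have h1 : (2 : ℝ) ^ (σf * t / 2) ≤ nxt κ γ t x := by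
      rw [nxt]
      refine le_trans ?_ (le_max_right _ _)
      calc (2 : ℝ) ^ (σf * t / 2) = ((2 : ℝ) ^ (σf * t)) ^ (1 / 2 : ℝ) := by
            rw [← Real.rpow_mul (by norm_num)]
            refine congrArg (fun z : ℝ => (2 : ℝ) ^ z) ?_
            ring
        _ ≤ (x : ℝ) ^ (1 / 2 : ℝ) := Real.rpow_le_rpow (by positivity) hx1 (by norm_num)
        _ ≤ (x : ℝ) ^ (1 - κ / 4) := Real.rpow_le_rpow_of_exponent_le hx1' (by linarith)
    have h2 : (1024 : ℝ) * W (Qf t) * Qf t ≤ (2 : ℝ) ^ (σf * t / 2) := by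
      have hQ' : (Qf t : ℝ) ≤ (2 : ℝ) ^ (σf / 8 * t) := by
        refine le_trans ?_ ht
        linarith
      calc (1024 : ℝ) * W (Qf t) * Qf t
          ≤ (2 : ℝ) ^ (σf / 8 * t) * (2 : ℝ) ^ (σf / 8 * t) * (2 : ℝ) ^ (σf / 8 * t) :=
            mul_le_mul (mul_le_mul hA hW (by positivity) (by positivity)) hQ' (by positivity)
              (by positivity)
        _ = (2 : ℝ) ^ (3 * σf / 8 * t) := by
            rw [← Real.rpow_add (by norm_num), ← Real.rpow_add (by norm_num)]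
            refine congrArg (fun z : ℝ => (2 : ℝ) ^ z) ?_
            ring
        _ ≤ (2 : ℝ) ^ (σf * t / 2) := by
            refine Real.rpow_le_rpow_of_exponent_le (by norm_num) ?_
            nlinarith [mul_nonneg hσf.le ht0]
    have h3 : ((1024 * W (Qf t) * Qf t : ℕ) : ℝ) ≤ (⌈nxt κ γ t x⌉₊ : ℝ) := by
      push_cast
      exact (h2.trans h1).trans (Nat.le_ceil _)
    exact_mod_cast h3

end Pool.Agent.Lib.MP_9dd88f_nt.HF
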