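import Mathlib
import Pool.Agent.Lib.MP_9dd88f_nt.HF.BadMain
import Pool.Agent.Lib.MP_9dd88f_nt.HF.NumW
import Pool.Agent.Lib.MP_9dd88f_nt.HF.ParsA

/-!
# Proposition A: the initial weights
-/

namespace Pool.Agent.Lib.MP_9dd88f_nt.HF

open Finset Filter

open Classical in
/-- The weight of a nonprincipal character. -/
noncomputable def w0 (x : ℕ) (f : ℕ → ℝ) (χ : DirichletCharacter ℂ x) : ℝ :=
  if χ = 1 then 0 else ‖hat x f χ‖ ^ 2 / (∑ r ∈ range x, f r) ^ 2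

private theorem axa_w0_le {x : ℕ} (f : ℕ → ℝ) (χ : DirichletCharacter ℂ x) :
    w0 x f χ ≤ ‖hat x f χ‖ ^ 2 / (∑ r ∈ range x, f r) ^ 2 := by
  unfold w0
  split_ifs
  · positivity
  · exact le_rfl

private theorem axa_const (c : ℝ) (hc : 0 < c) : ∀ᶠ t : ℕ in atTop, (256 : ℝ) ≤ 2 ^ (c * t) := by
  have h2 := (tendsto_natCast_atTop_atTop (R := ℝ)).eventually_ge_atTop (8 / c)
  filter_upwards [h2] with t ht
  have h3 : 8 ≤ c * t := by
    rw [div_le_iff₀ hc] at ht; linarith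
  calc (256 : ℝ) = (2 : ℝ) ^ (8 : ℝ) := by norm_num
    _ ≤ _ := Real.rpow_le_rpow_of_exponent_le (by norm_num) h3

/-- **Job AxA (a).** The total initial weight is at most `2^((γ + c2) t)`.

Proof. `F = ∑ f ≥ X / (256 W) > 0`, `X ≥ nxt ≥ x 2^(-γt)`. By `parseval_hat` and `f² ≤ f`:
`∑ w0 ≤ φ(x) ∑ f² / F² ≤ x / F ≤ 256 W x / X ≤ 256 W 2^(γ t) ≤ 2^((γ+c2) t)` (`W_small`). -/
theorem w0_sum (κ γ σf σ1 c2 : ℝ) (hκ : 0 < κ) (hκ1 : κ ≤ 1) (hγ : 0 < γ) (hσf : 0 < σf)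
    (hσ : σf < σ1) (hc2 : 0 < c2) : ∀ᶠ t : ℕ in atTop, ∀ x : ℕ, (2 : ℝ) ^ (σf * t) ≤ x →
      (x : ℝ) < 2 ^ (σ1 * t) → ∀ f, IsWeight x (Qf t) ⌈nxt κ γ t x⌉₊ f →
        ∑ χ : DirichletCharacter ℂ x, w0 x f χ ≤ 2 ^ ((γ + c2) * t) := by
  filter_upwards [W_small (c2 / 2) (by positivity), axa_const (c2 / 2) (by positivity)] with
    t hW h256
  intro x hx1 hx2 f hf
  have hx0 : (0 : ℝ) < x := lt_of_lt_of_le (by positivity) hx1
  have hxN : 0 < x := by exact_mod_cast hx0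
  have hW1 : (1 : ℝ) ≤ W (Qf t) := by exact_mod_cast (W_le (Qf t)).1
  have hW0 : (0 : ℝ) < W (Qf t) := by linarith
  set F : ℝ := ∑ r ∈ range x, f r with hF
  have hX : (x : ℝ) * 2 ^ (-(γ * t)) ≤ (⌈nxt κ γ t x⌉₊ : ℝ) :=
    le_trans (le_max_left _ _) (Nat.le_ceil _)
  have hmass := hf.mass
  rw [← hF] at hmass
  have hFge : (x : ℝ) * 2 ^ (-(γ * t)) / (256 * W (Qf t)) ≤ F :=
    le_trans (div_le_div_of_nonneg_right hX (by positivity)) hmass
  have hFpos : 0 < F := lt_of_lt_of_le (by positivity) hFge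
  have hpars := parseval_hat hxN f (fun r hr => (hf.supp r hr).2.1)
  have hsq : ∑ r ∈ range x, f r ^ 2 ≤ F := by
    rw [hF]
    apply Finset.sum_le_sum
    intro r _
    have h0 := hf.nonneg r
    have h1 := hf.le_one r
    nlinarith
  have htot : (x.totient : ℝ) ≤ x := by exact_mod_cast Nat.totient_le x
  calc ∑ χ : DirichletCharacter ℂ x, w0 x f χ
      ≤ ∑ χ : DirichletCharacter ℂ x, ‖hat x f χ‖ ^ 2 / F ^ 2 :=
        Finset.sum_le_sum (fun χ _ => axa_w0_le f χ)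
    _ = (x.totient * ∑ r ∈ range x, f r ^ 2) / F ^ 2 := by rw [← hpars, Finset.sum_div]
    _ ≤ (x * F) / F ^ 2 := by
        apply div_le_div_of_nonneg_right _ (by positivity)
        exact mul_le_mul htot hsq (Finset.sum_nonneg (fun r _ => by positivity)) hx0.le
    _ = x / F := by field_simp
    _ ≤ x / ((x : ℝ) * 2 ^ (-(γ * t)) / (256 * W (Qf t))) :=
        div_le_div_of_nonneg_left hx0.le (by positivity) hFge
    _ = 256 * W (Qf t) * 2 ^ (γ * t) := by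
        rw [Real.rpow_neg (by norm_num)]
        field_simp
    _ ≤ 2 ^ (c2 / 2 * t) * 2 ^ (c2 / 2 * t) * 2 ^ (γ * t) := by
        apply mul_le_mul_of_nonneg_right _ (by positivity)
        exact mul_le_mul h256 hW hW0.le (by positivity)
    _ = 2 ^ ((γ + c2) * t) := by
        rw [← Real.rpow_add (by norm_num), ← Real.rpow_add (by norm_num)]
        congr 1; ring

/-- **Job AxA (b).** The maximal weight times the number of bad characters is at most `x^(-κ/4) 2^(c2 t)`.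

Proof. `w0 χ ≤ x d(x)² / F² ≤ x d(x)² (256 W)² / X²` (`hat_le`), and `X ≥ x^(1 - κ/4)`: `w0 χ ≤ x^(-1+κ/2) d(x)² (256 W)²`. Put
`wm = x^(-1+κ/2) 2^(c2 t / 2)` (`div_small`, `W_small`). By `bad_main` with `κ' = κ/16`, `κ = 1 - 1/K`, `c1 = c2/2` the product is
`≤ x^(-1+κ/2+1/K+3κ/16) 2^(c2 t) = x^(-5κ/16) 2^(c2 t) ≤ x^(-κ/4) 2^(c2 t)` (`x ≥ 1`). (`κ/16 < K - 1` since `κ = (K-1)/K`.) -/
theorem w0_bad (K γ σf σ1 c2 : ℝ) (hK : 1 < K) (hK2 : K ≤ 2) (hγ : 0 < γ) (hσf : 0 < σf)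
    (hσ : σf < σ1) (hc2 : 0 < c2) : ∀ᶠ t : ℕ in atTop, ∀ x : ℕ, (2 : ℝ) ^ (σf * t) ≤ x →
      (x : ℝ) < 2 ^ (σ1 * t) → ∀ f, IsWeight x (Qf t) ⌈nxt (1 - 1 / K) γ t x⌉₊ f →
        ∃ wm : ℝ, 0 ≤ wm ∧ (∀ χ : DirichletCharacter ℂ x, w0 x f χ ≤ wm) ∧
          wm * ((bad x (pool K t) ((t : ℝ) ^ (-((1 - 1 / K) / 16)))).card : ℝ) ≤
            (x : ℝ) ^ (-((1 - 1 / K) / 4)) * 2 ^ (c2 * t) := by
  have hK0 : 0 < K := by linarith
  have hκ : 0 < 1 - 1 / K := by
    have : 1 / K < 1 := by rw [div_lt_one hK0]; exact hK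
    linarith
  have hκK : (1 - 1 / K) / 16 < K - 1 := by
    have h1 : 1 - 1 / K = (K - 1) / K := by field_simp
    have h2 : (K - 1) / K ≤ K - 1 := div_le_self (by linarith) hK.le
    rw [h1]; linarith
  filter_upwards [W_small (c2 / 16) (by positivity), axa_const (c2 / 16) (by positivity),
    div_small σ1 (c2 / 16) (by linarith) (by positivity),
    bad_main K ((1 - 1 / K) / 16) σf σ1 (c2 / 2) hK (by positivity) hκK hσf hσ (by positivity)]
    with t hW h256 hdiv hbad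
  intro x hx1 hx2 f hf
  have hbad := hbad x hx1 hx2
  have hx0 : (0 : ℝ) < x := lt_of_lt_of_le (by positivity) hx1
  have hxN : 0 < x := by exact_mod_cast hx0
  have hxge : (1 : ℝ) ≤ x := by exact_mod_cast hxN
  have hdiv := hdiv x hxN hx2
  have hW1 : (1 : ℝ) ≤ W (Qf t) := by exact_mod_cast (W_le (Qf t)).1
  have hW0 : (0 : ℝ) < W (Qf t) := by linarith
  have hKκ : 1 / K = 1 - (1 - 1 / K) := by ring
  generalize hb : ((bad x (pool K t) ((t : ℝ) ^ (-((1 - 1 / K) / 16)))).card : ℝ) = b at hbad ⊢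
  rw [hKκ] at hbad
  rw [show 1 - (1 - (1 - 1 / K)) = 1 - 1 / K by ring] at hbad
  generalize 1 - 1 / K = κ at *
  set F : ℝ := ∑ r ∈ range x, f r with hF
  have hX : (x : ℝ) ^ (1 - κ / 4) ≤ (⌈nxt κ γ t x⌉₊ : ℝ) :=
    le_trans (le_max_right _ _) (Nat.le_ceil _)
  have hmass := hf.mass
  rw [← hF] at hmass
  have hFge : (x : ℝ) ^ (1 - κ / 4) / (256 * W (Qf t)) ≤ F :=
    le_trans (div_le_div_of_nonneg_right hX (by positivity)) hmass
  have hFpos : 0 < F := lt_of_lt_of_le (by positivity) hFge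
  refine ⟨(x : ℝ) ^ (-1 + κ / 2) * 2 ^ (c2 / 2 * t), by positivity, ?_, ?_⟩
  · intro χ
    by_cases hχ : χ = 1
    · have : w0 x f χ = 0 := by simp [w0, hχ]
      rw [this]; positivity
    refine le_trans (axa_w0_le f χ) ?_
    rw [← hF]
    have hh := hf.hat_le χ hχ
    have hd0 : (0 : ℝ) ≤ x.divisors.card := Nat.cast_nonneg _
    have hsq : ‖hat x f χ‖ ^ 2 ≤ x * (x.divisors.card : ℝ) ^ 2 := by
      calc ‖hat x f χ‖ ^ 2 ≤ (√x * x.divisors.card) ^ 2 :=
            pow_le_pow_left₀ (norm_nonneg _) hh 2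
        _ = x * (x.divisors.card : ℝ) ^ 2 := by
            rw [mul_pow, Real.sq_sqrt hx0.le]
    have hxp : (0 : ℝ) < (x : ℝ) ^ (1 - κ / 4) := by positivity
    calc ‖hat x f χ‖ ^ 2 / F ^ 2
        ≤ (x * (x.divisors.card : ℝ) ^ 2) / ((x : ℝ) ^ (1 - κ / 4) / (256 * W (Qf t))) ^ 2 := by
          apply div_le_div₀ (by positivity) hsq (by positivity)
          exact pow_le_pow_left₀ (by positivity) hFge 2
      _ = (x / ((x : ℝ) ^ (1 - κ / 4)) ^ 2) * ((x.divisors.card : ℝ) * (256 * W (Qf t))) ^ 2 := by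
          field_simp
      _ = (x : ℝ) ^ (-1 + κ / 2) * ((x.divisors.card : ℝ) * (256 * W (Qf t))) ^ 2 := by
          congr 1
          rw [← Real.rpow_natCast, ← Real.rpow_mul hx0.le]
          nth_rw 1 [← Real.rpow_one (x : ℝ)]
          rw [← Real.rpow_sub hx0]
          congr 1; push_cast; ring
      _ ≤ (x : ℝ) ^ (-1 + κ / 2) * 2 ^ (c2 / 2 * t) := by
          apply mul_le_mul_of_nonneg_left _ (by positivity)
          have h1 : (x.divisors.card : ℝ) * (256 * W (Qf t)) ≤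
              2 ^ (c2 / 16 * t) * (2 ^ (c2 / 16 * t) * 2 ^ (c2 / 16 * t)) := by
            apply mul_le_mul hdiv _ (by positivity) (by positivity)
            exact mul_le_mul h256 hW hW0.le (by positivity)
          rw [← Real.rpow_add (by norm_num), ← Real.rpow_add (by norm_num)] at h1
          calc ((x.divisors.card : ℝ) * (256 * W (Qf t))) ^ 2
              ≤ ((2 : ℝ) ^ (c2 / 16 * t + (c2 / 16 * t + c2 / 16 * t))) ^ 2 :=
                pow_le_pow_left₀ (by positivity) h1 2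
            _ = (2 : ℝ) ^ ((c2 / 16 * t + (c2 / 16 * t + c2 / 16 * t)) * 2) := by
                rw [← Real.rpow_natCast, ← Real.rpow_mul (by norm_num)]
                norm_num
            _ ≤ _ := by
                apply Real.rpow_le_rpow_of_exponent_le (by norm_num)
                have : 0 ≤ c2 * t := by positivity
                nlinarith
  · calc (x : ℝ) ^ (-1 + κ / 2) * 2 ^ (c2 / 2 * t) * b
        ≤ (x : ℝ) ^ (-1 + κ / 2) * 2 ^ (c2 / 2 * t) *
            ((x : ℝ) ^ (1 - κ + 3 * (κ / 16)) * 2 ^ (c2 / 2 * t)) :=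
          mul_le_mul_of_nonneg_left hbad (by positivity)
      _ = ((x : ℝ) ^ (-1 + κ / 2) * (x : ℝ) ^ (1 - κ + 3 * (κ / 16))) *
            (2 ^ (c2 / 2 * t) * 2 ^ (c2 / 2 * t)) := by ring
      _ = (x : ℝ) ^ (-(5 * κ / 16)) * 2 ^ (c2 * t) := by
          rw [← Real.rpow_add hx0, ← Real.rpow_add (by norm_num)]
          congr 1
          · congr 1; ring
          · congr 1; ring
      _ ≤ (x : ℝ) ^ (-(κ / 4)) * 2 ^ (c2 * t) := by
          apply mul_le_mul_of_nonneg_right _ (by positivity)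
          apply Real.rpow_le_rpow_of_exponent_le hxge
          linarith

end Pool.Agent.Lib.MP_9dd88f_nt.HF
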