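import Mathlib
import Pool.Agent.Lib.MP_9dd88f_nt.HF.Defs

/-!
# The effect of one random prime on a weight over the characters
-/

namespace Pool.Agent.Lib.MP_9dd88f_nt.HF

open Finset Filter

private theorem stepc_fac_le {x : ℕ} (χ : DirichletCharacter ℂ x) (p : ℕ) :
    fac χ p ≤ (1 + (χ p).re) / 2 := by
  have h1 : ‖χ (p : ZMod x)‖ ≤ 1 := χ.norm_le_one _
  have h2 : ‖1 + χ (p : ZMod x)‖ ^ 2 = 1 + 2 * (χ (p : ZMod x)).re + ‖χ (p : ZMod x)‖ ^ 2 := by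
    rw [← Complex.normSq_eq_norm_sq, ← Complex.normSq_eq_norm_sq, Complex.normSq_apply,
      Complex.normSq_apply]
    simp only [Complex.add_re, Complex.one_re, Complex.add_im, Complex.one_im]
    ring
  have h3 : ‖χ (p : ZMod x)‖ ^ 2 ≤ 1 := by
    have := norm_nonneg (χ (p : ZMod x))
    nlinarith
  unfold fac
  rw [h2]
  linarith

private theorem stepc_conj {x : ℕ} (χ : DirichletCharacter ℂ x) (a : ZMod x) :
    (starRingEnd ℂ) (χ a) = χ⁻¹ a := by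
  by_cases ha : IsUnit a
  · obtain ⟨u, rfl⟩ := ha
    have h1 : ‖χ (u : ZMod x)‖ = 1 := χ.unit_norm_eq_one u
    rw [MulChar.inv_apply_eq_inv, Ring.inverse_eq_inv', Complex.inv_def]
    rw [Complex.normSq_eq_norm_sq, h1]
    simp
  · rw [χ.map_nonunit ha, MulChar.map_nonunit _ ha, map_zero]

private theorem stepc_row {x : ℕ} (s : Finset ℕ) (w : DirichletCharacter ℂ x → ℝ) (wm η b : ℝ)
    (hw0 : ∀ χ, 0 ≤ w χ) (hwm : ∀ χ, w χ ≤ wm) (hb : ((bad x s η).card : ℝ) ≤ b) (hη : 0 ≤ η)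
    (χ' : DirichletCharacter ℂ x) :
    ∑ χ, w χ * ‖∑ p ∈ s, (χ * χ'⁻¹) (p : ZMod x)‖ ≤ s.card * (η * ∑ χ, w χ + wm * b) := by
  classical
  have hwm0 : 0 ≤ wm := (hw0 1).trans (hwm 1)
  have hcs : (0 : ℝ) ≤ s.card := by positivity
  have hre : ∑ χ, w χ * ‖∑ p ∈ s, (χ * χ'⁻¹) (p : ZMod x)‖ =
      ∑ ψ, w (ψ * χ') * ‖∑ p ∈ s, ψ (p : ZMod x)‖ := by
    rw [← Equiv.sum_comp (Equiv.mulRight χ')]
    refine Finset.sum_congr rfl fun ψ _ => ?_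
    simp [mul_assoc]
  have hre2 : ∑ ψ, w (ψ * χ') = ∑ χ, w χ := Equiv.sum_comp (Equiv.mulRight χ') w
  rw [hre]
  have hterm : ∀ ψ : DirichletCharacter ℂ x, w (ψ * χ') * ‖∑ p ∈ s, ψ (p : ZMod x)‖ ≤
      w (ψ * χ') * (η * s.card) + (if ψ ∈ bad x s η then wm * s.card else 0) := by
    intro ψ
    have hn : ‖∑ p ∈ s, ψ (p : ZMod x)‖ ≤ s.card := by
      refine (norm_sum_le _ _).trans ?_
      refine (Finset.sum_le_sum fun p _ => ψ.norm_le_one _).trans ?_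
      simp
    by_cases hψ : ψ ∈ bad x s η
    · rw [if_pos hψ]
      have h1 : w (ψ * χ') * ‖∑ p ∈ s, ψ (p : ZMod x)‖ ≤ wm * s.card :=
        mul_le_mul (hwm _) hn (norm_nonneg _) hwm0
      have h2 : 0 ≤ w (ψ * χ') * (η * s.card) := mul_nonneg (hw0 _) (mul_nonneg hη hcs)
      linarith
    · rw [if_neg hψ, add_zero]
      have h3 : ‖∑ p ∈ s, ψ (p : ZMod x)‖ ≤ η * s.card := by
        by_contra hc
        exact hψ (by simpa [bad] using not_le.1 hc)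
      exact mul_le_mul_of_nonneg_left h3 (hw0 _)
  refine (Finset.sum_le_sum fun ψ _ => hterm ψ).trans ?_
  rw [Finset.sum_add_distrib, ← Finset.sum_mul, hre2, ← Finset.sum_filter,
    Finset.sum_const, nsmul_eq_mul]
  have hf : ((univ : Finset (DirichletCharacter ℂ x)).filter (fun ψ => ψ ∈ bad x s η)).card =
      (bad x s η).card := by
    congr 1
    ext ψ
    simp
  rw [hf]
  have h4 : ((bad x s η).card : ℝ) * (wm * s.card) ≤ b * (wm * s.card) :=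
    mul_le_mul_of_nonneg_right hb (mul_nonneg hwm0 hcs)
  nlinarith [h4]

private theorem stepc_second {x : ℕ} (s : Finset ℕ) (w : DirichletCharacter ℂ x → ℝ) (wm η b : ℝ)
    (hw0 : ∀ χ, 0 ≤ w χ) (hwm : ∀ χ, w χ ≤ wm) (hb : ((bad x s η).card : ℝ) ≤ b) (hη : 0 ≤ η) :
    ∑ p ∈ s, ‖∑ χ, (w χ : ℂ) * χ (p : ZMod x)‖ ^ 2 ≤
      (∑ χ, w χ) * (s.card * (η * ∑ χ, w χ + wm * b)) := by
  classical
  have h1 : ((∑ p ∈ s, ‖∑ χ, (w χ : ℂ) * χ (p : ZMod x)‖ ^ 2 : ℝ) : ℂ) =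
      ∑ χ', (w χ' : ℂ) * ∑ χ, (w χ : ℂ) * ∑ p ∈ s, (χ * χ'⁻¹) (p : ZMod x) := by
    push_cast
    have h2 : ∀ p : ℕ, ((‖∑ χ, (w χ : ℂ) * χ (p : ZMod x)‖ : ℝ) : ℂ) ^ 2 =
        ∑ χ', ∑ χ, (w χ' : ℂ) * ((w χ : ℂ) * (χ * χ'⁻¹) (p : ZMod x)) := by
      intro p
      rw [← Complex.mul_conj', map_sum, mul_comm, Finset.sum_mul]
      refine Finset.sum_congr rfl fun χ' _ => ?_
      rw [Finset.mul_sum]
      refine Finset.sum_congr rfl fun χ _ => ?_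
      rw [map_mul, Complex.conj_ofReal, stepc_conj, MulChar.mul_apply]
      ring
    simp only [h2]
    rw [Finset.sum_comm]
    refine Finset.sum_congr rfl fun χ' _ => ?_
    rw [Finset.sum_comm, Finset.mul_sum]
    refine Finset.sum_congr rfl fun χ _ => ?_
    rw [Finset.mul_sum, Finset.mul_sum]
  have h0 : (0 : ℝ) ≤ ∑ p ∈ s, ‖∑ χ, (w χ : ℂ) * χ (p : ZMod x)‖ ^ 2 :=
    Finset.sum_nonneg fun p _ => by positivity
  calc ∑ p ∈ s, ‖∑ χ, (w χ : ℂ) * χ (p : ZMod x)‖ ^ 2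
      = ‖((∑ p ∈ s, ‖∑ χ, (w χ : ℂ) * χ (p : ZMod x)‖ ^ 2 : ℝ) : ℂ)‖ := by
        rw [Complex.norm_real, Real.norm_of_nonneg h0]
    _ ≤ ∑ χ', w χ' * (s.card * (η * ∑ χ, w χ + wm * b)) := by
        rw [h1]
        refine (norm_sum_le _ _).trans (Finset.sum_le_sum fun χ' _ => ?_)
        rw [norm_mul, Complex.norm_real, Real.norm_of_nonneg (hw0 χ')]
        refine mul_le_mul_of_nonneg_left ?_ (hw0 χ')
        refine le_trans ?_ (stepc_row s w wm η b hw0 hwm hb hη χ')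
        refine (norm_sum_le _ _).trans (Finset.sum_le_sum fun χ _ => ?_)
        rw [norm_mul, Complex.norm_real, Real.norm_of_nonneg (hw0 χ)]
    _ = (∑ χ, w χ) * (s.card * (η * ∑ χ, w χ + wm * b)) := by
        rw [Finset.sum_mul]

/-- **Job StepC.** Few primes `p ∈ s` fail to (almost) halve the total weight.

Proof. Put `Z = ∑ w`, `T(p) = ∑_χ w(χ) χ(p)`. For every `p`: `fac χ p = (1 + |χ(p)|² + 2 Re χ(p)) / 4 ≤ (1 + Re χ(p)) / 2`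
(`‖χ p‖ ≤ 1`: `DirichletCharacter.norm_le_one`), so `∑ w(χ) fac χ p ≤ (Z + Re T(p)) / 2 ≤ (Z + ‖T(p)‖)/2`. So a `p` in the filter
has `‖T(p)‖ > δ Z`. Second moment:
`∑_{p∈s} ‖T(p)‖² = ∑_{χ,χ'} w(χ) w(χ') ∑_{p∈s} χ(p) conj χ'(p) ≤ ∑_{χ,χ'} w(χ) w(χ') ‖∑_{p∈s} (χ * χ'⁻¹)(p)‖`
(`conj χ'(p) = χ'⁻¹(p)`, both `0` on non-units). The inner norm is `≤ η |s|` if `χ χ'⁻¹ ∉ bad x s η` and `≤ |s|` otherwise; for fixed `χ'`
the map `χ ↦ χ χ'⁻¹` is a bijection, so `∑_{χ : χχ'⁻¹ bad} w(χ) ≤ wm b`. Total `≤ |s| (η Z² + wm b Z)`. Chebyshev's inequality: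
`#{p : ‖T(p)‖ > δ Z} ≤ |s| (η Z² + wm b Z) / (δ² Z²) = |s| (η + wm b / Z) / δ²`. -/
theorem step_card {x : ℕ} (s : Finset ℕ) (w : DirichletCharacter ℂ x → ℝ) (wm η δ b : ℝ)
    (hw0 : ∀ χ, 0 ≤ w χ) (hwm : ∀ χ, w χ ≤ wm) (hb : ((bad x s η).card : ℝ) ≤ b) (hδ : 0 < δ)
    (hη : 0 ≤ η) (hZ : 0 < ∑ χ, w χ) :
    ((s.filter (fun p => (1 + δ) / 2 * ∑ χ, w χ < ∑ χ, w χ * fac χ p)).card : ℝ) ≤
      s.card * ((η + wm * b / ∑ χ, w χ) / δ ^ 2) := by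
  classical
  set Z := ∑ χ, w χ with hZdef
  have hhalf : ∀ p : ℕ, ∑ χ, w χ * fac χ p ≤ (Z + ‖∑ χ, (w χ : ℂ) * χ (p : ZMod x)‖) / 2 := by
    intro p
    have h1 : ∑ χ, w χ * fac χ p ≤ ∑ χ, w χ * ((1 + (χ (p : ZMod x)).re) / 2) :=
      Finset.sum_le_sum fun χ _ => mul_le_mul_of_nonneg_left (stepc_fac_le χ p) (hw0 χ)
    have h2 : ∑ χ, w χ * ((1 + (χ (p : ZMod x)).re) / 2) =
        (Z + (∑ χ, (w χ : ℂ) * χ (p : ZMod x)).re) / 2 := by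
      rw [Complex.re_sum, hZdef, ← Finset.sum_add_distrib, Finset.sum_div]
      refine Finset.sum_congr rfl fun χ _ => ?_
      rw [Complex.re_ofReal_mul]
      ring
    have h3 := Complex.re_le_norm (∑ χ, (w χ : ℂ) * χ (p : ZMod x))
    linarith
  have hsec := stepc_second s w wm η b hw0 hwm hb hη
  rw [← hZdef] at hsec
  set F := s.filter (fun p => (1 + δ) / 2 * Z < ∑ χ, w χ * fac χ p) with hF
  have hmem : ∀ p ∈ F, (δ * Z) ^ 2 ≤ ‖∑ χ, (w χ : ℂ) * χ (p : ZMod x)‖ ^ 2 := by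
    intro p hp
    rw [hF, Finset.mem_filter] at hp
    have h1 := hhalf p
    have h2 : δ * Z ≤ ‖∑ χ, (w χ : ℂ) * χ (p : ZMod x)‖ := by linarith [hp.2]
    have h3 : 0 ≤ δ * Z := by positivity
    gcongr
  have hsum : (F.card : ℝ) * (δ * Z) ^ 2 ≤ Z * (s.card * (η * Z + wm * b)) := by
    calc (F.card : ℝ) * (δ * Z) ^ 2 = ∑ p ∈ F, (δ * Z) ^ 2 := by
          rw [Finset.sum_const, nsmul_eq_mul]
      _ ≤ ∑ p ∈ F, ‖∑ χ, (w χ : ℂ) * χ (p : ZMod x)‖ ^ 2 := Finset.sum_le_sum hmem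
      _ ≤ ∑ p ∈ s, ‖∑ χ, (w χ : ℂ) * χ (p : ZMod x)‖ ^ 2 :=
          Finset.sum_le_sum_of_subset_of_nonneg (Finset.filter_subset _ _)
            fun p _ _ => by positivity
      _ ≤ _ := hsec
  have hpos : 0 < (δ * Z) ^ 2 := by positivity
  calc (F.card : ℝ) ≤ Z * (s.card * (η * Z + wm * b)) / (δ * Z) ^ 2 := by
        rw [le_div_iff₀ hpos]; exact hsum
    _ = s.card * ((η + wm * b / Z) / δ ^ 2) := by
        field_simp

end Pool.Agent.Lib.MP_9dd88f_nt.HF
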