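import Mathlib
import Pool.Agent.Lib.MP_9dd88f_nt.HF.StepC

/-!
# The process: a linear number of failures is needed
-/

namespace Pool.Agent.Lib.MP_9dd88f_nt.HF

open Finset Filter

private theorem process_fac_nonneg {x : ℕ} (χ : DirichletCharacter ℂ x) (p : ℕ) : 0 ≤ fac χ p := by
  unfold fac
  positivity

private theorem process_fac_le_one {x : ℕ} (χ : DirichletCharacter ℂ x) (p : ℕ) :
    fac χ p ≤ 1 := by
  unfold fac
  have h1 : ‖χ p‖ ≤ 1 := DirichletCharacter.norm_le_one χ _
  have h2 : ‖1 + χ p‖ ≤ 2 := by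
    calc ‖1 + χ p‖ ≤ ‖(1 : ℂ)‖ + ‖χ p‖ := norm_add_le _ _
      _ ≤ 1 + 1 := by rw [norm_one]; linarith
      _ = 2 := by norm_num
  have h3 : 0 ≤ ‖1 + χ p‖ := norm_nonneg _
  nlinarith

private theorem process_prod_le_one {x n : ℕ} (χ : DirichletCharacter ℂ x) (p : Fin n → ℕ) :
    ∏ i, fac χ (p i) ≤ 1 :=
  Finset.prod_le_one (fun _ _ => process_fac_nonneg χ _) (fun _ _ => process_fac_le_one χ _)

/-- **Job Process.** If `z^(n-m) Z(w) ≤ Zm` (`z = (1+δ)/2`) then at most `2^n β^m |s|^n` tuples of primes leave a weight `> Zm`.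

Proof. Induction on `n`, for all `m ≤ n` and all `w` with `0 ≤ w ≤ wm`. Note `0 ≤ fac χ p ≤ 1`, so weights only decrease.
`m = 0`: the count is `≤ |s|^n ≤ 2^n |s|^n` (`Fintype.card_piFinset`). So let `m ≥ 1`, hence `n ≥ 1`.
If `∑ w ≤ Zm`, the filter is empty (`∑ w ∏ fac ≤ ∑ w`). Else `∑ w > Zm > 0`. Split a tuple as `(p, p')` with `p` the first entry
(`Fin.consEquiv`/`Fin.insertNthEquiv`, `Fin.prod_univ_succ`; `Fintype.piFinset` over `Fin (n+1)` is in bijection with `s ×ˢ piFinset` over `Fin n`):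
the weight after `p` is `w' χ = w χ * fac χ p`, again in `[0, wm]`.
Call `p` bad if `∑ w' > z ∑ w`; by `step_card` there are at most `|s| (η + wm b / ∑ w)/δ² ≤ |s| β` bad `p` (`∑ w > Zm`).
For bad `p` use the induction hypothesis with `(n-1, m-1)`: `z^((n-1)-(m-1)) ∑ w' ≤ z^(n-m) ∑ w ≤ Zm`: at most `2^(n-1) β^(m-1) |s|^(n-1)` tuples `p'`.
For the other `p`: `m ≤ n - 1` (if `m = n` then `∑ w = z^0 ∑ w ≤ Zm`, excluded), `z^((n-1)-m) ∑ w' ≤ z^(n-m) ∑ w ≤ Zm`: at most
`2^(n-1) β^m |s|^(n-1)`. Total `≤ |s| β 2^(n-1) β^(m-1) |s|^(n-1) + |s| 2^(n-1) β^m |s|^(n-1) = 2^n β^m |s|^n`. -/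
theorem process {x : ℕ} (s : Finset ℕ) (wm η δ b Zm β : ℝ) (hb : ((bad x s η).card : ℝ) ≤ b)
    (hδ : 0 < δ) (hη : 0 ≤ η) (hZm : 0 < Zm) (hwm : 0 ≤ wm)
    (hβ : (η + wm * b / Zm) / δ ^ 2 ≤ β) (n : ℕ) :
    ∀ m, m ≤ n → ∀ w : DirichletCharacter ℂ x → ℝ, (∀ χ, 0 ≤ w χ) → (∀ χ, w χ ≤ wm) →
      ((1 + δ) / 2) ^ (n - m) * ∑ χ, w χ ≤ Zm →
      (((Fintype.piFinset (fun _ : Fin n => s)).filter
        (fun p => Zm < ∑ χ, w χ * ∏ i, fac χ (p i))).card : ℝ) ≤ 2 ^ n * β ^ m * s.card ^ n := by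
  classical
  have hb0 : 0 ≤ b := le_trans (Nat.cast_nonneg _) hb
  have hβ0 : 0 ≤ β := by
    refine le_trans ?_ hβ
    positivity
  set z : ℝ := (1 + δ) / 2 with hz
  have hz0 : 0 < z := by
    rw [hz]
    positivity
  -- the trivial bound
  have htriv : ∀ (n : ℕ) (w : DirichletCharacter ℂ x → ℝ),
      (((Fintype.piFinset (fun _ : Fin n => s)).filter
        (fun p => Zm < ∑ χ, w χ * ∏ i, fac χ (p i))).card : ℝ) ≤ 2 ^ n * β ^ 0 * s.card ^ n := by
    intro n w
    have h1 : ((Fintype.piFinset (fun _ : Fin n => s)).filter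
        (fun p => Zm < ∑ χ, w χ * ∏ i, fac χ (p i))).card ≤ s.card ^ n := by
      refine le_trans (Finset.card_filter_le _ _) ?_
      rw [Fintype.card_piFinset]
      simp
    have h2 : (((Fintype.piFinset (fun _ : Fin n => s)).filter
        (fun p => Zm < ∑ χ, w χ * ∏ i, fac χ (p i))).card : ℝ) ≤ (s.card : ℝ) ^ n := by
      exact_mod_cast h1
    have h3 : (1 : ℝ) ≤ 2 ^ n := one_le_pow₀ (by norm_num)
    have h4 : (0 : ℝ) ≤ (s.card : ℝ) ^ n := by positivity
    rw [pow_zero, mul_one]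
    nlinarith
  induction n with
  | zero =>
    intro m hm w _ _ _
    obtain rfl : m = 0 := by omega
    exact htriv 0 w
  | succ n ih =>
    intro m hm w hw0 hw1 hw
    rcases m with _ | m
    · exact htriv (n + 1) w
    -- the filter is empty if the weight is already small
    by_cases hZ : ∑ χ, w χ ≤ Zm
    · have hempty : (Fintype.piFinset (fun _ : Fin (n + 1) => s)).filter
          (fun p => Zm < ∑ χ, w χ * ∏ i, fac χ (p i)) = ∅ := by
        rw [Finset.filter_eq_empty_iff]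
        intro p _
        rw [not_lt]
        refine le_trans (Finset.sum_le_sum fun χ _ => ?_) hZ
        exact mul_le_of_le_one_right (hw0 χ) (process_prod_le_one χ p)
      rw [hempty, Finset.card_empty, Nat.cast_zero]
      positivity
    push Not at hZ
    have hZ0 : 0 < ∑ χ, w χ := lt_trans hZm hZ
    set B := s.filter (fun p => z * ∑ χ, w χ < ∑ χ, w χ * fac χ p) with hB
    have hBcard : (B.card : ℝ) ≤ s.card * β := by
      have h1 := step_card s w wm η δ b hw0 hw1 hb hδ hη hZ0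
      refine le_trans h1 ?_
      refine mul_le_mul_of_nonneg_left (le_trans ?_ hβ) (Nat.cast_nonneg _)
      have h2 : wm * b / ∑ χ, w χ ≤ wm * b / Zm :=
        div_le_div_of_nonneg_left (mul_nonneg hwm hb0) hZm hZ.le
      have h3 : (0 : ℝ) < δ ^ 2 := by positivity
      exact div_le_div_of_nonneg_right (by linarith) h3.le
    -- the weights after the first prime
    have hwq0 : ∀ q χ, 0 ≤ w χ * fac χ q := fun q χ => mul_nonneg (hw0 χ) (process_fac_nonneg χ q)
    have hwqle : ∀ q χ, w χ * fac χ q ≤ w χ := fun q χ =>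
      mul_le_of_le_one_right (hw0 χ) (process_fac_le_one χ q)
    have hwq1 : ∀ q χ, w χ * fac χ q ≤ wm := fun q χ => le_trans (hwqle q χ) (hw1 χ)
    set cnt : ℕ → ℕ := fun q => ((Fintype.piFinset (fun _ : Fin n => s)).filter
        (fun p => Zm < ∑ χ, (w χ * fac χ q) * ∏ i, fac χ (p i))).card with hcnt
    -- splitting
    have hsplit : ((Fintype.piFinset (fun _ : Fin (n + 1) => s)).filter
        (fun p => Zm < ∑ χ, w χ * ∏ i, fac χ (p i))).card ≤ ∑ q ∈ s, cnt q := by
      rw [Finset.card_eq_sum_card_fiberwise (f := fun p : Fin (n + 1) → ℕ => p 0) (t := s)]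
      · refine Finset.sum_le_sum fun q _ => ?_
        refine Finset.card_le_card_of_injOn (fun p i => p (Fin.succ i)) ?_ ?_
        · intro p hp
          simp only [Finset.coe_filter, Finset.mem_filter, Fintype.mem_piFinset,
            Set.mem_ofPred_eq] at hp ⊢
          obtain ⟨⟨hp1, hp2⟩, hp3⟩ := hp
          refine ⟨fun i => hp1 _, ?_⟩
          refine lt_of_lt_of_eq hp2 (Finset.sum_congr rfl fun χ _ => ?_)
          rw [Fin.prod_univ_succ, hp3, mul_assoc]
        · intro p hp p' hp' h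
          simp only [Finset.coe_filter, Finset.mem_filter, Set.mem_ofPred_eq] at hp hp'
          funext i
          refine Fin.cases ?_ (fun i' => ?_) i
          · rw [hp.2, hp'.2]
          · exact congrFun h i'
      · intro p hp
        simp only [Finset.coe_filter, Fintype.mem_piFinset, Set.mem_ofPred_eq] at hp
        exact hp.1 0
    -- the two cases
    have hbad : ∀ q ∈ s, q ∈ B → (cnt q : ℝ) ≤ 2 ^ n * β ^ m * s.card ^ n := by
      intro q _ _
      refine ih m (by omega) (fun χ => w χ * fac χ q) (hwq0 q) (hwq1 q) ?_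
      refine le_trans ?_ hw
      have h1 : n + 1 - (m + 1) = n - m := by omega
      rw [h1]
      exact mul_le_mul_of_nonneg_left (Finset.sum_le_sum fun χ _ => hwqle q χ) (by positivity)
    have hgood : ∀ q ∈ s, q ∉ B → (cnt q : ℝ) ≤ 2 ^ n * β ^ (m + 1) * s.card ^ n := by
      intro q hq hqB
      have hmn : m + 1 ≤ n := by
        by_contra hcon
        have h1 : n + 1 - (m + 1) = 0 := by omega
        rw [h1, pow_zero, one_mul] at hw
        exact absurd hw (not_le.mpr hZ)
      refine ih (m + 1) hmn (fun χ => w χ * fac χ q) (hwq0 q) (hwq1 q) ?_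
      refine le_trans ?_ hw
      have h1 : n + 1 - (m + 1) = (n - (m + 1)) + 1 := by omega
      rw [h1, pow_succ, mul_assoc]
      refine mul_le_mul_of_nonneg_left ?_ (by positivity)
      rw [hB, Finset.mem_filter, not_and, not_lt] at hqB
      exact hqB hq
    -- the total
    have hsum : ((∑ q ∈ s, cnt q : ℕ) : ℝ) ≤ B.card * (2 ^ n * β ^ m * s.card ^ n) +
        s.card * (2 ^ n * β ^ (m + 1) * s.card ^ n) := by
      push_cast
      have h1 : ∀ q ∈ s, (cnt q : ℝ) ≤ (if q ∈ B then (2 ^ n * β ^ m * (s.card : ℝ) ^ n) else 0) +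
          2 ^ n * β ^ (m + 1) * (s.card : ℝ) ^ n := by
        intro q hq
        by_cases hqB : q ∈ B
        · rw [if_pos hqB]
          have h2 := hbad q hq hqB
          have h3 : 0 ≤ 2 ^ n * β ^ (m + 1) * (s.card : ℝ) ^ n := by positivity
          linarith
        · rw [if_neg hqB, zero_add]
          exact hgood q hq hqB
      refine le_trans (Finset.sum_le_sum h1) ?_
      rw [Finset.sum_add_distrib, ← Finset.sum_filter, Finset.sum_const, Finset.sum_const,
        nsmul_eq_mul, nsmul_eq_mul]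
      have h4 : (s.filter (fun q => q ∈ B)).card ≤ B.card := by
        refine Finset.card_le_card ?_
        intro q hq
        exact (Finset.mem_filter.mp hq).2
      have h5 : ((s.filter (fun q => q ∈ B)).card : ℝ) ≤ B.card := by exact_mod_cast h4
      have h6 : 0 ≤ 2 ^ n * β ^ m * (s.card : ℝ) ^ n := by positivity
      nlinarith
    have hfin : (((Fintype.piFinset (fun _ : Fin (n + 1) => s)).filter
        (fun p => Zm < ∑ χ, w χ * ∏ i, fac χ (p i))).card : ℝ) ≤ ((∑ q ∈ s, cnt q : ℕ) : ℝ) := by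
      exact_mod_cast hsplit
    refine le_trans hfin (le_trans hsum ?_)
    have h6 : 0 ≤ 2 ^ n * β ^ m * (s.card : ℝ) ^ n := by positivity
    have h7 : (B.card : ℝ) * (2 ^ n * β ^ m * s.card ^ n) ≤
        (s.card * β) * (2 ^ n * β ^ m * s.card ^ n) := mul_le_mul_of_nonneg_right hBcard h6
    have h8 : (s.card * β) * (2 ^ n * β ^ m * s.card ^ n) +
        s.card * (2 ^ n * β ^ (m + 1) * s.card ^ n) =
        2 ^ (n + 1) * β ^ (m + 1) * (s.card : ℝ) ^ (n + 1) := by ring
    linarith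

end Pool.Agent.Lib.MP_9dd88f_nt.HF
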