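import Mathlib
import Pool.Agent.Lib.MP_9dd88f_nt.HF.AxA
import Pool.Agent.Lib.MP_9dd88f_nt.HF.Process

/-!
# Proposition A for one numerator
-/

namespace Pool.Agent.Lib.MP_9dd88f_nt.HF

open Finset Filter

private theorem axb_Xi_eq {x : ℕ} (f : ℕ → ℝ) {t : ℕ} (p : Fin t → ℕ) :
    Xi x f p = ∑ χ : DirichletCharacter ℂ x, w0 x f χ * ∏ i, fac χ (p i) := by
  classical
  unfold Xi
  have h : ∑ χ : DirichletCharacter ℂ x, w0 x f χ * ∏ i, fac χ (p i) =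
      ∑ χ ∈ (univ : Finset (DirichletCharacter ℂ x)).erase 1, w0 x f χ * ∏ i, fac χ (p i) := by
    symm
    apply Finset.sum_erase
    simp [w0]
  rw [h]
  have h2 : ∑ χ ∈ (univ : Finset (DirichletCharacter ℂ x)).erase 1,
      w0 x f χ * ∏ i, fac χ (p i) = ∑ χ ∈ (univ : Finset (DirichletCharacter ℂ x)).erase 1,
      ‖hat x f χ‖ ^ 2 / (∑ r ∈ range x, f r) ^ 2 * ∏ i, fac χ (p i) := by
    apply Finset.sum_congr rfl
    intro χ hχ
    have : χ ≠ 1 := Finset.ne_of_mem_erase hχ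
    simp [w0, this]
  rw [h2]

private theorem axb_w0_nonneg {x : ℕ} (f : ℕ → ℝ) (χ : DirichletCharacter ℂ x) :
    0 ≤ w0 x f χ := by
  unfold w0
  split_ifs
  · exact le_rfl
  · positivity

/-- the bound for the base -/
private theorem axb_base (δ : ℝ) (hδ : 0 ≤ δ) : (1 + δ) / 2 ≤ (2 : ℝ) ^ (1.45 * δ - 1) := by
  have h1 : 1 + δ ≤ Real.exp δ := by linarith [Real.add_one_le_exp δ]
  have h2 : Real.exp δ ≤ (2 : ℝ) ^ (1.45 * δ) := by
    rw [Real.rpow_def_of_pos (by norm_num)]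
    apply Real.exp_le_exp.mpr
    have : 0.6931471803 < Real.log 2 := Real.log_two_gt_d9
    nlinarith
  rw [Real.rpow_sub (by norm_num), Real.rpow_one]
  linarith

/-- (E5) -/
private theorem axb_proc (γ c : ℝ) (hγ : 0 < γ) (hγ1 : γ < 1) (hc : 0 < c)
    (hc1 : c ≤ (1 - γ) / 8) (t : ℕ) :
    ((1 + (1 - γ) / 8) / 2) ^ (t - ⌊(1 - γ) * t / 8⌋₊) * (2 : ℝ) ^ ((γ + c / 2) * t) ≤
      2 ^ (-(c * t)) := by
  set e := 1 - γ with he
  have he0 : 0 < e := by rw [he]; linarith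
  have he1 : e < 1 := by rw [he]; linarith
  have ht0 : (0 : ℝ) ≤ t := Nat.cast_nonneg t
  set m := ⌊e * t / 8⌋₊ with hm
  have hmle : (m : ℝ) ≤ e * t / 8 := Nat.floor_le (by positivity)
  have hmt : m ≤ t := by
    have : (m : ℝ) ≤ t := by nlinarith
    exact_mod_cast this
  have hsub : ((t - m : ℕ) : ℝ) = t - m := by push_cast [Nat.cast_sub hmt]; ring
  have hpos : (0 : ℝ) < (1 + e / 8) / 2 := by positivity
  have h1 : ((1 + e / 8) / 2) ^ (t - m) ≤ (2 : ℝ) ^ ((1.45 * (e / 8) - 1) * ((t - m : ℕ) : ℝ)) := by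
    rw [Real.rpow_mul (by norm_num), Real.rpow_natCast]
    exact pow_le_pow_left₀ hpos.le (axb_base (e / 8) (by positivity)) _
  have h2 : (2 : ℝ) ^ ((1.45 * (e / 8) - 1) * ((t - m : ℕ) : ℝ)) * 2 ^ ((γ + c / 2) * t) =
      2 ^ ((1.45 * (e / 8) - 1) * ((t - m : ℕ) : ℝ) + (γ + c / 2) * t) := by
    rw [Real.rpow_add (by norm_num)]
  calc _ ≤ (2 : ℝ) ^ ((1.45 * (e / 8) - 1) * ((t - m : ℕ) : ℝ)) * 2 ^ ((γ + c / 2) * t) :=
        mul_le_mul_of_nonneg_right h1 (by positivity)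
    _ = 2 ^ ((1.45 * (e / 8) - 1) * ((t - m : ℕ) : ℝ) + (γ + c / 2) * t) := h2
    _ ≤ _ := by
        apply Real.rpow_le_rpow_of_exponent_le (by norm_num)
        rw [hsub]
        have h3 : (1.45 * (e / 8) - 1) * ((t : ℝ) - m) ≤ (1.45 * (e / 8) - 1) * (t - e * t / 8) := by
          apply mul_le_mul_of_nonpos_left
          · linarith
          · nlinarith
        have h4 : (1.45 * (e / 8) - 1) * ((t : ℝ) - e * t / 8) =
          -(1 - 2.45 * e / 8 + 1.45 * e ^ 2 / 64) * t := by ring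
        have h5 : γ = 1 - e := by rw [he]; ring
        rw [h4] at h3
        rw [h5]
        have h6 : (c * t) ≤ e / 8 * t := mul_le_mul_of_nonneg_right hc1 ht0
        have h7 : 0 ≤ e * t := by positivity
        have h8 : 0 ≤ e ^ 2 * t := by positivity
        nlinarith

/-- (E3) -/
private theorem axb_beta (κ a δ : ℝ) (hκ : 0 < κ) (ha : 0 < a) (hδ : 0 < δ) :
    ∀ᶠ t : ℕ in atTop, ((t : ℝ) ^ (-(κ / 16)) + (2 : ℝ) ^ (-(a * t))) / δ ^ 2 ≤
      (t : ℝ) ^ (-(κ / 32)) := by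
  have h1 : Tendsto (fun x : ℝ => x ^ (-(κ / 32))) atTop (nhds 0) :=
    tendsto_rpow_neg_atTop (by positivity)
  have h2 : Tendsto (fun x : ℝ => x ^ (κ / 32) * Real.exp (-(a * Real.log 2) * x)) atTop (nhds 0) :=
    tendsto_rpow_mul_exp_neg_mul_atTop_nhds_zero _ _
      (mul_pos ha (Real.log_pos (by norm_num)))
  have h3 := (h1.comp tendsto_natCast_atTop_atTop).eventually_lt_const
    (show (0 : ℝ) < δ ^ 2 / 2 by positivity)
  have h4 := (h2.comp tendsto_natCast_atTop_atTop).eventually_lt_const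
    (show (0 : ℝ) < δ ^ 2 / 2 by positivity)
  filter_upwards [h3, h4, eventually_gt_atTop 0] with t h3 h4 ht
  simp only [Function.comp] at h3 h4
  have ht0 : (0 : ℝ) < t := by exact_mod_cast ht
  rw [div_le_iff₀ (by positivity)]
  have e1 : (t : ℝ) ^ (-(κ / 16)) = (t : ℝ) ^ (-(κ / 32)) * (t : ℝ) ^ (-(κ / 32)) := by
    rw [← Real.rpow_add ht0]; congr 1; ring
  have e2 : Real.exp (-(a * Real.log 2) * t) = (2 : ℝ) ^ (-(a * t)) := by
    rw [Real.rpow_def_of_pos (by norm_num)]; congr 1; ring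
  have e3 : (2 : ℝ) ^ (-(a * t)) = (t : ℝ) ^ (-(κ / 32)) *
      ((t : ℝ) ^ (κ / 32) * (2 : ℝ) ^ (-(a * t))) := by
    rw [← mul_assoc, ← Real.rpow_add ht0]; simp
  rw [e2] at h4
  have hp : 0 < (t : ℝ) ^ (-(κ / 32)) := by positivity
  rw [e1, e3]
  nlinarith

/-- (E4) -/
private theorem axb_count (κ e σ : ℝ) (hκ : 0 < κ) (he : 0 < e) :
    ∀ᶠ t : ℕ in atTop, (2 : ℝ) ^ t * ((t : ℝ) ^ (-(κ / 32))) ^ ⌊e * t / 8⌋₊ ≤
      2 ^ (-((σ + 2) * t)) := by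
  have h1 := (Real.tendsto_log_atTop.comp tendsto_natCast_atTop_atTop).eventually_ge_atTop
    ((σ + 3) * Real.log 2 * 512 / (κ * e))
  have h2 := (tendsto_natCast_atTop_atTop (R := ℝ)).eventually_ge_atTop (16 / e)
  filter_upwards [h1, h2, eventually_gt_atTop 1] with t h1 h2 ht
  simp only [Function.comp] at h1
  have ht1 : (1 : ℝ) < t := by exact_mod_cast ht
  have ht0 : (0 : ℝ) < t := by linarith
  have hlog : 0 < Real.log t := Real.log_pos ht1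
  set m := ⌊e * t / 8⌋₊ with hm
  have hm1 : e * t / 16 ≤ (m : ℝ) := by
    have : e * t / 8 < m + 1 := Nat.lt_floor_add_one _
    have h3 : 1 ≤ e * t / 16 := by
      rw [div_le_iff₀ he] at h2
      rw [le_div_iff₀ (by norm_num)]; linarith
    linarith
  have e1 : ((t : ℝ) ^ (-(κ / 32))) ^ m = Real.exp (-(κ / 32) * m * Real.log t) := by
    rw [← Real.rpow_natCast, ← Real.rpow_mul ht0.le, Real.rpow_def_of_pos ht0]
    congr 1; ring
  have e2 : (2 : ℝ) ^ t = Real.exp (Real.log 2 * t) := by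
    rw [← Real.rpow_natCast, Real.rpow_def_of_pos (by norm_num)]
  have e3 : (2 : ℝ) ^ (-((σ + 2) * t)) = Real.exp (Real.log 2 * (-((σ + 2) * t))) := by
    rw [Real.rpow_def_of_pos (by norm_num)]
  rw [e1, e2, e3, ← Real.exp_add]
  apply Real.exp_le_exp.mpr
  rw [div_le_iff₀ (by positivity)] at h1
  have h4 : (κ / 32) * (e * t / 16) * Real.log t ≤ (κ / 32) * m * Real.log t := by
    apply mul_le_mul_of_nonneg_right _ hlog.le
    exact mul_le_mul_of_nonneg_left hm1 (by positivity)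
  have h5 : (σ + 3) * Real.log 2 * 512 * t ≤ Real.log t * (κ * e) * t :=
    mul_le_mul_of_nonneg_right h1 ht0.le
  nlinarith

/-- **Job AxB.** For one `x` all but a proportion `2^(-(σ1+2)t)` of the tuples of primes give `Xi ≤ 2^(-ct)`, `c = cc K γ σf`.

Proof. Put `κ = 1 - 1/K ∈ (0, 1/2]`, `η = t^(-κ/16)`, `e1 = 1 - γ`, `δ = e1/8`, `m = ⌊e1 t / 8⌋`, `n = t`, `Zm = 2^(-ct)`, `b = #bad x (pool K t) η`,
`w = w0 x f`, `wm` from `w0_bad` with `c2 = κ σf / 64`. `Xi x f p = ∑_χ w0 χ ∏ fac χ (p i)`.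
`(η + wm b / Zm)/δ² ≤ β := t^(-κ/32)` for large `t`: `wm b / Zm ≤ x^(-κ/4) 2^(c2 t) 2^(c t) ≤ 2^(-κ σf t/4 + κ σf t/64 + κ σf t/16) ≤ 2^(-κ σf t/8)`
(`c ≤ κ σf/16`), exponentially small, and `2 t^(-κ/16)/δ² ≤ t^(-κ/32)`.
`((1+δ)/2)^(t-m) ∑ w ≤ Zm`: by `w0_sum` with `c2 = c/2` (for `κ, γ`), in base-2 logarithms:
`-(t-m)(1 - log₂(1+δ)) + (γ + c/2) t ≤ -c t`, because `log₂(1+δ) ≤ 1.45 δ = 0.1813 e1`, `t - m ≥ t (1 - e1/8)`,
`(1 - e1/8)(1 - 0.1813 e1) ≥ 1 - 0.31 e1`, `γ + 3c/2 ≤ 1 - e1 + 3 e1/16` (`c ≤ e1/8`).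
`process`: the count is `≤ 2^t β^m |s|^t`, and `2^t β^m = 2^(t - (κ/32) m log₂ t) ≤ 2^(-(σ1+2) t)` for large `t` (`m ≥ e1 t/8 - 1`, `log₂ t → ∞`). -/
theorem prop_ax (K γ σf σ1 : ℝ) (hK : 1 < K) (hK2 : K ≤ 2) (hγ : 0 < γ) (hγ1 : γ < 1)
    (hσf : 0 < σf) (hσ : σf < σ1) : ∀ᶠ t : ℕ in atTop, ∀ x : ℕ, (2 : ℝ) ^ (σf * t) ≤ x →
      (x : ℝ) < 2 ^ (σ1 * t) → ∀ f, IsWeight x (Qf t) ⌈nxt (1 - 1 / K) γ t x⌉₊ f →
        (((Fintype.piFinset (fun _ : Fin t => pool K t)).filter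
          (fun p => (2 : ℝ) ^ (-(cc K γ σf * t)) < Xi x f p)).card : ℝ) ≤
            2 ^ (-((σ1 + 2) * t)) * ((pool K t).card : ℝ) ^ t := by
  have hK0 : 0 < K := by linarith
  have hκ : 0 < 1 - 1 / K := by
    have : 1 / K < 1 := by rw [div_lt_one hK0]; exact hK
    linarith
  have hκ1 : 1 - 1 / K ≤ 1 := by
    have : 0 < 1 / K := by positivity
    linarith
  have hc : 0 < cc K γ σf := by
    unfold cc
    apply lt_min
    · positivity
    · linarith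
  have hcA : cc K γ σf ≤ (1 - 1 / K) * σf / 16 := min_le_left _ _
  have hcB : cc K γ σf ≤ (1 - γ) / 8 := min_le_right _ _
  generalize cc K γ σf = c at hc hcA hcB ⊢
  have hE1 := w0_sum (1 - 1 / K) γ σf σ1 (c / 2) hκ hκ1 hγ hσf hσ (by positivity)
  have hE2 := w0_bad K γ σf σ1 ((1 - 1 / K) * σf / 64) hK hK2 hγ hσf hσ (by positivity)
  have hE3 := axb_beta (1 - 1 / K) ((1 - 1 / K) * σf / 8) ((1 - γ) / 8) hκ (by positivity)
    (by linarith)
  have hE4 := axb_count (1 - 1 / K) (1 - γ) σ1 hκ (by linarith)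
  generalize 1 - 1 / K = κ at *
  filter_upwards [hE1, hE2, hE3, hE4] with t hE1 hE2 hE3 hE4
  intro x hx1 hx2 f hf
  obtain ⟨wm, hwm0, hwm, hwb⟩ := hE2 x hx1 hx2 f hf
  have hsum := hE1 x hx1 hx2 f hf
  have ht0 : (0 : ℝ) ≤ t := Nat.cast_nonneg t
  have hZ : (0 : ℝ) < 2 ^ (-(c * t)) := by positivity
  set b : ℝ := ((bad x (pool K t) ((t : ℝ) ^ (-(κ / 16)))).card : ℝ) with hb
  -- the bound for wm * b / Zm
  have hx0 : (0 : ℝ) < x := lt_of_lt_of_le (by positivity) hx1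
  have hwbZ : wm * b / 2 ^ (-(c * t)) ≤ (2 : ℝ) ^ (-(κ * σf / 8 * t)) := by
    have h1 : (x : ℝ) ^ (-(κ / 4)) ≤ ((2 : ℝ) ^ (σf * t)) ^ (-(κ / 4)) :=
      Real.rpow_le_rpow_of_nonpos (by positivity) hx1 (by linarith)
    rw [← Real.rpow_mul (by norm_num)] at h1
    rw [div_le_iff₀ hZ]
    calc wm * b ≤ (x : ℝ) ^ (-(κ / 4)) * 2 ^ (κ * σf / 64 * t) := hwb
      _ ≤ 2 ^ (σf * t * -(κ / 4)) * 2 ^ (κ * σf / 64 * t) :=
          mul_le_mul_of_nonneg_right h1 (by positivity)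
      _ = 2 ^ (σf * t * -(κ / 4) + κ * σf / 64 * t) := by
          rw [← Real.rpow_add (by norm_num)]
      _ ≤ 2 ^ (-(κ * σf / 8 * t) + -(c * t)) := by
          apply Real.rpow_le_rpow_of_exponent_le (by norm_num)
          have h6 : c * t ≤ κ * σf / 16 * t := mul_le_mul_of_nonneg_right hcA ht0
          have h7 : 0 ≤ κ * σf * t := by positivity
          nlinarith
      _ = 2 ^ (-(κ * σf / 8 * t)) * 2 ^ (-(c * t)) := by
          rw [← Real.rpow_add (by norm_num)]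
  have hβ : ((t : ℝ) ^ (-(κ / 16)) + wm * b / 2 ^ (-(c * t))) / ((1 - γ) / 8) ^ 2 ≤
      (t : ℝ) ^ (-(κ / 32)) := by
    refine le_trans ?_ hE3
    apply div_le_div_of_nonneg_right _ (by positivity)
    linarith
  have hm : ⌊(1 - γ) * t / 8⌋₊ ≤ t := by
    have : (⌊(1 - γ) * t / 8⌋₊ : ℝ) ≤ (1 - γ) * t / 8 := Nat.floor_le (by
      have : 0 < 1 - γ := by linarith
      positivity)
    have : (⌊(1 - γ) * t / 8⌋₊ : ℝ) ≤ t := by nlinarith
    exact_mod_cast this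
  have hproc := process (x := x) (pool K t) wm ((t : ℝ) ^ (-(κ / 16))) ((1 - γ) / 8) b
    (2 ^ (-(c * t))) ((t : ℝ) ^ (-(κ / 32))) le_rfl (by linarith) (by positivity) hZ hwm0 hβ t
    ⌊(1 - γ) * t / 8⌋₊ hm (w0 x f) (axb_w0_nonneg f) hwm (by
      refine le_trans ?_ (axb_proc γ c hγ hγ1 hc hcB t)
      apply mul_le_mul_of_nonneg_left hsum
      have : 0 < 1 - γ := by linarith
      positivity)
  have hcongr : ((Fintype.piFinset (fun _ : Fin t => pool K t)).filter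
          (fun p => (2 : ℝ) ^ (-(c * t)) < Xi x f p)) =
      ((Fintype.piFinset (fun _ : Fin t => pool K t)).filter
          (fun p => (2 : ℝ) ^ (-(c * t)) < ∑ χ, w0 x f χ * ∏ i, fac χ (p i))) := by
    apply Finset.filter_congr
    intro p _
    rw [axb_Xi_eq]
  rw [hcongr]
  refine le_trans hproc ?_
  exact mul_le_mul_of_nonneg_right hE4 (by positivity)

end Pool.Agent.Lib.MP_9dd88f_nt.HF
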