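import Mathlib
import Pool.Agent.Lib.MP_9dd88f_nt.HF.BadCard
import Pool.Agent.Lib.MP_9dd88f_nt.HF.PrimesC

/-!
# The number of bad characters for the final group
-/

namespace Pool.Agent.Lib.MP_9dd88f_nt.HF

open Finset Filter

/-- **Job BadFin.** For large `t` and all `t^0.9 ≤ q ≤ 2^t`: `#bad q (primes of (t, t^20]) (1/10) ≤ q^(1/8)`.

Proof. `Y = t^20`, `|s| ≥ t^19.9` (`pool_card_fin`), `m = ⌈log q / log Y⌉`, `q ≤ Y^m`, `1 ≤ m ≤ t`, and `Y^(m-1) < q`.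
`bad_card_le` with `η = 1/10`: `#bad ≤ 2 m! (100 t^0.1)^m`.
If `m = 1`: `≤ 200 t^0.1 ≤ t^(0.9/8) ≤ q^(1/8)` for large `t` (`0.1 < 0.1125`).
If `m ≥ 2`: `m - 1 ≥ m/2`, `q > Y^(m/2) = t^(10 m)`, and `#bad ≤ 2 t^m (100 t^0.1)^m ≤ t^(1.2 m) ≤ q^(0.12) ≤ q^(1/8)`. -/
theorem bad_fin : ∀ᶠ t : ℕ in atTop, ∀ q : ℕ, (t : ℝ) ^ (0.9 : ℝ) ≤ q →
    (q : ℝ) ≤ (2 : ℝ) ^ (t : ℝ) →
      ((bad q (primesIoc t (t ^ 20)) (1 / 10)).card : ℝ) ≤ (q : ℝ) ^ (1 / 8 : ℝ) := by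
  have hcast : Tendsto (fun t : ℕ => (t : ℝ)) atTop atTop := tendsto_natCast_atTop_atTop
  have e1 : ∀ᶠ t : ℕ in atTop, (200 : ℝ) ≤ (t : ℝ) ^ (1 / 80 : ℝ) :=
    ((tendsto_rpow_atTop (show (0 : ℝ) < 1 / 80 by norm_num)).comp hcast).eventually
      (eventually_ge_atTop 200)
  filter_upwards [pool_card_fin, e1, eventually_ge_atTop 2] with t hcard h200 ht2 q hq1 hq2
  have ht2' : (2 : ℝ) ≤ (t : ℝ) := by exact_mod_cast ht2
  have ht0 : (0 : ℝ) < (t : ℝ) := by linarith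
  have ht1 : (1 : ℝ) ≤ (t : ℝ) := by linarith
  set s := primesIoc t (t ^ 20) with hs
  have hcard0 : (0 : ℝ) < (s.card : ℝ) := lt_of_lt_of_le (Real.rpow_pos_of_pos ht0 _) hcard
  have hsne : s.Nonempty := by
    rw [← Finset.card_pos]
    exact_mod_cast hcard0
  have hsp : ∀ p ∈ s, p.Prime ∧ p ≤ t ^ 20 := by
    intro p hp
    rw [hs, primesIoc, Finset.mem_filter, Finset.mem_Ioc] at hp
    exact ⟨hp.2, hp.1.2⟩
  have hq1' : (1 : ℝ) < q := by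
    refine lt_of_lt_of_le ?_ hq1
    exact Real.one_lt_rpow (by linarith) (by norm_num)
  have hqnat : 1 < q := by exact_mod_cast hq1'
  have hYnat : 1 < t ^ 20 := Nat.one_lt_pow (by norm_num) (by omega)
  have hq2' : q ≤ 2 ^ t := by
    rw [Real.rpow_natCast] at hq2
    exact_mod_cast hq2
  set m := Nat.clog (t ^ 20) q with hm
  have hqY : q ≤ (t ^ 20) ^ m := Nat.le_pow_clog hYnat q
  have hYq : (t ^ 20) ^ (m - 1) < q := Nat.pow_pred_clog_lt_self hYnat hqnat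
  have hm1 : 1 ≤ m := Nat.clog_pos hYnat (by omega)
  have hmt : m ≤ t := by
    refine Nat.clog_le_of_le_pow (hq2'.trans (Nat.pow_le_pow_left ?_ t))
    calc 2 ≤ t := ht2
      _ ≤ t ^ 20 := Nat.le_self_pow (by norm_num) t
  have h20 : (t : ℝ) ^ 20 = (t : ℝ) ^ (1 / 10 : ℝ) * (t : ℝ) ^ (19.9 : ℝ) := by
    rw [← Real.rpow_add ht0, ← Real.rpow_natCast]
    norm_num
  have hA0 : 0 < (t : ℝ) ^ (1 / 10 : ℝ) := Real.rpow_pos_of_pos ht0 _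
  have hb : ((bad q s (1 / 10)).card : ℝ) ≤
      2 * m.factorial * (100 * (t : ℝ) ^ (1 / 10 : ℝ)) ^ m := by
    refine (bad_card_le (by omega) s hsp hsne (1 / 10) (by norm_num) hqY).trans ?_
    have h1 : (((t ^ 20 : ℕ) : ℝ) / ((1 / 10) ^ 2 * s.card)) ≤ 100 * (t : ℝ) ^ (1 / 10 : ℝ) := by
      rw [div_le_iff₀ (by positivity)]
      push_cast
      rw [h20]
      have h2 := mul_le_mul_of_nonneg_left hcard hA0.le
      linarith
    have h0 : (0 : ℝ) ≤ (((t ^ 20 : ℕ) : ℝ) / ((1 / 10) ^ 2 * s.card)) := by positivity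
    exact mul_le_mul_of_nonneg_left (pow_le_pow_left₀ h0 h1 m) (by positivity)
  refine hb.trans ?_
  have hq0 : (0 : ℝ) ≤ q := Nat.cast_nonneg q
  rcases Nat.lt_or_ge m 2 with hm2 | hm2
  · have hm1' : m = 1 := by omega
    rw [hm1', Nat.factorial_one, pow_one, Nat.cast_one, mul_one]
    calc 2 * (100 * (t : ℝ) ^ (1 / 10 : ℝ)) = 200 * (t : ℝ) ^ (1 / 10 : ℝ) := by ring
      _ ≤ (t : ℝ) ^ (1 / 80 : ℝ) * (t : ℝ) ^ (1 / 10 : ℝ) :=
        mul_le_mul_of_nonneg_right h200 hA0.le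
      _ = ((t : ℝ) ^ (0.9 : ℝ)) ^ (1 / 8 : ℝ) := by
        rw [← Real.rpow_add ht0, ← Real.rpow_mul ht0.le]
        norm_num
      _ ≤ (q : ℝ) ^ (1 / 8 : ℝ) :=
        Real.rpow_le_rpow (Real.rpow_nonneg ht0.le _) hq1 (by norm_num)
  · have hfac : (m.factorial : ℝ) ≤ (t : ℝ) ^ m := by
      have h1 : m.factorial ≤ m ^ m := Nat.factorial_le_pow m
      have h2 : m ^ m ≤ t ^ m := Nat.pow_le_pow_left hmt m
      exact_mod_cast h1.trans h2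
    have hP0 : (0 : ℝ) ≤ (100 * (t : ℝ) ^ (1 / 10 : ℝ)) ^ m := by positivity
    have h2m : (2 : ℝ) ≤ 2 ^ m := by
      calc (2 : ℝ) = 2 ^ 1 := (pow_one _).symm
        _ ≤ 2 ^ m := pow_le_pow_right₀ (by norm_num) hm1
    have h1 : 2 * (m.factorial : ℝ) * (100 * (t : ℝ) ^ (1 / 10 : ℝ)) ^ m ≤
        (200 * ((t : ℝ) * (t : ℝ) ^ (1 / 10 : ℝ))) ^ m := by
      have e : (200 * ((t : ℝ) * (t : ℝ) ^ (1 / 10 : ℝ))) ^ m =
          2 ^ m * (t : ℝ) ^ m * (100 * (t : ℝ) ^ (1 / 10 : ℝ)) ^ m := by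
        rw [← mul_pow, ← mul_pow]
        congr 1
        ring
      rw [e]
      refine mul_le_mul_of_nonneg_right ?_ hP0
      exact mul_le_mul h2m hfac (by positivity) (by positivity)
    have h2 : 200 * ((t : ℝ) * (t : ℝ) ^ (1 / 10 : ℝ)) ≤ (t : ℝ) ^ (5 / 4 : ℝ) := by
      have h3 : (t : ℝ) ^ (1 / 80 : ℝ) ≤ (t : ℝ) ^ (3 / 20 : ℝ) :=
        Real.rpow_le_rpow_of_exponent_le ht1 (by norm_num)
      have h4 : (t : ℝ) ^ (5 / 4 : ℝ) = (t : ℝ) ^ (3 / 20 : ℝ) *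
          ((t : ℝ) * (t : ℝ) ^ (1 / 10 : ℝ)) := by
        nth_rewrite 3 [← Real.rpow_one (t : ℝ)]
        rw [← Real.rpow_add ht0, ← Real.rpow_add ht0]
        norm_num
      rw [h4]
      exact mul_le_mul_of_nonneg_right (h200.trans h3) (by positivity)
    have h5 : ((t : ℝ) ^ (10 * m : ℕ)) ≤ q := by
      have h6 : t ^ (10 * m) ≤ q := by
        refine le_trans ?_ hYq.le
        rw [← pow_mul]
        exact Nat.pow_le_pow_right (by omega) (by omega)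
      exact_mod_cast h6
    calc 2 * (m.factorial : ℝ) * (100 * (t : ℝ) ^ (1 / 10 : ℝ)) ^ m
        ≤ (200 * ((t : ℝ) * (t : ℝ) ^ (1 / 10 : ℝ))) ^ m := h1
      _ ≤ ((t : ℝ) ^ (5 / 4 : ℝ)) ^ m := pow_le_pow_left₀ (by positivity) h2 m
      _ = ((t : ℝ) ^ (10 * m : ℕ)) ^ (1 / 8 : ℝ) := by
        rw [← Real.rpow_natCast, ← Real.rpow_natCast, ← Real.rpow_mul ht0.le,
          ← Real.rpow_mul ht0.le]
        congr 1
        push_cast
        ring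
      _ ≤ (q : ℝ) ^ (1 / 8 : ℝ) := Real.rpow_le_rpow (by positivity) h5 (by norm_num)

end Pool.Agent.Lib.MP_9dd88f_nt.HF
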