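import Mathlib
import Pool.Agent.Lib.MP_9dd88f_nt.HF.Defs

/-!
# The size and the number of divisors of `M`
-/

namespace Pool.Agent.Lib.MP_9dd88f_nt.HF

open Finset Filter

/-- **Job Bits (a).** `M ≤ 2^(K' t log₂ t)`.

Proof. `∏ p ≤ t^(K t) = 2^(K t log₂ t)`, `∏ g ≤ 2^(J (3 σ1 t + 3))`, `(∏ v)² ≤ t^(40 θ t) = 2^(40 θ t log₂ t)`, and `J (3 σ1 t + 3) ≤ θ t log₂ t` for large `t`. -/
theorem bits_le (K γ σf σ1 θ : ℝ) (J : ℕ) (hK : 1 < K) (hσ : 0 < σ1) (h0 : 0 < θ) :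
    ∀ᶠ t : ℕ in atTop, ∀ (p : Fin t → ℕ) (g : Fin J → ℕ) (v : Fin ⌊θ * t⌋₊ → ℕ),
      Main1 K γ σf σ1 t J p g → Main2 θ t ⌊θ * t⌋₊ v →
      (((∏ i, p i) * (∏ j, g j) * (∏ i, v i) ^ 2 : ℕ) : ℝ) ≤
        2 ^ ((K + 41 * θ) * t * Real.logb 2 t) := by
  have hev : ∀ᶠ t : ℕ in atTop, J * (3 * σ1 + 3) / θ ≤ Real.logb 2 t := by
    have h1 : Tendsto (fun t : ℕ => Real.logb 2 (t : ℝ)) atTop atTop :=
      (Real.tendsto_logb_atTop (by norm_num)).comp tendsto_natCast_atTop_atTop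
    exact h1.eventually_ge_atTop _
  filter_upwards [hev, eventually_ge_atTop 1] with t ht ht1 p g v h1 h2
  have ht1' : (1 : ℝ) ≤ t := by exact_mod_cast ht1
  have ht0 : (0 : ℝ) < t := by linarith only [ht1']
  set lg : ℝ := Real.logb 2 t with hlg
  have htlg : (t : ℝ) = 2 ^ lg := by
    rw [hlg, Real.rpow_logb (by norm_num) (by norm_num) ht0]
  have hlg0 : 0 ≤ lg := Real.logb_nonneg (by norm_num) ht1'
  have hp : ((∏ i, p i : ℕ) : ℝ) ≤ 2 ^ (K * t * lg) := by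
    rw [Nat.cast_prod]
    calc ∏ i, (p i : ℝ) ≤ ∏ _i : Fin t, (t : ℝ) ^ K :=
          Finset.prod_le_prod (fun _ _ => Nat.cast_nonneg _) fun i _ => (h1.prime i).2.2
      _ = ((t : ℝ) ^ K) ^ t := by rw [Finset.prod_const, Finset.card_univ, Fintype.card_fin]
      _ = 2 ^ (K * t * lg) := by
          conv_lhs => rw [htlg]
          rw [← Real.rpow_mul (by norm_num), ← Real.rpow_natCast, ← Real.rpow_mul (by norm_num)]
          congr 1
          ring
  have hg : ((∏ j, g j : ℕ) : ℝ) ≤ 2 ^ (θ * t * lg) := by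
    rw [Nat.cast_prod]
    calc ∏ j, (g j : ℝ) ≤ ∏ _j : Fin J, (2 : ℝ) ^ (3 * σ1 * t + 3) :=
          Finset.prod_le_prod (fun _ _ => Nat.cast_nonneg _) fun j _ => (h1.gprime j).2.2
      _ = ((2 : ℝ) ^ (3 * σ1 * t + 3)) ^ J := by
          rw [Finset.prod_const, Finset.card_univ, Fintype.card_fin]
      _ = 2 ^ ((3 * σ1 * t + 3) * J) := by
          rw [← Real.rpow_natCast, ← Real.rpow_mul (by norm_num)]
      _ ≤ 2 ^ (θ * t * lg) := by
          apply Real.rpow_le_rpow_of_exponent_le (by norm_num)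
          rw [div_le_iff₀ h0] at ht
          have hJ : (0 : ℝ) ≤ J := Nat.cast_nonneg J
          have h3 : (3 * σ1 * t + 3) * J ≤ (J * (3 * σ1 + 3)) * t := by nlinarith only [hJ, ht1']
          have h4 : (J * (3 * σ1 + 3)) * t ≤ lg * θ * t := mul_le_mul_of_nonneg_right ht ht0.le
          linarith only [h3, h4]
  have hv : (((∏ i, v i) ^ 2 : ℕ) : ℝ) ≤ 2 ^ (40 * θ * t * lg) := by
    rw [Nat.cast_pow, Nat.cast_prod]
    have h3 : ∏ i, (v i : ℝ) ≤ ((t : ℝ) ^ 20) ^ ⌊θ * t⌋₊ := by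
      calc ∏ i, (v i : ℝ) ≤ ∏ _i : Fin ⌊θ * t⌋₊, (t : ℝ) ^ 20 :=
            Finset.prod_le_prod (fun _ _ => Nat.cast_nonneg _) fun i _ => by
              exact_mod_cast (h2.prime i).2.2
        _ = _ := by rw [Finset.prod_const, Finset.card_univ, Fintype.card_fin]
    have h4 : (0 : ℝ) ≤ ∏ i, (v i : ℝ) := Finset.prod_nonneg fun _ _ => Nat.cast_nonneg _
    have hfl : ((⌊θ * t⌋₊ : ℕ) : ℝ) ≤ θ * t := Nat.floor_le (by positivity)
    calc (∏ i, (v i : ℝ)) ^ 2 ≤ (((t : ℝ) ^ 20) ^ ⌊θ * t⌋₊) ^ 2 := pow_le_pow_left₀ h4 h3 2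
      _ = (t : ℝ) ^ (40 * ⌊θ * t⌋₊) := by
          rw [← pow_mul, ← pow_mul]
          congr 1
          ring
      _ = 2 ^ (lg * ((40 * ⌊θ * t⌋₊ : ℕ) : ℝ)) := by
          have key : ∀ n : ℕ, (t : ℝ) ^ n = 2 ^ (lg * (n : ℝ)) := by
            intro n
            rw [Real.rpow_mul (by norm_num), Real.rpow_natCast, ← htlg]
          exact key _
      _ ≤ 2 ^ (40 * θ * t * lg) := by
          apply Real.rpow_le_rpow_of_exponent_le (by norm_num)
          push_cast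
          nlinarith only [hfl, hlg0]
  have hpos : ∀ x : ℝ, (0 : ℝ) < 2 ^ x := fun x => Real.rpow_pos_of_pos (by norm_num) x
  calc (((∏ i, p i) * (∏ j, g j) * (∏ i, v i) ^ 2 : ℕ) : ℝ)
      = ((∏ i, p i : ℕ) : ℝ) * ((∏ j, g j : ℕ) : ℝ) * (((∏ i, v i) ^ 2 : ℕ) : ℝ) := by
        rw [Nat.cast_mul, Nat.cast_mul]
    _ ≤ 2 ^ (K * t * lg) * 2 ^ (θ * t * lg) * 2 ^ (40 * θ * t * lg) :=
        mul_le_mul (mul_le_mul hp hg (Nat.cast_nonneg _) (hpos _).le) hv (Nat.cast_nonneg _)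
          (mul_pos (hpos _) (hpos _)).le
    _ = 2 ^ ((K + 41 * θ) * t * lg) := by
        rw [← Real.rpow_add (by norm_num), ← Real.rpow_add (by norm_num)]
        congr 1
        ring

/-- **Job Bits (b).** The subset products of distinct primes are different divisors. -/
theorem two_pow_le_divisors {t M : ℕ} (hM : 0 < M) (p : Fin t → ℕ) (hp : Function.Injective p)
    (hpp : ∀ i, (p i).Prime) (hd : ∏ i, p i ∣ M) : 2 ^ t ≤ M.divisors.card := by
  classical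
  have h1 : (Finset.univ : Finset (Finset (Fin t))).card = 2 ^ t := by
    rw [Finset.card_univ, Fintype.card_finset, Fintype.card_fin]
  rw [← h1]
  refine Finset.card_le_card_of_injOn (fun S => ∏ i ∈ S, p i) ?_ ?_
  · intro S _
    rw [Finset.mem_coe, Nat.mem_divisors]
    exact ⟨(Finset.prod_dvd_prod_of_subset _ _ _ (Finset.subset_univ S)).trans hd, hM.ne'⟩
  · intro S _ T _ hST
    have key : ∀ (A : Finset (Fin t)) (i : Fin t), p i ∣ ∏ j ∈ A, p j ↔ i ∈ A := by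
      intro A i
      constructor
      · intro h
        obtain ⟨j, hj, hij⟩ := ((hpp i).prime.dvd_finset_prod_iff _).mp h
        have h3 := (Nat.prime_dvd_prime_iff_eq (hpp i) (hpp j)).mp hij
        rwa [hp h3]
      · intro h
        exact Finset.dvd_prod_of_mem _ h
    have hST' : ∏ i ∈ S, p i = ∏ i ∈ T, p i := hST
    ext i
    rw [← key S i, ← key T i, hST']

end Pool.Agent.Lib.MP_9dd88f_nt.HF
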