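import Mathlib
import Pool.Agent.Lib.MP_9dd88f_nt.HF.Pars

/-!
# Coincidences of subset products and characters
-/

namespace Pool.Agent.Lib.MP_9dd88f_nt.HF

open Finset Filter

/-- **Job CollC (a).** `coll v q * φ(q) = ∑_χ ∏_i 4 fac χ (v i)` if all `v i` are coprime to `q`.

Proof. `parseval_count` with index type `Finset (Fin u)` and `G S = sp v S` (all coprime to `q`: `Nat.Coprime.prod_left`), and
`∑_S χ(sp v S) = ∏_i (1 + χ(v i))` (`Finset.prod_one_add` / `Finset.prod_add`), `‖∏ (1 + χ(v i))‖² = ∏ 4 fac χ (v i)`. -/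
theorem coll_eq {u q : ℕ} (hq : 0 < q) (v : Fin u → ℕ) (hv : ∀ i, (v i).Coprime q) :
    (coll v q : ℝ) * q.totient = ∑ χ : DirichletCharacter ℂ q, ∏ i, (4 * fac χ (v i)) := by
  classical
  have hsum : ∀ χ : DirichletCharacter ℂ q,
      ∑ S : Finset (Fin u), χ (sp v S : ZMod q) = ∏ i, (1 + χ (v i : ZMod q)) := by
    intro χ
    rw [Finset.prod_one_add, Finset.powerset_univ]
    refine Finset.sum_congr rfl fun S _ => ?_
    unfold sp
    rw [Nat.cast_prod, map_prod]
  have hnorm : ∀ χ : DirichletCharacter ℂ q,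
      ‖∑ S : Finset (Fin u), χ (sp v S : ZMod q)‖ ^ 2 = ∏ i, (4 * fac χ (v i)) := by
    intro χ
    rw [hsum, norm_prod, ← Finset.prod_pow]
    refine Finset.prod_congr rfl fun i _ => ?_
    unfold fac
    ring
  have hcop : ∀ S : Finset (Fin u), (sp v S).Coprime q := fun S =>
    Nat.Coprime.prod_left fun i _ => hv i
  have hcard : (((univ : Finset (Finset (Fin u) × Finset (Fin u))).filter
      (fun ij => (sp v ij.1).Coprime q ∧ (sp v ij.2).Coprime q ∧
        sp v ij.1 ≡ sp v ij.2 [MOD q])).card) = coll v q := by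
    unfold coll
    congr 1
    ext ij
    simp only [Finset.mem_filter, Finset.mem_univ, true_and]
    exact ⟨fun h => h.2.2, fun h => ⟨hcop _, hcop _, h⟩⟩
  have h := parseval_count hq (fun S : Finset (Fin u) => sp v S)
  simp only [hnorm] at h
  rw [h, hcard]
  ring

/-- **Job CollC (b).** The mean of `fac` over a set of primes: for `q ∣ x` and a character `χ` modulo `q` with
`‖∑_{p∈s} χ(p)‖ ≤ |s|/10`, `∑_{p∈s} fac χ (if p ∣ x then 1 else p) ≤ 0.55 |s| + #{p ∈ s : p ∣ x}`.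

Proof. For `p ∣ x` the term is `fac χ 1 = 1`. For `p ∤ x`: `fac χ p ≤ (1 + Re χ(p))/2` (`‖χ p‖ ≤ 1`), and `(1 + Re χ(p))/2 ≥ 0` for the other `p`, so the
sum is `≤ ∑_{p∈s} (1 + Re χ(p))/2 + #{p ∣ x} ≤ |s|/2 + |s|/20 + #`. -/
theorem fac_mean {q : ℕ} (x : ℕ) (s : Finset ℕ) (χ : DirichletCharacter ℂ q)
    (hχ : ‖∑ p ∈ s, χ (p : ZMod q)‖ ≤ s.card / 10) :
    ∑ p ∈ s, fac χ (if p ∣ x then 1 else p) ≤
      0.55 * s.card + (s.filter (fun p => p ∣ x)).card := by
  classical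
  have hfac : ∀ p : ℕ, fac χ p ≤ (1 + (χ (p : ZMod q)).re) / 2 := by
    intro p
    have h1 : ‖χ (p : ZMod q)‖ ≤ 1 := χ.norm_le_one _
    have h2 : ‖1 + χ (p : ZMod q)‖ ^ 2 = 1 + 2 * (χ (p : ZMod q)).re + ‖χ (p : ZMod q)‖ ^ 2 := by
      rw [← Complex.normSq_eq_norm_sq, ← Complex.normSq_eq_norm_sq, Complex.normSq_apply,
        Complex.normSq_apply]
      simp only [Complex.add_re, Complex.one_re, Complex.add_im, Complex.one_im]
      ring
    have h3 : ‖χ (p : ZMod q)‖ ^ 2 ≤ 1 := by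
      have := norm_nonneg (χ (p : ZMod q))
      nlinarith
    unfold fac
    rw [h2]
    linarith
  have hre : ∀ p : ℕ, 0 ≤ (1 + (χ (p : ZMod q)).re) / 2 := by
    intro p
    have h1 : ‖χ (p : ZMod q)‖ ≤ 1 := χ.norm_le_one _
    have h2 := Complex.abs_re_le_norm (χ (p : ZMod q))
    have h3 := neg_abs_le (χ (p : ZMod q)).re
    linarith
  have hterm : ∀ p ∈ s, fac χ (if p ∣ x then 1 else p) ≤
      (1 + (χ (p : ZMod q)).re) / 2 + (if p ∣ x then 1 else 0) := by
    intro p _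
    by_cases hp : p ∣ x
    · rw [if_pos hp, if_pos hp]
      have h1 : fac χ 1 = 1 := by
        unfold fac
        rw [Nat.cast_one, map_one]
        norm_num
      rw [h1]
      linarith [hre p]
    · rw [if_neg hp, if_neg hp, add_zero]
      exact hfac p
  refine (Finset.sum_le_sum hterm).trans ?_
  rw [Finset.sum_add_distrib, Finset.sum_boole, ← Finset.sum_div, Finset.sum_add_distrib,
    ← Complex.re_sum, Finset.sum_const, nsmul_eq_mul, mul_one]
  have h4 := Complex.re_le_norm (∑ p ∈ s, χ (p : ZMod q))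
  have h5 : (∑ p ∈ s, χ (p : ZMod q)).re ≤ s.card / 10 := h4.trans hχ
  linarith

end Pool.Agent.Lib.MP_9dd88f_nt.HF
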