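import Mathlib
import Pool.Agent.Lib.MP_9dd88f_nt.DE.Bilin
import Pool.Agent.Lib.MP_9dd88f_nt.DE.SumOrder
import Pool.Agent.Lib.MP_9dd88f_nt.HF.Defs

/-!
# Counting sums of 12 products divisible by `x`
-/

namespace Pool.Agent.Lib.MP_9dd88f_nt.HF

open Finset Filter

private theorem count12_norm (N q c s : ℝ) (hq : 0 < q) (hc0 : 0 ≤ c) (hs : 0 ≤ s)
    (hc : c ≤ s * q ^ (-(3 / 4) : ℝ)) (h : N ^ 2 ≤ q * c ^ 2) : N ≤ s * q ^ (-(1 / 4) : ℝ) := by
  have h1 : N ^ 2 ≤ (s * q ^ (-(1 / 4) : ℝ)) ^ 2 := by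
    calc N ^ 2 ≤ q * c ^ 2 := h
      _ ≤ q * (s * q ^ (-(3 / 4) : ℝ)) ^ 2 := by gcongr
      _ = (s * q ^ (-(1 / 4) : ℝ)) ^ 2 := by
          rw [mul_pow, mul_pow, ← Real.rpow_natCast (q ^ (-(3 / 4) : ℝ)),
            ← Real.rpow_natCast (q ^ (-(1 / 4) : ℝ)), ← Real.rpow_mul hq.le, ← Real.rpow_mul hq.le]
          have : q * q ^ (-(3 / 4) * ((2 : ℕ) : ℝ) : ℝ) = q ^ (-(1 / 4) * ((2 : ℕ) : ℝ) : ℝ) := by
            conv_lhs => rw [show q * q ^ (-(3 / 4) * ((2 : ℕ) : ℝ) : ℝ) =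
              q ^ (1 : ℝ) * q ^ (-(3 / 4) * ((2 : ℕ) : ℝ) : ℝ) by rw [Real.rpow_one]]
            rw [← Real.rpow_add hq]
            congr 1
            norm_num
          linear_combination s ^ 2 * this
  exact le_of_sq_le_sq h1 (by positivity)

private theorem count12_key {x : ℕ} [NeZero x] {ι : Type*} [Fintype ι] [DecidableEq ι]
    (f : ι → ZMod x) (h : ZMod x) :
    ∑ α : Fin 12 → ι, ZMod.stdAddChar (h * ∑ i, f (α i)) =
      ∏ _i : Fin 12, ∑ a, ZMod.stdAddChar (h * f a) := by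
  rw [Finset.prod_univ_sum, Fintype.piFinset_univ]
  refine Finset.sum_congr rfl fun α _ => ?_
  rw [Finset.mul_sum]
  have hs : ∀ t : Finset (Fin 12), ZMod.stdAddChar (∑ i ∈ t, h * f (α i)) =
      ∏ i ∈ t, ZMod.stdAddChar (h * f (α i)) := by
    intro t
    induction t using Finset.induction_on with
    | empty => simp
    | insert a t ha ih => rw [Finset.sum_insert ha, Finset.prod_insert ha,
        AddChar.map_add_eq_mul, ih]
  exact hs univ

private theorem count12_count {x : ℕ} [NeZero x] {ι : Type*} [Fintype ι] [DecidableEq ι]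
    (f : ι → ZMod x) :
    (x : ℂ) * (((univ : Finset (Fin 12 → ι)).filter (fun α => ∑ i, f (α i) = 0)).card : ℂ) =
      ∑ h : ZMod x, ∏ _i : Fin 12, ∑ a, ZMod.stdAddChar (h * f a) := by
  simp_rw [← count12_key]
  rw [Finset.sum_comm, Finset.card_filter, Nat.cast_sum, Finset.mul_sum]
  refine Finset.sum_congr rfl fun α _ => ?_
  rw [AddChar.sum_mulShift _ (ZMod.isPrimitive_stdAddChar x), ZMod.card]
  split_ifs with h
  · simp
  · simp

/-- **Job Count12.** At least `(4^u)^12 / (2x)` of the 12-tuples of pairs of sets have `x ∣ ∑ sp sp`.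

Proof. This is the counting form of `solve12` (DE/Solve12.lean, copy its private lemmas; here there are no coefficients `2^i`, so `x` may
be even). Let `E(h) = ∑_{p : Finset × Finset} e(h sp p.1 sp p.2 / x)`. Then `x #{α : …} = ∑_{h : ZMod x} E(h)^12` (`AddChar.sum_mulShift`,
`ZMod.isPrimitive_stdAddChar`, as in DE/ExistsZeroSum.lean), `E(0) = 4^u`, and for `h ≠ 0` of order `q` (`q ∣ x`, `q > 1`) `bilin` and `GoodMod v q` give
`|E(h)| ≤ 4^u q^(-1/4)`, so `∑_{h≠0} |E(h)|^12 ≤ (4^u)^12 ∑_{h≠0} (addOrderOf h)^(-3) ≤ (4^u)^12 / 2` (`sum_order`). -/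
theorem count12 {u x : ℕ} (hx : 0 < x) (v : Fin u → ℕ)
    (h : ∀ q, q ∣ x → 1 < q → 3 ≤ q ∧ GoodMod v q) :
    ((4 : ℝ) ^ u) ^ 12 / (2 * x) ≤
      (((univ : Finset (Fin 12 → Finset (Fin u) × Finset (Fin u))).filter
        (fun α => x ∣ ∑ l, sp v (α l).1 * sp v (α l).2)).card : ℝ) := by
  classical
  have : NeZero x := ⟨hx.ne'⟩
  have hcard : (Fintype.card (Finset (Fin u) × Finset (Fin u)) : ℝ) = 4 ^ u := by
    rw [Fintype.card_prod, Fintype.card_finset, Fintype.card_fin]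
    push_cast
    rw [← mul_pow]
    norm_num
  have hkey : ∀ g : ZMod x, g ≠ 0 →
      ‖∑ p : Finset (Fin u) × Finset (Fin u),
        ZMod.stdAddChar (g * ((sp v p.1 * sp v p.2 : ℕ) : ZMod x))‖ ≤
        4 ^ u * (addOrderOf g : ℝ) ^ (-(1 / 4) : ℝ) := by
    intro g hg
    have hb := bilin v g
    have hqx : addOrderOf g ∣ x := by
      have := addOrderOf_dvd_card (x := g)
      rwa [ZMod.card] at this
    have hq0 : 0 < addOrderOf g := addOrderOf_pos g
    have hq1 : 1 < addOrderOf g := by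
      have : addOrderOf g ≠ 1 := fun hh => hg (AddMonoid.addOrderOf_eq_one_iff.mp hh)
      omega
    have hgood := (h _ hqx hq1).2
    exact count12_norm _ (addOrderOf g : ℝ) (coll v (addOrderOf g) : ℝ) (4 ^ u)
      (by exact_mod_cast hq0) (Nat.cast_nonneg _) (by positivity) hgood hb
  have hle : ∑ g ∈ (univ : Finset (ZMod x)).erase 0,
      ∏ _i : Fin 12, ‖∑ p : Finset (Fin u) × Finset (Fin u),
        ZMod.stdAddChar (g * ((sp v p.1 * sp v p.2 : ℕ) : ZMod x))‖ ≤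
      ((4 : ℝ) ^ u) ^ 12 * (1 / 2) := by
    calc ∑ g ∈ (univ : Finset (ZMod x)).erase 0,
          ∏ _i : Fin 12, ‖∑ p : Finset (Fin u) × Finset (Fin u),
            ZMod.stdAddChar (g * ((sp v p.1 * sp v p.2 : ℕ) : ZMod x))‖
        ≤ ∑ g ∈ (univ : Finset (ZMod x)).erase 0,
          ((4 : ℝ) ^ u) ^ 12 * ((addOrderOf g : ℝ) ^ 3)⁻¹ := by
          apply Finset.sum_le_sum
          intro g hg
          have hg0 : g ≠ 0 := (Finset.mem_erase.mp hg).1
          have hq0 : (0 : ℝ) < addOrderOf g := by exact_mod_cast addOrderOf_pos g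
          calc ∏ _i : Fin 12, ‖∑ p : Finset (Fin u) × Finset (Fin u),
                ZMod.stdAddChar (g * ((sp v p.1 * sp v p.2 : ℕ) : ZMod x))‖
              ≤ ∏ _i : Fin 12, (4 ^ u * (addOrderOf g : ℝ) ^ (-(1 / 4) : ℝ)) :=
                Finset.prod_le_prod (fun _ _ => norm_nonneg _) (fun _ _ => hkey g hg0)
            _ = ((4 : ℝ) ^ u) ^ 12 * ((addOrderOf g : ℝ) ^ 3)⁻¹ := by
                rw [Finset.prod_const, Finset.card_univ, Fintype.card_fin, mul_pow,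
                  ← Real.rpow_natCast ((addOrderOf g : ℝ) ^ (-(1 / 4) : ℝ)), ← Real.rpow_mul hq0.le,
                  ← Real.rpow_natCast (addOrderOf g : ℝ) 3, ← Real.rpow_neg hq0.le]
                congr 2
                norm_num
      _ = ((4 : ℝ) ^ u) ^ 12 * ∑ g ∈ (univ : Finset (ZMod x)).erase 0,
          ((addOrderOf g : ℝ) ^ 3)⁻¹ := by rw [Finset.mul_sum]
      _ ≤ ((4 : ℝ) ^ u) ^ 12 * (1 / 2) := by
          gcongr
          exact sum_order (fun q hq hq1 => (h q hq hq1).1)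
  have hfil : (univ : Finset (Fin 12 → Finset (Fin u) × Finset (Fin u))).filter
        (fun α => x ∣ ∑ l, sp v (α l).1 * sp v (α l).2) =
      (univ : Finset (Fin 12 → Finset (Fin u) × Finset (Fin u))).filter
        (fun α => ∑ l, ((sp v (α l).1 * sp v (α l).2 : ℕ) : ZMod x) = 0) := by
    ext α
    simp only [Finset.mem_filter, Finset.mem_univ, true_and]
    rw [← ZMod.natCast_eq_zero_iff, Nat.cast_sum]
  rw [hfil]
  have hcount := count12_count
    (fun p : Finset (Fin u) × Finset (Fin u) => ((sp v p.1 * sp v p.2 : ℕ) : ZMod x))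
  rw [← Finset.add_sum_erase _ _ (Finset.mem_univ (0 : ZMod x))] at hcount
  have h1 : ∏ _i : Fin 12, ∑ p : Finset (Fin u) × Finset (Fin u),
      ZMod.stdAddChar ((0 : ZMod x) * ((sp v p.1 * sp v p.2 : ℕ) : ZMod x)) =
      (Fintype.card (Finset (Fin u) × Finset (Fin u)) : ℂ) ^ 12 := by
    simp
  rw [h1] at hcount
  set C : ℕ := ((univ : Finset (Fin 12 → Finset (Fin u) × Finset (Fin u))).filter
        (fun α => ∑ l, ((sp v (α l).1 * sp v (α l).2 : ℕ) : ZMod x) = 0)).card with hC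
  set R : ℂ := ∑ g ∈ (univ : Finset (ZMod x)).erase 0,
      ∏ _i : Fin 12, ∑ p : Finset (Fin u) × Finset (Fin u),
        ZMod.stdAddChar (g * ((sp v p.1 * sp v p.2 : ℕ) : ZMod x)) with hR
  have hRn : ‖R‖ ≤ ((4 : ℝ) ^ u) ^ 12 * (1 / 2) := by
    refine le_trans (norm_sum_le _ _) ?_
    simp_rw [norm_prod]
    exact hle
  have h2 : (Fintype.card (Finset (Fin u) × Finset (Fin u)) : ℂ) ^ 12 =
      (x : ℂ) * (C : ℂ) - R := by
    rw [hcount]
    ring
  have h3 : ‖(Fintype.card (Finset (Fin u) × Finset (Fin u)) : ℂ) ^ 12‖ =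
      ((4 : ℝ) ^ u) ^ 12 := by
    rw [norm_pow, Complex.norm_natCast, hcard]
  have h4 : ‖(x : ℂ) * (C : ℂ)‖ = (x : ℝ) * (C : ℝ) := by
    rw [norm_mul, Complex.norm_natCast, Complex.norm_natCast]
  have h5 : ((4 : ℝ) ^ u) ^ 12 ≤ (x : ℝ) * (C : ℝ) + ‖R‖ := by
    rw [← h3, h2, ← h4]
    exact norm_sub_le _ _
  have hx' : (0 : ℝ) < x := by exact_mod_cast hx
  rw [div_le_iff₀ (by positivity)]
  linarith

end Pool.Agent.Lib.MP_9dd88f_nt.HF
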