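import Mathlib
import Pool.Agent.Lib.MP_9dd88f_nt.HF.Defs

/-!
# The number of terms
-/

namespace Pool.Agent.Lib.MP_9dd88f_nt.HF

open Finset Filter

/-- **Job CountK (a).** The total number of terms.

Proof. Choose `s ≥ 1` with `K' (C + 15) / 2^(s-1) ≤ ε/4`. With `β ≥ 2^(τ+s-1)`, `β ≤ 2^(τ+s)`:
`L ≤ K' τ / 2^(s-1) + 1`; `L h ≤ (K' 2^τ τ/β + 1)(C + 13 + (β+1)/(γ 2^τ))
 ≤ K' τ/γ + K' τ/(γ β) + K' τ (C+13)/2^(s-1) + C + 13 + (2^s + 1)/γ`. Total `≤ τ (1 + K'/γ + K'(C+14)/2^(s-1)) + K' τ/(γ β) + const ≤ (2 + ε) τ` for large `τ`,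
as `K'/γ ≤ 1 + ε/2` and `τ/β → 0`. -/
theorem count_le (K' γ ε : ℝ) (C : ℕ) (hK : 0 < K') (hγ : 0 < γ) (hε : 0 < ε)
    (h1 : K' / γ ≤ 1 + ε / 2) : ∃ s : ℕ, 1 ≤ s ∧ ∀ᶠ τ : ℕ in atTop, ∀ β : ℝ,
      (2 : ℝ) ^ (τ + s - 1) ≤ β → β ≤ 2 ^ (τ + s) → ∀ L h : ℕ,
        (L : ℝ) ≤ K' * 2 ^ τ * τ / β + 1 → (h : ℝ) ≤ C + 12 + ((β + 1) / (γ * 2 ^ τ) + 1) →
          ((τ + s) + L + 1 + L * h : ℝ) ≤ (2 + ε) * τ := by
  obtain ⟨s0, hs0⟩ : ∃ s0 : ℕ, K' * (C + 14) * 4 / ε ≤ (2 : ℝ) ^ s0 := by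
    obtain ⟨n, hn⟩ := pow_unbounded_of_one_lt (K' * (C + 14) * 4 / ε) (by norm_num : (1 : ℝ) < 2)
    exact ⟨n, hn.le⟩
  refine ⟨s0 + 1, by omega, ?_⟩
  set S : ℝ := (2 : ℝ) ^ s0 with hS
  have hS0 : 0 < S := by positivity
  have hS1 : K' * (C + 14) / S ≤ ε / 4 := by
    rw [div_le_iff₀ hS0]
    rw [div_le_iff₀ hε] at hs0
    linarith only [hs0]
  set D : ℝ := K' / γ + (s0 + 1) + 2 + C + 13 + (2 * S + 1) / γ with hD
  have hev : ∀ᶠ τ : ℕ in atTop, D * 4 / ε ≤ (τ : ℝ) :=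
    tendsto_natCast_atTop_atTop.eventually_ge_atTop _
  filter_upwards [hev] with τ hτ β hβ1 hβ2 L h hL hh
  have hτ0 : (0 : ℝ) ≤ τ := Nat.cast_nonneg τ
  set T : ℝ := (2 : ℝ) ^ τ with hT
  have hT0 : 0 < T := by positivity
  have hT1 : (τ : ℝ) ≤ T := by
    rw [hT]
    exact_mod_cast (Nat.lt_two_pow_self (n := τ)).le
  have hT2 : 1 ≤ T := one_le_pow₀ (by norm_num)
  have hβ1' : T * S ≤ β := by
    have h1 : τ + (s0 + 1) - 1 = τ + s0 := by omega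
    rw [h1, pow_add] at hβ1
    exact hβ1
  have hβ2' : β ≤ T * S * 2 := by
    rw [← add_assoc, pow_succ, pow_add] at hβ2
    exact hβ2
  have hSone : 1 ≤ S := one_le_pow₀ (by norm_num)
  have hβ0 : 0 < β := lt_of_lt_of_le (by positivity) hβ1'
  have hβT : T ≤ β := by nlinarith only [hβ1', hSone, hT0]
  set u : ℝ := K' * T * τ / β with hu
  have hu0 : 0 ≤ u := by positivity
  have hu1 : u ≤ K' * τ / S := by
    rw [hu, div_le_div_iff₀ hβ0 hS0]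
    have h1 : 0 ≤ K' * τ := by positivity
    nlinarith only [h1, hβ1']
  set w : ℝ := β / (γ * T) with hw
  have hw0 : 0 ≤ w := by positivity
  have huw : u * w = K' * τ / γ := by
    rw [hu, hw]
    field_simp
  have hw1 : w ≤ 2 * S / γ := by
    rw [hw, div_le_div_iff₀ (by positivity) hγ]
    nlinarith only [hβ2', hγ]
  set x : ℝ := 1 / (γ * T) with hx
  have hx0 : 0 ≤ x := by positivity
  have hx1 : x ≤ 1 / γ := by
    rw [hx]
    apply one_div_le_one_div_of_le hγ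
    nlinarith only [hT2, hγ]
  have hux : u * x ≤ K' / γ := by
    have h1 : u * x = K' * τ / β / γ := by
      rw [hu, hx]
      field_simp
    rw [h1]
    apply div_le_div_of_nonneg_right _ hγ.le
    rw [div_le_iff₀ hβ0]
    nlinarith only [hT1, hβT, hK]
  have hh' : (h : ℝ) ≤ C + 13 + w + x := by
    have h1 : (β + 1) / (γ * T) = w + x := by rw [hw, hx, ← add_div]
    linarith only [hh, h1]
  have hLh : (L : ℝ) * h ≤ (u + 1) * (C + 13 + w + x) :=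
    mul_le_mul hL hh' (Nat.cast_nonneg _) (by linarith only [hu0])
  have hC0 : (0 : ℝ) ≤ C := Nat.cast_nonneg C
  have hexp : (u + 1) * (C + 13 + w + x) = u * (C + 13) + u * w + u * x + (C + 13 + w + x) := by ring
  have huC : u * (C + 13) + u ≤ K' * (C + 14) / S * τ := by
    have h1 : u * (C + 13) + u = u * (C + 14) := by ring
    rw [h1]
    calc u * (C + 14) ≤ (K' * τ / S) * (C + 14) :=
          mul_le_mul_of_nonneg_right hu1 (by linarith only [hC0])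
      _ = K' * (C + 14) / S * τ := by ring
  have h2 : K' * (C + 14) / S * τ ≤ ε / 4 * τ := mul_le_mul_of_nonneg_right hS1 hτ0
  have h3 : K' * τ / γ ≤ (1 + ε / 2) * τ := by
    calc K' * τ / γ = K' / γ * τ := by ring
      _ ≤ _ := mul_le_mul_of_nonneg_right h1 hτ0
  have h4 : D * 4 ≤ τ * ε := by
    rwa [div_le_iff₀ hε] at hτ
  have h5 : 2 * S / γ + 1 / γ = (2 * S + 1) / γ := by rw [← add_div]
  push_cast
  rw [hexp] at hLh
  rw [huw] at hLh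
  linarith only [hLh, hL, huC, h2, h3, h4, h5, hw1, hx1, hux, hD]

end Pool.Agent.Lib.MP_9dd88f_nt.HF
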