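import Mathlib
import Pool.Agent.Lib.MP_9dd88f_nt.HF.Defs

/-!
# Pairs with a given product
-/

namespace Pool.Agent.Lib.MP_9dd88f_nt.HF

open Finset Filter

/-- **Job RedFin (a).** The number of pairs `(a, b)` with `sp a * sp b = D` for `drp x v`.

Proof. `a` is arbitrary (`2^u` choices); given `a`, `sp (drp x v) b` is determined, and `sp (drp x v) b = ∏_{i ∈ b, v i ∤ x} v i` determines
`b ∩ {i : v i ∤ x}` (distinct primes); the rest of `b` is a subset of `{i : v i ∣ x}`. -/
theorem pairs_le {u : ℕ} (x : ℕ) (v : Fin u → ℕ) (hv : Function.Injective v)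
    (hp : ∀ i, (v i).Prime) (D : ℕ) (hD : 0 < D) :
    ((univ : Finset (Finset (Fin u) × Finset (Fin u))).filter
      (fun ab => sp (drp x v) ab.1 * sp (drp x v) ab.2 = D)).card ≤
      2 ^ (u + ((univ : Finset (Fin u)).filter (fun i => v i ∣ x)).card) := by
  classical
  set G := (univ : Finset (Fin u)).filter (fun i => v i ∣ x) with hG
  have key : ∀ b : Finset (Fin u), ∀ i, ¬ v i ∣ x → (i ∈ b ↔ v i ∣ sp (drp x v) b) := by
    intro b i hi
    constructor
    · intro hib
      have h1 : drp x v i = v i := by simp [drp, hi]
      have h2 : drp x v i ∣ sp (drp x v) b := Finset.dvd_prod_of_mem (drp x v) hib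
      rwa [h1] at h2
    · intro h
      unfold sp at h
      rw [Prime.dvd_finset_prod_iff (hp i).prime] at h
      obtain ⟨j, hj, hjd⟩ := h
      unfold drp at hjd
      split_ifs at hjd with h3
      · exact absurd (Nat.dvd_one.mp hjd) (hp i).one_lt.ne'
      · have h4 := (Nat.prime_dvd_prime_iff_eq (hp i) (hp j)).mp hjd
        have h5 : i = j := hv h4
        rw [h5]
        exact hj
  have hcard : ((univ : Finset (Finset (Fin u) × Finset (Fin u))).filter
      (fun ab => sp (drp x v) ab.1 * sp (drp x v) ab.2 = D)).card ≤
      ((univ : Finset (Finset (Fin u))) ×ˢ G.powerset).card := by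
    apply Finset.card_le_card_of_injOn (fun ab => (ab.1, ab.2 ∩ G))
    · intro ab _
      simp [Finset.inter_subset_right]
    · rintro ⟨a, b⟩ hab ⟨a', b'⟩ hab' heq
      simp only [coe_filter, mem_univ, true_and, Set.mem_setOf_eq] at hab hab'
      simp only [Prod.mk.injEq] at heq
      obtain ⟨h1, h2⟩ := heq
      subst h1
      have ha : 0 < sp (drp x v) a := by
        rcases Nat.eq_zero_or_pos (sp (drp x v) a) with h0 | h0
        · rw [h0, zero_mul] at hab
          omega
        · exact h0
      have h3 : sp (drp x v) b = sp (drp x v) b' :=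
        Nat.eq_of_mul_eq_mul_left ha (hab.trans hab'.symm)
      have h4 : b = b' := by
        ext i
        by_cases hi : v i ∣ x
        · have hiG : i ∈ G := by
            rw [hG]
            simp [hi]
          constructor
          · intro hib
            have : i ∈ b ∩ G := Finset.mem_inter.mpr ⟨hib, hiG⟩
            rw [h2] at this
            exact (Finset.mem_inter.mp this).1
          · intro hib
            have : i ∈ b' ∩ G := Finset.mem_inter.mpr ⟨hib, hiG⟩
            rw [← h2] at this
            exact (Finset.mem_inter.mp this).1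
        · rw [key b i hi, key b' i hi, h3]
      rw [h4]
  refine hcard.trans (le_of_eq ?_)
  rw [Finset.card_product, Finset.card_powerset, Finset.card_univ, Fintype.card_finset,
    Fintype.card_fin, pow_add]

end Pool.Agent.Lib.MP_9dd88f_nt.HF
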