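import Mathlib
import Pool.Agent.Lib.MP_9dd88f_nt.HF.FinA
import Pool.Agent.Lib.MP_9dd88f_nt.HF.Count12

/-!
# The final representation with 12 terms
-/

namespace Pool.Agent.Lib.MP_9dd88f_nt.HF

open Finset Filter

private theorem finb_fiber {β : Type} [Fintype β] [DecidableEq β] (P : (Fin 12 → β) → Prop) [DecidablePred P]
    (l : Fin 12) (B : ℕ)
    (h : ∀ α : Fin 12 → β, ((univ : Finset β).filter fun b => P (Function.update α l b)).card ≤ B) :
    ((univ : Finset (Fin 12 → β)).filter P).card ≤ B * Fintype.card β ^ 11 := by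
  classical
  have h1 := Finset.card_le_mul_card_image_of_maps_to (s := (univ : Finset (Fin 12 → β)).filter P)
    (t := (univ : Finset ({j : Fin 12 // j ≠ l} → β))) (f := fun α j => α j.1)
    (fun _ _ => mem_univ _) B (by
      intro c _
      by_cases hne : ((univ.filter P).filter fun α : Fin 12 → β => (fun j : {j : Fin 12 // j ≠ l} => α j.1) = c).Nonempty
      · obtain ⟨α0, hα0⟩ := hne
        refine le_trans ?_ (h α0)
        refine Finset.card_le_card_of_injOn (fun α => α l) ?_ ?_
        · intro α hα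
          rw [Finset.mem_coe, mem_filter, mem_filter] at hα
          rw [mem_filter] at hα0
          rw [Finset.mem_coe, mem_filter]
          refine ⟨mem_univ _, ?_⟩
          have h2 : Function.update α0 l (α l) = α := by
            funext j
            by_cases hj : j = l
            · rw [hj, Function.update_self]
            · rw [Function.update_of_ne hj]
              have := congrFun (hα0.2.trans hα.2.symm) ⟨j, hj⟩
              exact this
          rw [h2]
          exact hα.1.2
        · intro α hα α' hα' hl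
          rw [Finset.mem_coe, mem_filter] at hα hα'
          funext j
          by_cases hj : j = l
          · rw [hj]
            exact hl
          · exact congrFun (hα.2.trans hα'.2.symm) ⟨j, hj⟩
      · rw [Finset.not_nonempty_iff_eq_empty] at hne
        rw [hne, Finset.card_empty]
        exact Nat.zero_le _)
  refine h1.trans (le_of_eq ?_)
  congr 1
  rw [Finset.card_univ, Fintype.card_fun, Fintype.card_subtype_compl, Fintype.card_subtype_eq, Fintype.card_fin]

private theorem finb_card (u : ℕ) : Fintype.card (Finset (Fin u) × Finset (Fin u)) = 4 ^ u := by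
  rw [Fintype.card_prod, Fintype.card_finset, Fintype.card_fin, ← mul_pow]
  norm_num

/-- **Job RedFin (b).** Deterministic final step.

Proof. Let `B = 2^(u + e)`, `w = drp x v`, `D_l(α) = sp w (α l).1 * sp w (α l).2` (a divisor of `(∏ v)²`, so of `M` and `N`), `y = ∑ D_l / x`, `n_l = (N / D_l) y`.
For `α` in the set `𝒜` of `count12` (`|𝒜| ≥ (4^u)^12/(2x)`): `∑ 1/n_l = ∑ D_l / (N y) = x / N`. The `n_l` are distinct iff the `D_l` are.
Excluded `α`: (1) `D_l = D_m`, `l ≠ m`: given all `α i`, `i ≠ l`, at most `B` choices of `α l` by (a): at most `144 (4^u)^11 B` tuples.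
(2) `n_l = z ∈ Z`: `N ∑ D_i = z x D_l`, so with `s = ∑_{i≠l} D_i > 0`, `D_l (z x - N) = N s` in `ℤ`, so `D_l` is determined by the others: at most
`12 |Z| (4^u)^11 B` tuples. Total `≤ (144 + 12 cap) (4^u)^11 B < (4^u)^12/(2x)` by `hcap` (`4^u = 2^u 2^u`). So some `α` remains; `T = {n_l}`. -/
theorem fin_at {u : ℕ} (x M cap : ℕ) (v : Fin u → ℕ) (hv : Function.Injective v)
    (hp : ∀ i, (v i).Prime) (hx : 0 < x) (hM : (∏ i, v i) ^ 2 ∣ M)
    (hgood : ∀ q, q ∣ x → 1 < q → 3 ≤ q ∧ GoodMod (drp x v) q)
    (hcap : 2 * x * (144 + 12 * cap) *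
      2 ^ ((univ : Finset (Fin u)).filter (fun i => v i ∣ x)).card < 2 ^ u) :
    FinAt 12 M cap x := by
  classical
  intro N hN hMN Z hZ
  set e : ℕ := ((univ : Finset (Fin u)).filter (fun i => v i ∣ x)).card with he
  set w : Fin u → ℕ := drp x v with hw
  set D : Finset (Fin u) × Finset (Fin u) → ℕ := fun ab => sp w ab.1 * sp w ab.2 with hD
  have hwp : ∀ i, 0 < w i := by
    intro i
    rw [hw]
    unfold drp
    split_ifs
    · exact one_pos
    · exact (hp i).pos
  have hspp : ∀ S : Finset (Fin u), 0 < sp w S := fun S => Finset.prod_pos fun i _ => hwp i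
  have hDp : ∀ ab, 0 < D ab := fun ab => Nat.mul_pos (hspp _) (hspp _)
  have hspd : ∀ S : Finset (Fin u), sp w S ∣ ∏ i, v i := by
    intro S
    have h1 : sp w S ∣ ∏ i ∈ S, v i := by
      refine Finset.prod_dvd_prod_of_dvd _ _ fun i _ => ?_
      rw [hw]
      unfold drp
      split_ifs
      · exact one_dvd _
      · exact dvd_rfl
    exact h1.trans (Finset.prod_dvd_prod_of_subset _ _ _ (subset_univ S))
  have hDN : ∀ ab, D ab ∣ N := by
    intro ab
    refine Dvd.dvd.trans ?_ (hM.trans hMN)
    rw [pow_two]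
    exact mul_dvd_mul (hspd _) (hspd _)
  have hpl : ∀ d : ℕ, 0 < d → ((univ : Finset (Finset (Fin u) × Finset (Fin u))).filter
      (fun ab => D ab = d)).card ≤ 2 ^ (u + e) := fun d hd => pairs_le x v hv hp d hd
  set A := (univ : Finset (Fin 12 → Finset (Fin u) × Finset (Fin u))).filter
        (fun α => x ∣ ∑ l, D (α l)) with hA
  have hAc : ((4 : ℝ) ^ u) ^ 12 / (2 * x) ≤ (A.card : ℝ) := count12 hx w hgood
  -- the excluded tuples
  set B1 : Fin 12 × Fin 12 → Finset (Fin 12 → Finset (Fin u) × Finset (Fin u)) := fun lm =>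
    univ.filter (fun α => lm.1 ≠ lm.2 ∧ D (α lm.1) = D (α lm.2)) with hB1
  set B2 : Fin 12 × ℕ → Finset (Fin 12 → Finset (Fin u) × Finset (Fin u)) := fun lz =>
    univ.filter (fun α => lz.2 * x * D (α lz.1) = N * ∑ l, D (α l)) with hB2
  have hB1c : ∀ lm, (B1 lm).card ≤ 2 ^ (u + e) * (4 ^ u) ^ 11 := by
    intro lm
    rw [← finb_card u]
    refine finb_fiber _ lm.1 _ fun α => ?_
    by_cases hlm : lm.1 = lm.2
    · rw [Finset.filter_false_of_mem]
      · rw [Finset.card_empty]
        exact Nat.zero_le _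
      · intro b _ h1
        exact h1.1 hlm
    · refine le_trans (Finset.card_le_card ?_) (hpl (D (α lm.2)) (hDp _))
      intro b hb
      rw [mem_filter] at hb ⊢
      refine ⟨mem_univ _, ?_⟩
      have h1 := hb.2.2
      rw [Function.update_self, Function.update_of_ne (fun h => hlm h.symm)] at h1
      exact h1
  have hB2c : ∀ lz, (B2 lz).card ≤ 2 ^ (u + e) * (4 ^ u) ^ 11 := by
    intro lz
    rw [← finb_card u]
    refine finb_fiber _ lz.1 _ fun α => ?_
    have hsum : ∀ b, ∑ l, D (Function.update α lz.1 b l) = D b + ∑ l ∈ univ.erase lz.1, D (α l) := by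
      intro b
      rw [← Finset.add_sum_erase univ _ (mem_univ lz.1), Function.update_self]
      congr 1
      refine Finset.sum_congr rfl fun l hl => ?_
      rw [Function.update_of_ne (Finset.ne_of_mem_erase hl)]
    set s := ∑ l ∈ univ.erase lz.1, D (α l) with hs
    have hs0 : 0 < s := by
      refine Finset.sum_pos (fun l _ => hDp _) ?_
      rw [← Finset.card_pos, Finset.card_erase_of_mem (mem_univ _), Finset.card_univ, Fintype.card_fin]
      norm_num
    by_cases hex : ∃ b0, lz.2 * x * D b0 = N * (D b0 + s)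
    · obtain ⟨b0, hb0⟩ := hex
      refine le_trans (Finset.card_le_card ?_) (hpl (D b0) (hDp _))
      intro b hb
      rw [mem_filter] at hb ⊢
      refine ⟨mem_univ _, ?_⟩
      have h1 := hb.2
      rw [Function.update_self, hsum b] at h1
      have h2 : (lz.2 * x : ℤ) * D b = N * (D b + s) := by exact_mod_cast h1
      have h3 : (lz.2 * x : ℤ) * D b0 = N * (D b0 + s) := by exact_mod_cast hb0
      have hN' : (0 : ℤ) < N := by exact_mod_cast hN
      have hs' : (0 : ℤ) < s := by exact_mod_cast hs0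
      have h4 : ((lz.2 * x : ℤ) - N) * D b = ((lz.2 * x : ℤ) - N) * D b0 := by linarith
      have h5 : ((lz.2 * x : ℤ) - N) ≠ 0 := by
        intro h6
        have h7 : (N : ℤ) * s = ((lz.2 * x : ℤ) - N) * D b := by linarith
        rw [h6, zero_mul] at h7
        exact absurd h7 (mul_pos hN' hs').ne'
      exact_mod_cast mul_left_cancel₀ h5 h4
    · rw [Finset.filter_false_of_mem]
      · rw [Finset.card_empty]
        exact Nat.zero_le _
      · intro b _ h1
        rw [Function.update_self, hsum b] at h1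
        exact hex ⟨b, h1⟩
  set Bd := (univ : Finset (Fin 12 × Fin 12)).biUnion B1 ∪ ((univ : Finset (Fin 12)) ×ˢ Z).biUnion B2 with hBd
  have hBdc : Bd.card ≤ (144 + 12 * cap) * (2 ^ (u + e) * (4 ^ u) ^ 11) := by
    rw [hBd, add_mul]
    refine (Finset.card_union_le _ _).trans (Nat.add_le_add ?_ ?_)
    · refine (Finset.card_biUnion_le_card_mul _ _ _ fun lm _ => hB1c lm).trans (le_of_eq ?_)
      rw [Finset.card_univ, Fintype.card_prod, Fintype.card_fin]
    · refine (Finset.card_biUnion_le_card_mul _ _ _ fun lz _ => hB2c lz).trans ?_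
      refine Nat.mul_le_mul_right _ ?_
      rw [Finset.card_product, Finset.card_univ, Fintype.card_fin]
      exact Nat.mul_le_mul_left _ hZ
  have hlt : Bd.card < A.card := by
    have h1 : (Bd.card : ℝ) < (A.card : ℝ) := by
      refine lt_of_lt_of_le ?_ hAc
      have hxR : (0 : ℝ) < 2 * x := by
        have : (0 : ℝ) < x := by exact_mod_cast hx
        linarith
      rw [lt_div_iff₀ hxR]
      have h2 : (Bd.card : ℝ) ≤ (144 + 12 * cap) * (2 ^ (u + e) * (4 ^ u) ^ 11) := by
        exact_mod_cast hBdc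
      have h3 : (2 * x * (144 + 12 * cap) * 2 ^ e : ℝ) < 2 ^ u := by exact_mod_cast hcap
      have h4 : (0 : ℝ) < 2 ^ u * (4 ^ u) ^ 11 := by positivity
      calc (Bd.card : ℝ) * (2 * x) ≤ ((144 + 12 * cap) * (2 ^ (u + e) * (4 ^ u) ^ 11)) * (2 * x) :=
            mul_le_mul_of_nonneg_right h2 hxR.le
        _ = (2 * x * (144 + 12 * cap) * 2 ^ e) * (2 ^ u * (4 ^ u) ^ 11) := by
            rw [pow_add]
            ring
        _ < 2 ^ u * (2 ^ u * (4 ^ u) ^ 11) := mul_lt_mul_of_pos_right h3 h4
        _ = ((4 : ℝ) ^ u) ^ 12 := by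
            have h5 : (4 : ℝ) ^ u = 2 ^ u * 2 ^ u := by
              rw [← mul_pow]
              norm_num
            rw [← mul_assoc, ← h5]
            ring
    exact_mod_cast h1
  obtain ⟨α, hαA, hαB⟩ := Finset.exists_mem_notMem_of_card_lt_card hlt
  have hxd : x ∣ ∑ l, D (α l) := (mem_filter.1 hαA).2
  obtain ⟨y, hy⟩ := hxd
  have hsum0 : 0 < ∑ l, D (α l) := Finset.sum_pos (fun l _ => hDp _) univ_nonempty
  have hy0 : 0 < y := by
    rcases Nat.eq_zero_or_pos y with h | h
    · rw [h, mul_zero] at hy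
      omega
    · exact h
  have hne : ∀ l m, l ≠ m → D (α l) ≠ D (α m) := by
    intro l m hlm h
    apply hαB
    rw [hBd, mem_union]
    left
    rw [mem_biUnion]
    exact ⟨(l, m), mem_univ _, mem_filter.2 ⟨mem_univ _, hlm, h⟩⟩
  set n : Fin 12 → ℕ := fun l => N / D (α l) * y with hn
  have hnD : ∀ l, n l * D (α l) = N * y := by
    intro l
    rw [hn]
    show N / D (α l) * y * D (α l) = N * y
    rw [mul_right_comm, Nat.div_mul_cancel (hDN _)]
  have hn0 : ∀ l, 0 < n l := by
    intro l
    rcases Nat.eq_zero_or_pos (n l) with h | h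
    · have h1 := hnD l
      rw [h, zero_mul] at h1
      exact absurd h1.symm (Nat.mul_pos hN hy0).ne'
    · exact h
  have hinj : Function.Injective n := by
    intro l m hlm
    by_contra hne'
    apply hne l m hne'
    have h1 := hnD l
    have h2 := hnD m
    rw [← hlm] at h2
    exact Nat.eq_of_mul_eq_mul_left (hn0 l) (h1.trans h2.symm)
  refine ⟨univ.image n, ?_, ?_, ?_⟩
  · refine Finset.card_image_le.trans ?_
    rw [Finset.card_univ, Fintype.card_fin]
  · intro m hm
    rw [mem_image] at hm
    obtain ⟨l, -, rfl⟩ := hm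
    refine ⟨hn0 l, fun hz => ?_⟩
    apply hαB
    rw [hBd, mem_union]
    right
    rw [mem_biUnion]
    refine ⟨(l, n l), mem_product.2 ⟨mem_univ _, hz⟩, mem_filter.2 ⟨mem_univ _, ?_⟩⟩
    show n l * x * D (α l) = N * ∑ l, D (α l)
    rw [hy, mul_right_comm, hnD l]
    ring
  · rw [Finset.sum_image fun l _ m _ h => hinj h]
    have hNq : (N : ℚ) ≠ 0 := by exact_mod_cast hN.ne'
    have hyq : (y : ℚ) ≠ 0 := by exact_mod_cast hy0.ne'
    have h1 : ∀ l ∈ (univ : Finset (Fin 12)), (1 : ℚ) / n l = D (α l) / (N * y) := by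
      intro l _
      have h2 : (n l : ℚ) * D (α l) = N * y := by exact_mod_cast hnD l
      have h3 : (n l : ℚ) ≠ 0 := by exact_mod_cast (hn0 l).ne'
      rw [← h2]
      have h4 : (D (α l) : ℚ) ≠ 0 := by exact_mod_cast (hDp (α l)).ne'
      field_simp
    rw [Finset.sum_congr rfl h1, ← Finset.sum_div]
    have h5 : (∑ l, (D (α l) : ℚ)) = x * y := by exact_mod_cast hy
    rw [h5]
    field_simp

end Pool.Agent.Lib.MP_9dd88f_nt.HF
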