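import Mathlib
import Pool.Agent.Lib.MP_9dd88f_nt.HF.CollC
import Pool.Agent.Lib.MP_9dd88f_nt.HF.PrimesC

/-!
# Existence of the final group
-/

namespace Pool.Agent.Lib.MP_9dd88f_nt.HF

open Finset Filter

private theorem finex_fac_nonneg {x : ℕ} (χ : DirichletCharacter ℂ x) (p : ℕ) : 0 ≤ fac χ p := by
  unfold fac; positivity

private theorem finex_inj (s : Finset ℕ) (u : ℕ) (hu : 2 * u ^ 2 ≤ s.card) :
    (s.card : ℝ) ^ u / 2 ≤
      (((Fintype.piFinset (fun _ : Fin u => s)).filter Function.Injective).card : ℝ) := by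
  have h1 : s.card.descFactorial u ≤
      ((Fintype.piFinset (fun _ : Fin u => s)).filter Function.Injective).card := by
    have h := Fintype.card_embedding_eq (α := Fin u) (β := s)
    rw [Fintype.card_coe, Fintype.card_fin] at h
    rw [← h, ← Finset.card_univ]
    apply Finset.card_le_card_of_injOn (fun e : Fin u ↪ s => fun i => (e i : ℕ))
    · intro e _
      simp only [Finset.coe_filter, Set.mem_ofPred_eq, Fintype.mem_piFinset]
      exact ⟨fun i => (e i).2, fun i j hij => e.injective (Subtype.ext hij)⟩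
    · intro e _ e' _ hee
      ext i
      exact congrFun hee i
  have h2 := Nat.pow_sub_le_descFactorial s.card u
  have h3 : ((s.card + 1 - u : ℕ) : ℝ) ^ u ≤
      (((Fintype.piFinset (fun _ : Fin u => s)).filter Function.Injective).card : ℝ) := by
    exact_mod_cast h2.trans h1
  refine le_trans ?_ h3
  rcases Nat.eq_zero_or_pos u with hu0 | hu0
  · subst hu0; norm_num
  have hn : 0 < s.card := by
    have : 0 < 2 * u ^ 2 := by positivity
    omega
  have hun : u ≤ s.card := by nlinarith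
  have hn' : (0 : ℝ) < s.card := by exact_mod_cast hn
  have h4 : (s.card : ℝ) - u ≤ ((s.card + 1 - u : ℕ) : ℝ) := by
    rw [Nat.cast_sub (by omega)]; push_cast; linarith
  have h5 : (0 : ℝ) ≤ (s.card : ℝ) - u := by
    have : (u : ℝ) ≤ s.card := by exact_mod_cast hun
    linarith
  refine le_trans ?_ (pow_le_pow_left₀ h5 h4 u)
  have h6 : (s.card : ℝ) - u = s.card * (1 + -(u / s.card)) := by field_simp; ring
  rw [h6, mul_pow]
  have h7 : (u : ℝ) / s.card ≤ 1 := by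
    rw [div_le_one hn']; exact_mod_cast hun
  have h8 := one_add_mul_le_pow (a := -((u : ℝ) / s.card)) (by linarith) u
  have h9 : (u : ℝ) * (u / s.card) ≤ 1 / 2 := by
    rw [← mul_div_assoc, div_le_iff₀ hn']
    have : (2 * u ^ 2 : ℝ) ≤ s.card := by exact_mod_cast hu
    nlinarith
  have h10 : (1 : ℝ) / 2 ≤ (1 + -((u : ℝ) / s.card)) ^ u := by
    refine le_trans ?_ h8
    linarith
  have h11 : (0 : ℝ) ≤ (s.card : ℝ) ^ u := by positivity
  nlinarith

private theorem finex_card_char (q : ℕ) (hq : 0 < q) :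
    Fintype.card (DirichletCharacter ℂ q) = q.totient := by
  have : NeZero q := ⟨hq.ne'⟩
  rw [← Nat.card_eq_fintype_card]
  exact DirichletCharacter.card_eq_totient_of_hasEnoughRootsOfUnity ℂ q

private theorem finex_few (x t : ℕ) (hx : 1 ≤ x) (s : Finset ℕ) (hs : ∀ p ∈ s, p.Prime)
    (hxt : (x : ℝ) < 2 ^ (t : ℝ)) : (s.filter (fun p => p ∣ x)).card ≤ t := by
  have h1 : ∏ p ∈ s.filter (fun p => p ∣ x), p ∣ x := by
    apply Finset.prod_primes_dvd
    · intro p hp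
      exact (hs p (Finset.mem_filter.1 hp).1).prime
    · intro p hp
      exact (Finset.mem_filter.1 hp).2
  have h2 := Nat.le_of_dvd (by omega) h1
  have h3 : 2 ^ (s.filter (fun p => p ∣ x)).card ≤ ∏ p ∈ s.filter (fun p => p ∣ x), p := by
    apply Finset.pow_card_le_prod
    intro p hp
    exact (hs p (Finset.mem_filter.1 hp).1).two_le
  have h4 : x < 2 ^ t := by
    rw [Real.rpow_natCast] at hxt
    exact_mod_cast hxt
  have h5 : 2 ^ (s.filter (fun p => p ∣ x)).card < 2 ^ t := by omega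
  exact ((Nat.pow_lt_pow_iff_right (by norm_num)).1 h5).le

private theorem finex_sum {q : ℕ} (u x : ℕ) (s : Finset ℕ) (χ : DirichletCharacter ℂ q) (a : ℝ)
    (ha : ∑ p ∈ s, fac χ (if p ∣ x then 1 else p) ≤ a) :
    ∑ v ∈ Fintype.piFinset (fun _ : Fin u => s), ∏ i, fac χ (drp x v i) ≤ a ^ u := by
  have h := Finset.prod_univ_sum (fun _ : Fin u => s)
    (fun _ p => fac χ (if p ∣ x then 1 else p))
  simp only [Finset.prod_const, Finset.card_univ, Fintype.card_fin] at h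
  have h2 : ∑ v ∈ Fintype.piFinset (fun _ : Fin u => s), ∏ i, fac χ (drp x v i) =
      (∑ p ∈ s, fac χ (if p ∣ x then 1 else p)) ^ u := by
    rw [h]; rfl
  rw [h2]
  exact pow_le_pow_left₀ (Finset.sum_nonneg (fun p _ => finex_fac_nonneg χ _)) ha u

open Classical in
private theorem finex_triples (N : ℕ) (c : ℝ) (hc : 0 ≤ c) :
    ∑ x ∈ Ico 1 N, ∑ q ∈ x.divisors, ∑ _χ : DirichletCharacter ℂ q, c ≤ (N : ℝ) ^ 2 * c := by
  have h1 : ∀ x ∈ Ico 1 N, ∑ q ∈ x.divisors, ∑ _χ : DirichletCharacter ℂ q, c = (x : ℝ) * c := by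
    intro x hx
    have h2 : ∀ q ∈ x.divisors, ∑ _χ : DirichletCharacter ℂ q, c = (q.totient : ℝ) * c := by
      intro q hq
      rw [Finset.sum_const, Finset.card_univ,
        finex_card_char q (Nat.pos_of_mem_divisors hq), nsmul_eq_mul]
    rw [Finset.sum_congr rfl h2, ← Finset.sum_mul]
    congr 1
    exact_mod_cast Nat.sum_totient x
  rw [Finset.sum_congr rfl h1, ← Finset.sum_mul]
  apply mul_le_mul_of_nonneg_right _ hc
  have h3 : ∑ x ∈ Ico 1 N, (x : ℝ) ≤ ∑ _x ∈ Ico 1 N, (N : ℝ) := by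
    apply Finset.sum_le_sum
    intro x hx
    exact_mod_cast (Finset.mem_Ico.1 hx).2.le
  refine h3.trans ?_
  rw [Finset.sum_const, Nat.card_Ico, nsmul_eq_mul, sq]
  apply mul_le_mul_of_nonneg_right _ (Nat.cast_nonneg N)
  exact_mod_cast Nat.sub_le N 1

/-- **Job FinEx.** One tuple of distinct primes of `(t, t^20]` controls all unbiased characters modulo all small moduli.

Proof. `s = primesIoc t (t^20)`, `|s| ≥ t^19.9` (`pool_card_fin`), `u = ⌊θ t⌋`. Fix `1 ≤ x < 2^(θt/20)`, `q ∣ x`, `χ` mod `q` not in `bad`: `‖∑_{p∈s} χ(p)‖ ≤ |s|/10`.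
The number of primes dividing `x` is `≤ log₂ x ≤ t ≤ |s|/100`, so by `fac_mean` `A := ∑_{p∈s} fac χ (drop p) ≤ 0.56 |s|`, and
`∑_{v ∈ s^u} ∏_i fac χ (drp x v i) = A^u ≤ (0.56 |s|)^u` (`Finset.prod_univ_sum`, `Fintype.piFinset`). Markov: at most `2^(θt/10) 0.56^u |s|^u` tuples
`v ∈ s^u` have `∏ > 2^(-θt/10)`. The number of triples `(x, q, χ)` is `≤ ∑_x ∑_{q∣x} φ(q) = ∑_x x ≤ 2^(θt/10)` (`Nat.sum_totient`; the number of
characters mod `q` is `φ(q)`: `DirichletCharacter.card_eq_totient_of_hasEnoughRootsOfUnity`). Total of bad tuples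
`≤ 2^(θt/5) 0.56^u |s|^u ≤ |s|^u / 4` for large `t` (`0.56 < 2^(-0.8)`, `u ≥ θt - 1`). The number of non-injective tuples is
`≤ u² |s|^(u-1) ≤ |s|^u/4` (or: injective ones are `≥ (|s|-u)^u`-type with `(1 - u/|s|)^u ≥ 1 - u²/|s|`). So a good injective tuple exists. -/
theorem fin_ex (θ : ℝ) (h0 : 0 < θ) (h1 : θ ≤ 1) : ∀ᶠ t : ℕ in atTop,
    ∃ v : Fin ⌊θ * t⌋₊ → ℕ, Function.Injective v ∧
      (∀ i, (v i).Prime ∧ t < v i ∧ v i ≤ t ^ 20) ∧
      ∀ x : ℕ, 1 ≤ x → (x : ℝ) < 2 ^ (θ * t / 20) → ∀ q, q ∣ x →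
        ∀ χ : DirichletCharacter ℂ q, χ ∉ bad q (primesIoc t (t ^ 20)) (1 / 10) →
          ∏ i, fac χ (drp x v i) ≤ 2 ^ (-(θ * t / 10)) := by
  classical
  have hpool := pool_card_fin
  have hlim : Tendsto (fun t : ℕ => ⌊θ * t⌋₊) atTop atTop :=
    tendsto_nat_floor_atTop.comp
      ((tendsto_natCast_atTop_atTop (R := ℝ)).const_mul_atTop h0)
  have hsm0 : Tendsto (fun n : ℕ => 16 * (0.65 : ℝ) ^ n) atTop (nhds (16 * 0)) :=
    (tendsto_pow_atTop_nhds_zero_of_lt_one (by norm_num) (by norm_num)).const_mul 16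
  have hsm1 : ∀ᶠ n : ℕ in atTop, 16 * (0.65 : ℝ) ^ n < 1 / 2 :=
    hsm0.eventually (gt_mem_nhds (by norm_num))
  have hsm2 : ∀ᶠ t : ℕ in atTop, 16 * (0.65 : ℝ) ^ ⌊θ * t⌋₊ < 1 / 2 := hlim.eventually hsm1
  filter_upwards [hpool, hsm2, eventually_ge_atTop 100] with t ht hsm ht100
  set s := primesIoc t (t ^ 20) with hs
  set u := ⌊θ * t⌋₊ with hu
  have ht1 : (100 : ℝ) ≤ t := by exact_mod_cast ht100
  have htpos : (0 : ℝ) < t := by linarith
  have hsprime : ∀ p ∈ s, p.Prime ∧ t < p ∧ p ≤ t ^ 20 := by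
    intro p hp
    rw [hs, primesIoc, Finset.mem_filter, Finset.mem_Ioc] at hp
    exact ⟨hp.2, hp.1.1, hp.1.2⟩
  have hcard : (t : ℝ) ^ 3 ≤ s.card := by
    refine le_trans ?_ ht
    rw [← Real.rpow_natCast]
    exact Real.rpow_le_rpow_of_exponent_le (by linarith) (by norm_num)
  have hut : (u : ℝ) ≤ t := by
    have h2 : (u : ℝ) ≤ θ * t := Nat.floor_le (by positivity)
    nlinarith
  have hut1 : θ * t < u + 1 := Nat.lt_floor_add_one _
  have hu2 : 2 * u ^ 2 ≤ s.card := by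
    have h2 : (2 * u ^ 2 : ℝ) ≤ s.card := by
      refine le_trans ?_ hcard
      have h3 : (u : ℝ) ^ 2 ≤ (t : ℝ) ^ 2 := by gcongr
      nlinarith [sq_nonneg (t : ℝ)]
    exact_mod_cast h2
  have hfew : (t : ℝ) ≤ 0.01 * s.card := by nlinarith [sq_nonneg (t : ℝ)]
  have hs0 : (0 : ℝ) < s.card := by nlinarith [sq_nonneg (t : ℝ)]
  have hinj := finex_inj s u hu2
  by_contra hcon
  push Not at hcon
  set N := ⌈(2 : ℝ) ^ (θ * t / 20)⌉₊ with hN
  set G : (Fin u → ℕ) → ℝ := fun v => ∑ x ∈ Ico 1 N, ∑ q ∈ x.divisors,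
    ∑ χ ∈ (univ : Finset (DirichletCharacter ℂ q)).filter (fun χ => χ ∉ bad q s (1 / 10)),
      ∏ i, fac χ (drp x v i) with hG
  have hprod0 : ∀ (x q : ℕ) (χ : DirichletCharacter ℂ q) (v : Fin u → ℕ),
      0 ≤ ∏ i, fac χ (drp x v i) := fun x q χ v =>
    Finset.prod_nonneg (fun i _ => finex_fac_nonneg χ _)
  have hG0 : ∀ v, 0 ≤ G v := fun v =>
    Finset.sum_nonneg (fun x _ => Finset.sum_nonneg (fun q _ => Finset.sum_nonneg
      (fun χ _ => hprod0 x q χ v)))
  have hbad : ∀ v ∈ (Fintype.piFinset (fun _ : Fin u => s)).filter Function.Injective,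
      (2 : ℝ) ^ (-(θ * t / 10)) ≤ G v := by
    intro v hv
    rw [Finset.mem_filter, Fintype.mem_piFinset] at hv
    obtain ⟨x, hx1, hx2, q, hq, χ, hχ, hlt⟩ := hcon v hv.2 (fun i => hsprime _ (hv.1 i))
    have hxN : x ∈ Ico 1 N := by
      rw [Finset.mem_Ico]
      refine ⟨hx1, ?_⟩
      rw [hN, Nat.lt_ceil]
      exact hx2
    have hqx : q ∈ x.divisors := Nat.mem_divisors.2 ⟨hq, by omega⟩
    have hχm : χ ∈ (univ : Finset (DirichletCharacter ℂ q)).filter
        (fun χ => χ ∉ bad q s (1 / 10)) := Finset.mem_filter.2 ⟨Finset.mem_univ _, hχ⟩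
    refine hlt.le.trans ?_
    calc ∏ i, fac χ (drp x v i) ≤ ∑ χ ∈ (univ : Finset (DirichletCharacter ℂ q)).filter
          (fun χ => χ ∉ bad q s (1 / 10)), ∏ i, fac χ (drp x v i) :=
          Finset.single_le_sum (f := fun χ : DirichletCharacter ℂ q => ∏ i, fac χ (drp x v i))
            (fun χ _ => hprod0 x q χ v) hχm
      _ ≤ ∑ q ∈ x.divisors, ∑ χ ∈ (univ : Finset (DirichletCharacter ℂ q)).filter
          (fun χ => χ ∉ bad q s (1 / 10)), ∏ i, fac χ (drp x v i) :=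
          Finset.single_le_sum (f := fun q => ∑ χ ∈ (univ : Finset (DirichletCharacter ℂ q)).filter
            (fun χ => χ ∉ bad q s (1 / 10)), ∏ i, fac χ (drp x v i))
            (fun q _ => Finset.sum_nonneg (fun χ _ => hprod0 x q χ v)) hqx
      _ ≤ G v :=
          Finset.single_le_sum (f := fun x => ∑ q ∈ x.divisors,
            ∑ χ ∈ (univ : Finset (DirichletCharacter ℂ q)).filter
            (fun χ => χ ∉ bad q s (1 / 10)), ∏ i, fac χ (drp x v i))
            (fun x _ => Finset.sum_nonneg (fun q _ => Finset.sum_nonneg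
              (fun χ _ => hprod0 x q χ v))) hxN
  have hsumG : ∑ v ∈ Fintype.piFinset (fun _ : Fin u => s), G v ≤
      (N : ℝ) ^ 2 * (0.56 * s.card) ^ u := by
    rw [hG]
    simp only
    rw [Finset.sum_comm]
    refine le_trans ?_ (finex_triples N _ (by positivity))
    apply Finset.sum_le_sum
    intro x hx
    rw [Finset.mem_Ico] at hx
    rw [Finset.sum_comm]
    apply Finset.sum_le_sum
    intro q hq
    rw [Finset.sum_comm]
    refine le_trans (Finset.sum_le_sum (g := fun _ => (0.56 * (s.card : ℝ)) ^ u) ?_) ?_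
    · intro χ hχ
      apply finex_sum
      rw [Finset.mem_filter] at hχ
      have hχ2 : ‖∑ p ∈ s, χ (p : ZMod q)‖ ≤ s.card / 10 := by
        have h := hχ.2
        rw [bad, Finset.mem_filter, not_and] at h
        have h' := not_lt.1 (h (Finset.mem_univ _))
        linarith
      refine (fac_mean x s χ hχ2).trans ?_
      have hxt : (x : ℝ) < 2 ^ (t : ℝ) := by
        have h3 : (x : ℝ) < 2 ^ (θ * t / 20) := by
          rw [← Nat.lt_ceil]; exact hx.2
        refine h3.trans_le ?_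
        apply Real.rpow_le_rpow_of_exponent_le (by norm_num)
        nlinarith
      have h4 := finex_few x t hx.1 s (fun p hp => (hsprime p hp).1) hxt
      have h5 : (((s.filter (fun p => p ∣ x)).card : ℕ) : ℝ) ≤ t := by exact_mod_cast h4
      linarith
    · apply Finset.sum_le_sum_of_subset_of_nonneg (Finset.filter_subset _ _)
      intro χ _ _
      positivity
  have h1' : (((Fintype.piFinset (fun _ : Fin u => s)).filter Function.Injective).card : ℝ) *
      (2 : ℝ) ^ (-(θ * t / 10)) ≤ (N : ℝ) ^ 2 * (0.56 * s.card) ^ u := by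
    rw [← nsmul_eq_mul]
    refine (Finset.card_nsmul_le_sum _ _ _ hbad).trans (le_trans ?_ hsumG)
    exact Finset.sum_le_sum_of_subset_of_nonneg (Finset.filter_subset _ _)
      (fun v _ _ => hG0 v)
  have hN2 : (N : ℝ) ≤ 2 * 2 ^ (θ * t / 20) := by
    have h3 := (Nat.ceil_lt_add_one (a := (2 : ℝ) ^ (θ * t / 20)) (by positivity)).le
    have h4 : (1 : ℝ) ≤ 2 ^ (θ * t / 20) := Real.one_le_rpow (by norm_num) (by positivity)
    rw [← hN] at h3
    linarith
  have hN3 : (N : ℝ) ^ 2 ≤ 4 * 2 ^ (θ * t / 10) := by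
    have h5 : (N : ℝ) ^ 2 ≤ (2 * 2 ^ (θ * t / 20)) ^ 2 := by gcongr
    refine h5.trans (le_of_eq ?_)
    rw [mul_pow, ← Real.rpow_natCast ((2 : ℝ) ^ (θ * t / 20)), ← Real.rpow_mul (by norm_num)]
    norm_num
    congr 1
    ring
  have hinv : (2 : ℝ) ^ (-(θ * t / 10)) * 2 ^ (θ * t / 10) = 1 := by
    rw [← Real.rpow_add (by norm_num)]
    norm_num
  have hAA : (2 : ℝ) ^ (θ * t / 10) * 2 ^ (θ * t / 10) ≤ 2 * (1.15 : ℝ) ^ u := by
    have h6 : (2 : ℝ) ^ (θ * t / 10) * 2 ^ (θ * t / 10) = 2 ^ (θ * t / 5) := by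
      rw [← Real.rpow_add (by norm_num)]
      congr 1
      ring
    rw [h6]
    have h7 : (2 : ℝ) ^ (θ * t / 5) ≤ 2 ^ ((1 : ℝ) / 5 * (u + 1)) := by
      apply Real.rpow_le_rpow_of_exponent_le (by norm_num)
      linarith
    refine h7.trans ?_
    have h8 : (2 : ℝ) ^ ((1 : ℝ) / 5) ≤ 1.15 := by
      have h9 : (2 : ℝ) ≤ 1.15 ^ (5 : ℕ) := by norm_num
      have h10 := Real.rpow_le_rpow (by norm_num) h9 (by norm_num : (0 : ℝ) ≤ 1 / 5)
      refine h10.trans (le_of_eq ?_)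
      rw [← Real.rpow_natCast, ← Real.rpow_mul (by norm_num)]
      norm_num
    rw [Real.rpow_mul (by norm_num)]
    have h11 : ((u : ℝ) + 1) = ((u + 1 : ℕ) : ℝ) := by push_cast; ring
    rw [h11, Real.rpow_natCast]
    refine (pow_le_pow_left₀ (by positivity) h8 (u + 1)).trans ?_
    rw [pow_succ]
    nlinarith [pow_pos (by norm_num : (0 : ℝ) < 1.15) u]
  set A := (2 : ℝ) ^ (θ * t / 10) with hA
  have hApos : 0 < A := by positivity
  set I := (((Fintype.piFinset (fun _ : Fin u => s)).filter Function.Injective).card : ℝ) with hI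
  have hfin : I ≤ 8 * (1.15 : ℝ) ^ u * (0.56 * s.card) ^ u := by
    have h12 : I = I * (2 : ℝ) ^ (-(θ * t / 10)) * A := by
      rw [mul_assoc, hinv, mul_one]
    rw [h12]
    have h13 : (0 : ℝ) ≤ (0.56 * (s.card : ℝ)) ^ u := pow_nonneg (mul_nonneg (by norm_num) hs0.le) _
    have hI0 : 0 ≤ I := by rw [hI]; exact Nat.cast_nonneg _
    generalize hB : (0.56 * (s.card : ℝ)) ^ u = B at *
    generalize hD : (1.15 : ℝ) ^ u = D at *
    have e1 : I * (2 : ℝ) ^ (-(θ * t / 10)) * A ≤ (N : ℝ) ^ 2 * B * A :=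
      mul_le_mul_of_nonneg_right h1' hApos.le
    have e2 : (N : ℝ) ^ 2 * B * A ≤ (4 * A) * B * A :=
      mul_le_mul_of_nonneg_right (mul_le_mul_of_nonneg_right hN3 h13) hApos.le
    have e3 : 4 * (A * A) * B ≤ 4 * (2 * D) * B :=
      mul_le_mul_of_nonneg_right (mul_le_mul_of_nonneg_left hAA (by norm_num)) h13
    linarith
  have hfin2 : I ≤ 8 * (0.65 : ℝ) ^ u * (s.card : ℝ) ^ u := by
    refine hfin.trans ?_
    rw [mul_pow, mul_assoc, ← mul_assoc ((1.15 : ℝ) ^ u), ← mul_pow, mul_assoc]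
    have h14 : ((1.15 : ℝ) * 0.56) ^ u ≤ 0.65 ^ u := by
      apply pow_le_pow_left₀ (by norm_num) (by norm_num)
    gcongr
  have hsu : (0 : ℝ) < (s.card : ℝ) ^ u := by positivity
  nlinarith

end Pool.Agent.Lib.MP_9dd88f_nt.HF
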