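import Mathlib
import Pool.Agent.Lib.MP_9dd88f_nt.HF.Defs

/-!
# The last numerical step
-/

namespace Pool.Agent.Lib.MP_9dd88f_nt.HF

open Finset Filter

/-- **Job CountK (b).** The last numerical step.

Proof. `τ = ⌊(k-1)/(2+ε)⌋ ≥ (k-1)/(2+ε) - 1`, and `1/(2+ε) > 1/2 - ε/2` (indeed `1/(2+ε) ≥ 1/2 - ε/4`), so `2^τ ≥ 2^((1/2 - ε/4) k - 2)` and
`2^(2^τ) - 2k ≥ exp(2^τ log 2) - 2k ≥ exp(2^((1/2-ε)k))` for large `k`: `2^τ log 2 ≥ 2^((1/2-ε)k) + 1`-type estimates since `2^((1/2-ε/4)k - 2)`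
is much larger than `2^((1/2-ε)k) + k`. (If `ε ≥ 1/2` the left side is at most `exp 1`.) -/
theorem last_num (ε : ℝ) (hε : 0 < ε) : ∀ᶠ k : ℕ in atTop,
    Real.exp (2 ^ ((1 / 2 - ε) * k)) + 2 * k ≤ 2 ^ (2 ^ ⌊((k : ℝ) - 1) / (2 + ε)⌋₊) := by
  set b : ℝ := 1 / (2 + ε) with hb
  set a : ℝ := 1 / 2 - ε with ha
  have h2ε : 0 < 2 + ε := by linarith only [hε]
  have hb0 : 0 < b := by positivity
  have hb1 : b ≤ 1 / 2 := by
    rw [hb]
    exact one_div_le_one_div_of_le (by norm_num) (by linarith only [hε])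
  have hab : a < b := by
    rw [hb, ha, lt_div_iff₀ h2ε]
    nlinarith only [hε]
  set r1 : ℝ := 2 ^ (a - b) with hr1
  set r2 : ℝ := 2 ^ (-b) with hr2
  have hr1p : 0 < r1 := by positivity
  have hr2p : 0 < r2 := by positivity
  have hr1l : r1 < 1 := Real.rpow_lt_one_of_one_lt_of_neg (by norm_num) (by linarith only [hab])
  have hr2l : r2 < 1 := Real.rpow_lt_one_of_one_lt_of_neg (by norm_num) (by linarith only [hb0])
  have e1 : ∀ᶠ k : ℕ in atTop, r1 ^ k ≤ 1 / 16 := by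
    have := tendsto_pow_atTop_nhds_zero_of_lt_one hr1p.le hr1l
    exact this.eventually_le_const (by norm_num)
  have e2 : ∀ᶠ k : ℕ in atTop, (k : ℝ) * r2 ^ k ≤ 1 / 32 := by
    have := tendsto_self_mul_const_pow_of_lt_one hr2p.le hr2l
    exact this.eventually_le_const (by norm_num)
  filter_upwards [e1, e2, eventually_ge_atTop 1] with k h1 h2 hk1
  have hk : (1 : ℝ) ≤ k := by exact_mod_cast hk1
  set τ : ℕ := ⌊((k : ℝ) - 1) / (2 + ε)⌋₊ with hτ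
  have hτ1 : b * k - 2 ≤ (τ : ℝ) := by
    have h3 := Nat.lt_floor_add_one (((k : ℝ) - 1) / (2 + ε))
    rw [← hτ] at h3
    have h4 : ((k : ℝ) - 1) / (2 + ε) = b * k - b := by
      rw [hb]
      ring
    linarith only [h3, h4, hb1]
  have hX : (2 : ℝ) ^ (b * k) = (2 : ℝ) ^ (b * k - 2) * 4 := by
    rw [show b * (k : ℝ) = (b * k - 2) + 2 by ring, Real.rpow_add (by norm_num)]
    norm_num
  have h5 : (2 : ℝ) ^ (b * k) / 4 ≤ (2 : ℝ) ^ τ := by
    have h6 : (2 : ℝ) ^ (b * k - 2) ≤ (2 : ℝ) ^ (τ : ℝ) :=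
      Real.rpow_le_rpow_of_exponent_le (by norm_num) hτ1
    rw [Real.rpow_natCast] at h6
    linarith only [h6, hX]
  set Y : ℝ := (2 : ℝ) ^ (b * k) with hY
  have hY0 : 0 < Y := by positivity
  have h7 : (2 : ℝ) ^ (a * k) = Y * r1 ^ k := by
    rw [hY, hr1, ← Real.rpow_natCast ((2 : ℝ) ^ (a - b)) k, ← Real.rpow_mul (by norm_num),
      ← Real.rpow_add (by norm_num)]
    congr 1
    ring
  have h8 : Y * r2 ^ k = 1 := by
    rw [hY, hr2, ← Real.rpow_natCast ((2 : ℝ) ^ (-b)) k, ← Real.rpow_mul (by norm_num),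
      ← Real.rpow_add (by norm_num)]
    rw [show b * (k : ℝ) + -b * k = 0 by ring, Real.rpow_zero]
  have h9 : (2 : ℝ) ^ (a * k) ≤ Y / 16 := by
    rw [h7]
    nlinarith only [h1, hY0]
  have h10 : 2 * (k : ℝ) ≤ Y / 16 := by
    have h11 : (k : ℝ) = Y * (k * r2 ^ k) := by
      rw [← mul_assoc, mul_comm Y, mul_assoc, h8, mul_one]
    nlinarith only [h11, h2, hY0]
  have hlog : (1 : ℝ) / 2 ≤ Real.log 2 := by
    have := Real.log_two_gt_d9
    linarith only [this]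
  have h12 : (2 : ℝ) ^ (a * k) + 2 * k ≤ Real.log 2 * 2 ^ τ := by
    have h13 : 1 / 2 * (Y / 4) ≤ Real.log 2 * 2 ^ τ :=
      mul_le_mul hlog h5 (by positivity) (by linarith only [hlog])
    linarith only [h9, h10, h13]
  have h14 : (2 : ℝ) ^ (2 ^ τ) = Real.exp (Real.log 2 * 2 ^ τ) := by
    rw [Real.exp_mul, Real.exp_log (by norm_num)]
    have h15 : ((2 : ℝ) ^ τ) = ((2 ^ τ : ℕ) : ℝ) := by push_cast; rfl
    rw [h15, Real.rpow_natCast]
  have h16 : 1 ≤ Real.exp ((2 : ℝ) ^ (a * k)) := Real.one_le_exp (by positivity)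
  have h17 : 1 + 2 * (k : ℝ) ≤ Real.exp (2 * k) := by
    have := Real.add_one_le_exp (2 * (k : ℝ))
    linarith only [this]
  calc Real.exp (2 ^ (a * k)) + 2 * k
      ≤ Real.exp (2 ^ (a * k)) * (1 + 2 * k) := by nlinarith only [h16, hk]
    _ ≤ Real.exp (2 ^ (a * k)) * Real.exp (2 * k) :=
        mul_le_mul_of_nonneg_left h17 (Real.exp_pos _).le
    _ = Real.exp (2 ^ (a * k) + 2 * k) := (Real.exp_add _ _).symm
    _ ≤ Real.exp (Real.log 2 * 2 ^ τ) := Real.exp_le_exp.mpr h12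
    _ = 2 ^ (2 ^ τ) := h14.symm

end Pool.Agent.Lib.MP_9dd88f_nt.HF
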