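import Mathlib
import Pool.Agent.Lib.MP_9dd88f_nt.HF.Defs

/-!
# Sylvester numbers and digits
-/

namespace Pool.Agent.Lib.MP_9dd88f_nt.HF

open Finset Filter

/-- **Job Frame (a).** Sylvester's identity `∑_{m<j} 1/(u_m + 1) + 1/u_j = 1`; `u_m + 1` is strictly increasing, `u_m + 1 ≤ u_(m+1) `. -/
theorem syl_sum (j : ℕ) : ∑ m ∈ range j, (1 : ℚ) / (syl m + 1 : ℕ) + 1 / syl j = 1 := by
  have hpos : ∀ m, 0 < syl m := by
    intro m
    induction m with
    | zero => exact one_pos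
    | succ m ih => exact Nat.mul_pos ih (Nat.succ_pos _)
  induction j with
  | zero => simp [syl]
  | succ j ih =>
    rw [Finset.sum_range_succ]
    have h0 : (syl j : ℚ) ≠ 0 := by exact_mod_cast (hpos j).ne'
    have h1 : (syl j : ℚ) + 1 ≠ 0 := by positivity
    have h2 : (1 : ℚ) / (syl j + 1 : ℕ) + 1 / (syl (j + 1) : ℕ) = 1 / syl j := by
      have h3 : syl (j + 1) = syl j * (syl j + 1) := rfl
      rw [h3]
      push_cast
      field_simp
    rw [add_assoc, h2]
    exact ih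

theorem syl_pos (m : ℕ) : 0 < syl m := by
  induction m with
  | zero => exact one_pos
  | succ m ih => exact Nat.mul_pos ih (Nat.succ_pos _)

private theorem syl_succ_le (m : ℕ) : syl m + 1 ≤ syl (m + 1) := by
  have h3 : syl (m + 1) = syl m * (syl m + 1) := rfl
  rw [h3]
  exact Nat.le_mul_of_pos_left _ (syl_pos m)

theorem syl_lt {m j : ℕ} (h : m < j) : syl m + 1 ≤ syl j := by
  induction j with
  | zero => omega
  | succ j ih =>
    rcases Nat.lt_succ_iff_lt_or_eq.mp h with h1 | h1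
    · have h2 := ih h1
      have h3 := syl_succ_le j
      omega
    · rw [h1]
      exact syl_succ_le j

/-- **Job Frame (b).** `2^(2^(m-1)) ≤ u_m` for `m ≥ 1`, and `u_m + 1 ≤ 2^(2^m)`.

Proof. `u_1 = 2`, `u_{m+1} ≥ u_m²`; `u_0 + 1 = 2`, `u_{m+1} + 1 = u_m² + u_m + 1 ≤ (u_m+1)²`. -/
theorem syl_size (m : ℕ) : 2 ^ 2 ^ m ≤ syl (m + 1) ∧ syl m + 1 ≤ 2 ^ 2 ^ m := by
  induction m with
  | zero => exact ⟨le_refl 2, le_refl 2⟩
  | succ m ih =>
    have h0 : (2 : ℕ) ^ 2 ^ (m + 1) = 2 ^ 2 ^ m * 2 ^ 2 ^ m := by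
      rw [← pow_add, pow_succ, mul_two]
    rw [h0]
    constructor
    · have h3 : syl (m + 1 + 1) = syl (m + 1) * (syl (m + 1) + 1) := rfl
      rw [h3]
      exact Nat.mul_le_mul ih.1 (ih.1.trans (Nat.le_succ _))
    · have h3 : syl (m + 1) = syl m * (syl m + 1) := rfl
      rw [h3]
      have h4 : (syl m + 1) * (syl m + 1) ≤ 2 ^ 2 ^ m * 2 ^ 2 ^ m := Nat.mul_le_mul ih.2 ih.2
      nlinarith [syl_pos m]

/-- **Job Frame (c).** Digits of a multiple of `M` in `[B, 2B)`.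

Proof. `β = ∑_{i<L} B·B^i`, `b = ⌈(w + β)/M⌉` (so `0 ≤ M b - w - β < M ≤ B^L`), write `M b - w - β = ∑_{i<L} d_i B^i` with digits `d_i < B`
(`Nat.digits`, or induction on `L`: every `n < B^L` is such a sum), `x_i = B + d_i`. `w > 0` gives `b ≥ 1`, and `M b > w` as `L ≥ 1` or `β`-terms (if `L = 0` then `M = 1`, `b = w`). -/
theorem digits_exist (B M w L : ℕ) (hB : 2 ≤ B) (hM : 0 < M) (hw : 0 < w) (hL : 1 ≤ L)
    (hML : M ≤ B ^ L) : ∃ (b : ℕ) (X : ℕ → ℕ), 0 < b ∧ w < M * b ∧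
      (∀ i < L, B ≤ X i ∧ X i < 2 * B) ∧ M * b = w + ∑ i ∈ range L, X i * B ^ i := by
  have hdig : ∀ r k : ℕ, ∑ i ∈ range k, (r / B ^ i % B) * B ^ i = r % B ^ k := by
    intro r k
    induction k with
    | zero => simp [Nat.mod_one]
    | succ k ih =>
      rw [Finset.sum_range_succ, ih, Nat.mod_pow_succ, mul_comm (r / B ^ k % B)]
  set β : ℕ := ∑ i ∈ range L, B * B ^ i with hβ
  have hβpos : 0 < β := by
    rw [hβ]
    refine Finset.sum_pos (fun i _ => by positivity) ?_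
    exact ⟨0, Finset.mem_range.mpr (by omega)⟩
  set t : ℕ := w + β with ht
  set b : ℕ := (t + M - 1) / M with hb
  have h1 : t ≤ M * b := by
    have h2 := Nat.div_add_mod (t + M - 1) M
    have h3 := Nat.mod_lt (t + M - 1) hM
    rw [← hb] at h2
    omega
  have h2 : M * b < t + M := by
    have h3 := Nat.mul_div_le (t + M - 1) M
    rw [← hb] at h3
    omega
  set r : ℕ := M * b - t with hr
  have hrlt : r < B ^ L := by omega
  have hw' : w < M * b := by omega
  refine ⟨b, fun i => B + r / B ^ i % B, ?_, hw', ?_, ?_⟩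
  · rcases Nat.eq_zero_or_pos b with h0 | h0
    · rw [h0] at hw'
      omega
    · exact h0
  · intro i _
    have h3 := Nat.mod_lt (r / B ^ i) (show B > 0 by omega)
    show B ≤ B + r / B ^ i % B ∧ B + r / B ^ i % B < 2 * B
    omega
  · have h3 : ∑ i ∈ range L, (B + r / B ^ i % B) * B ^ i = β + r := by
      simp only [add_mul]
      rw [Finset.sum_add_distrib, hdig r L, Nat.mod_eq_of_lt hrlt]
    show M * b = w + ∑ i ∈ range L, (B + r / B ^ i % B) * B ^ i
    rw [h3]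
    omega

end Pool.Agent.Lib.MP_9dd88f_nt.HF
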