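import Mathlib
import Pool.Agent.Lib.MP_9dd88f_nt.HF.Syl

/-!
# The frame
-/

namespace Pool.Agent.Lib.MP_9dd88f_nt.HF

open Finset Filter

private theorem frame_geom (B : ℕ) (hB : 2 ≤ B) (L : ℕ) :
    (1 : ℚ) / ((B : ℚ) - 1) = ∑ i ∈ range L, (1 : ℚ) / (B ^ (i + 1) : ℕ)
      + 1 / (((B : ℚ) - 1) * B ^ L) := by
  have hB' : (2 : ℚ) ≤ B := by exact_mod_cast hB
  have h1 : (B : ℚ) - 1 ≠ 0 := by linarith
  have h2 : (B : ℚ) ≠ 0 := by linarith
  induction L with
  | zero => simp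
  | succ L ih =>
    rw [ih, sum_range_succ]
    have h3 : (1 : ℚ) / (((B : ℚ) - 1) * B ^ L) = 1 / (B ^ (L + 1) : ℕ)
        + 1 / (((B : ℚ) - 1) * B ^ (L + 1)) := by
      push_cast
      have h4 : (B : ℚ) ^ L ≠ 0 := pow_ne_zero _ h2
      rw [pow_succ]
      field_simp
      ring
    rw [h3]
    ring

private theorem frame_iter {M L h cap : ℕ} (B : ℕ) (X N : ℕ → ℕ) (Z0 : Finset ℕ)
    (hred : ∀ x, B ≤ x → x < 2 * B → ∀ N, 0 < N → M ∣ N →
      ∀ Z : Finset ℕ, Z.card ≤ cap → Rep h x N Z)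
    (hX : ∀ i < L, B ≤ X i ∧ X i < 2 * B) (hN : ∀ i < L, 0 < N i ∧ M ∣ N i)
    (hcap : Z0.card + L * h ≤ cap) :
    ∀ i ≤ L, ∃ T : Finset ℕ, T.card ≤ i * h ∧ (∀ n ∈ T, 0 < n ∧ n ∉ Z0) ∧
      ∑ n ∈ T, (1 : ℚ) / n = ∑ k ∈ range i, (X k : ℚ) / N k := by
  intro i
  induction i with
  | zero =>
    intro _
    exact ⟨∅, by simp, by simp, by simp⟩
  | succ i ih =>
    intro hi
    obtain ⟨T, hT1, hT2, hT3⟩ := ih (by omega)
    have hi' : i < L := by omega
    have hc : (Z0 ∪ T).card ≤ cap := by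
      have h1 := card_union_le Z0 T
      have h2 : i * h ≤ L * h := Nat.mul_le_mul_right h (by omega)
      omega
    obtain ⟨T', hT'1, hT'2, hT'3⟩ := hred (X i) (hX i hi').1 (hX i hi').2 (N i) (hN i hi').1
      (hN i hi').2 (Z0 ∪ T) hc
    have hdisj : Disjoint T T' := by
      rw [Finset.disjoint_left]
      intro n hn hn'
      exact (hT'2 n hn').2 (mem_union_right _ hn)
    refine ⟨T ∪ T', ?_, ?_, ?_⟩
    · have h1 := card_union_le T T'
      have h2 : (i + 1) * h = i * h + h := by ring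
      omega
    · intro n hn
      rcases mem_union.1 hn with hn | hn
      · exact hT2 n hn
      · exact ⟨(hT'2 n hn).1, fun hz => (hT'2 n hn).2 (mem_union_left _ hz)⟩
    · rw [sum_union hdisj, hT3, hT'3, sum_range_succ]

private theorem frame_assoc (a b c d : ℚ) : c + (a + b) + d = a + (b + (c + d)) := by
  ring

/-- **Job Frame (d).** The frame.

Proof. `B = syl j + 1 ≥ 3`, `w = (B-1) B^L`, `b, X` from (c). `1 = ∑_{m<j} 1/(u_m+1) + 1/(B-1)`, `1/(B-1) = ∑_{i=1}^L 1/B^i + 1/w` (geometric), and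
`1/w = 1/(M b) + (M b - w)/(w M b) = 1/(M b) + ∑_{i<L} X_i B^i/(w M b) = 1/(Mb) + ∑_{i<L} X_i / N_i`, `N_i = (B-1) B^(L-i) M b`.
Start with `Z_0 = {u_m + 1 : m < j} ∪ {B^i : 1 ≤ i ≤ L} ∪ {M b}`: `j + L + 1` distinct elements (`u_m + 1 ≤ u_j < B`, `M b > w ≥ B^L`). For `i = 0, …, L-1` successively
`hred` gives `T_i` with `|T_i| ≤ h`, disjoint from `Z_i`, `∑_{T_i} = X_i/N_i`, and `Z_{i+1} = Z_i ∪ T_i`; `|Z_i| ≤ j + L + 1 + i h ≤ cap`. `S = Z_L`. (Induction on the number of digits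
treated: `∃ T, |T| ≤ i h`, disjoint from `Z_0`, sum `∑_{i' < i} X_i'/N_i'`.) -/
theorem frame {M j L h cap : ℕ} (hM : 0 < M) (hj : 1 ≤ j) (hL : 1 ≤ L)
    (hML : M ≤ (syl j + 1) ^ L)
    (hred : ∀ x, syl j + 1 ≤ x → x < 2 * (syl j + 1) → ∀ N, 0 < N → M ∣ N →
      ∀ Z : Finset ℕ, Z.card ≤ cap → Rep h x N Z)
    (hcap : j + L + 1 + L * h ≤ cap) :
    ∃ k, k ≤ j + L + 1 + L * h ∧ SolDvd k M := by
  classical
  obtain ⟨B, hBdef⟩ : ∃ B, B = syl j + 1 := ⟨_, rfl⟩
  rw [← hBdef] at hred hML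
  have hs2 : 2 ≤ syl j := by
    have h0 := syl_lt (m := 0) (j := j) (by omega)
    have h1 : syl 0 = 1 := rfl
    omega
  have hB3 : 3 ≤ B := by omega
  have hBq : (3 : ℚ) ≤ B := by exact_mod_cast hB3
  have hsB : (syl j : ℚ) = (B : ℚ) - 1 := by
    rw [hBdef]
    push_cast
    ring
  obtain ⟨b, X, hb, hwb, hX, hdig⟩ := digits_exist B M (syl j * B ^ L) L (by omega) hM
    (by positivity) hL hML
  -- the denominators
  set N : ℕ → ℕ := fun i => syl j * B ^ (L - i) * (M * b) with hNdef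
  have hBpos : 0 < B := by omega
  have hN : ∀ i < L, 0 < N i ∧ M ∣ N i := by
    intro i hi
    refine ⟨?_, ?_⟩
    · rw [hNdef]
      have : 0 < syl j := syl_pos j
      positivity
    · rw [hNdef]
      exact Dvd.dvd.mul_left (Dvd.intro _ rfl) _
  set Z1 : Finset ℕ := (range j).image (fun m => syl m + 1) with hZ1
  set Z2 : Finset ℕ := (range L).image (fun i => B ^ (i + 1)) with hZ2
  have hsm : StrictMono (fun m => syl m + 1) := by
    apply strictMono_nat_of_lt_succ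
    intro m
    have := syl_lt (m := m) (j := m + 1) (by omega)
    show syl m + 1 < syl (m + 1) + 1
    omega
  have hinj1 : Set.InjOn (fun m => syl m + 1) (range j : Set ℕ) := hsm.injective.injOn
  have hinj2 : Set.InjOn (fun i => B ^ (i + 1)) (range L : Set ℕ) := by
    intro a _ c _ hac
    have := Nat.pow_right_injective (by omega : 2 ≤ B) hac
    omega
  have hd12 : Disjoint Z1 Z2 := by
    rw [Finset.disjoint_left]
    intro n h1 h2
    rw [hZ1, mem_image] at h1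
    rw [hZ2, mem_image] at h2
    obtain ⟨m, hm, rfl⟩ := h1
    obtain ⟨i, hi, hi2⟩ := h2
    have h3 := syl_lt (mem_range.1 hm)
    have h4 : B ≤ B ^ (i + 1) := Nat.le_self_pow (by omega) B
    omega
  have hBL : ∀ i < L, B ^ (i + 1) ≤ B ^ L := fun i hi => Nat.pow_le_pow_right hBpos (by omega)
  have hwge : B ^ L ≤ syl j * B ^ L := by nlinarith [pow_pos hBpos L]
  have hBle : B ≤ B ^ L := Nat.le_self_pow (by omega) B
  have hd3 : M * b ∉ Z1 ∪ Z2 := by
    intro hmem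
    rcases mem_union.1 hmem with h1 | h2
    · rw [hZ1, mem_image] at h1
      obtain ⟨m, hm, hm2⟩ := h1
      have h3 := syl_lt (mem_range.1 hm)
      have hm3 : syl m + 1 = M * b := hm2
      omega
    · rw [hZ2, mem_image] at h2
      obtain ⟨i, hi, hi2⟩ := h2
      have h4 := hBL i (mem_range.1 hi)
      have hi3 : B ^ (i + 1) = M * b := hi2
      omega
  set Z0 : Finset ℕ := insert (M * b) (Z1 ∪ Z2) with hZ0
  have hZ0card : Z0.card = j + L + 1 := by
    rw [hZ0, card_insert_of_notMem hd3, card_union_of_disjoint hd12, hZ1, hZ2,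
      card_image_of_injOn hinj1, card_image_of_injOn hinj2, card_range, card_range]
  obtain ⟨T, hT1, hT2, hT3⟩ := frame_iter (M := M) (h := h) (cap := cap) B X N Z0 hred hX hN
    (by omega) L le_rfl
  have hdT : Disjoint Z0 T := by
    rw [Finset.disjoint_right]
    intro n hn
    exact (hT2 n hn).2
  have hMb : 0 < M * b := Nat.mul_pos hM hb
  refine ⟨(Z0 ∪ T).card, ?_, Z0 ∪ T, rfl, ?_, ?_, ?_⟩
  · rw [card_union_of_disjoint hdT]
    omega
  · intro n hn
    rcases mem_union.1 hn with hn | hn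
    · rw [hZ0, mem_insert] at hn
      rcases hn with hn | hn
      · omega
      · rcases mem_union.1 hn with hn | hn
        · rw [hZ1, mem_image] at hn
          obtain ⟨m, _, rfl⟩ := hn
          exact Nat.succ_pos _
        · rw [hZ2, mem_image] at hn
          obtain ⟨i, _, rfl⟩ := hn
          positivity
    · exact (hT2 n hn).1
  · exact ⟨M * b, mem_union_left _ (by rw [hZ0]; exact mem_insert_self _ _), Dvd.intro _ rfl⟩
  · rw [sum_union hdT, hZ0, sum_insert hd3, sum_union hd12, hZ1, hZ2, sum_image hinj1,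
      sum_image hinj2, hT3]
    have hsum := syl_sum j
    have hgeo := frame_geom B (by omega) L
    rw [hsB, hgeo] at hsum
    -- `1/w = 1/(M b) + ∑ X_i/N_i`
    have hkey : (1 : ℚ) / (((B : ℚ) - 1) * B ^ L) = 1 / (M * b : ℕ)
        + ∑ i ∈ range L, (X i : ℚ) / N i := by
      have hB1 : (B : ℚ) - 1 ≠ 0 := by linarith
      have hB0 : (B : ℚ) ≠ 0 := by linarith
      have hMb' : ((M * b : ℕ) : ℚ) ≠ 0 := by exact_mod_cast hMb.ne'
      have hterm : ∀ i ∈ range L, (X i : ℚ) / N i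
          = ((X i * B ^ i : ℕ) : ℚ) / ((((B : ℚ) - 1) * B ^ L) * (M * b : ℕ)) := by
        intro i hi
        have hi' := mem_range.1 hi
        have hpow : (B : ℚ) ^ L = B ^ (L - i) * B ^ i := by
          rw [← pow_add]
          congr 1
          omega
        have hNq : (N i : ℚ) = ((B : ℚ) - 1) * B ^ (L - i) * (M * b : ℕ) := by
          rw [hNdef]
          push_cast
          rw [hsB]
        rw [hNq, hpow]
        have h5 : (B : ℚ) ^ (L - i) ≠ 0 := pow_ne_zero _ hB0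
        have h6 : (B : ℚ) ^ i ≠ 0 := pow_ne_zero _ hB0
        rw [Nat.cast_mul (X i) (B ^ i), Nat.cast_pow]
        rw [div_eq_div_iff (mul_ne_zero (mul_ne_zero hB1 h5) hMb')
          (mul_ne_zero (mul_ne_zero hB1 (mul_ne_zero h5 h6)) hMb')]
        ring
      rw [sum_congr rfl hterm, ← sum_div, ← Nat.cast_sum]
      have hdq : ((M * b : ℕ) : ℚ) = ((B : ℚ) - 1) * B ^ L
          + ((∑ i ∈ range L, X i * B ^ i : ℕ) : ℚ) := by
        rw [hdig, Nat.cast_add, Nat.cast_mul, Nat.cast_pow, hsB]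
      have hS : ((∑ i ∈ range L, X i * B ^ i : ℕ) : ℚ)
          = ((M * b : ℕ) : ℚ) - ((B : ℚ) - 1) * B ^ L := by
        rw [hdq]
        ring
      rw [hS]
      have hBL0 : (B : ℚ) ^ L ≠ 0 := pow_ne_zero _ hB0
      field_simp
      ring
    rw [hkey] at hsum
    exact (frame_assoc _ _ _ _).trans hsum

end Pool.Agent.Lib.MP_9dd88f_nt.HF
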