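import Mathlib
import Pool.Agent.Lib.MP_9dd88f_nt.HF.Pars

/-!
# From the `L²` mass to residue classes
-/

namespace Pool.Agent.Lib.MP_9dd88f_nt.HF

open Finset Filter

private theorem l2res_term {x : ℕ} (hx : 1 < x) (f : ℕ → ℝ)
    (hfs : ∀ r, f r ≠ 0 → r < x ∧ r.Coprime x) (D : ℕ) :
    (f (gap x D) : ℂ) * x.totient =
      ∑ χ : DirichletCharacter ℂ x, (starRingEnd ℂ) (hat x f χ) * χ (-(D : ZMod x)) := by
  have hx0 : 0 < x := by omega
  have : NeZero x := ⟨hx0.ne'⟩
  have : Fact (1 < x) := ⟨hx⟩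
  by_cases hD : x ∣ D
  · have h1 : f (gap x D) = 0 := by
      by_contra h
      have h2 := (hfs _ h).1
      unfold gap at h2
      rw [Nat.mod_eq_zero_of_dvd hD] at h2
      omega
    have h2 : (D : ZMod x) = 0 := (ZMod.natCast_eq_zero_iff D x).mpr hD
    rw [h1, h2, neg_zero]
    have h3 : ∀ χ ∈ (univ : Finset (DirichletCharacter ℂ x)),
        (starRingEnd ℂ) (hat x f χ) * χ 0 = 0 := by
      intro χ _
      rw [MulChar.map_nonunit χ not_isUnit_zero, mul_zero]
    rw [Finset.sum_congr rfl h3, Finset.sum_const_zero]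
    simp
  · have h1 : D % x < x := Nat.mod_lt _ hx0
    have h2 : 0 < D % x := Nat.pos_of_ne_zero fun h => hD (Nat.dvd_of_mod_eq_zero h)
    have h3 : gap x D < x := by unfold gap; omega
    have h4 : ((gap x D : ℕ) : ZMod x) = -(D : ZMod x) := by
      unfold gap
      rw [Nat.cast_sub h1.le, ZMod.natCast_self, ZMod.natCast_mod, zero_sub]
    rw [hat_inv hx0 f (fun r hr => (hfs r hr).2) _ h3, h4]

private theorem l2res_sum {x t : ℕ} (χ : DirichletCharacter ℂ x) (p : Fin t → ℕ) :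
    ∑ S : Finset (Fin t), χ ((sp p S : ℕ) : ZMod x) = ∏ i, (1 + χ (p i : ZMod x)) := by
  rw [Finset.prod_one_add, ← Finset.powerset_univ]
  refine Finset.sum_congr rfl fun S _ => ?_
  unfold sp
  rw [Nat.cast_prod, map_prod]

private theorem l2res_id {x t : ℕ} (hx : 1 < x) (f : ℕ → ℝ)
    (hfs : ∀ r, f r ≠ 0 → r < x ∧ r.Coprime x) (p : Fin t → ℕ) (a : ℕ) :
    ((∑ S : Finset (Fin t), f (gap x (a * sp p S)) : ℝ) : ℂ) * x.totient =
      ∑ χ : DirichletCharacter ℂ x, ((starRingEnd ℂ) (hat x f χ) * χ (-1) *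
        ∏ i, (1 + χ (p i : ZMod x))) * χ (a : ZMod x) := by
  rw [Complex.ofReal_sum, Finset.sum_mul]
  have h1 : ∀ S ∈ (univ : Finset (Finset (Fin t))), (f (gap x (a * sp p S)) : ℂ) * x.totient =
      ∑ χ : DirichletCharacter ℂ x, (starRingEnd ℂ) (hat x f χ) * χ (-1) *
        χ (a : ZMod x) * χ ((sp p S : ℕ) : ZMod x) := by
    intro S _
    rw [l2res_term hx f hfs]
    refine Finset.sum_congr rfl fun χ _ => ?_
    have h2 : -((a * sp p S : ℕ) : ZMod x) = (-1) * (a : ZMod x) * ((sp p S : ℕ) : ZMod x) := by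
      push_cast; ring
    rw [h2, map_mul, map_mul]
    ring
  rw [Finset.sum_congr rfl h1, Finset.sum_comm]
  refine Finset.sum_congr rfl fun χ _ => ?_
  rw [← Finset.mul_sum, l2res_sum]
  ring

private theorem l2res_one {x : ℕ} (n : ℕ) :
    (1 : DirichletCharacter ℂ x) (n : ZMod x) = if n.Coprime x then 1 else 0 := by
  split_ifs with h
  · exact MulChar.one_apply ((ZMod.isUnit_iff_coprime n x).mpr h)
  · exact MulChar.map_nonunit _ (fun h' => h ((ZMod.isUnit_iff_coprime n x).mp h'))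

private theorem l2res_hat_one {x : ℕ} (f : ℕ → ℝ)
    (hfs : ∀ r, f r ≠ 0 → r < x ∧ r.Coprime x) :
    hat x f 1 = ((∑ r ∈ range x, f r : ℝ) : ℂ) := by
  unfold hat
  rw [Complex.ofReal_sum]
  refine Finset.sum_congr rfl fun r _ => ?_
  rw [l2res_one]
  by_cases h : f r = 0
  · rw [h]; simp
  · rw [if_pos (hfs r h).2, mul_one]

private theorem l2res_prod_one {x t : ℕ} (p : Fin t → ℕ) (e : ℕ)
    (he : ((univ : Finset (Fin t)).filter (fun i => ¬ (p i).Coprime x)).card = e) :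
    ∏ i, (1 + (1 : DirichletCharacter ℂ x) (p i : ZMod x)) = 2 ^ (t - e) := by
  have h1 : ∀ i ∈ (univ : Finset (Fin t)), (1 + (1 : DirichletCharacter ℂ x) (p i : ZMod x)) =
      if (p i).Coprime x then (2 : ℂ) else 1 := by
    intro i _
    rw [l2res_one]
    split_ifs
    · norm_num
    · norm_num
  rw [Finset.prod_congr rfl h1, Finset.prod_ite, Finset.prod_const, Finset.prod_const_one, mul_one]
  congr 1
  have h2 := Finset.card_filter_add_card_filter_not (s := (univ : Finset (Fin t)))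
    (fun i => (p i).Coprime x)
  rw [he, Finset.card_univ, Fintype.card_fin] at h2
  omega

private theorem l2res_parseval {x t : ℕ} (hx : 1 < x) (f : ℕ → ℝ)
    (hfs : ∀ r, f r ≠ 0 → r < x ∧ r.Coprime x) (hF : 0 < ∑ r ∈ range x, f r) (p : Fin t → ℕ)
    (e : ℕ) (he : ((univ : Finset (Fin t)).filter (fun i => ¬ (p i).Coprime x)).card = e) :
    ∑ a ∈ (range x).filter (fun a => a.Coprime x),
      ((∑ S : Finset (Fin t), f (gap x (a * sp p S))) * x.totient -
        (∑ r ∈ range x, f r) * 2 ^ (t - e)) ^ 2 =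
      x.totient * ((∑ r ∈ range x, f r) ^ 2 * 4 ^ t * Xi x f p) := by
  classical
  set F : ℝ := ∑ r ∈ range x, f r with hFdef
  let c : DirichletCharacter ℂ x → ℂ := fun χ => if χ = 1 then 0 else
    (starRingEnd ℂ) (hat x f χ) * χ (-1) * ∏ i, (1 + χ (p i : ZMod x))
  have h1 := parseval_dual (by omega : 0 < x) c
  have h2 : ∀ a ∈ (range x).filter (fun a => a.Coprime x),
      ‖∑ χ, c χ * χ (a : ZMod x)‖ ^ 2 = ((∑ S : Finset (Fin t), f (gap x (a * sp p S))) *
        x.totient - F * 2 ^ (t - e)) ^ 2 := by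
    intro a ha
    have hac : a.Coprime x := (Finset.mem_filter.mp ha).2
    have h3 := l2res_id hx f hfs p a
    rw [← Finset.add_sum_erase _ _ (Finset.mem_univ (1 : DirichletCharacter ℂ x)),
      l2res_prod_one p e he, l2res_hat_one f hfs, l2res_one, if_pos hac, Complex.conj_ofReal] at h3
    have h5 : (1 : DirichletCharacter ℂ x) (-1) = 1 :=
      MulChar.one_apply (isUnit_one.neg)
    rw [h5, ← hFdef] at h3
    have h4 : ∑ χ, c χ * χ (a : ZMod x) =
        (((∑ S : Finset (Fin t), f (gap x (a * sp p S))) * x.totient - F * 2 ^ (t - e) : ℝ) : ℂ) := by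
      rw [← Finset.add_sum_erase _ _ (Finset.mem_univ (1 : DirichletCharacter ℂ x))]
      have h6 : ∑ χ ∈ (univ : Finset (DirichletCharacter ℂ x)).erase 1, c χ * χ (a : ZMod x) =
          ∑ χ ∈ (univ : Finset (DirichletCharacter ℂ x)).erase 1,
            ((starRingEnd ℂ) (hat x f χ) * χ (-1) * ∏ i, (1 + χ (p i : ZMod x))) *
              χ (a : ZMod x) := by
        refine Finset.sum_congr rfl fun χ hχ => ?_
        have : c χ = (starRingEnd ℂ) (hat x f χ) * χ (-1) * ∏ i, (1 + χ (p i : ZMod x)) :=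
          if_neg (Finset.ne_of_mem_erase hχ)
        rw [this]
      have h7 : c 1 = 0 := if_pos rfl
      rw [h6, h7, zero_mul, zero_add]
      push_cast
      push_cast at h3
      linear_combination -h3
    rw [h4, Complex.norm_real, Real.norm_eq_abs, sq_abs]
  rw [Finset.sum_congr rfl h2] at h1
  rw [h1]
  congr 1
  rw [← Finset.add_sum_erase _ _ (Finset.mem_univ (1 : DirichletCharacter ℂ x))]
  have h7 : c 1 = 0 := if_pos rfl
  rw [h7, norm_zero]
  unfold Xi
  rw [Finset.mul_sum]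
  have h8 : (0 : ℝ) ^ 2 = 0 := by norm_num
  rw [h8, zero_add]
  refine Finset.sum_congr rfl fun χ hχ => ?_
  have h9 : c χ = (starRingEnd ℂ) (hat x f χ) * χ (-1) * ∏ i, (1 + χ (p i : ZMod x)) :=
    if_neg (Finset.ne_of_mem_erase hχ)
  have h10 : ‖χ (-1)‖ = 1 := by
    have h11 : χ (-1) ^ 2 = 1 := by
      rw [← map_pow, neg_one_sq, map_one]
    have h12 : ‖χ (-1)‖ ^ 2 = 1 := by rw [← norm_pow, h11, norm_one]
    have h13 := norm_nonneg (χ (-1))
    nlinarith
  rw [h9, norm_mul, norm_mul, h10, mul_one, RCLike.norm_conj, norm_prod, mul_pow,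
    ← Finset.prod_pow]
  unfold fac
  rw [Finset.prod_div_distrib, Finset.prod_const, Finset.card_univ, Fintype.card_fin, ← hFdef]
  have hF0 : F ≠ 0 := hF.ne'
  field_simp

/-- **Job L2res.** The number of residues `a` for which few subset products hit the weight.

Proof. Put `φ = φ(x)`, `F = ∑ f`, `P(a) = ∑_S f(gap x (a sp S))`, `e = #{i : (p i, x) ≠ 1}`, `A = 2^(t-e) F / φ`.
`gap x D < x` is the residue of `-D` when `x ∤ D`, and `gap x D = x` (where `f = 0`; also `f 0 = 0` as `x > 1`) when `x ∣ D`. By `hat_inv`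
`φ P(a) = ∑_S ∑_χ conj f^(χ) χ(-a sp S) = ∑_χ conj f^(χ) χ(-a) ∏_i (1 + χ(p i))` (`∑_S χ(sp S) = ∏ (1 + χ(p i))`: `Finset.prod_one_add`,
`Finset.powerset_univ`). For `χ = 1`: `f^(1) = F` and `∏ (1 + 1(p i)) = 2^(t-e)`, so the term is `F 2^(t-e) = φ A` (`a` coprime to `x`).
By `parseval_dual` with `c χ = conj f^(χ) χ(-1) ∏ (1 + χ(p i))` for `χ ≠ 1` and `c 1 = 0`:
`∑_{a coprime} φ² (P(a) - A)² = φ ∑_{χ≠1} |f^(χ)|² ∏ |1 + χ(p i)|² = φ F² 4^t Xi`.
If `P(a) < A/2` then `(P(a) - A)² ≥ A²/4`; so `# ≤ 4 F² 4^t Xi / (φ A²) = 4 · 4^e φ Xi`. -/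
theorem l2_res {x t : ℕ} (hx : 1 < x) (f : ℕ → ℝ) (hf0 : ∀ r, 0 ≤ f r)
    (hfs : ∀ r, f r ≠ 0 → r < x ∧ r.Coprime x) (hF : 0 < ∑ r ∈ range x, f r) (p : Fin t → ℕ)
    (e : ℕ) (he : ((univ : Finset (Fin t)).filter (fun i => ¬ (p i).Coprime x)).card = e) :
    (((range x).filter (fun a => a.Coprime x ∧
      ∑ S : Finset (Fin t), f (gap x (a * sp p S)) <
        2 ^ (t - e) * (∑ r ∈ range x, f r) / (2 * x.totient))).card : ℝ) ≤
      4 ^ (e + 1) * x.totient * Xi x f p := by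
  classical
  have hpar := l2res_parseval hx f hfs hF p e he
  set F : ℝ := ∑ r ∈ range x, f r with hFdef
  have hφ : (0 : ℝ) < x.totient := by exact_mod_cast Nat.totient_pos.mpr (by omega : 0 < x)
  have het : e ≤ t := by
    rw [← he]
    exact (Finset.card_le_univ _).trans (by rw [Fintype.card_fin])
  set N := (range x).filter (fun a => a.Coprime x ∧
      ∑ S : Finset (Fin t), f (gap x (a * sp p S)) <
        2 ^ (t - e) * F / (2 * x.totient)) with hN
  have h1 : (N.card : ℝ) * (F ^ 2 * 4 ^ (t - e) / 4) ≤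
      ∑ a ∈ (range x).filter (fun a => a.Coprime x),
      ((∑ S : Finset (Fin t), f (gap x (a * sp p S))) * x.totient - F * 2 ^ (t - e)) ^ 2 := by
    have h2 : N ⊆ (range x).filter (fun a => a.Coprime x) := by
      intro a ha
      rw [hN, Finset.mem_filter] at ha
      exact Finset.mem_filter.mpr ⟨ha.1, ha.2.1⟩
    refine le_trans ?_ (Finset.sum_le_sum_of_subset_of_nonneg h2 fun a _ _ => sq_nonneg _)
    rw [← nsmul_eq_mul]
    apply Finset.card_nsmul_le_sum
    intro a ha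
    rw [hN, Finset.mem_filter] at ha
    have h3 := ha.2.2
    rw [lt_div_iff₀ (by positivity)] at h3
    have h4 : (4 : ℝ) ^ (t - e) = (2 ^ (t - e)) ^ 2 := by
      rw [← pow_mul, mul_comm, pow_mul]; norm_num
    rw [h4]
    have h5 : (0 : ℝ) < 2 ^ (t - e) := by positivity
    have h6 : 0 < F * 2 ^ (t - e) := by positivity
    nlinarith
  rw [hpar] at h1
  have h2 : (4 : ℝ) ^ t = 4 ^ (t - e) * 4 ^ e := by
    rw [← pow_add]
    congr 1
    omega
  have h3 : 0 < F ^ 2 * (4 : ℝ) ^ (t - e) / 4 := by positivity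
  refine le_of_mul_le_mul_right ?_ h3
  refine h1.trans (le_of_eq ?_)
  rw [h2, pow_succ]
  ring

end Pool.Agent.Lib.MP_9dd88f_nt.HF
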