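import Mathlib
import Pool.Agent.Lib.MP_9dd88f_nt.HF.Defs

/-!
# A Chebyshev bound for large primes
-/

namespace Pool.Agent.Lib.MP_9dd88f_nt.HF

open Finset Filter

private theorem primesd_aux (A B : ℕ) : Nat.primeCounting B ≤ (primesIoc A B).card + A := by
  have h1 : Nat.primeCounting B = ((range (B + 1)).filter Nat.Prime).card := by
    rw [Nat.primeCounting, Nat.primeCounting', Nat.count_eq_card_filter_range]
  have h2 : (range (B + 1)).filter Nat.Prime ⊆ primesIoc A B ∪ Icc 1 A := by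
    intro p hp
    rw [mem_filter, mem_range] at hp
    rw [mem_union, primesIoc, mem_filter, mem_Ioc, mem_Icc]
    have := hp.2.one_le
    by_cases h : A < p
    · left
      exact ⟨⟨h, by omega⟩, hp.2⟩
    · right
      exact ⟨this, by omega⟩
  rw [h1]
  refine (card_le_card h2).trans ((card_union_le _ _).trans ?_)
  simp

/-- **Job PrimesC (c).** `#{p prime : 2^n < p ≤ 2^(3n)} ≥ 2^(3n) / (8 n)` for large `n`.

Proof. `π(2^(3n)) ≥ 2^(3n) / (6n)`-type bound from `Chebyshev.pi_ge` (`log (2^(3n)) = 3 n log 2`), minus `2^n`. -/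
theorem large_card : ∀ᶠ n : ℕ in atTop,
    (2 : ℝ) ^ (3 * n) / (8 * n) ≤ ((primesIoc (2 ^ n) (2 ^ (3 * n))).card : ℝ) := by
  filter_upwards [eventually_ge_atTop 4] with n hn
  have hn0 : (0 : ℝ) < n := by
    have : (4 : ℝ) ≤ n := by exact_mod_cast hn
    linarith
  have hl2 : 0 < Real.log 2 := Real.log_pos one_lt_two
  have h1 := Chebyshev.pi_ge (2 ^ (3 * n))
  have h2 : (Nat.primeCounting (2 ^ (3 * n)) : ℝ) ≤
      ((primesIoc (2 ^ n) (2 ^ (3 * n))).card : ℝ) + 2 ^ n := by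
    exact_mod_cast primesd_aux (2 ^ n) (2 ^ (3 * n))
  have hN1 : (1 : ℝ) ≤ 2 ^ (3 * n) := one_le_pow₀ (by norm_num)
  have hlogN : Real.log ((2 ^ (3 * n) : ℕ) : ℝ) = 3 * n * Real.log 2 := by
    push_cast
    rw [Real.log_pow]
    push_cast
    ring
  have hlogN1 : Real.log (((2 ^ (3 * n) : ℕ) : ℝ) + 1) ≤ (3 * n + 1) * Real.log 2 := by
    push_cast
    have : (2 : ℝ) ^ (3 * n) + 1 ≤ 2 ^ (3 * n + 1) := by
      rw [pow_succ]
      linarith
    refine (Real.log_le_log (by positivity) this).trans (le_of_eq ?_)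
    rw [Real.log_pow]
    push_cast
    ring
  rw [hlogN] at h1
  have h3 : ((2 : ℝ) ^ (3 * n) * Real.log 2 - (3 * n + 1) * Real.log 2) / (3 * n * Real.log 2) ≤
      (Nat.primeCounting (2 ^ (3 * n)) : ℝ) := by
    refine le_trans ?_ h1
    refine div_le_div_of_nonneg_right ?_ (by positivity)
    have : (((2 ^ (3 * n) : ℕ) : ℝ)) = 2 ^ (3 * n) := by push_cast; rfl
    rw [this] at hlogN1 ⊢
    linarith
  have h4 : ((2 : ℝ) ^ (3 * n) * Real.log 2 - (3 * n + 1) * Real.log 2) / (3 * n * Real.log 2) =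
      (2 : ℝ) ^ (3 * n) / (3 * n) - (3 * n + 1) / (3 * n) := by
    field_simp
  rw [h4] at h3
  have h5 : (3 * (n : ℝ) + 1) / (3 * n) ≤ 2 := by
    rw [div_le_iff₀ (by positivity)]
    have : (4 : ℝ) ≤ n := by exact_mod_cast hn
    linarith
  have h2n : (16 : ℝ) ≤ 2 ^ n := by
    calc (16 : ℝ) = 2 ^ 4 := by norm_num
      _ ≤ 2 ^ n := pow_le_pow_right₀ (by norm_num) hn
  have hnn : (n : ℝ) ≤ 2 ^ n := by exact_mod_cast (Nat.lt_two_pow_self (n := n)).le
  have h6 : (2 : ℝ) ^ (3 * n) = 2 ^ n * (2 ^ n * 2 ^ n) := by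
    rw [← pow_add, ← pow_add]
    congr 1
    ring
  have h7 : (2 : ℝ) ^ n + 2 ≤ (2 : ℝ) ^ (3 * n) * (5 / (24 * n)) := by
    rw [mul_div_assoc', le_div_iff₀ (by positivity), h6]
    have e1 : (2 : ℝ) ^ n + 2 ≤ 9 / 8 * 2 ^ n := by linarith
    have e2 : ((2 : ℝ) ^ n + 2) * (24 * n) ≤ 9 / 8 * 2 ^ n * (24 * 2 ^ n) := by
      apply mul_le_mul e1 (by linarith) (by positivity) (by positivity)
    refine e2.trans ?_
    have e3 : (0 : ℝ) < 2 ^ n := by positivity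
    nlinarith [mul_pos e3 e3, mul_le_mul_of_nonneg_left h2n (mul_pos e3 e3).le]
  have h8 : (2 : ℝ) ^ (3 * n) / (3 * n) = (2 : ℝ) ^ (3 * n) / (8 * n) + (2 : ℝ) ^ (3 * n) * (5 / (24 * n)) := by
    field_simp
    ring
  linarith

end Pool.Agent.Lib.MP_9dd88f_nt.HF
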