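import Mathlib
import Pool.Agent.Lib.MP_9dd88f_nt.HF.PrimesD

/-!
# Large primes that avoid small sets of residues modulo all small moduli
-/

namespace Pool.Agent.Lib.MP_9dd88f_nt.HF

open Finset Filter

private theorem largep_class (s : Finset ℕ) (M x : ℕ) (hs : ∀ g ∈ s, g ≤ M) (a : ℕ) :
    (s.filter (fun g => g % x = a)).card ≤ M / x + 1 := by
  have h : (s.filter (fun g => g % x = a)).card ≤ (range (M / x + 1)).card := by
    refine Finset.card_le_card_of_injOn (fun g => g / x) ?_ ?_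
    · intro g hg
      have hg' := Finset.mem_filter.1 (Finset.mem_coe.1 hg)
      rw [Finset.mem_coe, Finset.mem_range]
      exact Nat.lt_succ_of_le (Nat.div_le_div_right (hs g hg'.1))
    · intro g hg g' hg' h1
      have hg1 := (Finset.mem_filter.1 (Finset.mem_coe.1 hg)).2
      have hg1' := (Finset.mem_filter.1 (Finset.mem_coe.1 hg')).2
      have h1' : g / x = g' / x := h1
      have h2 := Nat.div_add_mod g x
      have h3 := Nat.div_add_mod g' x
      rw [hg1, h1'] at h2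
      rw [hg1'] at h3
      exact h2.symm.trans h3
  rwa [Finset.card_range] at h

private theorem largep_bad (s : Finset ℕ) (M x : ℕ) (hs : ∀ g ∈ s, g ≤ M) (A : Finset ℕ) :
    (s.filter (fun g => g % x ∈ A)).card ≤ A.card * (M / x + 1) := by
  have h1 : s.filter (fun g => g % x ∈ A) ⊆ A.biUnion (fun a => s.filter (fun g => g % x = a)) := by
    intro g hg
    obtain ⟨hg1, hg2⟩ := Finset.mem_filter.1 hg
    exact Finset.mem_biUnion.2 ⟨g % x, hg2, Finset.mem_filter.2 ⟨hg1, rfl⟩⟩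
  calc (s.filter (fun g => g % x ∈ A)).card
      ≤ (A.biUnion (fun a => s.filter (fun g => g % x = a))).card := Finset.card_le_card h1
    _ ≤ ∑ a ∈ A, (s.filter (fun g => g % x = a)).card := Finset.card_biUnion_le
    _ ≤ ∑ _a ∈ A, (M / x + 1) := Finset.sum_le_sum fun a _ => largep_class s M x hs a
    _ = A.card * (M / x + 1) := by rw [Finset.sum_const, smul_eq_mul]

/-- **Job LargeP.** A bounded number `J` of primes of `(2^n, 2^(3n)]` hits the complement of `A x` for every `x < 2^n`.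

Proof. `𝒬 = primesIoc (2^n) (2^(3n))`, `|𝒬| ≥ 2^(3n)/(8n)` (`large_card`). For `0 < x < 2^n` the number of `g ∈ 𝒬` with `g % x ∈ A x` is at most
`|A x| (2^(3n)/x + 1) ≤ δ x · 2 · 2^(3n)/x = 2 δ 2^(3n)` (each residue class contains at most `2^(3n)/x + 1` numbers of `(0, 2^(3n)]`).
So the number of `g : Fin J → 𝒬` such that for some `x` all `g j % x ∈ A x` is `≤ 2^n (2 δ 2^(3n))^J < |𝒬|^J`, because
`2^n (16 n δ)^J < 1` (`Fintype.card_piFinset`, `Finset.card_biUnion_le`). (For `J = 0` the hypothesis is false.) -/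
theorem large_primes (J : ℕ) : ∀ᶠ n : ℕ in atTop, ∀ δ : ℝ, 0 ≤ δ →
    (2 : ℝ) ^ n * (16 * n * δ) ^ J < 1 → ∀ A : ℕ → Finset ℕ,
      (∀ x, 0 < x → x < 2 ^ n → ((A x).card : ℝ) ≤ δ * x) →
      ∃ g : Fin J → ℕ, (∀ j, (g j).Prime ∧ 2 ^ n < g j ∧ g j ≤ 2 ^ (3 * n)) ∧
        ∀ x, 0 < x → x < 2 ^ n → ∃ j, g j % x ∉ A x := by
  classical
  filter_upwards [large_card, eventually_ge_atTop 1] with n hcard hn δ hδ hsmall A hA
  set Q := primesIoc (2 ^ n) (2 ^ (3 * n)) with hQ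
  have hQle : ∀ g ∈ Q, g ≤ 2 ^ (3 * n) := by
    intro g hg
    exact (Finset.mem_Ioc.1 (Finset.mem_filter.1 hg).1).2
  have hn0 : (0 : ℝ) < n := by exact_mod_cast hn
  have hM0 : (0 : ℝ) < 2 ^ (3 * n) := by positivity
  have hN0 : (0 : ℝ) < (2 : ℝ) ^ (3 * n) / (8 * n) := by positivity
  -- the number of bad primes for one modulus
  have hB : ∀ x, 0 < x → x < 2 ^ n →
      ((Q.filter (fun g => g % x ∈ A x)).card : ℝ) ≤ 2 * δ * 2 ^ (3 * n) := by
    intro x hx hx'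
    have h1 := largep_bad Q (2 ^ (3 * n)) x hQle (A x)
    have h2 : ((Q.filter (fun g => g % x ∈ A x)).card : ℝ) ≤
        (A x).card * (((2 ^ (3 * n) / x : ℕ) : ℝ) + 1) := by exact_mod_cast h1
    have hx0 : (0 : ℝ) < x := by exact_mod_cast hx
    have h3 : ((2 ^ (3 * n) / x : ℕ) : ℝ) ≤ 2 ^ (3 * n) / x := by
      have h4 := @Nat.cast_div_le ℝ _ _ _ (2 ^ (3 * n)) x
      rwa [Nat.cast_pow, Nat.cast_ofNat] at h4
    have h5 : (1 : ℝ) ≤ 2 ^ (3 * n) / x := by
      rw [le_div_iff₀ hx0, one_mul]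
      have h6 : x ≤ 2 ^ (3 * n) :=
        hx'.le.trans (Nat.pow_le_pow_right (by norm_num) (by omega))
      exact_mod_cast h6
    calc ((Q.filter (fun g => g % x ∈ A x)).card : ℝ)
        ≤ (A x).card * (((2 ^ (3 * n) / x : ℕ) : ℝ) + 1) := h2
      _ ≤ (δ * x) * (2 ^ (3 * n) / x + 2 ^ (3 * n) / x) := by
          refine mul_le_mul (hA x hx hx') (add_le_add h3 h5) (by positivity) (by positivity)
      _ = 2 * δ * 2 ^ (3 * n) := by
          field_simp
          ring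
  -- the bad tuples
  set T : Finset (Fin J → ℕ) := Fintype.piFinset (fun _ : Fin J => Q) with hT
  set Bad : Finset (Fin J → ℕ) := (Finset.Ico 1 (2 ^ n)).biUnion
    (fun x => Fintype.piFinset (fun _ : Fin J => Q.filter (fun g => g % x ∈ A x))) with hBad
  have hTc : (T.card : ℝ) = (Q.card : ℝ) ^ J := by
    rw [hT, Fintype.card_piFinset]
    simp
  have hBc : (Bad.card : ℝ) ≤ 2 ^ n * (2 * δ * 2 ^ (3 * n)) ^ J := by
    have h1 : Bad.card ≤ ∑ x ∈ Finset.Ico 1 (2 ^ n),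
        (Fintype.piFinset (fun _ : Fin J => Q.filter (fun g => g % x ∈ A x))).card :=
      Finset.card_biUnion_le
    have h2 : (Bad.card : ℝ) ≤ ∑ x ∈ Finset.Ico 1 (2 ^ n),
        ((Fintype.piFinset (fun _ : Fin J => Q.filter (fun g => g % x ∈ A x))).card : ℝ) := by
      exact_mod_cast h1
    refine h2.trans ?_
    have h3 : ∀ x ∈ Finset.Ico 1 (2 ^ n),
        ((Fintype.piFinset (fun _ : Fin J => Q.filter (fun g => g % x ∈ A x))).card : ℝ) ≤
          (2 * δ * 2 ^ (3 * n)) ^ J := by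
      intro x hx
      obtain ⟨hx1, hx2⟩ := Finset.mem_Ico.1 hx
      have h4 : ((Fintype.piFinset (fun _ : Fin J => Q.filter (fun g => g % x ∈ A x))).card : ℝ) =
          ((Q.filter (fun g => g % x ∈ A x)).card : ℝ) ^ J := by
        rw [Fintype.card_piFinset]
        simp
      rw [h4]
      exact pow_le_pow_left₀ (Nat.cast_nonneg _) (hB x hx1 hx2) J
    refine (Finset.sum_le_sum h3).trans ?_
    rw [Finset.sum_const, nsmul_eq_mul, Nat.card_Ico]
    have h5 : ((2 ^ n - 1 : ℕ) : ℝ) ≤ 2 ^ n := by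
      have h6 : (2 ^ n - 1 : ℕ) ≤ 2 ^ n := Nat.sub_le _ _
      exact_mod_cast h6
    exact mul_le_mul_of_nonneg_right h5 (by positivity)
  have hlt : Bad.card < T.card := by
    have h1 : (2 : ℝ) ^ n * (2 * δ * 2 ^ (3 * n)) ^ J < ((2 : ℝ) ^ (3 * n) / (8 * n)) ^ J := by
      have h2 : (2 : ℝ) ^ n * (2 * δ * 2 ^ (3 * n)) ^ J =
          (2 ^ n * (16 * n * δ) ^ J) * ((2 : ℝ) ^ (3 * n) / (8 * n)) ^ J := by
        rw [mul_assoc ((2 : ℝ) ^ n) ((16 * (n : ℝ) * δ) ^ J), ← mul_pow]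
        congr 2
        field_simp
        ring
      rw [h2]
      have h3 : (0 : ℝ) < ((2 : ℝ) ^ (3 * n) / (8 * n)) ^ J := pow_pos hN0 J
      calc (2 ^ n * (16 * n * δ) ^ J) * ((2 : ℝ) ^ (3 * n) / (8 * n)) ^ J
          < 1 * ((2 : ℝ) ^ (3 * n) / (8 * n)) ^ J := mul_lt_mul_of_pos_right hsmall h3
        _ = _ := one_mul _
    have h4 : ((2 : ℝ) ^ (3 * n) / (8 * n)) ^ J ≤ (Q.card : ℝ) ^ J :=
      pow_le_pow_left₀ hN0.le hcard J
    have h5 : (Bad.card : ℝ) < T.card := by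
      rw [hTc]
      exact hBc.trans_lt (h1.trans_le h4)
    exact_mod_cast h5
  obtain ⟨g, hgT, hgB⟩ := Finset.exists_mem_notMem_of_card_lt_card hlt
  rw [hT, Fintype.mem_piFinset] at hgT
  refine ⟨g, fun j => ?_, fun x hx hx' => ?_⟩
  · obtain ⟨h1, h2⟩ := Finset.mem_filter.1 (hgT j)
    obtain ⟨h3, h4⟩ := Finset.mem_Ioc.1 h1
    exact ⟨h2, h3, h4⟩
  · by_contra hno
    push Not at hno
    apply hgB
    rw [hBad, Finset.mem_biUnion]
    refine ⟨x, Finset.mem_Ico.2 ⟨hx, hx'⟩, ?_⟩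
    rw [Fintype.mem_piFinset]
    intro j
    exact Finset.mem_filter.2 ⟨hgT j, hno j⟩

end Pool.Agent.Lib.MP_9dd88f_nt.HF
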