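import Mathlib
import Pool.Agent.Lib.MP_9dd88f_nt.HF.NumW

/-!
# Subexponential quantities, part 2
-/

namespace Pool.Agent.Lib.MP_9dd88f_nt.HF

open Finset Filter

private theorem numx_pow_card_le (A x : ℕ) (hx : 0 < x) (S : Finset ℕ)
    (hS : ∀ p ∈ S, p.Prime ∧ p ∣ x ∧ A ≤ p) : A ^ S.card ≤ x := by
  have h1 : ∏ p ∈ S, p ∣ x :=
    Finset.prod_primes_dvd x (fun p hp => (hS p hp).1.prime) (fun p hp => (hS p hp).2.1)
  have h2 : A ^ S.card ≤ ∏ p ∈ S, p := by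
    have := Finset.prod_le_prod' (s := S) (f := fun _ => A) (g := fun p => p)
      (fun p hp => (hS p hp).2.2)
    simpa using this
  exact h2.trans (Nat.le_of_dvd hx h1)

private theorem numx_log (A e x t : ℕ) (σ : ℝ) (_hx : 0 < x) (h : A ^ e ≤ x)
    (hx2 : (x : ℝ) < 2 ^ (σ * t)) (hA : 0 < A) :
    (e : ℝ) * Real.log A ≤ σ * t * Real.log 2 := by
  have h1 : ((A : ℝ)) ^ e ≤ x := by exact_mod_cast h
  have hA' : (0 : ℝ) < A := by exact_mod_cast hA
  have h2 : Real.log ((A : ℝ) ^ e) ≤ Real.log (2 ^ (σ * t)) :=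
    Real.log_le_log (pow_pos hA' _) (h1.trans hx2.le)
  rw [Real.log_pow, Real.log_rpow (by norm_num)] at h2
  exact h2

private theorem numx_log_tendsto (c : ℝ) : ∀ᶠ t : ℕ in atTop, c ≤ Real.log (t : ℝ) :=
  (Real.tendsto_log_atTop.comp tendsto_natCast_atTop_atTop).eventually_ge_atTop c

private theorem numx_prod (S : Finset ℕ) (a : ℕ → ℝ) (h0 : ∀ p ∈ S, 0 ≤ a p ∧ a p ≤ 1) :
    1 - ∑ p ∈ S, a p ≤ ∏ p ∈ S, (1 - a p) ∧ ∏ p ∈ S, (1 - a p) ≤ 1 ∧
      0 ≤ ∏ p ∈ S, (1 - a p) := by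
  classical
  induction S using Finset.induction_on with
  | empty => simp
  | insert q S hq ih =>
    have h1 := ih (fun p hp => h0 p (Finset.mem_insert_of_mem hp))
    have h2 := h0 q (Finset.mem_insert_self _ _)
    rw [Finset.prod_insert hq, Finset.sum_insert hq]
    obtain ⟨ha, hb, hc⟩ := h1
    refine ⟨?_, ?_, ?_⟩
    · nlinarith [mul_nonneg h2.1 (sub_nonneg.2 hb)]
    · nlinarith [mul_nonneg h2.1 hc]
    · exact mul_nonneg (by linarith [h2.2]) hc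

/-- **Job NumX (a).** A number `< 2^(σ1 t)` has at most `Qf t / 8` prime factors `≥ Qf t`.

Proof. If there are `w` of them then `(Qf t)^w ≤ ∏ p ≤ x < 2^(σ1 t)` (`Nat.prod_primeFactors_dvd` and a subset), so
`w log₂ (Qf t) ≤ σ1 t`; `Qf t ≥ √t`, so `w ≤ 2 σ1 t / log₂ t`, and `16 σ1 t / log₂ t ≤ t / √(log t)` for large `t`. -/
theorem omega_small (σ1 : ℝ) (hσ : 0 < σ1) : ∀ᶠ t : ℕ in atTop, ∀ x : ℕ, 0 < x →
    (x : ℝ) < 2 ^ (σ1 * t) → 8 * (x.primeFactors.filter (fun p => Qf t ≤ p)).card ≤ Qf t := by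
  filter_upwards [Qf_large, numx_log_tendsto 1, numx_log_tendsto ((16 * σ1) ^ 2),
    eventually_ge_atTop 2, Qf_ge 1] with t h1 h2 h3 h4 h5 x hx hx2
  set S := x.primeFactors.filter (fun p => Qf t ≤ p) with hSdef
  have hS : ∀ p ∈ S, p.Prime ∧ p ∣ x ∧ Qf t ≤ p := by
    intro p hp
    rw [hSdef, Finset.mem_filter, Nat.mem_primeFactors] at hp
    exact ⟨hp.1.1, hp.1.2.1, hp.2⟩
  have h6 := numx_log (Qf t) S.card x t σ1 hx (numx_pow_card_le _ x hx S hS) hx2 h5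
  have ht : (2 : ℝ) ≤ t := by exact_mod_cast h4
  have ht0 : (0 : ℝ) < t := by linarith
  have hL : 0 < Real.log t := by linarith
  -- log Qf ≥ (1/2) log t
  have h7 : (1 / 2 : ℝ) * Real.log t ≤ Real.log (Qf t) := by
    have h8 : Real.log ((t : ℝ) ^ (0.9 : ℝ)) ≤ Real.log (Qf t) :=
      Real.log_le_log (Real.rpow_pos_of_pos ht0 _) h1
    rw [Real.log_rpow ht0] at h8
    nlinarith
  have hc0 : (0 : ℝ) ≤ (S.card : ℝ) := Nat.cast_nonneg _
  have h9 : (S.card : ℝ) * ((1 / 2 : ℝ) * Real.log t) ≤ σ1 * t := by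
    have h10 : (S.card : ℝ) * ((1 / 2 : ℝ) * Real.log t) ≤ S.card * Real.log (Qf t) :=
      mul_le_mul_of_nonneg_left h7 hc0
    have h11 : Real.log 2 ≤ 1 := by
      have := Real.log_two_lt_d9
      linarith
    have h12 : σ1 * t * Real.log 2 ≤ σ1 * t * 1 :=
      mul_le_mul_of_nonneg_left h11 (mul_nonneg hσ.le ht0.le)
    linarith
  have h13 : (t : ℝ) / √(Real.log t) ≤ Qf t := Nat.le_ceil _
  have hs : 0 < √(Real.log t) := Real.sqrt_pos.2 hL
  have hsq : √(Real.log t) * √(Real.log t) = Real.log t := Real.mul_self_sqrt hL.le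
  have h14 : 16 * σ1 ≤ √(Real.log t) := Real.le_sqrt_of_sq_le h3
  have h15 : (8 : ℝ) * S.card ≤ (t : ℝ) / √(Real.log t) := by
    rw [le_div_iff₀ hs]
    have h16 : (8 : ℝ) * S.card * √(Real.log t) * √(Real.log t) ≤ t * √(Real.log t) := by
      calc (8 : ℝ) * S.card * √(Real.log t) * √(Real.log t)
          = 16 * (S.card * ((1 / 2 : ℝ) * Real.log t)) := by rw [mul_assoc, hsq]; ring
        _ ≤ 16 * (σ1 * t) := by linarith
        _ = (16 * σ1) * t := by ring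
        _ ≤ √(Real.log t) * t := mul_le_mul_of_nonneg_right h14 ht0.le
        _ = t * √(Real.log t) := by ring
    exact le_of_mul_le_mul_right h16 hs
  have h17 : ((8 * S.card : ℕ) : ℝ) ≤ (Qf t : ℝ) := by
    push_cast
    linarith
  exact_mod_cast h17

/-- **Job NumX (b).** Few of the distinct primes `p i > t` divide `x`.

Proof. `t^e ≤ ∏_{p i ∣ x} p i ≤ x` (the product of distinct primes dividing `x` divides `x`: `Finset.prod_primes_dvd`), so
`e ≤ σ1 t / log₂ t ≤ c t`. -/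
theorem few_dvd (σ1 c : ℝ) (hσ : 0 < σ1) (hc : 0 < c) : ∀ᶠ t : ℕ in atTop, ∀ (u : ℕ)
    (p : Fin u → ℕ), Function.Injective p → (∀ i, (p i).Prime ∧ t < p i) → ∀ x : ℕ, 0 < x →
      (x : ℝ) < 2 ^ (σ1 * t) →
      (((univ : Finset (Fin u)).filter (fun i => p i ∣ x)).card : ℝ) ≤ c * t := by
  filter_upwards [numx_log_tendsto 1, numx_log_tendsto (σ1 / c),
    eventually_ge_atTop 2] with t h1 h2 h4 u p hinj hp x hx hx2
  classical
  set T := (univ : Finset (Fin u)).filter (fun i => p i ∣ x) with hT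
  have hS : ∀ r ∈ T.image p, r.Prime ∧ r ∣ x ∧ t ≤ r := by
    intro r hr
    rw [Finset.mem_image] at hr
    obtain ⟨i, hi, rfl⟩ := hr
    rw [hT, Finset.mem_filter] at hi
    exact ⟨(hp i).1, hi.2, (hp i).2.le⟩
  have h5 := numx_log t (T.image p).card x t σ1 hx (numx_pow_card_le _ x hx _ hS) hx2 (by omega)
  rw [Finset.card_image_of_injective _ hinj] at h5
  have ht : (2 : ℝ) ≤ t := by exact_mod_cast h4
  have ht0 : (0 : ℝ) < t := by linarith
  have hL : 0 < Real.log t := by linarith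
  have h11 : Real.log 2 ≤ 1 := by
    have := Real.log_two_lt_d9
    linarith
  have h12 : σ1 * t * Real.log 2 ≤ σ1 * t * 1 :=
    mul_le_mul_of_nonneg_left h11 (mul_nonneg hσ.le ht0.le)
  have h13 : σ1 ≤ c * Real.log t := by
    rw [div_le_iff₀ hc] at h2
    linarith
  have h14 : (T.card : ℝ) * Real.log t ≤ (c * t) * Real.log t := by
    calc (T.card : ℝ) * Real.log t ≤ σ1 * t := by linarith
      _ ≤ (c * Real.log t) * t := mul_le_mul_of_nonneg_right h13 ht0.le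
      _ = (c * t) * Real.log t := by ring
  exact le_of_mul_le_mul_right h14 hL

/-- **Job NumX (c).** `φ(q) ≥ q / 2` when all prime factors of `q` are `≥ Qf t`.

Proof. `φ(q) ≥ q - ∑_{p ∣ q} q / p` (or `φ(q) = q ∏ (1 - 1/p)`, `Nat.totient_eq_mul_prod_factors`, and
`∏ (1 - a_i) ≥ 1 - ∑ a_i`: `one_sub_sum_le_prod_one_sub`-type Weierstrass inequality), `∑_{p ∣ q} 1/p ≤ ω(q) / Qf t ≤ 1/8` by (a). -/
theorem totient_half (σ1 : ℝ) (hσ : 0 < σ1) : ∀ᶠ t : ℕ in atTop, ∀ q : ℕ, 0 < q →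
    (q : ℝ) < 2 ^ (σ1 * t) → Rough (Qf t) q → (q : ℝ) / 2 ≤ q.totient := by
  filter_upwards [omega_small σ1 hσ, Qf_ge 1] with t h1 h2 q hq hq2 hR
  have h3 := h1 q hq hq2
  have h4 : q.primeFactors.filter (fun p => Qf t ≤ p) = q.primeFactors := by
    apply Finset.filter_true_of_mem
    intro p hp
    rw [Nat.mem_primeFactors] at hp
    exact hR p hp.1 hp.2.1
  rw [h4] at h3
  have h5 : (q.totient : ℝ) = q * ∏ p ∈ q.primeFactors, (1 - (p : ℝ)⁻¹) := by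
    have := Nat.totient_eq_mul_prod_factors q
    have h6 : ((q.totient : ℚ) : ℝ) = ((q * ∏ p ∈ q.primeFactors, (1 - (p : ℚ)⁻¹) : ℚ) : ℝ) := by
      rw [this]
    push_cast at h6
    exact h6
  have hQ : (0 : ℝ) < Qf t := by exact_mod_cast h2
  have h7 : ∀ p ∈ q.primeFactors, 0 ≤ (p : ℝ)⁻¹ ∧ (p : ℝ)⁻¹ ≤ 1 := by
    intro p hp
    rw [Nat.mem_primeFactors] at hp
    have : (1 : ℝ) ≤ p := by exact_mod_cast hp.1.one_lt.le
    exact ⟨by positivity, inv_le_one_of_one_le₀ this⟩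
  have h8 := (numx_prod q.primeFactors (fun p => (p : ℝ)⁻¹) h7).1
  have h9 : ∑ p ∈ q.primeFactors, (p : ℝ)⁻¹ ≤ q.primeFactors.card * (Qf t : ℝ)⁻¹ := by
    have := Finset.sum_le_card_nsmul q.primeFactors (fun p => (p : ℝ)⁻¹) ((Qf t : ℝ)⁻¹) (by
      intro p hp
      rw [Nat.mem_primeFactors] at hp
      have h10 : (Qf t : ℝ) ≤ p := by exact_mod_cast hR p hp.1 hp.2.1
      exact inv_anti₀ hQ h10)
    simpa [nsmul_eq_mul] using this
  have h11 : (q.primeFactors.card : ℝ) * (Qf t : ℝ)⁻¹ ≤ 1 / 2 := by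
    have h12 : (8 : ℝ) * q.primeFactors.card ≤ Qf t := by exact_mod_cast h3
    rw [← div_eq_mul_inv, div_le_iff₀ hQ]
    linarith
  rw [h5]
  have hq0 : (0 : ℝ) ≤ q := Nat.cast_nonneg _
  have h13 : (1 / 2 : ℝ) ≤ ∏ p ∈ q.primeFactors, (1 - (p : ℝ)⁻¹) := by linarith
  calc (q : ℝ) / 2 = q * (1 / 2) := by ring
    _ ≤ q * ∏ p ∈ q.primeFactors, (1 - (p : ℝ)⁻¹) := mul_le_mul_of_nonneg_left h13 hq0

end Pool.Agent.Lib.MP_9dd88f_nt.HF
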