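import Mathlib
import Pool.Agent.Lib.MP_9dd88f_nt.HF.Defs

/-!
# Gauss sums of arbitrary Dirichlet characters
-/

namespace Pool.Agent.Lib.MP_9dd88f_nt.HF

open Finset Filter

private theorem gaussb_totient (q d : ℕ) : Nat.totient (q * d) ≤ d * Nat.totient q := by
  have key : ∀ d : ℕ, Nat.count (fun k => q.Coprime k) (q * d) = d * Nat.totient q := by
    intro d
    induction d with
    | zero => simp
    | succ d ih =>
      have hp : (fun k => q.Coprime (q * d + k)) = fun k => q.Coprime k := by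
        funext k
        apply propext
        rw [Nat.add_comm, Nat.coprime_add_mul_left_right]
      have h1 : Nat.count (fun k => q.Coprime k) (q * d + q) =
          Nat.count (fun k => q.Coprime k) (q * d) + Nat.count (fun k => q.Coprime (q * d + k)) q :=
        Nat.count_add (p := fun k => q.Coprime k) (q * d) q
      have h2 : Nat.count (fun k => q.Coprime (q * d + k)) q = Nat.totient q := by
        rw [Nat.count_eq_card_filter_range, Nat.totient_eq_card_coprime]
        congr 1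
        ext k
        simp only [mem_filter, mem_range, and_congr_right_iff]
        intro _
        exact iff_of_eq (congrFun hp k)
      rw [Nat.mul_succ, h1, ih, h2, Nat.succ_mul]
  rw [← key d, Nat.totient_eq_card_coprime, Nat.count_eq_card_filter_range]
  refine card_le_card fun k hk => ?_
  rw [mem_filter] at hk ⊢
  exact ⟨hk.1, Nat.Coprime.coprime_mul_right hk.2⟩

private theorem gaussb_unit {x : ℕ} [NeZero x] (χ : DirichletCharacter ℂ x) (a : ZMod x)
    (u : (ZMod x)ˣ) :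
    ‖∑ n : ZMod x, χ n * ZMod.stdAddChar (a * (u : ZMod x) * n)‖ =
      ‖∑ n : ZMod x, χ n * ZMod.stdAddChar (a * n)‖ := by
  have h : ∑ n : ZMod x, χ n * ZMod.stdAddChar (a * n) =
      χ (u : ZMod x) * ∑ n : ZMod x, χ n * ZMod.stdAddChar (a * (u : ZMod x) * n) := by
    rw [mul_sum]
    refine (Fintype.sum_equiv u.mulLeft _ _ fun n => ?_).symm
    change χ (u : ZMod x) * (χ n * ZMod.stdAddChar (a * (u : ZMod x) * n)) =
      χ ((u : ZMod x) * n) * ZMod.stdAddChar (a * ((u : ZMod x) * n))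
    rw [map_mul χ, mul_assoc, mul_assoc]
  rw [h, norm_mul, DirichletCharacter.unit_norm_eq_one, one_mul]

private theorem gaussb_parseval {x : ℕ} [NeZero x] (χ : DirichletCharacter ℂ x) :
    ∑ b : ZMod x, ‖∑ n : ZMod x, χ n * ZMod.stdAddChar (b * n)‖ ^ 2 = x * ∑ n : ZMod x, ‖χ n‖ ^ 2 := by
  classical
  have hconj : ∀ y : ZMod x, (starRingEnd ℂ) (ZMod.stdAddChar y) = ZMod.stdAddChar (-y) := by
    intro y
    have h1 : ‖(ZMod.stdAddChar y : ℂ)‖ = 1 := by
      rw [ZMod.stdAddChar_apply, Circle.norm_coe]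
    have h2 : (ZMod.stdAddChar y : ℂ) * (starRingEnd ℂ) (ZMod.stdAddChar y) = 1 := by
      rw [Complex.mul_conj, Complex.normSq_eq_norm_sq, h1]
      norm_num
    have h3 : (ZMod.stdAddChar y : ℂ) * ZMod.stdAddChar (-y) = 1 := by
      rw [← AddChar.map_add_eq_mul, add_neg_cancel, AddChar.map_zero_eq_one]
    have h4 : (ZMod.stdAddChar y : ℂ) ≠ 0 := by
      intro h0
      rw [h0, zero_mul] at h3
      exact zero_ne_one h3
    exact mul_left_cancel₀ h4 (h2.trans h3.symm)
  have hc : ((∑ b : ZMod x, ‖∑ n : ZMod x, χ n * ZMod.stdAddChar (b * n)‖ ^ 2 : ℝ) : ℂ) =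
      ((x * ∑ n : ZMod x, ‖χ n‖ ^ 2 : ℝ) : ℂ) := by
    push_cast
    have h1 : ∀ b : ZMod x, ((‖∑ n : ZMod x, χ n * ZMod.stdAddChar (b * n)‖ : ℂ)) ^ 2 =
        ∑ n : ZMod x, ∑ m : ZMod x, χ n * (starRingEnd ℂ) (χ m) * ZMod.stdAddChar (b * (n - m)) := by
      intro b
      rw [← Complex.mul_conj', map_sum, sum_mul_sum]
      refine sum_congr rfl fun n _ => sum_congr rfl fun m _ => ?_
      rw [map_mul (starRingEnd ℂ), hconj, mul_mul_mul_comm, ← AddChar.map_add_eq_mul]
      congr 2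
      ring
    rw [sum_congr rfl fun b _ => h1 b, sum_comm, mul_sum]
    refine sum_congr rfl fun n _ => ?_
    rw [sum_comm]
    have h2 : ∀ m : ZMod x, ∑ b : ZMod x, χ n * (starRingEnd ℂ) (χ m) *
        ZMod.stdAddChar (b * (n - m)) = if n = m then (x : ℂ) * (‖χ n‖ : ℂ) ^ 2 else 0 := by
      intro m
      rw [← mul_sum, AddChar.sum_mulShift _ (ZMod.isPrimitive_stdAddChar x)]
      by_cases hnm : n = m
      · subst hnm
        simp only [sub_self, if_true, ZMod.card]
        rw [Complex.mul_conj', mul_comm]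
      · rw [if_neg (sub_ne_zero.2 hnm), if_neg hnm, Nat.cast_zero, mul_zero]
    rw [sum_congr rfl fun m _ => h2 m, sum_ite_eq, if_pos (mem_univ n)]
  exact_mod_cast hc

private theorem gaussb_normsum {x : ℕ} [NeZero x] (χ : DirichletCharacter ℂ x) :
    ∑ n : ZMod x, ‖χ n‖ ^ 2 ≤ (Nat.totient x : ℝ) := by
  classical
  have h1 : ∀ n : ZMod x, ‖χ n‖ ^ 2 = if IsUnit n then (1 : ℝ) else 0 := by
    intro n
    by_cases h : IsUnit n
    · obtain ⟨u, rfl⟩ := h
      rw [if_pos u.isUnit, DirichletCharacter.unit_norm_eq_one, one_pow]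
    · rw [if_neg h, MulChar.map_nonunit χ h, norm_zero]
      norm_num
  rw [sum_congr rfl fun n _ => h1 n, sum_boole]
  have h2 : (univ.filter fun n : ZMod x => IsUnit n) ⊆
      (univ : Finset (ZMod x)ˣ).image (fun u : (ZMod x)ˣ => (u : ZMod x)) := by
    intro n hn
    rw [mem_filter] at hn
    obtain ⟨u, hu⟩ := hn.2
    exact mem_image.2 ⟨u, mem_univ u, hu⟩
  have h3 := (card_le_card h2).trans card_image_le
  rw [card_univ, ZMod.card_units_eq_totient] at h3
  exact_mod_cast h3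

/-- **Job GaussB.** `G(a) = ∑ χ(n) e(a n / x)` satisfies `|G(a)|² ≤ x² / ord(a)`.

Proof. (1) For a unit `u` (of `ZMod x`) the substitution `n ↦ u⁻¹ n` gives `G(a u) = χ(u⁻¹) G(a)`, so
`‖G(a u)‖ = ‖G(a)‖` (for instance `gaussSum_mulShift`, `gaussSum_mulShift_eq` in Mathlib with
`e.mulShift`, or directly; `‖χ u‖ = 1` is `DirichletCharacter.unit_norm_eq_one`).
(2) Parseval: `∑_b ‖G(b)‖² = x ∑_n ‖χ(n)‖² = x φ(x)` (expand the square, `∑_b e(b (n - m) / x) = x [n = m]`:
`AddChar.sum_mulShift` with `ZMod.isPrimitive_stdAddChar`).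
(3) Put `q = addOrderOf a`. The set `{a u : u unit}` has at least `φ(q)` elements: `q ∣ x`, `a u = a u'` iff
`u ≡ u'` mod `q` (`a c = 0 ↔ q ∣ c`, `addOrderOf_dvd_iff_nsmul_eq_zero`) and `ZMod.unitsMap` onto the units
modulo `q` is surjective (`ZMod.unitsMap_surjective`), so a set of preimages gives `φ(q)` different `a u`.
(4) Hence `φ(q) ‖G(a)‖² ≤ x φ(x)` and `φ(x) ≤ (x / q) φ(q)` (for `x = d q`: `Nat.totient_mul_le`-type bound;
e.g. from `Nat.totient_gcd_mul_totient_mul` or from `φ(d q) ≤ d φ(q)` proved by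
`Nat.totient_super_multiplicative` / surjectivity of `unitsMap` with fibres of at most `d` elements). -/
theorem gauss_le {x : ℕ} [NeZero x] (χ : DirichletCharacter ℂ x) (a : ZMod x) :
    ‖∑ n : ZMod x, χ n * ZMod.stdAddChar (a * n)‖ ^ 2 ≤ (x : ℝ) ^ 2 / addOrderOf a := by
  classical
  set G : ZMod x → ℂ := fun b => ∑ n : ZMod x, χ n * ZMod.stdAddChar (b * n) with hG
  set q : ℕ := addOrderOf a with hq
  have hx0 : x ≠ 0 := NeZero.ne x
  have hqx : q ∣ x := by
    have h := addOrderOf_dvd_card (x := a)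
    rwa [ZMod.card] at h
  have hqpos : 0 < q := Nat.pos_of_dvd_of_pos hqx (Nat.pos_of_ne_zero hx0)
  have hqne : NeZero q := ⟨hqpos.ne'⟩
  have hann : ∀ c : ZMod x, a * c = 0 → ZMod.castHom hqx (ZMod q) c = 0 := by
    intro c hc
    have h1 : c.val • a = 0 := by
      rw [nsmul_eq_mul, ZMod.natCast_val, ZMod.cast_id', id, mul_comm]
      exact hc
    have h2 : q ∣ c.val := addOrderOf_dvd_iff_nsmul_eq_zero.2 h1
    have h3 : c = ((c.val : ℕ) : ZMod x) := by
      rw [ZMod.natCast_val, ZMod.cast_id', id]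
    rw [h3, map_natCast]
    exact (ZMod.natCast_eq_zero_iff _ _).2 h2
  have hsurj := ZMod.unitsMap_surjective hqx
  choose s hs using hsurj
  have hinj : Function.Injective fun v : (ZMod q)ˣ => a * (s v : ZMod x) := by
    intro v w hvw
    have h1 : a * ((s v : ZMod x) - (s w : ZMod x)) = 0 := by
      rw [mul_sub, sub_eq_zero]
      exact hvw
    have h2 := hann _ h1
    rw [map_sub, sub_eq_zero] at h2
    rw [← hs v, ← hs w]
    apply Units.ext
    exact h2
  have h1 : (Nat.totient q : ℝ) * ‖G a‖ ^ 2 ≤ ∑ b : ZMod x, ‖G b‖ ^ 2 := by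
    have h2 : ∑ v : (ZMod q)ˣ, ‖G (a * (s v : ZMod x))‖ ^ 2 = (Nat.totient q : ℝ) * ‖G a‖ ^ 2 := by
      have h3 : ∀ v : (ZMod q)ˣ, ‖G (a * (s v : ZMod x))‖ ^ 2 = ‖G a‖ ^ 2 := by
        intro v
        rw [hG]
        simp only
        rw [gaussb_unit]
      rw [sum_congr rfl fun v _ => h3 v, sum_const, card_univ, ZMod.card_units_eq_totient,
        nsmul_eq_mul]
    rw [← h2]
    calc ∑ v : (ZMod q)ˣ, ‖G (a * (s v : ZMod x))‖ ^ 2
        = ∑ b ∈ univ.image (fun v : (ZMod q)ˣ => a * (s v : ZMod x)), ‖G b‖ ^ 2 := by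
          rw [sum_image fun v _ w _ h => hinj h]
      _ ≤ ∑ b : ZMod x, ‖G b‖ ^ 2 :=
          sum_le_sum_of_subset_of_nonneg (subset_univ _) fun b _ _ => by positivity
  have h2 : ∑ b : ZMod x, ‖G b‖ ^ 2 ≤ (x : ℝ) * Nat.totient x := by
    rw [hG]
    simp only
    rw [gaussb_parseval]
    exact mul_le_mul_of_nonneg_left (gaussb_normsum χ) (Nat.cast_nonneg x)
  obtain ⟨d, hd⟩ := hqx
  have h3 : (Nat.totient x : ℝ) ≤ d * Nat.totient q := by
    have h4 := gaussb_totient q d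
    rw [← hd] at h4
    exact_mod_cast h4
  have hφ : (0 : ℝ) < Nat.totient q := by exact_mod_cast Nat.totient_pos.2 hqpos
  have hqR : (0 : ℝ) < q := by exact_mod_cast hqpos
  have hxd : (x : ℝ) = q * d := by exact_mod_cast hd
  change ‖G a‖ ^ 2 ≤ _
  rw [le_div_iff₀ hqR]
  have h5 : (Nat.totient q : ℝ) * ‖G a‖ ^ 2 ≤ x * (d * Nat.totient q) :=
    (h1.trans h2).trans (mul_le_mul_of_nonneg_left h3 (Nat.cast_nonneg x))
  have h6 : ‖G a‖ ^ 2 ≤ x * d := by
    have h7 : (Nat.totient q : ℝ) * ‖G a‖ ^ 2 ≤ Nat.totient q * (x * d) := by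
      linarith
    exact le_of_mul_le_mul_left h7 hφ
  calc ‖G a‖ ^ 2 * q ≤ x * d * q := mul_le_mul_of_nonneg_right h6 hqR.le
    _ = (x : ℝ) ^ 2 := by rw [hxd]; ring

end Pool.Agent.Lib.MP_9dd88f_nt.HF
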