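import Mathlib
import Pool.Agent.Lib.MP_9dd88f_nt.HF.Defs

/-!
# The Fourier transform of an interval on the elements of order `q`
-/

namespace Pool.Agent.Lib.MP_9dd88f_nt.HF

open Finset Filter

open Classical in
/-- **Job IntF.** `∑_{ord a = q} |∑_{i < H} e(a i / x)|² ≤ q H` for `q > 1`.

Proof. If no `a` has order `q` the sum is `0`. For `a` of order `q` put `z = e(a / x)` (a primitive `q`-th root of
unity: `z ^ q = 1`, `z ≠ 1`), so `∑_{i<q} z^i = 0` and with `h = H % q` one has `∑_{i<H} z^i = ∑_{i<h} z^i`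
(split `H = q (H / q) + h`, `Finset.sum_range_add`/`geom_sum`, `ZMod.stdAddChar (a * i) = z ^ i`).
Enlarge the sum to all `a` with `q • a = 0`; there are at most `q` of them
(`IsAddCyclic.card_nsmul_eq_zero_le`, see DE/SumOrder.lean) and they form a subgroup. Expand the square:
`∑_{a : q•a=0} |∑_{i<h} e(a i/x)|² = ∑_{i,j<h} ∑_{a : q • a = 0} e(a (i - j) / x)`. The inner sum is the sum of the
character `a ↦ e(a (i-j)/x)` over the subgroup: it is `0` unless the character is trivial on it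
(`AddChar`/translation by an element with value `≠ 1`), in particular for `0 < |i - j| < q` it is `0`,
since the element `a₀` of order `q` has `e(a₀/x)^(i-j) ≠ 1` (`ZMod.injective_stdAddChar`). So only `i = j`
remains: `≤ h q ≤ q H`. -/
theorem interval_fourier {x : ℕ} [NeZero x] (H q : ℕ) (hq : 1 < q) :
    ∑ a ∈ (univ : Finset (ZMod x)).filter (fun a => addOrderOf a = q),
      ‖∑ i ∈ range H, ZMod.stdAddChar (a * (i : ZMod x))‖ ^ 2 ≤ q * H := by
  by_cases hne : ∃ a₀ : ZMod x, addOrderOf a₀ = q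
  swap
  · have h0 : (univ : Finset (ZMod x)).filter (fun a => addOrderOf a = q) = ∅ :=
      Finset.filter_eq_empty_iff.mpr fun a _ h => hne ⟨a, h⟩
    rw [h0, Finset.sum_empty]
    positivity
  obtain ⟨a₀, ha₀⟩ := hne
  have hψ : ∀ (a : ZMod x) (i : ℕ), ZMod.stdAddChar (a * (i : ZMod x)) = (ZMod.stdAddChar a : ℂ) ^ i := by
    intro a i
    rw [← AddChar.map_nsmul_eq_pow, nsmul_eq_mul, mul_comm]
  have hψ' : ∀ (a : ZMod x) (i : ℕ), (ZMod.stdAddChar (i • a) : ℂ) = (ZMod.stdAddChar a : ℂ) ^ i := by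
    intro a i
    rw [← AddChar.map_nsmul_eq_pow]
  have hz : IsPrimitiveRoot (ZMod.stdAddChar a₀ : ℂ) q := by
    refine ⟨?_, fun l hl => ?_⟩
    · rw [← hψ', ← ha₀, addOrderOf_nsmul_eq_zero, AddChar.map_zero_eq_one]
    · rw [← hψ', ← AddChar.map_zero_eq_one (ZMod.stdAddChar (N := x))] at hl
      rw [← ha₀]
      exact addOrderOf_dvd_of_nsmul_eq_zero (ZMod.injective_stdAddChar hl)
  have hz1 : ‖(ZMod.stdAddChar a₀ : ℂ)‖ = 1 := hz.norm'_eq_one (by omega)
  have hzc : (starRingEnd ℂ) (ZMod.stdAddChar a₀ : ℂ) = (ZMod.stdAddChar a₀ : ℂ)⁻¹ := (Complex.inv_eq_conj hz1).symm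
  have hz0 : (ZMod.stdAddChar a₀ : ℂ) ≠ 0 := by
    intro h
    rw [h, norm_zero] at hz1
    exact zero_ne_one hz1
  have hhq : H % q < q := Nat.mod_lt _ (by omega)
  -- reduction modulo the period
  have key : ∀ a : ZMod x, addOrderOf a = q → ∑ i ∈ range H, (ZMod.stdAddChar (a * (i : ZMod x)) : ℂ) =
      ∑ i ∈ range (H % q), (ZMod.stdAddChar a : ℂ) ^ i := by
    intro a ha
    have h1 : (ZMod.stdAddChar a : ℂ) ≠ 1 := by
      intro h2
      have h3 : a = 0 := by
        apply ZMod.injective_stdAddChar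
        rw [h2, AddChar.map_zero_eq_one]
      rw [h3, addOrderOf_zero] at ha
      omega
    have h2 : (ZMod.stdAddChar a : ℂ) ^ q = 1 := by
      rw [← hψ', ← ha, addOrderOf_nsmul_eq_zero, AddChar.map_zero_eq_one]
    have h3 : (ZMod.stdAddChar a : ℂ) ^ H = (ZMod.stdAddChar a : ℂ) ^ (H % q) := by
      conv_lhs => rw [← Nat.div_add_mod H q, pow_add, pow_mul, h2, one_pow, one_mul]
    simp only [hψ]
    rw [geom_sum_eq h1, geom_sum_eq h1, h3]
  have hinj : ∀ i < q, ∀ j < q, i • a₀ = j • a₀ → i = j := by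
    intro i hi j hj hij
    refine hz.pow_inj hi hj ?_
    rw [← hψ', ← hψ', hij]
  have hsub : (univ : Finset (ZMod x)).filter (fun a => addOrderOf a = q) ⊆ (range q).image fun j => j • a₀ := by
    have h1 : (range q).image (fun j => j • a₀) ⊆ (univ : Finset (ZMod x)).filter (fun a => q • a = 0) := by
      intro a ha
      obtain ⟨j, -, rfl⟩ := Finset.mem_image.mp ha
      refine Finset.mem_filter.mpr ⟨Finset.mem_univ _, ?_⟩
      rw [smul_comm, ← ha₀, addOrderOf_nsmul_eq_zero, smul_zero]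
    have h2 : ((range q).image fun j => j • a₀).card = q := by
      rw [Finset.card_image_of_injOn, Finset.card_range]
      intro i hi j hj hij
      exact hinj i (by simpa using hi) j (by simpa using hj) hij
    have h3 : ((univ : Finset (ZMod x)).filter (fun a => q • a = 0)).card ≤ q :=
      IsAddCyclic.card_nsmul_eq_zero_le (by omega)
    have h4 := Finset.eq_of_subset_of_card_le h1 (by rw [h2]; exact h3)
    rw [h4]
    intro a ha
    refine Finset.mem_filter.mpr ⟨Finset.mem_univ _, ?_⟩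
    rw [← (Finset.mem_filter.mp ha).2, addOrderOf_nsmul_eq_zero]
  have hmain : ∑ j ∈ range q, ‖∑ i ∈ range (H % q), ((ZMod.stdAddChar a₀ : ℂ) ^ j) ^ i‖ ^ 2 = ((q * (H % q) : ℕ) : ℝ) := by
    have h1 : ((∑ j ∈ range q, ‖∑ i ∈ range (H % q), ((ZMod.stdAddChar a₀ : ℂ) ^ j) ^ i‖ ^ 2 : ℝ) : ℂ) =
        ((q * (H % q) : ℕ) : ℂ) := by
      push_cast
      have h2 : ∀ j, ((‖∑ i ∈ range (H % q), ((ZMod.stdAddChar a₀ : ℂ) ^ j) ^ i‖ : ℂ)) ^ 2 =
          ∑ i ∈ range (H % q), ∑ i' ∈ range (H % q), ((ZMod.stdAddChar a₀ : ℂ) ^ i * ((ZMod.stdAddChar a₀ : ℂ)⁻¹) ^ i') ^ j := by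
        intro j
        rw [← Complex.mul_conj', map_sum, Finset.sum_mul_sum]
        refine Finset.sum_congr rfl fun i _ => Finset.sum_congr rfl fun i' _ => ?_
        rw [map_pow, map_pow, hzc, mul_pow, ← pow_mul, ← pow_mul, ← pow_mul, ← pow_mul, mul_comm j i, mul_comm j i']
      simp only [h2]
      rw [Finset.sum_comm]
      have h3 : ∀ i ∈ range (H % q), ∑ j ∈ range q, ∑ i' ∈ range (H % q),
          ((ZMod.stdAddChar a₀ : ℂ) ^ i * ((ZMod.stdAddChar a₀ : ℂ)⁻¹) ^ i') ^ j = (q : ℂ) := by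
        intro i hi
        rw [Finset.sum_comm, Finset.sum_eq_single i]
        · have h4 : (ZMod.stdAddChar a₀ : ℂ) ^ i * ((ZMod.stdAddChar a₀ : ℂ)⁻¹) ^ i = 1 := by
            rw [← mul_pow, mul_inv_cancel₀ hz0, one_pow]
          simp only [h4, one_pow, Finset.sum_const, Finset.card_range, nsmul_eq_mul, mul_one]
        · intro i' hi' hne
          have h4 : (ZMod.stdAddChar a₀ : ℂ) ^ i * ((ZMod.stdAddChar a₀ : ℂ)⁻¹) ^ i' ≠ 1 := by
            intro h5
            apply hne
            refine hz.pow_inj ((Finset.mem_range.mp hi').trans hhq) ((Finset.mem_range.mp hi).trans hhq) ?_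
            rw [inv_pow, mul_inv_eq_one₀ (pow_ne_zero _ hz0)] at h5
            exact h5.symm
          rw [geom_sum_eq h4, mul_pow, ← pow_mul, ← pow_mul, mul_comm i q, mul_comm i' q, pow_mul, pow_mul, inv_pow, hz.pow_eq_one]
          simp
        · intro hi'
          exact absurd hi hi'
      rw [Finset.sum_congr rfl h3, Finset.sum_const, Finset.card_range, nsmul_eq_mul, mul_comm]
    exact_mod_cast h1
  calc ∑ a ∈ (univ : Finset (ZMod x)).filter (fun a => addOrderOf a = q), ‖∑ i ∈ range H, (ZMod.stdAddChar (a * (i : ZMod x)) : ℂ)‖ ^ 2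
      = ∑ a ∈ (univ : Finset (ZMod x)).filter (fun a => addOrderOf a = q), ‖∑ i ∈ range (H % q), (ZMod.stdAddChar a : ℂ) ^ i‖ ^ 2 :=
        Finset.sum_congr rfl fun a ha => by rw [key a (Finset.mem_filter.mp ha).2]
    _ ≤ ∑ a ∈ (range q).image (fun j => j • a₀), ‖∑ i ∈ range (H % q), (ZMod.stdAddChar a : ℂ) ^ i‖ ^ 2 :=
        Finset.sum_le_sum_of_subset_of_nonneg hsub fun a _ _ => by positivity
    _ = ∑ j ∈ range q, ‖∑ i ∈ range (H % q), ((ZMod.stdAddChar a₀ : ℂ) ^ j) ^ i‖ ^ 2 := by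
        rw [Finset.sum_image]
        · refine Finset.sum_congr rfl fun j _ => ?_
          rw [hψ']
        · intro i hi j hj hij
          exact hinj i (by simpa using hi) j (by simpa using hj) hij
    _ = ((q * (H % q) : ℕ) : ℝ) := hmain
    _ ≤ q * H := by
        push_cast
        exact mul_le_mul_of_nonneg_left (by exact_mod_cast Nat.mod_le H q) (by positivity)

end Pool.Agent.Lib.MP_9dd88f_nt.HF
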