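import Mathlib
import Pool.Agent.Lib.MP_9dd88f_nt.HF.GaussB
import Pool.Agent.Lib.MP_9dd88f_nt.HF.IntF

/-!
# A smooth Pólya–Vinogradov inequality for all nonprincipal characters
-/

namespace Pool.Agent.Lib.MP_9dd88f_nt.HF

open Finset Filter

/-- **Job PolyaV.** `|∑_{i,j<H} χ(c + i + j)| ≤ H √x d(x)` for every nonprincipal `χ` modulo `x`.

Proof. Let `G(a) = ∑_n χ(n) e(a n / x)`. Fourier inversion: `χ(n) = (1/x) ∑_a G(a) e(-a n / x)`
(`AddChar.sum_mulShift`, `ZMod.isPrimitive_stdAddChar`). Hence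
`∑_{i,j<H} χ(c+i+j) = (1/x) ∑_a G(a) e(-a c/x) (∑_{i<H} e(-a i/x))²` and `|∑_{i<H} e(-a i/x)| = |∑_{i<H} e(a i/x)| =: g(a)`
(complex conjugates). `G(0) = ∑ χ(n) = 0` (`MulChar.sum_eq_zero_of_ne_one`, or `DirichletCharacter` version).
So the norm is `≤ (1/x) ∑_{a ≠ 0} ‖G(a)‖ g(a)²`. Group the `a ≠ 0` by `q = addOrderOf a`, a divisor `> 1` of `x`
(`addOrderOf_dvd_card`, `ZMod.card`): by `gauss_le` `‖G(a)‖ ≤ x / √q` and by `interval_fourier` `∑_{ord a = q} g(a)² ≤ q H`.
Total `≤ (1/x) ∑_{q ∣ x} (x / √q) q H = H ∑_{q ∣ x} √q ≤ H √x d(x)`. -/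
theorem smooth_pv {x : ℕ} [NeZero x] (χ : DirichletCharacter ℂ x) (hχ : χ ≠ 1) (c : ZMod x)
    (H : ℕ) : ‖∑ i ∈ range H, ∑ j ∈ range H, χ (c + (i : ZMod x) + (j : ZMod x))‖ ≤
      H * √x * x.divisors.card := by
  classical
  set e : AddChar (ZMod x) ℂ := ZMod.stdAddChar with he
  have hprim : e.IsPrimitive := ZMod.isPrimitive_stdAddChar x
  set G : ZMod x → ℂ := fun a => ∑ n : ZMod x, χ n * e (a * n) with hG
  set g : ZMod x → ℝ := fun a => ‖∑ i ∈ range H, e (a * (i : ZMod x))‖ with hg
  have hxpos : 0 < (x : ℝ) := by exact_mod_cast Nat.pos_of_ne_zero (NeZero.ne x)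
  -- inversion
  have hinv : ∀ n : ZMod x, ∑ a : ZMod x, G a * e (-(a * n)) = x * χ n := by
    intro n
    have h1 : ∀ a : ZMod x, G a * e (-(a * n)) = ∑ m : ZMod x, χ m * e (a * (m - n)) := by
      intro a
      rw [hG, Finset.sum_mul]
      refine Finset.sum_congr rfl fun m _ => ?_
      rw [mul_assoc, ← AddChar.map_add_eq_mul]
      congr 2
      ring
    simp only [h1]
    rw [Finset.sum_comm]
    have h2 : ∀ m : ZMod x, ∑ a : ZMod x, χ m * e (a * (m - n)) =
        if m = n then χ m * x else 0 := by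
      intro m
      rw [← Finset.mul_sum, AddChar.sum_mulShift (m - n) hprim]
      by_cases hmn : m = n
      · rw [if_pos hmn, if_pos (sub_eq_zero.mpr hmn), ZMod.card]
      · rw [if_neg hmn, if_neg (fun h => hmn (sub_eq_zero.mp h))]
        simp
    simp only [h2]
    rw [Finset.sum_ite_eq' Finset.univ n, if_pos (Finset.mem_univ n), mul_comm]
  have hconj : ∀ a : ZMod x, ‖∑ i ∈ range H, e (-(a * (i : ZMod x)))‖ = g a := by
    intro a
    have h1 : ∑ i ∈ range H, e (-(a * (i : ZMod x))) =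
        (starRingEnd ℂ) (∑ i ∈ range H, e (a * (i : ZMod x))) := by
      rw [map_sum]
      refine Finset.sum_congr rfl fun i _ => ?_
      rw [AddChar.map_neg_eq_conj]
    rw [h1, RCLike.norm_conj]
  have hsq : ∀ a : ZMod x, ∑ i ∈ range H, ∑ j ∈ range H,
      e (-(a * (c + (i : ZMod x) + (j : ZMod x)))) =
      e (-(a * c)) * (∑ i ∈ range H, e (-(a * (i : ZMod x)))) ^ 2 := by
    intro a
    rw [sq, Finset.sum_mul_sum, Finset.mul_sum]
    refine Finset.sum_congr rfl fun i _ => ?_
    rw [Finset.mul_sum]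
    refine Finset.sum_congr rfl fun j _ => ?_
    rw [← AddChar.map_add_eq_mul, ← AddChar.map_add_eq_mul]
    congr 1
    ring
  have hmain : (x : ℂ) * ∑ i ∈ range H, ∑ j ∈ range H, χ (c + (i : ZMod x) + (j : ZMod x)) =
      ∑ a : ZMod x, G a * (e (-(a * c)) * (∑ i ∈ range H, e (-(a * (i : ZMod x)))) ^ 2) := by
    rw [Finset.mul_sum]
    have h1 : ∀ i ∈ range H, (x : ℂ) * ∑ j ∈ range H, χ (c + (i : ZMod x) + (j : ZMod x)) =
        ∑ j ∈ range H, ∑ a : ZMod x, G a * e (-(a * (c + (i : ZMod x) + (j : ZMod x)))) := by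
      intro i _
      rw [Finset.mul_sum]
      exact Finset.sum_congr rfl fun j _ => (hinv _).symm
    rw [Finset.sum_congr rfl h1]
    have h2 : ∀ i ∈ range H, ∑ j ∈ range H, ∑ a : ZMod x,
        G a * e (-(a * (c + (i : ZMod x) + (j : ZMod x)))) =
        ∑ a : ZMod x, ∑ j ∈ range H, G a * e (-(a * (c + (i : ZMod x) + (j : ZMod x)))) :=
      fun i _ => Finset.sum_comm
    rw [Finset.sum_congr rfl h2, Finset.sum_comm]
    refine Finset.sum_congr rfl fun a _ => ?_
    rw [← hsq a, Finset.mul_sum]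
    refine Finset.sum_congr rfl fun i _ => ?_
    rw [Finset.mul_sum]
  have hG0 : G 0 = 0 := by
    rw [hG]
    simp only [zero_mul, AddChar.map_zero_eq_one, mul_one]
    exact MulChar.sum_eq_zero_of_ne_one hχ
  -- the bound of a single term
  have hterm : ∀ a : ZMod x, a ≠ 0 →
      ‖G a * (e (-(a * c)) * (∑ i ∈ range H, e (-(a * (i : ZMod x)))) ^ 2)‖ ≤
      x / √(addOrderOf a) * g a ^ 2 := by
    intro a _
    rw [norm_mul, norm_mul, norm_pow, hconj, AddChar.norm_apply, one_mul]
    refine mul_le_mul_of_nonneg_right ?_ (by positivity)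
    have h1 := gauss_le χ a
    have h2 : ‖G a‖ ^ 2 ≤ (x / √(addOrderOf a)) ^ 2 := by
      rw [div_pow, Real.sq_sqrt (Nat.cast_nonneg _)]
      exact h1
    exact abs_le_of_sq_le_sq' h2 (by positivity) |>.2
  -- the sum over the divisors
  have hsum : ∑ a ∈ (Finset.univ : Finset (ZMod x)).filter (fun a => a ≠ 0),
      x / √(addOrderOf a) * g a ^ 2 ≤ x * (H * √x * x.divisors.card) := by
    have hmaps : ∀ a ∈ (Finset.univ : Finset (ZMod x)).filter (fun a => a ≠ 0),
        addOrderOf a ∈ x.divisors.filter (fun q => 1 < q) := by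
      intro a ha
      rw [Finset.mem_filter] at ha
      rw [Finset.mem_filter, Nat.mem_divisors]
      have h1 : addOrderOf a ∣ x := by
        have := addOrderOf_dvd_card (x := a)
        rwa [ZMod.card] at this
      refine ⟨⟨h1, NeZero.ne x⟩, ?_⟩
      have h2 : addOrderOf a ≠ 1 := fun h => ha.2 (AddMonoid.addOrderOf_eq_one_iff.mp h)
      have h3 : 0 < addOrderOf a := addOrderOf_pos a
      omega
    rw [← Finset.sum_fiberwise_of_maps_to hmaps]
    have hone : ∀ q ∈ x.divisors.filter (fun q => 1 < q),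
        ∑ a ∈ ((Finset.univ : Finset (ZMod x)).filter (fun a => a ≠ 0)).filter
          (fun a => addOrderOf a = q), x / √(addOrderOf a) * g a ^ 2 ≤ x * (H * √x) := by
      intro q hq
      rw [Finset.mem_filter, Nat.mem_divisors] at hq
      have hq0 : 0 < (q : ℝ) := by exact_mod_cast (by omega : 0 < q)
      have hqx : (q : ℝ) ≤ x := by
        exact_mod_cast Nat.le_of_dvd (Nat.pos_of_ne_zero (NeZero.ne x)) hq.1.1
      have k1 : ∑ a ∈ ((Finset.univ : Finset (ZMod x)).filter (fun a => a ≠ 0)).filter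
          (fun a => addOrderOf a = q), x / √(addOrderOf a) * g a ^ 2 =
          ∑ a ∈ ((Finset.univ : Finset (ZMod x)).filter (fun a => a ≠ 0)).filter
          (fun a => addOrderOf a = q), x / √q * g a ^ 2 := by
        refine Finset.sum_congr rfl fun a ha => ?_
        rw [Finset.mem_filter] at ha
        rw [ha.2]
      have k2 : ∑ a ∈ ((Finset.univ : Finset (ZMod x)).filter (fun a => a ≠ 0)).filter
          (fun a => addOrderOf a = q), x / √q * g a ^ 2 ≤
          ∑ a ∈ (Finset.univ : Finset (ZMod x)).filter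
          (fun a => addOrderOf a = q), x / √q * g a ^ 2 := by
        refine Finset.sum_le_sum_of_subset_of_nonneg ?_ ?_
        · intro a ha
          rw [Finset.mem_filter] at ha ⊢
          exact ⟨Finset.mem_univ a, ha.2⟩
        · intro a _ _
          positivity
      rw [k1]
      refine k2.trans ?_
      rw [← Finset.mul_sum]
      calc x / √q * (∑ a ∈ (Finset.univ : Finset (ZMod x)).filter
            (fun a => addOrderOf a = q), g a ^ 2)
          ≤ x / √q * (q * H) := by
            refine mul_le_mul_of_nonneg_left ?_ (by positivity)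
            exact interval_fourier H q hq.2
        _ = x * (H * √q) := by
            have h1 : (q : ℝ) = √q * √q := (Real.mul_self_sqrt hq0.le).symm
            have h2 : √(q : ℝ) ≠ 0 := (Real.sqrt_pos.mpr hq0).ne'
            field_simp
            linear_combination (H : ℝ) * (Real.sq_sqrt hq0.le).symm
        _ ≤ x * (H * √x) := by
            refine mul_le_mul_of_nonneg_left ?_ hxpos.le
            exact mul_le_mul_of_nonneg_left (Real.sqrt_le_sqrt hqx) (Nat.cast_nonneg _)
    refine (Finset.sum_le_sum hone).trans ?_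
    rw [Finset.sum_const, nsmul_eq_mul]
    have h1 : ((x.divisors.filter (fun q => 1 < q)).card : ℝ) ≤ x.divisors.card := by
      exact_mod_cast Finset.card_filter_le _ _
    have h2 : (0 : ℝ) ≤ x * (H * √x) := by positivity
    calc ((x.divisors.filter (fun q => 1 < q)).card : ℝ) * (x * (H * √x))
        ≤ x.divisors.card * (x * (H * √x)) := mul_le_mul_of_nonneg_right h1 h2
      _ = x * (H * √x * x.divisors.card) := by ring
  have hfin : (x : ℝ) * ‖∑ i ∈ range H, ∑ j ∈ range H, χ (c + (i : ZMod x) + (j : ZMod x))‖ ≤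
      x * (H * √x * x.divisors.card) := by
    have h1 : (x : ℝ) * ‖∑ i ∈ range H, ∑ j ∈ range H, χ (c + (i : ZMod x) + (j : ZMod x))‖ =
        ‖∑ a : ZMod x, G a * (e (-(a * c)) *
          (∑ i ∈ range H, e (-(a * (i : ZMod x)))) ^ 2)‖ := by
      rw [← hmain, norm_mul, Complex.norm_natCast]
    rw [h1]
    have h2 : ∑ a : ZMod x, G a * (e (-(a * c)) *
          (∑ i ∈ range H, e (-(a * (i : ZMod x)))) ^ 2) =
        ∑ a ∈ (Finset.univ : Finset (ZMod x)).filter (fun a => a ≠ 0), G a * (e (-(a * c)) *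
          (∑ i ∈ range H, e (-(a * (i : ZMod x)))) ^ 2) := by
      symm
      refine Finset.sum_subset (Finset.subset_univ _) ?_
      intro a _ ha
      rw [Finset.mem_filter, not_and, not_not] at ha
      rw [ha (Finset.mem_univ a), hG0, zero_mul]
    rw [h2]
    refine (norm_sum_le _ _).trans (le_trans (Finset.sum_le_sum ?_) hsum)
    intro a ha
    rw [Finset.mem_filter] at ha
    exact hterm a ha.2
  exact le_of_mul_le_mul_left hfin hxpos

end Pool.Agent.Lib.MP_9dd88f_nt.HF
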