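import Mathlib
import Pool.Agent.Lib.MP_9dd88f_nt.HF.Defs

/-!
# The weight: definition
-/

namespace Pool.Agent.Lib.MP_9dd88f_nt.HF

open Finset

open Classical in
/-- The product of the primes below `Q` not dividing `x`. -/
noncomputable def W1 (x Q : ℕ) : ℕ := ∏ p ∈ (range Q).filter (fun p => p.Prime ∧ ¬ p ∣ x), p

open Classical in
/-- The product of the primes below `Q` dividing `x`. -/
noncomputable def V1 (x Q : ℕ) : ℕ := ∏ p ∈ (range Q).filter (fun p => p.Prime ∧ p ∣ x), p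

/-- The length `⌊X / (2 W1)⌋`. -/
noncomputable def H1 (x Q X : ℕ) : ℕ := X / (2 * W1 x Q)

open Classical in
/-- The weight `f(r) = #{(i, j) ∈ [0, H)² : r = 1 + W1 (i + j)} / H` for `(r, x) = 1`, and `0` otherwise. -/
noncomputable def wgt (x Q X : ℕ) (r : ℕ) : ℝ :=
  if r.Coprime x then
    (((range (H1 x Q X) ×ˢ range (H1 x Q X)).filter
      (fun ij => r = 1 + W1 x Q * (ij.1 + ij.2))).card : ℝ) / H1 x Q X
  else 0

end Pool.Agent.Lib.MP_9dd88f_nt.HF
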