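import Mathlib
import Pool.Agent.Lib.MP_9dd88f_nt.HF.WgtDefs
import Pool.Agent.Lib.MP_9dd88f_nt.HF.PolyaV

/-!
# The transform of the weight
-/

namespace Pool.Agent.Lib.MP_9dd88f_nt.HF

open Finset Filter

private theorem WgtHat_W1_pos (x Q : ℕ) : 1 ≤ W1 x Q := by
  classical
  unfold W1
  refine Nat.one_le_iff_ne_zero.mpr (Finset.prod_ne_zero_iff.mpr ?_)
  intro p hp
  rw [mem_filter] at hp
  exact hp.2.1.ne_zero

private theorem WgtHat_cop (x Q : ℕ) : (W1 x Q).Coprime x := by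
  classical
  unfold W1
  refine Nat.Coprime.prod_left ?_
  intro p hp
  rw [mem_filter] at hp
  exact (Nat.Prime.coprime_iff_not_dvd hp.2.1).mpr hp.2.2

/-- **Job WgtHat.** `|f^(χ)| ≤ √x d(x)` for `χ ≠ 1`.

Proof. If `H = H1 x Q X = 0` then `wgt = 0` (division by `0`) and `hat = 0`. Let `H ≥ 1`; then `x > 0` (`X ≤ x`, `X ≥ 2 W1 ≥ 2`).
For `i, j < H` the number `r = 1 + W1 (i + j) ≤ 1 + W1 (2H - 2) < X ≤ x` (as `2 W1 H ≤ X`, `W1 ≥ 1`). Since `χ(r) = 0` when `r` is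
not coprime to `x` (`MulChar.map_nonunit`, `ZMod.isUnit_iff_coprime`),
`hat x f χ = (1/H) ∑_{r<x} ∑_{(i,j)} [r = 1 + W1 (i+j)] χ(r) = (1/H) ∑_{i,j<H} χ(1 + W1 (i+j))`.
`W1` is coprime to `x`, so with `c = (W1)⁻¹` in `ZMod x`: `χ(1 + W1(i+j)) = χ(W1) χ(c + i + j)`. Now `smooth_pv` and `‖χ(W1)‖ ≤ 1`. -/
theorem wgt_hat {x Q X : ℕ} (hXx : X ≤ x) (χ : DirichletCharacter ℂ x) (hχ : χ ≠ 1) :
    ‖hat x (wgt x Q X) χ‖ ≤ √x * x.divisors.card := by
  classical
  have hW := WgtHat_W1_pos x Q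
  by_cases hH : H1 x Q X = 0
  · have h0 : hat x (wgt x Q X) χ = 0 := by
      unfold hat
      refine Finset.sum_eq_zero fun r _ => ?_
      have : wgt x Q X r = 0 := by
        unfold wgt
        split_ifs
        · rw [hH]
          simp
        · rfl
      rw [this]
      simp
    rw [h0, norm_zero]
    positivity
  have hH1 : 1 ≤ H1 x Q X := Nat.one_le_iff_ne_zero.mpr hH
  have hHX : H1 x Q X * (2 * W1 x Q) ≤ X := by
    unfold H1
    exact Nat.div_mul_le_self _ _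
  have hx0 : x ≠ 0 := by
    intro h0
    have h1 : 1 * (2 * 1) ≤ H1 x Q X * (2 * W1 x Q) := Nat.mul_le_mul hH1 (by omega)
    omega
  have : NeZero x := ⟨hx0⟩
  set H := H1 x Q X with hHdef
  set V := W1 x Q with hVdef
  have hlt : ∀ i ∈ range H, ∀ j ∈ range H, 1 + V * (i + j) < x := by
    intro i hi j hj
    rw [mem_range] at hi hj
    have h1 : V * (i + j) + 2 * V ≤ H * (2 * V) := by
      have h2 : i + j + 2 ≤ 2 * H := by omega
      calc V * (i + j) + 2 * V = V * (i + j + 2) := by ring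
        _ ≤ V * (2 * H) := Nat.mul_le_mul_left _ h2
        _ = H * (2 * V) := by ring
    omega
  have hHc : (H : ℂ) ≠ 0 := by exact_mod_cast hH
  have hterm : ∀ r ∈ range x, ((wgt x Q X r : ℝ) : ℂ) * χ r =
      (1 / (H : ℂ)) * ∑ ij ∈ range H ×ˢ range H, if r = 1 + V * (ij.1 + ij.2) then χ r else 0 := by
    intro r _
    by_cases hr : r.Coprime x
    · have hw : wgt x Q X r = (((range H ×ˢ range H).filter
          (fun ij => r = 1 + V * (ij.1 + ij.2))).card : ℝ) / H := by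
        unfold wgt
        rw [if_pos hr]
      rw [hw]
      rw [← Finset.sum_filter, Finset.sum_const]
      push_cast
      rw [nsmul_eq_mul]
      field_simp
    · have h0 : χ (r : ZMod x) = 0 := by
        refine χ.map_nonunit ?_
        rw [ZMod.isUnit_iff_coprime]
        exact hr
      rw [h0]
      simp
  have hhat : hat x (wgt x Q X) χ = (1 / (H : ℂ)) *
      ∑ ij ∈ range H ×ˢ range H, χ ((1 + V * (ij.1 + ij.2) : ℕ) : ZMod x) := by
    unfold hat
    rw [Finset.sum_congr rfl hterm, ← Finset.mul_sum, Finset.sum_comm]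
    congr 1
    refine Finset.sum_congr rfl fun ij hij => ?_
    rw [mem_product] at hij
    rw [Finset.sum_ite_eq' (range x) (1 + V * (ij.1 + ij.2)) (fun r => χ (r : ZMod x)), if_pos]
    exact mem_range.mpr (hlt _ hij.1 _ hij.2)
  have hVu : IsUnit ((V : ℕ) : ZMod x) := (ZMod.isUnit_iff_coprime V x).mpr (WgtHat_cop x Q)
  obtain ⟨u, hu⟩ := hVu
  have hfac : ∀ i j : ℕ, χ ((1 + V * (i + j) : ℕ) : ZMod x) =
      χ (V : ZMod x) * χ (((u⁻¹ : (ZMod x)ˣ) : ZMod x) + (i : ZMod x) + (j : ZMod x)) := by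
    intro i j
    rw [← map_mul]
    congr 1
    push_cast
    rw [← hu]
    have h1 : (u : ZMod x) * ((u⁻¹ : (ZMod x)ˣ) : ZMod x) = 1 := Units.mul_inv u
    calc (1 : ZMod x) + (u : ZMod x) * ((i : ZMod x) + (j : ZMod x))
        = (u : ZMod x) * ((u⁻¹ : (ZMod x)ˣ) : ZMod x) + (u : ZMod x) * ((i : ZMod x) + (j : ZMod x)) := by rw [h1]
      _ = _ := by ring
  have hsum : ∑ ij ∈ range H ×ˢ range H, χ ((1 + V * (ij.1 + ij.2) : ℕ) : ZMod x) =
      χ (V : ZMod x) * ∑ i ∈ range H, ∑ j ∈ range H,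
        χ (((u⁻¹ : (ZMod x)ˣ) : ZMod x) + (i : ZMod x) + (j : ZMod x)) := by
    rw [Finset.sum_product, Finset.mul_sum]
    refine Finset.sum_congr rfl fun i _ => ?_
    rw [Finset.mul_sum]
    exact Finset.sum_congr rfl fun j _ => hfac i j
  have hpv := smooth_pv χ hχ ((u⁻¹ : (ZMod x)ˣ) : ZMod x) H
  have hHr : (0 : ℝ) < H := by exact_mod_cast hH1
  rw [hhat, hsum, norm_mul, norm_mul, norm_div, norm_one, Complex.norm_natCast]
  have hc1 : ‖χ (V : ZMod x)‖ ≤ 1 := DirichletCharacter.norm_le_one χ _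
  calc 1 / (H : ℝ) * (‖χ (V : ZMod x)‖ * ‖∑ i ∈ range H, ∑ j ∈ range H,
        χ (((u⁻¹ : (ZMod x)ˣ) : ZMod x) + (i : ZMod x) + (j : ZMod x))‖)
      ≤ 1 / (H : ℝ) * (1 * (H * √x * x.divisors.card)) := by
        refine mul_le_mul_of_nonneg_left ?_ (by positivity)
        exact mul_le_mul hc1 hpv (norm_nonneg _) zero_le_one
    _ = √x * x.divisors.card := by
        field_simp

end Pool.Agent.Lib.MP_9dd88f_nt.HF
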