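import Mathlib
import Pool.Agent.Lib.MP_9dd88f_nt.HF.WgtDefs

/-!
# The mass and the support of the weight
-/

namespace Pool.Agent.Lib.MP_9dd88f_nt.HF

open Finset Filter

private theorem WgtMass_W1_pos (x Q : ℕ) : 1 ≤ W1 x Q := by
  classical
  unfold W1
  refine Nat.one_le_iff_ne_zero.mpr (Finset.prod_ne_zero_iff.mpr ?_)
  intro p hp
  rw [mem_filter] at hp
  exact hp.2.1.ne_zero

private theorem WgtMass_V1_pos (x Q : ℕ) : 1 ≤ V1 x Q := by
  classical
  unfold V1
  refine Nat.one_le_iff_ne_zero.mpr (Finset.prod_ne_zero_iff.mpr ?_)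
  intro p hp
  rw [mem_filter] at hp
  exact hp.2.1.ne_zero

private theorem WgtMass_mul (x Q : ℕ) : W1 x Q * V1 x Q = W Q := by
  classical
  unfold W1 V1 W
  rw [← Finset.prod_filter_mul_prod_filter_not ((range Q).filter Nat.Prime) (fun p => ¬ p ∣ x),
    Finset.filter_filter, Finset.filter_filter]
  congr 1
  refine Finset.prod_congr ?_ fun _ _ => rfl
  ext p
  simp only [mem_filter, not_not]

private theorem WgtMass_HX (x Q X : ℕ) : H1 x Q X * (2 * W1 x Q) ≤ X := by
  unfold H1
  exact Nat.div_mul_le_self _ _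

/-- **Job WgtMass (a).** Bounds and support of the weight.

Proof. `wgt ≤ 1`: for given `r` the sum `i + j = k` is determined (`W1 ≥ 1`), so there are at most `H` pairs `(i, k - i)`.
Support: if `wgt x Q X r ≠ 0` then `r` is coprime to `x` and `r = 1 + W1 (i + j) ≤ 1 + W1 (2 H - 2) < X`. Rough: let `p < Q` be a prime
dividing `r`; if `p ∣ x` this contradicts coprimality, otherwise `p ∣ W1`, so `p ∣ 1`. -/
theorem wgt_supp {x Q X : ℕ} : (∀ r, 0 ≤ wgt x Q X r) ∧ (∀ r, wgt x Q X r ≤ 1) ∧
    ∀ r, wgt x Q X r ≠ 0 → r < X ∧ r.Coprime x ∧ Rough Q r := by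
  classical
  have hW := WgtMass_W1_pos x Q
  have hHX := WgtMass_HX x Q X
  refine ⟨?_, ?_, ?_⟩
  · intro r
    unfold wgt
    split_ifs
    · positivity
    · exact le_refl 0
  · intro r
    unfold wgt
    split_ifs
    · refine div_le_one_of_le₀ ?_ (Nat.cast_nonneg _)
      have h1 : ((range (H1 x Q X) ×ˢ range (H1 x Q X)).filter
          (fun ij => r = 1 + W1 x Q * (ij.1 + ij.2))).card ≤ (range (H1 x Q X)).card := by
        refine Finset.card_le_card_of_injOn (fun ij => ij.1) ?_ ?_
        · intro ij hij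
          have h2 := Finset.mem_coe.mp hij
          rw [mem_filter, mem_product] at h2
          exact h2.1.1
        · intro a ha b hb hab
          have h2 := (mem_filter.mp (Finset.mem_coe.mp ha)).2
          have h3 := (mem_filter.mp (Finset.mem_coe.mp hb)).2
          have h4 : W1 x Q * (a.1 + a.2) = W1 x Q * (b.1 + b.2) := by omega
          have h5 : a.1 + a.2 = b.1 + b.2 := Nat.eq_of_mul_eq_mul_left (by omega) h4
          have h6 : a.1 = b.1 := hab
          exact Prod.ext h6 (by omega)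
      rw [card_range] at h1
      exact_mod_cast h1
    · exact zero_le_one
  · intro r hr
    unfold wgt at hr
    split_ifs at hr with hc
    · have hne : ((range (H1 x Q X) ×ˢ range (H1 x Q X)).filter
          (fun ij => r = 1 + W1 x Q * (ij.1 + ij.2))).card ≠ 0 := by
        intro h0
        rw [h0] at hr
        simp at hr
      obtain ⟨ij, hij⟩ := Finset.card_pos.mp (Nat.pos_of_ne_zero hne)
      rw [mem_filter, mem_product, mem_range, mem_range] at hij
      obtain ⟨⟨hi, hj⟩, hrr⟩ := hij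
      refine ⟨?_, hc, ?_⟩
      · have h1 : W1 x Q * (ij.1 + ij.2) + 2 * W1 x Q ≤ H1 x Q X * (2 * W1 x Q) := by
          have h2 : ij.1 + ij.2 + 2 ≤ 2 * H1 x Q X := by omega
          calc W1 x Q * (ij.1 + ij.2) + 2 * W1 x Q = W1 x Q * (ij.1 + ij.2 + 2) := by ring
            _ ≤ W1 x Q * (2 * H1 x Q X) := Nat.mul_le_mul_left _ h2
            _ = H1 x Q X * (2 * W1 x Q) := by ring
        omega
      · intro p hp hpr
        by_contra hlt
        rw [not_le] at hlt
        by_cases hpx : p ∣ x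
        · have h1 : p ∣ Nat.gcd r x := Nat.dvd_gcd hpr hpx
          rw [hc] at h1
          exact hp.one_lt.ne' (Nat.dvd_one.mp h1)
        · have h1 : p ∣ W1 x Q := by
            unfold W1
            exact Finset.dvd_prod_of_mem (fun p => p) (mem_filter.mpr ⟨mem_range.mpr hlt, hp, hpx⟩)
          rw [hrr] at hpr
          have h2 : p ∣ 1 := (Nat.dvd_add_left (h1.mul_right _)).mp hpr
          exact hp.one_lt.ne' (Nat.dvd_one.mp h2)
    · exact absurd rfl hr

private theorem WgtMass_count {L p w : ℕ} (hp : p.Prime) (hpw : p.Coprime w) :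
    ((Ioc L (3 * L)).filter (fun l => p ∣ 1 + w * l)).card ≤ 2 * L / p + 2 := by
  classical
  have h1 : ((Ioc L (3 * L)).filter (fun l => p ∣ 1 + w * l)).card ≤ (Icc (L / p) (3 * L / p)).card := by
    refine Finset.card_le_card_of_injOn (fun l => l / p) ?_ ?_
    · intro l hl
      have h2 := Finset.mem_coe.mp hl
      rw [mem_filter, mem_Ioc] at h2
      refine Finset.mem_coe.mpr (mem_Icc.mpr ⟨?_, ?_⟩)
      · exact Nat.div_le_div_right h2.1.1.le
      · exact Nat.div_le_div_right h2.1.2
    · intro a ha b hb hab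
      have h2 := (mem_filter.mp (Finset.mem_coe.mp ha)).2
      have h3 := (mem_filter.mp (Finset.mem_coe.mp hb)).2
      have h4 : (1 + w * a) ≡ (1 + w * b) [MOD p] :=
        ((Nat.modEq_zero_iff_dvd).mpr h2).trans ((Nat.modEq_zero_iff_dvd).mpr h3).symm
      have h5 : w * a ≡ w * b [MOD p] := Nat.ModEq.add_left_cancel' 1 h4
      have h6 : a ≡ b [MOD p] := Nat.ModEq.cancel_left_of_coprime hpw h5
      have h7 : a / p = b / p := hab
      have h8 : a % p = b % p := h6
      rw [← Nat.div_add_mod a p, ← Nat.div_add_mod b p, h7, h8]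
  refine h1.trans ?_
  rw [Nat.card_Icc]
  have h2 : 3 * L / p < L / p + 2 * L / p + 2 := by
    rw [Nat.div_lt_iff_lt_mul hp.pos]
    have e1 := Nat.lt_mul_div_succ L hp.pos
    have e2 := Nat.lt_mul_div_succ (2 * L) hp.pos
    have e3 : (L / p + 2 * L / p + 2) * p = p * (L / p + 1) + p * (2 * L / p + 1) := by ring
    rw [e3]
    omega
  revert h2
  generalize 3 * L / p = A
  generalize L / p = B
  generalize 2 * L / p = C
  intro h2
  omega

/-- **Job WgtMass (b).** `∑ f ≥ X / (256 W Q)`.

Proof. `W1 * V1 = W Q` (split the product by `p ∣ x`), all `≥ 1`. Write `H = X / (2 W1)`; from `1024 W Q ≤ X`: `H ≥ X / (4 W1)` (real),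
`L = H / (4 V1)` (natural division), `H / (4 V1) ≥ X / (16 W Q) ≥ 64 Q ≥ 64` so `L ≥ H / (8 V1)` (real).
For `l ∈ (L, 3 L]` put `k = V1 l`, `r = 1 + W1 k = 1 + W Q * l`. Then `V1 L ≥ H/8`, `k > V1 L`, `k ≤ 3 V1 L ≤ 3H/4`, so the number of pairs
`(i, j) ∈ [0,H)²` with `i + j = k` is `k + 1 ≥ H / 8` (`k < H`; the pairs `(i, k - i)`, `i ≤ k`), i.e. `wgt r ≥ 1/8` if `r` is coprime to `x`
(and `r < x`). Different `l` give different `r`.
Number of `l ∈ (L, 3L]` with `r` not coprime to `x`: a prime `p ∣ x`, `p ∣ 1 + W Q * l` is `≥ Q` (else `p ∣ W Q`, so `p ∣ 1`), and it is coprime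
to `W Q`, so these `l` lie in one class modulo `p`: at most `2L/p + 1 ≤ 2L/Q + 1` of them (`Nat.count`/`Ioc` class count:
`Nat.Ioc_filter_modEq_card`-type or two such `l` differ by a multiple of `p`). There are at most `Q/8` such primes: total
`≤ L/4 + Q/8 ≤ L` (`L ≥ 32 Q`). So at least `2L - L = L` values are good and `∑ f ≥ L / 8 ≥ H / (64 V1) ≥ X / (256 W Q)`. -/
theorem wgt_mass {x Q X : ℕ} (hXx : X ≤ x) (hQ : 1 ≤ Q) (hX : 1024 * W Q * Q ≤ X)
    (hω : 8 * (x.primeFactors.filter (fun p => Q ≤ p)).card ≤ Q) :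
    (X : ℝ) / (256 * W Q) ≤ ∑ r ∈ range x, wgt x Q X r := by
  classical
  have hU := WgtMass_W1_pos x Q
  have hV := WgtMass_V1_pos x Q
  have hUV := WgtMass_mul x Q
  have hHX := WgtMass_HX x Q X
  set U := W1 x Q with hUdef
  set V := V1 x Q with hVdef
  set w := W Q with hw
  set H := H1 x Q X with hHdef
  have hw1 : 1 ≤ w := by
    rw [← hUV]
    exact Nat.mul_pos hU hV
  -- `H ≥ 512 V Q`
  have hH1 : 512 * V * Q ≤ H := by
    have e : H = X / (2 * U) := rfl
    rw [e, Nat.le_div_iff_mul_le (by omega)]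
    calc 512 * V * Q * (2 * U) = 1024 * (U * V) * Q := by ring
      _ = 1024 * w * Q := by rw [hUV]
      _ ≤ X := hX
  have hHlt : X < (H + 1) * (2 * U) := by
    have e : H = X / (2 * U) := rfl
    rw [e]
    have := Nat.lt_mul_div_succ X (show 0 < 2 * U by omega)
    rw [mul_comm]
    exact this
  obtain ⟨L, hL⟩ : ∃ L : ℕ, L = H / (4 * V) := ⟨_, rfl⟩
  have hL1 : 128 * Q ≤ L := by
    rw [hL, Nat.le_div_iff_mul_le (by omega)]
    calc 128 * Q * (4 * V) = 512 * V * Q := by ring
      _ ≤ H := hH1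
  have hL2 : L * (4 * V) ≤ H := by
    rw [hL]
    exact Nat.div_mul_le_self _ _
  have hL3 : H < (L + 1) * (4 * V) := by
    rw [hL]
    have := Nat.lt_mul_div_succ H (show 0 < 4 * V by omega)
    rw [mul_comm]
    exact this
  have hHpos : 0 < H := by
    have : 1 ≤ 512 * V * Q := Nat.mul_pos (by omega) hQ
    omega
  -- the good `l`
  set Bad : Finset ℕ := (Ioc L (3 * L)).filter (fun l => ¬ (1 + w * l).Coprime x) with hBad
  set Good : Finset ℕ := (Ioc L (3 * L)).filter (fun l => (1 + w * l).Coprime x) with hGood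
  have hcard : Good.card + Bad.card = 2 * L := by
    rw [hGood, hBad, Finset.card_filter_add_card_filter_not, Nat.card_Ioc]
    omega
  have hpw : ∀ p : ℕ, p.Prime → Q ≤ p → p.Coprime w := by
    intro p hp hQp
    rw [hw]
    unfold W
    refine Nat.Coprime.prod_right ?_
    intro q hq
    rw [mem_filter, mem_range] at hq
    refine (Nat.coprime_primes hp hq.2).mpr ?_
    intro h
    omega
  have hsub : Bad ⊆ (x.primeFactors.filter (fun p => Q ≤ p)).biUnion
      (fun p => (Ioc L (3 * L)).filter (fun l => p ∣ 1 + w * l)) := by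
    intro l hl
    rw [hBad, mem_filter] at hl
    obtain ⟨hl1, hl2⟩ := hl
    obtain ⟨p, hp, hp1, hp2⟩ := Nat.Prime.not_coprime_iff_dvd.mp hl2
    have hx0 : x ≠ 0 := by
      intro h0
      have : 1 ≤ 1024 * w * Q := Nat.mul_pos (by omega) hQ
      omega
    rw [mem_biUnion]
    refine ⟨p, mem_filter.mpr ⟨(Nat.mem_primeFactors_of_ne_zero hx0).mpr ⟨hp, hp2⟩, ?_⟩, mem_filter.mpr ⟨hl1, hp1⟩⟩
    by_contra hlt
    rw [not_le] at hlt
    have h1 : p ∣ w := by
      rw [hw]
      unfold W
      exact Finset.dvd_prod_of_mem (fun p => p) (mem_filter.mpr ⟨mem_range.mpr hlt, hp⟩)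
    have h2 : p ∣ 1 := (Nat.dvd_add_left (h1.mul_right _)).mp hp1
    exact hp.one_lt.ne' (Nat.dvd_one.mp h2)
  have hbad : 8 * Bad.card ≤ 2 * L + 2 * Q := by
    have h1 : Bad.card ≤ (x.primeFactors.filter (fun p => Q ≤ p)).card * (2 * L / Q + 2) := by
      refine (Finset.card_le_card hsub).trans ?_
      refine Finset.card_biUnion_le_card_mul _ _ _ ?_
      intro p hp
      rw [mem_filter] at hp
      have hpp : p.Prime := Nat.prime_of_mem_primeFactors hp.1
      refine (WgtMass_count hpp (hpw p hpp hp.2)).trans ?_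
      have : 2 * L / p ≤ 2 * L / Q := Nat.div_le_div_left hp.2 hQ
      omega
    calc 8 * Bad.card ≤ 8 * ((x.primeFactors.filter (fun p => Q ≤ p)).card * (2 * L / Q + 2)) :=
          Nat.mul_le_mul_left _ h1
      _ = (8 * (x.primeFactors.filter (fun p => Q ≤ p)).card) * (2 * L / Q + 2) := by ring
      _ ≤ Q * (2 * L / Q + 2) := Nat.mul_le_mul_right _ hω
      _ = Q * (2 * L / Q) + 2 * Q := by ring
      _ ≤ 2 * L + 2 * Q := by
          have := Nat.mul_div_le (2 * L) Q
          omega
  have hgood : L ≤ Good.card := by omega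
  -- the weight of the good `l`
  have hval : ∀ l ∈ Good, (1 : ℝ) / 8 ≤ wgt x Q X (1 + w * l) := by
    intro l hl
    rw [hGood, mem_filter, mem_Ioc] at hl
    obtain ⟨⟨hl1, hl2⟩, hl3⟩ := hl
    have hk1 : V * l < H := by
      have h1 : V * l ≤ V * (3 * L) := Nat.mul_le_mul_left _ hl2
      have h2 : 4 * (V * (3 * L)) = 3 * (L * (4 * V)) := by ring
      have h3 : 4 * (V * (3 * L)) ≤ 3 * H := by
        rw [h2]
        exact Nat.mul_le_mul_left _ hL2
      omega
    have hk2 : H < 4 * (V * l) := by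
      have h1 : (L + 1) * (4 * V) ≤ l * (4 * V) := Nat.mul_le_mul_right _ hl1
      have h2 : l * (4 * V) = 4 * (V * l) := by ring
      omega
    have hcnt : V * l + 1 ≤ ((range H ×ˢ range H).filter
        (fun ij => 1 + w * l = 1 + U * (ij.1 + ij.2))).card := by
      have h1 : ((range (V * l + 1)).image (fun i => (i, V * l - i))).card = V * l + 1 := by
        rw [Finset.card_image_of_injective, card_range]
        intro a b hab
        exact (Prod.ext_iff.mp hab).1
      rw [← h1]
      refine Finset.card_le_card ?_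
      intro ij hij
      rw [mem_image] at hij
      obtain ⟨i, hi, rfl⟩ := hij
      rw [mem_range] at hi
      rw [mem_filter, mem_product, mem_range, mem_range]
      refine ⟨⟨by omega, by omega⟩, ?_⟩
      have h2 : i + (V * l - i) = V * l := by omega
      rw [h2, ← mul_assoc, hUV]
    unfold wgt
    rw [if_pos hl3, div_le_div_iff₀ (by norm_num) (by exact_mod_cast hHpos), one_mul]
    have h4 : H ≤ ((range H ×ˢ range H).filter
        (fun ij => 1 + w * l = 1 + U * (ij.1 + ij.2))).card * 8 := by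
      omega
    exact_mod_cast h4
  have hsum : (L : ℝ) / 8 ≤ ∑ r ∈ range x, wgt x Q X r := by
    have hinj : Set.InjOn (fun l => 1 + w * l) (Good : Set ℕ) := by
      intro a _ b _ hab
      have h1 : w * a = w * b := by
        have : 1 + w * a = 1 + w * b := hab
        omega
      exact Nat.eq_of_mul_eq_mul_left (by omega) h1
    have h1 : ∑ r ∈ Good.image (fun l => 1 + w * l), wgt x Q X r ≤ ∑ r ∈ range x, wgt x Q X r := by
      refine Finset.sum_le_sum_of_subset_of_nonneg ?_ fun r _ _ => wgt_supp.1 r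
      intro r hr
      rw [mem_image] at hr
      obtain ⟨l, hl, rfl⟩ := hr
      have h2 := hval l hl
      have h3 : wgt x Q X (1 + w * l) ≠ 0 := by
        intro h0
        rw [h0] at h2
        norm_num at h2
      exact mem_range.mpr ((wgt_supp.2.2 _ h3).1.trans_le hXx)
    rw [Finset.sum_image hinj] at h1
    refine le_trans ?_ h1
    calc (L : ℝ) / 8 ≤ (Good.card : ℝ) * (1 / 8) := by
          have : (L : ℝ) ≤ Good.card := by exact_mod_cast hgood
          linarith
      _ = ∑ _l ∈ Good, (1 : ℝ) / 8 := by rw [Finset.sum_const, nsmul_eq_mul]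
      _ ≤ ∑ l ∈ Good, wgt x Q X (1 + w * l) := Finset.sum_le_sum hval
  refine le_trans ?_ hsum
  -- `X ≤ 32 w L`
  have hfin : X ≤ 32 * w * L := by
    have h1 : H + 1 ≤ 8 * V * L := by
      have h2 : (L + 1) * (4 * V) ≤ 8 * V * L := by
        have h3 : 4 * V ≤ 4 * V * L := Nat.le_mul_of_pos_right _ (by omega)
        calc (L + 1) * (4 * V) = 4 * V * L + 4 * V := by ring
          _ ≤ 4 * V * L + 4 * V * L := Nat.add_le_add_left h3 _
          _ = 8 * V * L := by ring
      omega
    have h4 : (H + 1) * (2 * U) ≤ 8 * V * L * (2 * U) := Nat.mul_le_mul_right _ h1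
    have h5 : 8 * V * L * (2 * U) = 16 * (U * V) * L := by ring
    rw [h5, hUV] at h4
    have h6 : 16 * w * L ≤ 32 * w * L := by
      refine Nat.mul_le_mul_right _ ?_
      omega
    omega
  have hwr : (0 : ℝ) < w := by exact_mod_cast hw1
  rw [div_le_div_iff₀ (by positivity) (by norm_num)]
  have h7 : (X : ℝ) ≤ 32 * w * L := by exact_mod_cast hfin
  nlinarith

end Pool.Agent.Lib.MP_9dd88f_nt.HF
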