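import Mathlib
import Pool.Agent.Lib.MP_9dd88f_nt.HF.WgtHat
import Pool.Agent.Lib.MP_9dd88f_nt.HF.WgtMass

/-!
# Existence of the weight
-/

namespace Pool.Agent.Lib.MP_9dd88f_nt.HF

open Finset Filter

theorem exists_weight {x Q X : ℕ} (hXx : X ≤ x) (hQ : 1 ≤ Q) (hX : 1024 * W Q * Q ≤ X)
    (hω : 8 * (x.primeFactors.filter (fun p => Q ≤ p)).card ≤ Q) : ∃ f, IsWeight x Q X f :=
  ⟨wgt x Q X, wgt_supp.1, wgt_supp.2.1, wgt_supp.2.2, wgt_mass hXx hQ hX hω,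
    fun χ hχ => wgt_hat hXx χ hχ⟩

end Pool.Agent.Lib.MP_9dd88f_nt.HF
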