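import Mathlib
import Pool.Agent.Lib.MP_9dd88f_nt.HF.AxB
import Pool.Agent.Lib.MP_9dd88f_nt.HF.Weight
import Pool.Agent.Lib.MP_9dd88f_nt.HF.NumX
import Pool.Agent.Lib.MP_9dd88f_nt.HF.PrimesC

/-!
# Proposition A: one set of primes for all numerators
-/

namespace Pool.Agent.Lib.MP_9dd88f_nt.HF

open Finset Filter

private theorem propa_two (a : ℝ) (ha : 1 < a) : ∀ᶠ t : ℕ in atTop, (2 : ℝ) * t ≤ (t : ℝ) ^ a := by
  have h1 : Tendsto (fun t : ℕ => (t : ℝ) ^ (a - 1)) atTop atTop :=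
    (tendsto_rpow_atTop (by linarith)).comp tendsto_natCast_atTop_atTop
  filter_upwards [h1.eventually_ge_atTop 2, eventually_ge_atTop 1] with t ht ht1
  have ht0 : (0 : ℝ) < t := by exact_mod_cast ht1
  have h2 : (t : ℝ) ^ a = (t : ℝ) ^ (a - 1) * t := by
    rw [← Real.rpow_add_one ht0.ne']
    congr 1
    ring
  rw [h2]
  exact mul_le_mul_of_nonneg_right ht ht0.le

private theorem propa_inj (s : Finset ℕ) (t : ℕ) : s.card.descFactorial t ≤
    ((Fintype.piFinset (fun _ : Fin t => s)).filter (fun p => Function.Injective p)).card := by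
  classical
  have h1 : Fintype.card (Fin t ↪ s) = s.card.descFactorial t := by
    rw [Fintype.card_embedding_eq, Fintype.card_fin, Fintype.card_coe]
  rw [← h1, ← Finset.card_univ]
  refine Finset.card_le_card_of_injOn (fun (e : Fin t ↪ s) i => (e i : ℕ)) ?_ ?_
  · intro e _
    rw [Finset.mem_coe, mem_filter, Fintype.mem_piFinset]
    exact ⟨fun i => (e i).2, fun i j hij => e.injective (Subtype.ext hij)⟩
  · intro e _ e' _ h
    ext i
    exact congrFun h i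

/-- **Job PropA.** One tuple of distinct primes works for all numerators.

Proof. For every `x` in the range the weight exists (`exists_weight` with `weight_cond` and `omega_small`); choose `f x` for every `x`
(`Classical.choose` / `if h : … then … else 0`). By `prop_ax` the number of tuples `p ∈ s^t` (`s = pool K t`) that are bad for some natural
`x < 2^(σ1 t)` is `≤ (2^(σ1 t) + 1) 2^(-(σ1+2) t) |s|^t < 2^(-t) |s|^t` (`Finset.card_biUnion_le`). The number of injective tuples is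
`|s| (|s|-1) … (|s|-t+1) ≥ (|s| - t)^t ≥ (|s|/2)^t` (`Fintype.card_embedding_eq`, `Nat.descFactorial`, `Nat.pow_sub_le_descFactorial`),
as `|s| ≥ 2 t` (`pool_card` with a `κ' < K - 1`). So an injective tuple is not bad. Members of `pool K t` are primes with
`t < p ≤ ⌊t^K⌋ ≤ t^K`. -/
theorem prop_a (K γ σf σ1 : ℝ) (hK : 1 < K) (hK2 : K ≤ 2) (hγ : 0 < γ) (hγ1 : γ < 1)
    (hσf : 0 < σf) (hσ : σf < σ1) : ∀ᶠ t : ℕ in atTop, ∃ p : Fin t → ℕ,
      Function.Injective p ∧ (∀ i, (p i).Prime ∧ t < p i ∧ (p i : ℝ) ≤ (t : ℝ) ^ K) ∧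
      ∀ x : ℕ, (2 : ℝ) ^ (σf * t) ≤ x → (x : ℝ) < 2 ^ (σ1 * t) →
        ∃ f, IsWeight x (Qf t) ⌈nxt (1 - 1 / K) γ t x⌉₊ f ∧
          Xi x f p ≤ 2 ^ (-(cc K γ σf * t)) := by
  classical
  have hK0 : 0 < K := by linarith
  have hκ : 0 < 1 - 1 / K := by
    have : 1 / K < 1 := by
      rw [div_lt_one hK0]
      exact hK
    linarith
  have hκ1 : 1 - 1 / K ≤ 1 := by
    have : 0 < 1 / K := by positivity
    linarith
  have hσ1 : 0 < σ1 := by linarith
  filter_upwards [weight_cond (1 - 1 / K) γ σf σ1 hκ hκ1 hγ hσf hσ, omega_small σ1 hσ1,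
    prop_ax K γ σf σ1 hK hK2 hγ hγ1 hσf hσ, pool_card K ((K - 1) / 2) hK (by linarith) (by linarith),
    propa_two (K - (K - 1) / 2) (by linarith), eventually_ge_atTop 2] with t h1 h2 h3 h4 h5 h6
  set s := pool K t with hs
  have ht0 : (0 : ℝ) < t := by
    have : 0 < t := by omega
    exact_mod_cast this
  have hs2 : (2 : ℝ) * t ≤ s.card := h5.trans h4
  have hs2' : 2 * t ≤ s.card := by exact_mod_cast hs2
  have hs0 : (0 : ℝ) < s.card := by linarith
  -- the weights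
  have hex : ∀ x : ℕ, (2 : ℝ) ^ (σf * t) ≤ x → (x : ℝ) < 2 ^ (σ1 * t) →
      ∃ f, IsWeight x (Qf t) ⌈nxt (1 - 1 / K) γ t x⌉₊ f := by
    intro x hx1 hx2
    obtain ⟨a1, a2, a3⟩ := h1 x hx1 hx2
    have hx0 : 0 < x := by
      have : (0 : ℝ) < x := lt_of_lt_of_le (Real.rpow_pos_of_pos (by norm_num) _) hx1
      exact_mod_cast this
    exact exists_weight a1 a2 a3 (h2 x hx0 hx2)
  set f : ℕ → ℕ → ℝ := fun x => if h : (2 : ℝ) ^ (σf * t) ≤ x ∧ (x : ℝ) < 2 ^ (σ1 * t) then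
    Classical.choose (hex x h.1 h.2) else 0 with hf
  have hfW : ∀ x : ℕ, (2 : ℝ) ^ (σf * t) ≤ x → (x : ℝ) < 2 ^ (σ1 * t) →
      IsWeight x (Qf t) ⌈nxt (1 - 1 / K) γ t x⌉₊ (f x) := by
    intro x hx1 hx2
    rw [hf]
    show IsWeight x (Qf t) ⌈nxt (1 - 1 / K) γ t x⌉₊ (if h : (2 : ℝ) ^ (σf * t) ≤ x ∧ (x : ℝ) < 2 ^ (σ1 * t) then
      Classical.choose (hex x h.1 h.2) else 0)
    rw [dif_pos ⟨hx1, hx2⟩]
    exact Classical.choose_spec (hex x hx1 hx2)
  set X : Finset ℕ := (range (⌊(2 : ℝ) ^ (σ1 * t)⌋₊ + 1)).filter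
    (fun x => (2 : ℝ) ^ (σf * t) ≤ x ∧ (x : ℝ) < 2 ^ (σ1 * t)) with hX
  set Bd : ℕ → Finset (Fin t → ℕ) := fun x => (Fintype.piFinset (fun _ : Fin t => s)).filter
          (fun p => (2 : ℝ) ^ (-(cc K γ σf * t)) < Xi x (f x) p) with hBd
  have hP1 : (1 : ℝ) ≤ 2 ^ (σ1 * t) := Real.one_le_rpow (by norm_num) (by positivity)
  have hcard : ((X.biUnion Bd).card : ℝ) ≤ 2 * 2 ^ (σ1 * t) * (2 ^ (-((σ1 + 2) * t)) * (s.card : ℝ) ^ t) := by
    have a1 : ((X.biUnion Bd).card : ℝ) ≤ ∑ x ∈ X, ((Bd x).card : ℝ) := by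
      exact_mod_cast Finset.card_biUnion_le
    refine a1.trans ?_
    have a2 : ∑ x ∈ X, ((Bd x).card : ℝ) ≤ ∑ x ∈ X, (2 ^ (-((σ1 + 2) * t)) * (s.card : ℝ) ^ t) := by
      refine Finset.sum_le_sum fun x hx => ?_
      rw [hX, mem_filter] at hx
      exact h3 x hx.2.1 hx.2.2 (f x) (hfW x hx.2.1 hx.2.2)
    refine a2.trans ?_
    rw [Finset.sum_const, nsmul_eq_mul]
    refine mul_le_mul_of_nonneg_right ?_ (by positivity)
    have a3 : (X.card : ℝ) ≤ ((⌊(2 : ℝ) ^ (σ1 * t)⌋₊ + 1 : ℕ) : ℝ) := by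
      have := Finset.card_filter_le (range (⌊(2 : ℝ) ^ (σ1 * t)⌋₊ + 1))
        (fun x : ℕ => (2 : ℝ) ^ (σf * t) ≤ x ∧ (x : ℝ) < 2 ^ (σ1 * t))
      rw [Finset.card_range] at this
      exact_mod_cast this
    have a4 : ((⌊(2 : ℝ) ^ (σ1 * t)⌋₊ : ℕ) : ℝ) ≤ 2 ^ (σ1 * t) := Nat.floor_le (by positivity)
    push_cast at a3
    linarith
  have hinj : (s.card : ℝ) ^ t * (1 / 2) ^ t ≤
      (((Fintype.piFinset (fun _ : Fin t => s)).filter (fun p => Function.Injective p)).card : ℝ) := by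
    have a1 := propa_inj s t
    have a2 := Nat.pow_sub_le_descFactorial s.card t
    have a3 : ((s.card + 1 - t : ℕ) : ℝ) ^ t ≤
        (((Fintype.piFinset (fun _ : Fin t => s)).filter (fun p => Function.Injective p)).card : ℝ) := by
      exact_mod_cast a2.trans a1
    refine le_trans ?_ a3
    rw [← mul_pow]
    refine pow_le_pow_left₀ (by positivity) ?_ t
    have a4 : s.card ≤ 2 * (s.card + 1 - t) := by omega
    have a5 : (s.card : ℝ) ≤ 2 * ((s.card + 1 - t : ℕ) : ℝ) := by exact_mod_cast a4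
    linarith
  have hlt : ((X.biUnion Bd).card : ℝ) <
      (((Fintype.piFinset (fun _ : Fin t => s)).filter (fun p => Function.Injective p)).card : ℝ) := by
    refine lt_of_le_of_lt hcard (lt_of_lt_of_le ?_ hinj)
    have hspos : (0 : ℝ) < (s.card : ℝ) ^ t := by positivity
    have b1 : (2 : ℝ) * 2 ^ (σ1 * t) * 2 ^ (-((σ1 + 2) * t)) = 2 * (1 / 4) ^ t := by
      rw [mul_assoc, ← Real.rpow_add (by norm_num)]
      congr 1
      have : σ1 * t + -((σ1 + 2) * t) = -(2 * t) := by ring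
      rw [this, Real.rpow_neg (by norm_num), Real.rpow_mul (by norm_num), Real.rpow_natCast,
        ← inv_pow]
      norm_num
    have b2 : (2 : ℝ) * (1 / 4) ^ t < (1 / 2) ^ t := by
      have c1 : ((1 : ℝ) / 4) ^ t = (1 / 2) ^ t * (1 / 2) ^ t := by
        rw [← mul_pow]
        norm_num
      have c2 : ((1 : ℝ) / 2) ^ t ≤ (1 / 2) ^ 2 := pow_le_pow_of_le_one (by norm_num) (by norm_num) h6
      have c3 : (0 : ℝ) < (1 / 2) ^ t := by positivity
      rw [c1]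
      nlinarith
    calc 2 * 2 ^ (σ1 * t) * (2 ^ (-((σ1 + 2) * t)) * (s.card : ℝ) ^ t)
        = (2 * 2 ^ (σ1 * t) * 2 ^ (-((σ1 + 2) * t))) * (s.card : ℝ) ^ t := by ring
      _ = 2 * (1 / 4) ^ t * (s.card : ℝ) ^ t := by rw [b1]
      _ < (1 / 2) ^ t * (s.card : ℝ) ^ t := mul_lt_mul_of_pos_right b2 hspos
      _ = (s.card : ℝ) ^ t * (1 / 2) ^ t := by ring
  obtain ⟨p, hp1, hp2⟩ := Finset.exists_mem_notMem_of_card_lt_card
    (s := X.biUnion Bd) (t := (Fintype.piFinset (fun _ : Fin t => s)).filter (fun p => Function.Injective p))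
    (by exact_mod_cast hlt)
  rw [mem_filter, Fintype.mem_piFinset] at hp1
  refine ⟨p, hp1.2, fun i => ?_, fun x hx1 hx2 => ⟨f x, hfW x hx1 hx2, ?_⟩⟩
  · have a1 := hp1.1 i
    rw [hs] at a1
    unfold pool primesIoc at a1
    rw [mem_filter, mem_Ioc] at a1
    refine ⟨a1.2, a1.1.1, ?_⟩
    exact le_trans (by exact_mod_cast a1.1.2) (Nat.floor_le (by positivity))
  · by_contra hcon
    push Not at hcon
    apply hp2
    rw [mem_biUnion]
    refine ⟨x, ?_, ?_⟩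
    · rw [hX, mem_filter, mem_range]
      refine ⟨?_, hx1, hx2⟩
      have : x ≤ ⌊(2 : ℝ) ^ (σ1 * t)⌋₊ := Nat.le_floor hx2.le
      omega
    · rw [hBd, mem_filter, Fintype.mem_piFinset]
      exact ⟨hp1.1, hcon⟩

end Pool.Agent.Lib.MP_9dd88f_nt.HF
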