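import Mathlib
import Pool.Agent.Lib.MP_9dd88f_nt.HF.PropA
import Pool.Agent.Lib.MP_9dd88f_nt.HF.L2res
import Pool.Agent.Lib.MP_9dd88f_nt.HF.LargeP

/-!
# Proposition 1
-/

namespace Pool.Agent.Lib.MP_9dd88f_nt.HF

open Finset Filter

private theorem prop1_cc_pos (K γ σf : ℝ) (hK : 1 < K) (hγ1 : γ < 1) (hσf : 0 < σf) :
    0 < cc K γ σf := by
  unfold cc
  apply lt_min
  · have : 1 / K < 1 := by rw [div_lt_one (by linarith)]; exact hK
    have : 0 < 1 - 1 / K := by linarith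
    positivity
  · linarith

private theorem prop1_gap (x g D : ℕ) : gap x (g % x * D) = gap x (g * D) := by
  unfold gap
  congr 1
  exact (Nat.mod_modEq g x).mul_right D

private theorem prop1_poly (C : ℝ) (hC : 0 < C) (J : ℕ) :
    ∀ᶠ t : ℕ in atTop, (C * (t : ℝ)) ^ J ≤ 2 ^ (t : ℝ) := by
  have h := (isLittleO_pow_const_const_pow_of_one_lt (R := ℝ) J (by norm_num : (1 : ℝ) < 2)).bound
    (c := 1 / C ^ J) (by positivity)
  filter_upwards [h] with t ht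
  rw [Real.norm_of_nonneg (by positivity), Real.norm_of_nonneg (by positivity)] at ht
  rw [mul_pow, Real.rpow_natCast]
  have h2 : (0 : ℝ) < C ^ J := by positivity
  calc C ^ J * (t : ℝ) ^ J ≤ C ^ J * (1 / C ^ J * 2 ^ t) := by gcongr
    _ = 2 ^ t := by field_simp

private theorem prop1_cond (σ1 c : ℝ) (hσ1 : 0 < σ1) (J : ℕ) (hJ : 8 * (σ1 + 1) ≤ J * c) :
    ∀ᶠ t : ℕ in atTop,
      (2 : ℝ) ^ ⌈σ1 * t⌉₊ * (16 * (⌈σ1 * t⌉₊ : ℝ) * 2 ^ (-(c * t / 2))) ^ J < 1 := by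
  filter_upwards [prop1_poly (16 * (σ1 + 1)) (by positivity) J, eventually_ge_atTop 1] with t h1 ht1
  have ht1' : (1 : ℝ) ≤ t := by exact_mod_cast ht1
  set n := ⌈σ1 * t⌉₊ with hn
  have hn1 : (n : ℝ) ≤ σ1 * t + 1 := (Nat.ceil_lt_add_one (by positivity)).le
  rw [mul_pow]
  have h2 : (16 * (n : ℝ)) ^ J ≤ 2 ^ (t : ℝ) := by
    refine le_trans ?_ h1
    apply pow_le_pow_left₀ (by positivity)
    nlinarith
  have h3 : ((2 : ℝ) ^ (-(c * t / 2))) ^ J ≤ 2 ^ (-(4 * (σ1 + 1) * t)) := by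
    rw [← Real.rpow_natCast, ← Real.rpow_mul (by norm_num)]
    apply Real.rpow_le_rpow_of_exponent_le (by norm_num)
    nlinarith
  have h4 : (2 : ℝ) ^ n ≤ 2 ^ (σ1 * t + 1) := by
    rw [← Real.rpow_natCast]
    exact Real.rpow_le_rpow_of_exponent_le (by norm_num) hn1
  calc (2 : ℝ) ^ n * ((16 * (n : ℝ)) ^ J * ((2 : ℝ) ^ (-(c * t / 2))) ^ J)
      ≤ 2 ^ (σ1 * t + 1) * (2 ^ (t : ℝ) * 2 ^ (-(4 * (σ1 + 1) * t))) := by gcongr
    _ = 2 ^ (σ1 * t + 1 + (t + -(4 * (σ1 + 1) * t))) := by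
        rw [Real.rpow_add (by norm_num) (σ1 * t + 1), Real.rpow_add (by norm_num) (t : ℝ)]
    _ < 1 := by
        apply Real.rpow_lt_one_of_one_lt_of_neg (by norm_num)
        nlinarith

private theorem prop1_final (γ : ℝ) (t e x X W φ : ℕ) (F nx : ℝ) (hx : 0 < x) (hW : 0 < W)
    (hφ : 0 < φ) (hφx : φ ≤ x)
    (he : e ≤ t) (he2 : (e : ℝ) ≤ (1 - γ) * t / 8) (ht : 9 ≤ (1 - γ) * t / 8)
    (hWs : (W : ℝ) ≤ 2 ^ ((1 - γ) / 8 * t)) (hF : (X : ℝ) / (256 * W) ≤ F)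
    (hX : (x : ℝ) * 2 ^ (-(γ * t)) ≤ nx) (hnx : nx ≤ X) :
    (2 : ℝ) ^ ((1 - γ) * t / 2) ≤ 2 ^ (t - e) * F / (2 * φ) := by
  have hx' : (0 : ℝ) < x := by exact_mod_cast hx
  have hW' : (0 : ℝ) < W := by exact_mod_cast hW
  have hφ' : (0 : ℝ) < φ := by exact_mod_cast hφ
  have hφx' : (φ : ℝ) ≤ x := by exact_mod_cast hφx
  rw [le_div_iff₀ (by positivity)]
  have h1 : (x : ℝ) * 2 ^ (-(γ * t)) / (256 * W) ≤ F := by
    refine le_trans ?_ hF
    gcongr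
    linarith
  have h2 : (2 : ℝ) ^ (t - e) = 2 ^ ((t : ℝ) - e) := by
    rw [← Real.rpow_natCast, Nat.cast_sub he]
  rw [h2]
  have h3 : (2 : ℝ) ^ ((1 - γ) * t / 2) * (2 * x) ≤
      2 ^ ((t : ℝ) - e) * (x * 2 ^ (-(γ * t)) / (256 * W)) := by
    rw [← mul_div_assoc, le_div_iff₀ (by positivity)]
    have h4 : (2 : ℝ) ^ ((1 - γ) * t / 2) * 512 * W ≤ 2 ^ ((t : ℝ) - e) * 2 ^ (-(γ * t)) := by
      have h5 : (512 : ℝ) = 2 ^ (9 : ℝ) := by norm_num
      calc (2 : ℝ) ^ ((1 - γ) * t / 2) * 512 * W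
          ≤ (2 : ℝ) ^ ((1 - γ) * t / 2) * 2 ^ (9 : ℝ) * 2 ^ ((1 - γ) / 8 * t) := by
            rw [← h5]; gcongr
        _ = 2 ^ ((1 - γ) * t / 2 + 9 + (1 - γ) / 8 * t) := by
            rw [Real.rpow_add (by norm_num), Real.rpow_add (by norm_num)]
        _ ≤ 2 ^ ((t : ℝ) - e + -(γ * t)) := by
            apply Real.rpow_le_rpow_of_exponent_le (by norm_num)
            nlinarith
        _ = 2 ^ ((t : ℝ) - e) * 2 ^ (-(γ * t)) := by
            rw [Real.rpow_add (by norm_num)]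
    calc (2 : ℝ) ^ ((1 - γ) * t / 2) * (2 * x) * (256 * W)
        = ((2 : ℝ) ^ ((1 - γ) * t / 2) * 512 * W) * x := by ring
      _ ≤ (2 ^ ((t : ℝ) - e) * 2 ^ (-(γ * t))) * x := by gcongr
      _ = 2 ^ ((t : ℝ) - e) * (x * 2 ^ (-(γ * t))) := by ring
  calc (2 : ℝ) ^ ((1 - γ) * t / 2) * (2 * φ) ≤ (2 : ℝ) ^ ((1 - γ) * t / 2) * (2 * x) := by gcongr
    _ ≤ 2 ^ ((t : ℝ) - e) * (x * 2 ^ (-(γ * t)) / (256 * W)) := h3
    _ ≤ 2 ^ ((t : ℝ) - e) * F := by gcongr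

/-- **Job Prop1.** Existence of the main group and of the large primes.

Proof. Let `c = cc K γ σf > 0`, `J` with `J c ≥ 8 (σ1 + 1)`, `n = ⌈σ1 t⌉`, `p` from `prop_a`. For `x` in the range `[2^(σf t), 2^(σ1 t))` let `f` be its weight
(`X = ⌈nxt⌉`) and `A x` the set of `l2_res` (`hfs`: `X ≤ x` by `weight_cond`; `F > 0` from `mass`; `e` = number of `p i ∣ x`, `≤ c t / 8` by `few_dvd`;
`¬ Coprime ↔ p i ∣ x` for primes); for the other `x` let `A x = ∅`. `|A x| ≤ 4^(e+1) φ(x) 2^(-ct) ≤ δ x` with `δ = 2^(-ct/2)` for large `t`.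
`2^n (16 n δ)^J < 1` for large `t` (`n ≤ σ1 t + 1`, `δ^J = 2^(-cJt/2) ≤ 2^(-4(σ1+1)t)`, and `(16 n)^J ≤ 2^t`).
`large_primes` gives `g`: primes with `2^(σ1 t) ≤ 2^n < g j ≤ 2^(3n) ≤ 2^(3 σ1 t + 3)`. For `x` in the range (`x < 2^(σ1 t) ≤ 2^n`) there is `j` with
`a = g j % x ∉ A x`; `a` is coprime to `x` (`g j` is a prime `> x`), so `∑_S f(gap x (a sp S)) ≥ 2^(t-e) F / (2 φ(x))`, and
`gap x (a D) = gap x (g j D)`. As `f ≤ 1`, the number of `S` with `f(gap x (g j sp S)) ≠ 0` is at least this; such an `S` is in `good`: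
`gap < X = ⌈nxt⌉` gives `gap < nxt` (`Nat.lt_ceil`), and roughness from `supp`. Finally
`2^(t-e) F / (2 φ(x)) ≥ 2^(t-e) X / (512 W x) ≥ 2^(t - e - γ t) / (512 W) ≥ 2^((1-γ) t / 2)` (`X ≥ nxt ≥ x 2^(-γt)`, `e ≤ (1-γ) t/8`, `W_small`). -/
theorem prop1 (K γ σf σ1 : ℝ) (hK : 1 < K) (hK2 : K ≤ 2) (hγ : 0 < γ) (hγ1 : γ < 1)
    (hσf : 0 < σf) (hσ : σf < σ1) : ∃ J : ℕ, ∀ᶠ t : ℕ in atTop,
      ∃ (p : Fin t → ℕ) (g : Fin J → ℕ), Main1 K γ σf σ1 t J p g := by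
  classical
  set c := cc K γ σf with hc
  have hc0 : 0 < c := prop1_cc_pos K γ σf hK hγ1 hσf
  have hc1 : c ≤ (1 - γ) / 8 := min_le_right _ _
  have hσ1 : 0 < σ1 := hσf.trans hσ
  have hκ : 0 < 1 - 1 / K := by
    have : 1 / K < 1 := by rw [div_lt_one (by linarith)]; exact hK
    linarith
  have hκ1 : 1 - 1 / K ≤ 1 := by
    have : 0 < 1 / K := by positivity
    linarith
  refine ⟨⌈8 * (σ1 + 1) / c⌉₊, ?_⟩
  set J := ⌈8 * (σ1 + 1) / c⌉₊ with hJ
  have hJc : 8 * (σ1 + 1) ≤ J * c := by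
    have := Nat.le_ceil (8 * (σ1 + 1) / c)
    rwa [div_le_iff₀ hc0] at this
  have hlim : Tendsto (fun t : ℕ => ⌈σ1 * t⌉₊) atTop atTop :=
    tendsto_nat_ceil_atTop.comp
      ((tendsto_natCast_atTop_atTop (R := ℝ)).const_mul_atTop hσ1)
  have hlp := hlim.eventually (large_primes J)
  filter_upwards [hlp, prop_a K γ σf σ1 hK hK2 hγ hγ1 hσf hσ,
    weight_cond (1 - 1 / K) γ σf σ1 hκ hκ1 hγ hσf hσ,
    few_dvd σ1 (c / 8) hσ1 (by positivity), W_small ((1 - γ) / 8) (by linarith),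
    prop1_cond σ1 c hσ1 J hJc, eventually_ge_atTop 1,
    eventually_ge_atTop ⌈8 / c⌉₊, eventually_ge_atTop ⌈72 / (1 - γ)⌉₊]
    with t hlp hpa hwc hfd hWs hcond ht1 ht2 ht3
  obtain ⟨p, hpinj, hpp, hpx⟩ := hpa
  have ht1' : (1 : ℝ) ≤ t := by exact_mod_cast ht1
  have ht2' : 8 / c ≤ t := (Nat.le_ceil _).trans (by exact_mod_cast ht2)
  have ht3' : 72 / (1 - γ) ≤ t := (Nat.le_ceil _).trans (by exact_mod_cast ht3)
  rw [div_le_iff₀ hc0] at ht2'
  rw [div_le_iff₀ (by linarith)] at ht3'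
  set n := ⌈σ1 * t⌉₊ with hn
  have hn0 : σ1 * t ≤ n := Nat.le_ceil _
  have hn1 : (n : ℝ) ≤ σ1 * t + 1 := (Nat.ceil_lt_add_one (by positivity)).le
  have hx1 : ∀ x : ℕ, (2 : ℝ) ^ (σf * t) ≤ x → 1 < x := by
    intro x hx
    have h1 : (1 : ℝ) < 2 ^ (σf * t) := Real.one_lt_rpow (by norm_num) (by positivity)
    exact_mod_cast h1.trans_le hx
  choose! f hf hXi using hpx
  set e : ℕ → ℕ := fun x => ((univ : Finset (Fin t)).filter (fun i => ¬ (p i).Coprime x)).card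
    with he
  set A : ℕ → Finset ℕ := fun x => if (2 : ℝ) ^ (σf * t) ≤ x ∧ (x : ℝ) < 2 ^ (σ1 * t) then
    (range x).filter (fun a => a.Coprime x ∧
      ∑ S : Finset (Fin t), f x (gap x (a * sp p S)) <
        2 ^ (t - e x) * (∑ r ∈ range x, f x r) / (2 * x.totient)) else ∅ with hA
  have hebd : ∀ x : ℕ, 0 < x → (x : ℝ) < 2 ^ (σ1 * t) → (e x : ℝ) ≤ c / 8 * t := by
    intro x hx0 hx
    have h1 := hfd t p hpinj (fun i => ⟨(hpp i).1, (hpp i).2.1⟩) x hx0 hx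
    refine le_trans (le_of_eq ?_) h1
    rw [he]
    simp only
    congr 2
    ext i
    simp only [Finset.mem_filter, Finset.mem_univ, true_and]
    rw [(hpp i).1.coprime_iff_not_dvd, not_not]
  have hF0 : ∀ x : ℕ, (2 : ℝ) ^ (σf * t) ≤ x → (x : ℝ) < 2 ^ (σ1 * t) →
      0 < ∑ r ∈ range x, f x r := by
    intro x hxl hxu
    refine lt_of_lt_of_le ?_ (hf x hxl hxu).mass
    obtain ⟨h1, h2, h3⟩ := hwc x hxl hxu
    have hW1 := (W_le (Qf t)).1
    have h4 : 0 < ⌈nxt (1 - 1 / K) γ t x⌉₊ :=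
      lt_of_lt_of_le (Nat.mul_pos (Nat.mul_pos (by norm_num) hW1) h2) h3
    have h5 : (0 : ℝ) < (⌈nxt (1 - 1 / K) γ t x⌉₊ : ℝ) := by exact_mod_cast h4
    have h6 : (0 : ℝ) < W (Qf t) := by exact_mod_cast hW1
    positivity
  have hAcard : ∀ x, 0 < x → x < 2 ^ n → ((A x).card : ℝ) ≤ 2 ^ (-(c * t / 2)) * x := by
    intro x hx0 hxn
    by_cases hx : (2 : ℝ) ^ (σf * t) ≤ x ∧ (x : ℝ) < 2 ^ (σ1 * t)
    · have h1 : A x = (range x).filter (fun a => a.Coprime x ∧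
          ∑ S : Finset (Fin t), f x (gap x (a * sp p S)) <
          2 ^ (t - e x) * (∑ r ∈ range x, f x r) / (2 * x.totient)) := by
        rw [hA]; simp only; rw [if_pos hx]
      rw [h1]
      have hw := hf x hx.1 hx.2
      obtain ⟨hX1, hX2, hX3⟩ := hwc x hx.1 hx.2
      refine (l2_res (hx1 x hx.1) (f x) hw.nonneg
        (fun r hr => ⟨(hw.supp r hr).1.trans_le hX1, (hw.supp r hr).2.1⟩) (hF0 x hx.1 hx.2) p
        (e x) rfl).trans ?_
      have h2 := hXi x hx.1 hx.2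
      have h3 := hebd x hx0 hx.2
      have h4 : (x.totient : ℝ) ≤ x := by exact_mod_cast Nat.totient_le x
      have h5 : (4 : ℝ) ^ (e x + 1) ≤ 2 ^ (c * t / 2) := by
        have h6 : (4 : ℝ) ^ (e x + 1) = 2 ^ (2 * ((e x : ℝ) + 1)) := by
          rw [show (4 : ℝ) = 2 ^ (2 : ℝ) by norm_num, ← Real.rpow_natCast,
            ← Real.rpow_mul (by norm_num)]
          push_cast
          ring_nf
        rw [h6]
        apply Real.rpow_le_rpow_of_exponent_le (by norm_num)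
        nlinarith
      have h7 : (2 : ℝ) ^ (c * t / 2) * 2 ^ (-(c * t)) = 2 ^ (-(c * t / 2)) := by
        rw [← Real.rpow_add (by norm_num)]
        congr 1
        ring
      calc (4 : ℝ) ^ (e x + 1) * x.totient * Xi x (f x) p
          ≤ 2 ^ (c * t / 2) * x * 2 ^ (-(c * t)) := by
            have : (0 : ℝ) ≤ Xi x (f x) p := by
              unfold Xi fac
              positivity
            gcongr
        _ = (2 : ℝ) ^ (c * t / 2) * 2 ^ (-(c * t)) * x := by ring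
        _ = 2 ^ (-(c * t / 2)) * x := by rw [h7]
    · have h1 : A x = ∅ := by
        rw [hA]; simp only; rw [if_neg hx]
      rw [h1, Finset.card_empty, Nat.cast_zero]
      positivity
  obtain ⟨g, hg, hgA⟩ := hlp (2 ^ (-(c * t / 2))) (by positivity) hcond A hAcard
  have hgl : ∀ j, (2 : ℝ) ^ (σ1 * t) < g j := by
    intro j
    have h1 : (2 : ℝ) ^ (σ1 * t) ≤ 2 ^ n := by
      rw [← Real.rpow_natCast]
      exact Real.rpow_le_rpow_of_exponent_le (by norm_num) hn0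
    refine h1.trans_lt ?_
    exact_mod_cast (hg j).2.1
  refine ⟨p, g, hpinj, hpp, fun j => ⟨(hg j).1, hgl j, ?_⟩, ?_⟩
  · have h1 : (g j : ℝ) ≤ 2 ^ (3 * n) := by exact_mod_cast (hg j).2.2
    refine h1.trans ?_
    rw [← Real.rpow_natCast]
    apply Real.rpow_le_rpow_of_exponent_le (by norm_num)
    push_cast
    nlinarith
  · intro x hxl hxu
    have hx1' := hx1 x hxl
    have hx0 : 0 < x := by omega
    have hxn : x < 2 ^ n := by
      have h1 : (x : ℝ) < 2 ^ n := by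
        refine hxu.trans_le ?_
        rw [← Real.rpow_natCast]
        exact Real.rpow_le_rpow_of_exponent_le (by norm_num) hn0
      exact_mod_cast h1
    obtain ⟨j, hj⟩ := hgA x hx0 hxn
    refine ⟨j, ?_⟩
    have hw := hf x hxl hxu
    obtain ⟨hX1, hX2, hX3⟩ := hwc x hxl hxu
    have hcop : (g j % x).Coprime x := by
      have h1 : (g j).Coprime x := by
        rw [(hg j).1.coprime_iff_not_dvd]
        intro h2
        have := Nat.le_of_dvd hx0 h2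
        have := (hg j).2.1
        omega
      have h2 := Nat.gcd_rec x (g j)
      unfold Nat.Coprime
      rw [← h2]
      exact h1.symm
    have hge : 2 ^ (t - e x) * (∑ r ∈ range x, f x r) / (2 * x.totient) ≤
        ∑ S : Finset (Fin t), f x (gap x (g j * sp p S)) := by
      by_contra hlt
      rw [not_le] at hlt
      apply hj
      rw [hA]
      simp only
      rw [if_pos ⟨hxl, hxu⟩, Finset.mem_filter]
      refine ⟨Finset.mem_range.2 (Nat.mod_lt _ hx0), hcop, ?_⟩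
      simp only [prop1_gap]
      exact hlt
    have hcount : ∑ S : Finset (Fin t), f x (gap x (g j * sp p S)) ≤
        ((good K γ t x (g j) p).card : ℝ) := by
      rw [good, Finset.card_filter]
      push_cast
      apply Finset.sum_le_sum
      intro S _
      by_cases h0 : f x (gap x (g j * sp p S)) = 0
      · rw [h0]
        split_ifs <;> norm_num
      · obtain ⟨hs1, hs2, hs3⟩ := hw.supp _ h0
        rw [if_pos ⟨Nat.lt_ceil.1 hs1, hs3⟩]
        exact hw.le_one _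
    refine le_trans ?_ (hge.trans hcount)
    have he1 := hebd x hx0 hxu
    apply prop1_final γ t (e x) x ⌈nxt (1 - 1 / K) γ t x⌉₊ (W (Qf t)) x.totient _
      (nxt (1 - 1 / K) γ t x) hx0 (W_le (Qf t)).1 (Nat.totient_pos.2 hx0) (Nat.totient_le x)
    · rw [he]
      exact (Finset.card_le_univ _).trans (by simp)
    · nlinarith
    · linarith
    · exact hWs
    · exact hw.mass
    · exact le_max_left _ _
    · exact Nat.le_ceil _

end Pool.Agent.Lib.MP_9dd88f_nt.HF
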