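import Mathlib
import Pool.Agent.Lib.MP_9dd88f_nt.HF.FinEx
import Pool.Agent.Lib.MP_9dd88f_nt.HF.BadFin
import Pool.Agent.Lib.MP_9dd88f_nt.HF.NumX

/-!
# Proposition 2
-/

namespace Pool.Agent.Lib.MP_9dd88f_nt.HF

open Finset Filter

private theorem prop2_sum {α : Type*} [Fintype α] (B : Finset α) (F : α → ℝ) (E : ℝ)
    (hE : 0 ≤ E) (h1 : ∀ a, F a ≤ 1) (h2 : ∀ a, a ∉ B → F a ≤ E) :
    ∑ a, F a ≤ (B.card : ℝ) + Fintype.card α * E := by
  classical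
  have h3 : ∀ a, F a ≤ (if a ∈ B then 1 else 0) + E := by
    intro a
    split_ifs with ha
    · linarith [h1 a]
    · linarith [h2 a ha]
  refine (Finset.sum_le_sum (fun a _ => h3 a)).trans (le_of_eq ?_)
  rw [Finset.sum_add_distrib, Finset.sum_const, Finset.card_univ, nsmul_eq_mul]
  congr 1
  rw [Finset.sum_ite_mem, Finset.univ_inter, Finset.sum_const, nsmul_eq_mul, mul_one]

/-- **Job Prop2.** Existence of the final group.

Proof. Take `v` from `fin_ex`, `u = ⌊θt⌋`. Let `1 ≤ x < 2^(θt/20)`, `x` rough, `q ∣ x`, `q > 1`. `q` has a prime factor `≥ Qf t`, so `q ≥ Qf t ≥ t^0.9` (`Qf_large`),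
and `q ≤ x < 2^(θt/20) ≤ 2^t`. All `drp x v i` are coprime to `q` (`1`, or a prime not dividing `x`). `coll_eq`:
`coll φ(q) = 4^u ∑_χ ∏ fac χ (drp x v i) ≤ 4^u (#bad + φ(q) 2^(-θt/10)) ≤ 4^u (q^(1/8) + φ(q) q^(-2))`: for `χ` in `bad` the product is `≤ 1`
(`0 ≤ fac ≤ 1`), `#bad ≤ q^(1/8)` (`bad_fin`), the number of characters is `φ(q)`, and `q² ≤ 2^(θt/10)`. With `φ(q) ≥ q/2` (`totient_half`, `q` is rough):
`coll ≤ 4^u (2 q^(-7/8) + q^(-2)) ≤ 4^u q^(-3/4)` since `q ≥ t^0.9` is large. -/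
theorem prop2 (θ : ℝ) (h0 : 0 < θ) (h1 : θ ≤ 1) : ∀ᶠ t : ℕ in atTop,
    ∃ v : Fin ⌊θ * t⌋₊ → ℕ, Main2 θ t ⌊θ * t⌋₊ v := by
  filter_upwards [fin_ex θ h0 h1, bad_fin, Qf_large, Qf_ge 6561,
    totient_half (θ / 20) (by positivity)] with t hfin hbad hQl hQg htot
  obtain ⟨v, hinj, hpr, hv⟩ := hfin
  refine ⟨v, hinj, hpr, ?_⟩
  intro x hx1 hx2 hrough q hqx hq1
  have hq0 : 0 < q := by omega
  have hqlex : q ≤ x := Nat.le_of_dvd (by omega) hqx
  have hqR : (q : ℝ) < 2 ^ (θ * t / 20) :=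
    lt_of_le_of_lt (by exact_mod_cast hqlex) hx2
  have hroughq : Rough (Qf t) q := fun p hp hpq => hrough p hp (hpq.trans hqx)
  obtain ⟨p, hp, hpq⟩ := Nat.exists_prime_and_dvd (by omega : q ≠ 1)
  have hQq : Qf t ≤ q := (hroughq p hp hpq).trans (Nat.le_of_dvd hq0 hpq)
  have hq6 : 6561 ≤ q := hQg.trans hQq
  have ht9 : (t : ℝ) ^ (0.9 : ℝ) ≤ q := hQl.trans (by exact_mod_cast hQq)
  have ht0 : (0 : ℝ) ≤ t := Nat.cast_nonneg t
  have hq2t : (q : ℝ) ≤ 2 ^ (t : ℝ) := by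
    refine hqR.le.trans (Real.rpow_le_rpow_of_exponent_le (by norm_num) ?_)
    nlinarith
  have hb := hbad q ht9 hq2t
  have htt : (q : ℝ) / 2 ≤ q.totient := by
    refine htot q hq0 ?_ hroughq
    have h2 : θ / 20 * (t : ℝ) = θ * t / 20 := by ring
    rw [h2]
    exact hqR
  have hcop : ∀ i, (drp x v i).Coprime q := by
    intro i
    unfold drp
    split_ifs with h3
    · exact Nat.coprime_one_left q
    · rw [Nat.Prime.coprime_iff_not_dvd (hpr i).1]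
      intro h4
      exact h3 (h4.trans hqx)
  have hcoll := coll_eq hq0 (drp x v) hcop
  have hfac0 : ∀ (χ : DirichletCharacter ℂ q) (n : ℕ), 0 ≤ fac χ n := by
    intro χ n
    unfold fac
    positivity
  have hfac1 : ∀ (χ : DirichletCharacter ℂ q) (n : ℕ), fac χ n ≤ 1 := by
    intro χ n
    unfold fac
    have h2 : ‖1 + χ (n : ZMod q)‖ ≤ 2 := by
      refine (norm_add_le _ _).trans ?_
      have h3 := DirichletCharacter.norm_le_one χ (n : ZMod q)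
      rw [norm_one]
      linarith
    have h4 : ‖1 + χ (n : ZMod q)‖ ^ 2 ≤ 2 ^ 2 := pow_le_pow_left₀ (norm_nonneg _) h2 2
    linarith
  have hprod : ∀ χ : DirichletCharacter ℂ q, ∏ i, (4 * fac χ (drp x v i)) =
      4 ^ ⌊θ * t⌋₊ * ∏ i, fac χ (drp x v i) := by
    intro χ
    rw [Finset.prod_mul_distrib, Finset.prod_const, Finset.card_univ, Fintype.card_fin]
  set E : ℝ := (2 : ℝ) ^ (-(θ * t / 10)) with hE
  have hE0 : 0 ≤ E := by positivity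
  have : NeZero q := ⟨by omega⟩
  have hnum : (Fintype.card (DirichletCharacter ℂ q) : ℝ) = q.totient := by
    rw [← Nat.card_eq_fintype_card,
      DirichletCharacter.card_eq_totient_of_hasEnoughRootsOfUnity ℂ q]
  have hsum : ∑ χ : DirichletCharacter ℂ q, ∏ i, fac χ (drp x v i) ≤
      ((bad q (primesIoc t (t ^ 20)) (1 / 10)).card : ℝ) + q.totient * E := by
    rw [← hnum]
    refine prop2_sum _ _ E hE0 (fun χ => ?_) (fun χ hχ => hv x hx1 hx2 q hqx χ hχ)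
    exact Finset.prod_le_one (fun i _ => hfac0 χ _) (fun i _ => hfac1 χ _)
  have hmain : (coll (drp x v) q : ℝ) * q.totient ≤
      4 ^ ⌊θ * t⌋₊ * ((q : ℝ) ^ (1 / 8 : ℝ) + q.totient * E) := by
    rw [hcoll]
    rw [Finset.sum_congr rfl (fun χ _ => hprod χ), ← Finset.mul_sum]
    refine mul_le_mul_of_nonneg_left ?_ (by positivity)
    linarith
  have hqpos : (0 : ℝ) < q := by exact_mod_cast hq0
  have hφ : (0 : ℝ) < q.totient := by linarith [half_pos hqpos]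
  have hEq : E ≤ (q : ℝ) ^ (-2 : ℝ) := by
    have h6 : (q : ℝ) ^ (2 : ℝ) ≤ 2 ^ (θ * t / 10) := by
      have h7 : (q : ℝ) ^ (2 : ℝ) ≤ (2 ^ (θ * t / 20)) ^ (2 : ℝ) :=
        Real.rpow_le_rpow hqpos.le hqR.le (by norm_num)
      refine h7.trans (le_of_eq ?_)
      rw [← Real.rpow_mul (by norm_num)]
      congr 1
      ring
    rw [hE, Real.rpow_neg (by norm_num), Real.rpow_neg hqpos.le]
    exact inv_anti₀ (by positivity) h6
  have hu4 : (0 : ℝ) < 4 ^ ⌊θ * t⌋₊ := by positivity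
  -- the last inequality
  have h8 : (3 : ℝ) ≤ (q : ℝ) ^ (1 / 8 : ℝ) := by
    have h9 : ((3 : ℝ) ^ (8 : ℝ)) ^ (1 / 8 : ℝ) ≤ (q : ℝ) ^ (1 / 8 : ℝ) := by
      apply Real.rpow_le_rpow (by positivity) _ (by norm_num)
      have h10 : (3 : ℝ) ^ (8 : ℝ) = 6561 := by norm_num
      rw [h10]
      exact_mod_cast hq6
    have h9' : ((3 : ℝ) ^ (8 : ℝ)) ^ (1 / 8 : ℝ) = 3 := by
      rw [← Real.rpow_mul (by norm_num)]
      norm_num
    rw [h9'] at h9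
    exact h9
  unfold GoodMod
  have hA : (q : ℝ) ^ (1 / 8 : ℝ) ≤ (2 / 3) * q.totient * (q : ℝ) ^ (-(3 / 4) : ℝ) := by
    have h11 : (q : ℝ) ^ (1 / 8 : ℝ) * (q : ℝ) ^ (1 / 8 : ℝ) = q * (q : ℝ) ^ (-(3 / 4) : ℝ) := by
      rw [← Real.rpow_add hqpos]
      have h12 : (q : ℝ) * (q : ℝ) ^ (-(3 / 4) : ℝ) = (q : ℝ) ^ (1 + (-(3 / 4)) : ℝ) := by
        rw [Real.rpow_add hqpos, Real.rpow_one]
      rw [h12]
      norm_num
    have h13 : (0 : ℝ) < (q : ℝ) ^ (1 / 8 : ℝ) := by positivity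
    have h14 : (0 : ℝ) < (q : ℝ) ^ (-(3 / 4) : ℝ) := by positivity
    have h15 : 3 * (q : ℝ) ^ (1 / 8 : ℝ) ≤ q * (q : ℝ) ^ (-(3 / 4) : ℝ) := by
      rw [← h11]
      exact mul_le_mul_of_nonneg_right h8 h13.le
    have h16 : (q : ℝ) * (q : ℝ) ^ (-(3 / 4) : ℝ) ≤ 2 * q.totient * (q : ℝ) ^ (-(3 / 4) : ℝ) :=
      mul_le_mul_of_nonneg_right (by linarith) h14.le
    linarith
  have hB : E ≤ (1 / 3) * (q : ℝ) ^ (-(3 / 4) : ℝ) := by
    refine hEq.trans ?_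
    have h17 : (q : ℝ) ^ (-2 : ℝ) = (q : ℝ) ^ (-(5 / 4) : ℝ) * (q : ℝ) ^ (-(3 / 4) : ℝ) := by
      rw [← Real.rpow_add hqpos]
      norm_num
    rw [h17]
    refine mul_le_mul_of_nonneg_right ?_ (by positivity)
    have h18 : (q : ℝ) ^ (-(5 / 4) : ℝ) ≤ (q : ℝ) ^ (-(1 / 8) : ℝ) :=
      Real.rpow_le_rpow_of_exponent_le (by exact_mod_cast hq0) (by norm_num)
    refine h18.trans ?_
    rw [Real.rpow_neg hqpos.le]
    exact (inv_anti₀ (by norm_num) h8).trans (by norm_num)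
  have h19 : (q : ℝ) ^ (1 / 8 : ℝ) + q.totient * E ≤ q.totient * (q : ℝ) ^ (-(3 / 4) : ℝ) := by
    have h20 := mul_le_mul_of_nonneg_left hB hφ.le
    linarith
  have h21 : (coll (drp x v) q : ℝ) * q.totient ≤
      (4 ^ ⌊θ * t⌋₊ * (q : ℝ) ^ (-(3 / 4) : ℝ)) * q.totient := by
    refine hmain.trans ?_
    have h22 := mul_le_mul_of_nonneg_left h19 hu4.le
    linarith
  exact le_of_mul_le_mul_right h21 hφ

end Pool.Agent.Lib.MP_9dd88f_nt.HF
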