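import Mathlib
import Pool.Agent.Lib.MP_9dd88f_nt.HF.FinB
import Pool.Agent.Lib.MP_9dd88f_nt.HF.NumX

/-!
# The final representation for large t
-/

namespace Pool.Agent.Lib.MP_9dd88f_nt.HF

open Finset Filter

private theorem redfin_num (θ : ℝ) (h0 : 0 < θ) : ∀ᶠ t : ℕ in atTop,
    576 + 48 * (t : ℝ) ≤ (2 : ℝ) ^ (9 / 10 * (θ * t)) := by
  have hcast : Tendsto (fun t : ℕ => (t : ℝ)) atTop atTop := tendsto_natCast_atTop_atTop
  have hl2 : 0 < Real.log 2 := Real.log_pos (by norm_num)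
  have hb : 0 < Real.log 2 * (9 / 10 * θ) := by positivity
  have h := (isLittleO_pow_exp_pos_mul_atTop 1 hb).bound (show (0 : ℝ) < 1 / 100 by norm_num)
  filter_upwards [hcast.eventually h, eventually_ge_atTop 576] with t ht ht1
  have ht1' : (576 : ℝ) ≤ t := by exact_mod_cast ht1
  rw [pow_one, Real.norm_eq_abs, Real.norm_eq_abs, abs_of_pos (Real.exp_pos _)] at ht
  have ht2 := (le_abs_self (t : ℝ)).trans ht
  have e : (2 : ℝ) ^ (9 / 10 * (θ * t)) = Real.exp (Real.log 2 * (9 / 10 * θ) * t) := by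
    rw [Real.rpow_def_of_pos (by norm_num)]
    congr 1
    ring
  rw [e]
  have hpos := Real.exp_pos (Real.log 2 * (9 / 10 * θ) * t)
  linarith

/-- **Job RedFin (c).** The final representation for large `t`.

Proof. (b) with `cap = t`, `u = ⌊θt⌋`: `hgood` from `Main2.good` (`q ≥ Qf t ≥ 3` since `q > 1` has a prime factor `≥ Qf t`; `Qf_ge`), `hcap`: `e ≤ θ t/20` by `few_dvd`,
`2 x (144 + 12 t) 2^e ≤ 2^(θt/20 + θt/20) (288 + 24 t) < 2^(θt - 1) ≤ 2^u` for large `t`. -/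
theorem fin_at_main (θ : ℝ) (h0 : 0 < θ) (h1 : θ ≤ 1) : ∀ᶠ t : ℕ in atTop,
    ∀ v : Fin ⌊θ * t⌋₊ → ℕ, Main2 θ t ⌊θ * t⌋₊ v → ∀ M : ℕ, (∏ i, v i) ^ 2 ∣ M →
      ∀ x : ℕ, 1 ≤ x → (x : ℝ) < 2 ^ (θ * t / 20) → Rough (Qf t) x → FinAt 12 M t x := by
  filter_upwards [few_dvd (θ / 20) (θ / 20) (by positivity) (by positivity), Qf_ge 3,
    redfin_num θ h0] with t hfew hQ hnum v hv M hM x hx1 hx2 hx3
  have hx0 : 0 < x := hx1
  refine fin_at x M t v hv.inj (fun i => (hv.prime i).1) hx0 hM ?_ ?_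
  · intro q hq hq1
    refine ⟨?_, hv.good x hx1 hx2 hx3 q hq hq1⟩
    obtain ⟨p, hp, hpq⟩ := Nat.exists_prime_and_dvd (show q ≠ 1 by omega)
    have h2 : Qf t ≤ p := hx3 p hp (hpq.trans hq)
    have h3 : p ≤ q := Nat.le_of_dvd (by omega) hpq
    omega
  · set e := ((univ : Finset (Fin ⌊θ * t⌋₊)).filter (fun i => v i ∣ x)).card with he
    have hx2' : (x : ℝ) < 2 ^ (θ / 20 * t) := by
      have h : θ / 20 * (t : ℝ) = θ * t / 20 := by ring
      rw [h]
      exact hx2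
    have he1 : (e : ℝ) ≤ θ / 20 * t :=
      hfew ⌊θ * t⌋₊ v hv.inj (fun i => ⟨(hv.prime i).1, (hv.prime i).2.1⟩) x hx0 hx2'
    have he2 : ((2 : ℝ) ^ e) ≤ 2 ^ (θ / 20 * t) := by
      rw [← Real.rpow_natCast]
      exact Real.rpow_le_rpow_of_exponent_le (by norm_num) he1
    have hu : (2 : ℝ) ^ (θ * t - 1) ≤ (2 : ℝ) ^ ⌊θ * t⌋₊ := by
      rw [← Real.rpow_natCast]
      exact Real.rpow_le_rpow_of_exponent_le (by norm_num) (by
        have := Nat.lt_floor_add_one (θ * t)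
        linarith)
    have hA : (0 : ℝ) < 2 ^ (θ / 20 * t) := Real.rpow_pos_of_pos (by norm_num) _
    have hmain : (2 * x * (144 + 12 * t) * 2 ^ e : ℝ) < (2 : ℝ) ^ ⌊θ * t⌋₊ := by
      calc (2 * x * (144 + 12 * t) * 2 ^ e : ℝ)
          ≤ 2 * x * (144 + 12 * t) * 2 ^ (θ / 20 * t) :=
            mul_le_mul_of_nonneg_left he2 (by positivity)
        _ < 2 * 2 ^ (θ / 20 * t) * (144 + 12 * t) * 2 ^ (θ / 20 * t) := by
            refine mul_lt_mul_of_pos_right (mul_lt_mul_of_pos_right ?_ (by positivity)) hA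
            linarith
        _ = (576 + 48 * t) * (2 ^ (θ / 20 * t) * 2 ^ (θ / 20 * t)) * 2⁻¹ := by ring
        _ ≤ 2 ^ (9 / 10 * (θ * t)) * (2 ^ (θ / 20 * t) * 2 ^ (θ / 20 * t)) * 2⁻¹ := by
            refine mul_le_mul_of_nonneg_right ?_ (by norm_num)
            exact mul_le_mul_of_nonneg_right hnum (by positivity)
        _ = 2 ^ (θ * t - 1) := by
            rw [← Real.rpow_add (by norm_num), ← Real.rpow_add (by norm_num),
              Real.rpow_sub (by norm_num), Real.rpow_one, ← div_eq_mul_inv]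
            congr 2
            ring
        _ ≤ (2 : ℝ) ^ ⌊θ * t⌋₊ := hu
    exact_mod_cast hmain

end Pool.Agent.Lib.MP_9dd88f_nt.HF
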