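import Mathlib
import Pool.Agent.Lib.MP_9dd88f_nt.HF.Defs

/-!
# Few sets of primes have a small product
-/

namespace Pool.Agent.Lib.MP_9dd88f_nt.HF

open Finset Filter

/-- **Job NumX (d).** Few sets of primes `> t` have a product below `2^(σ1 t)`.

Proof. `t^|T| ≤ sp p T < 2^(σ1 t)`, so `|T| ≤ m := σ1 t / log₂ t`. For `0 < z ≤ 1`: `∑_T z^|T| = (1 + z)^t ≤ e^(z t)`
(`Finset.prod_add`/`Finset.sum_pow_mul_eq_add_pow`), so the number of `T` with `|T| ≤ m` is `≤ z^(-m) e^(z t)`. Take `z = min 1 (c/4)`: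
`e^(z t) ≤ 2^(c t / 2)` and `z^(-m) ≤ 2^(c t/2)` for large `t` (`m = o(t)`). -/
theorem few_small (σ1 c : ℝ) (hσ : 0 < σ1) (hc : 0 < c) : ∀ᶠ t : ℕ in atTop,
    ∀ p : Fin t → ℕ, (∀ i, t < p i) →
      (((univ : Finset (Finset (Fin t))).filter
        (fun T => (sp p T : ℝ) < 2 ^ (σ1 * t))).card : ℝ) ≤ 2 ^ (c * t) := by
  have hs : 0 < c / (2 * σ1) := by positivity
  set w := c / (2 * σ1) with hw
  have hlim : Tendsto (fun t : ℕ => (t : ℝ) ^ (-w)) atTop (nhds 0) :=
    (tendsto_rpow_neg_atTop hs).comp tendsto_natCast_atTop_atTop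
  have hlog : 0 < c / 2 * Real.log 2 := mul_pos (by positivity) (Real.log_pos (by norm_num))
  filter_upwards [hlim.eventually (gt_mem_nhds hlog), eventually_ge_atTop 1] with t ht ht1 p hp
  have htp : (0 : ℝ) < t := by exact_mod_cast ht1
  have hpi : ∀ i, (t : ℝ) < p i := fun i => by exact_mod_cast hp i
  have hpp : ∀ i, (0 : ℝ) < p i := fun i => htp.trans (hpi i)
  have hsp : ∀ T : Finset (Fin t), (0 : ℝ) < (sp p T : ℝ) := by
    intro T
    unfold sp
    push_cast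
    exact Finset.prod_pos fun i _ => hpp i
  have h2 : (0 : ℝ) < (2 : ℝ) ^ (σ1 * t) := by positivity
  have hsum : ∑ T : Finset (Fin t), ((sp p T : ℝ)) ^ (-w) = ∏ i : Fin t, (1 + (p i : ℝ) ^ (-w)) := by
    rw [Finset.prod_one_add, Finset.powerset_univ]
    refine Finset.sum_congr rfl fun T _ => ?_
    unfold sp
    push_cast
    rw [← Real.finsetProd_rpow _ _ fun i _ => (hpp i).le]
  calc (((univ : Finset (Finset (Fin t))).filter (fun T => (sp p T : ℝ) < 2 ^ (σ1 * t))).card : ℝ)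
      = ∑ T ∈ (univ : Finset (Finset (Fin t))).filter (fun T => (sp p T : ℝ) < 2 ^ (σ1 * t)), (1 : ℝ) := by simp
    _ ≤ ∑ T ∈ (univ : Finset (Finset (Fin t))).filter (fun T => (sp p T : ℝ) < 2 ^ (σ1 * t)),
          ((2 : ℝ) ^ (σ1 * t)) ^ w * ((sp p T : ℝ)) ^ (-w) := by
        refine Finset.sum_le_sum fun T hT => ?_
        have h3 : (sp p T : ℝ) ≤ 2 ^ (σ1 * t) := (Finset.mem_filter.mp hT).2.le
        have h4 : (sp p T : ℝ) ^ w ≤ ((2 : ℝ) ^ (σ1 * t)) ^ w := Real.rpow_le_rpow (hsp T).le h3 hs.le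
        rw [Real.rpow_neg (hsp T).le, ← div_eq_mul_inv, le_div_iff₀ (Real.rpow_pos_of_pos (hsp T) _), one_mul]
        exact h4
    _ ≤ ∑ T : Finset (Fin t), ((2 : ℝ) ^ (σ1 * t)) ^ w * ((sp p T : ℝ)) ^ (-w) :=
        Finset.sum_le_sum_of_subset_of_nonneg (Finset.filter_subset _ _) fun T _ _ => by
          have := hsp T
          positivity
    _ = ((2 : ℝ) ^ (σ1 * t)) ^ w * ∏ i : Fin t, (1 + (p i : ℝ) ^ (-w)) := by rw [← Finset.mul_sum, hsum]
    _ ≤ ((2 : ℝ) ^ (σ1 * t)) ^ w * ∏ _i : Fin t, Real.exp (c / 2 * Real.log 2) := by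
        refine mul_le_mul_of_nonneg_left (Finset.prod_le_prod (fun i _ => ?_) fun i _ => ?_) (by positivity)
        · have := hpp i
          positivity
        · have h3 : (p i : ℝ) ^ (-w) ≤ (t : ℝ) ^ (-w) :=
            Real.rpow_le_rpow_of_nonpos htp (hpi i).le (by linarith)
          have h4 := Real.add_one_le_exp (c / 2 * Real.log 2)
          linarith
    _ = 2 ^ (c * t) := by
        rw [Finset.prod_const, Finset.card_univ, Fintype.card_fin, ← Real.exp_nat_mul, ← Real.rpow_mul (by norm_num),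
          Real.rpow_def_of_pos (by norm_num : (0 : ℝ) < 2), Real.rpow_def_of_pos (by norm_num : (0 : ℝ) < 2), ← Real.exp_add]
        congr 1
        rw [hw]
        field_simp
        ring

end Pool.Agent.Lib.MP_9dd88f_nt.HF
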