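import Mathlib
import Pool.Agent.Lib.MP_9dd88f_nt.HF.Defs

/-!
# Gaps and classes
-/

namespace Pool.Agent.Lib.MP_9dd88f_nt.HF

open Finset Filter

/-- **Job RedStep (a).** `x ∣ D + gap x D`, `1 ≤ gap x D ≤ x`. -/
theorem gap_spec {x : ℕ} (hx : 0 < x) (D : ℕ) : x ∣ D + gap x D ∧ 1 ≤ gap x D ∧ gap x D ≤ x := by
  unfold gap
  have h1 := Nat.mod_lt D hx
  have h2 := Nat.div_add_mod D x
  refine ⟨⟨D / x + 1, ?_⟩, by omega, by omega⟩
  rw [mul_add, mul_one]
  omega

/-- **Job RedStep (b).** A class of sets with the same ratio `gap / D` is small.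

Proof. Let `Sm = {T : sp p T < x}`. Fix `S0` in the class. For `S` in the class, `D = g sp S`, `D0 = g sp S0`, `r, r0 < x` and `r0 D = r D0`: cancel `g` and
`sp (S ∩ S0)`: `r0 sp (S \ S0) = r sp (S0 \ S)`. The two products are coprime (distinct primes), so `sp (S \ S0) ∣ r`, `sp (S0 \ S) ∣ r0`, both `< x`
(`r, r0 ≥ 1`). The map `S ↦ (S \ S0, S0 \ S)` into `Sm × Sm` is injective. -/
theorem class_le {x t g : ℕ} (hx : 0 < x) (hg : 0 < g) (p : Fin t → ℕ)
    (hp : Function.Injective p) (hpp : ∀ i, (p i).Prime) (S0 : Finset (Fin t))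
    (C : Finset (Finset (Fin t))) (h0 : gap x (g * sp p S0) < x)
    (hC : ∀ S ∈ C, gap x (g * sp p S) < x ∧
      gap x (g * sp p S0) * (g * sp p S) = gap x (g * sp p S) * (g * sp p S0)) :
    C.card ≤ ((univ : Finset (Finset (Fin t))).filter (fun T => sp p T < x)).card ^ 2 := by
  classical
  set r : Finset (Fin t) → ℕ := fun S => gap x (g * sp p S) with hr
  have hr1 : ∀ S, 1 ≤ r S := fun S => (gap_spec hx _).2.1
  have hspos : ∀ S : Finset (Fin t), 0 < sp p S := fun S => Finset.prod_pos fun i _ => (hpp i).pos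
  have hkey : ∀ S ∈ C, sp p (S \ S0) < x ∧ sp p (S0 \ S) < x := by
    intro S hS
    obtain ⟨h1, h2⟩ := hC S hS
    have e1 : sp p S = sp p (S \ S0) * sp p (S ∩ S0) := by
      unfold sp
      rw [← Finset.prod_union (Finset.disjoint_sdiff_inter S S0), Finset.sdiff_union_inter]
    have e2 : sp p S0 = sp p (S0 \ S) * sp p (S ∩ S0) := by
      rw [Finset.inter_comm S S0]
      unfold sp
      rw [← Finset.prod_union (Finset.disjoint_sdiff_inter S0 S), Finset.sdiff_union_inter]
    have h3 : r S0 * sp p (S \ S0) = r S * sp p (S0 \ S) := by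
      have h4 : 0 < g * sp p (S ∩ S0) := Nat.mul_pos hg (hspos _)
      apply Nat.eq_of_mul_eq_mul_left h4
      have h5 : r S0 * (g * sp p S) = r S * (g * sp p S0) := h2
      rw [e1, e2] at h5
      calc g * sp p (S ∩ S0) * (r S0 * sp p (S \ S0)) = r S0 * (g * (sp p (S \ S0) * sp p (S ∩ S0))) := by ring
        _ = r S * (g * (sp p (S0 \ S) * sp p (S ∩ S0))) := h5
        _ = g * sp p (S ∩ S0) * (r S * sp p (S0 \ S)) := by ring
    have hcop : Nat.Coprime (sp p (S \ S0)) (sp p (S0 \ S)) := by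
      unfold sp
      refine Nat.Coprime.prod_left fun i hi => Nat.Coprime.prod_right fun j hj => ?_
      rw [Nat.coprime_primes (hpp i) (hpp j)]
      intro hij
      have := hp hij
      rw [this] at hi
      exact (Finset.mem_sdiff.1 hi).2 (Finset.mem_sdiff.1 hj).1
    constructor
    · have h4 : sp p (S \ S0) ∣ r S := by
        have h5 : sp p (S \ S0) ∣ r S * sp p (S0 \ S) := ⟨r S0, by rw [← h3, mul_comm]⟩
        exact hcop.dvd_of_dvd_mul_right h5
      exact (Nat.le_of_dvd (hr1 S) h4).trans_lt h1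
    · have h4 : sp p (S0 \ S) ∣ r S0 := by
        have h5 : sp p (S0 \ S) ∣ r S0 * sp p (S \ S0) := ⟨r S, by rw [h3, mul_comm]⟩
        exact hcop.symm.dvd_of_dvd_mul_right h5
      exact (Nat.le_of_dvd (hr1 S0) h4).trans_lt h0
  set Sm := (univ : Finset (Finset (Fin t))).filter (fun T => sp p T < x) with hSm
  have h1 : C.card ≤ (Sm ×ˢ Sm).card := by
    refine Finset.card_le_card_of_injOn (fun S => (S \ S0, S0 \ S)) ?_ ?_
    · intro S hS
      have h2 := hkey S hS
      rw [Finset.mem_coe, mem_product, hSm, mem_filter, mem_filter]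
      exact ⟨⟨mem_univ _, h2.1⟩, mem_univ _, h2.2⟩
    · intro S _ S' _ h
      rw [Prod.mk.injEq] at h
      ext i
      have h2 : i ∈ S \ S0 ↔ i ∈ S' \ S0 := by rw [h.1]
      have h3 : i ∈ S0 \ S ↔ i ∈ S0 \ S' := by rw [h.2]
      rw [Finset.mem_sdiff, Finset.mem_sdiff] at h2 h3
      tauto
  rw [Finset.card_product] at h1
  rw [pow_two]
  exact h1

end Pool.Agent.Lib.MP_9dd88f_nt.HF
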