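import Mathlib
import Pool.Agent.Lib.MP_9dd88f_nt.HF.Defs

/-!
# The thresholds
-/

namespace Pool.Agent.Lib.MP_9dd88f_nt.HF

open Finset Filter

theorem thr_pos (κ γ σf : ℝ) (hκ : 0 < κ) (hκ1 : κ ≤ 1) (hγ : 0 < γ) (hσ : 0 < σf) (i : ℕ) :
    σf ≤ thr κ γ σf i ∧ thr κ γ σf i ≤ thr κ γ σf (i + 1) ∧
      thr κ γ σf (i + 1) ≤ thr κ γ σf i + γ ∧
      (1 - κ / 4) * thr κ γ σf (i + 1) ≤ thr κ γ σf i := by
  have hd : 0 < 1 - κ / 4 := by linarith
  have key : ∀ b : ℝ, 0 < b → b ≤ min (b + γ) (b / (1 - κ / 4)) := by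
    intro b hb
    refine le_min (by linarith) ?_
    rw [le_div_iff₀ hd]
    nlinarith
  have hlow : ∀ j, σf ≤ thr κ γ σf j := by
    intro j
    induction j with
    | zero => exact le_rfl
    | succ j ih => exact ih.trans (key _ (lt_of_lt_of_le hσ ih))
  have hb : 0 < thr κ γ σf i := lt_of_lt_of_le hσ (hlow i)
  refine ⟨hlow i, key _ hb, min_le_left _ _, ?_⟩
  have h1 : thr κ γ σf (i + 1) ≤ thr κ γ σf i / (1 - κ / 4) := min_le_right _ _
  rw [le_div_iff₀ hd] at h1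
  linarith

/-- **Job Reduce (a).** The thresholds grow by `γ` per step from some point on.

Proof. `ρ = 1/(1 - κ/4) > 1`, `b_i = thr κ γ σf i > 0`, increasing. If `b_i ≥ (4/κ - 1) γ` then `b_i ρ ≥ b_i + γ`, so `b_{i+1} = b_i + γ`. If `b_i < (4/κ-1)γ` then
`b_{i+1} = ρ b_i`. If the second case held for all `i`, `b_i = ρ^i σf` would be unbounded: contradiction. So there is `C` with `b_C ≥ (4/κ-1)γ`, and `b_{C+m} ≥ γ m`. -/
theorem thr_grow (κ γ σf : ℝ) (hκ : 0 < κ) (hκ1 : κ ≤ 1) (hγ : 0 < γ) (hσ : 0 < σf) :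
    ∃ C : ℕ, ∀ m : ℕ, γ * m ≤ thr κ γ σf (C + m) := by
  have hd : 0 < 1 - κ / 4 := by linarith
  have hL : 0 < (4 - κ) * γ := by nlinarith
  have hex : ∃ C : ℕ, (4 - κ) * γ ≤ κ * thr κ γ σf C := by
    by_contra hcon
    push Not at hcon
    have hstep : ∀ i, thr κ γ σf (i + 1) = thr κ γ σf i / (1 - κ / 4) := by
      intro i
      refine min_eq_right ?_
      rw [div_le_iff₀ hd]
      have := hcon i
      nlinarith
    have hpow : ∀ i, thr κ γ σf i = (1 / (1 - κ / 4)) ^ i * σf := by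
      intro i
      induction i with
      | zero => simp [thr]
      | succ i ih => rw [hstep, ih, pow_succ]; ring
    have h1 : 1 < 1 / (1 - κ / 4) := by
      rw [lt_div_iff₀ hd]
      linarith
    obtain ⟨N, hN⟩ := pow_unbounded_of_one_lt ((4 - κ) * γ / (κ * σf)) h1
    have h2 := hcon N
    rw [hpow N] at h2
    rw [div_lt_iff₀ (by positivity)] at hN
    nlinarith
  obtain ⟨C, hC⟩ := hex
  refine ⟨C, fun m => ?_⟩
  have hkey : ∀ m : ℕ, (4 - κ) * γ ≤ κ * thr κ γ σf (C + m) ∧ γ * m ≤ thr κ γ σf (C + m) := by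
    intro m
    induction m with
    | zero =>
      refine ⟨hC, ?_⟩
      have h0 : 0 < thr κ γ σf (C + 0) :=
        lt_of_lt_of_le hσ (thr_pos κ γ σf hκ hκ1 hγ hσ (C + 0)).1
      simpa using h0.le
    | succ m ih =>
      obtain ⟨h1, h2⟩ := ih
      have h3 : thr κ γ σf (C + m + 1) = thr κ γ σf (C + m) + γ := by
        refine min_eq_left ?_
        rw [le_div_iff₀ hd]
        nlinarith
      rw [← Nat.add_assoc, h3]
      push_cast
      constructor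
      · nlinarith
      · linarith
  exact (hkey m).2

/-- **Job Reduce (b).** `x < 2^(b_(i+1) t)` gives `nxt x ≤ 2^(b_i t)`; and `nxt x ≤ x`.

Proof. `x 2^(-γt) ≤ 2^((b_{i+1} - γ) t) ≤ 2^(b_i t)` and `x^(1-κ/4) ≤ 2^((1-κ/4) b_{i+1} t) ≤ 2^(b_i t)`. -/
theorem nxt_le (κ γ σf : ℝ) (hκ : 0 < κ) (hκ1 : κ ≤ 1) (hγ : 0 < γ) (hσ : 0 < σf) (t x i : ℕ)
    (hx : (x : ℝ) < 2 ^ (thr κ γ σf (i + 1) * t)) : nxt κ γ t x ≤ 2 ^ (thr κ γ σf i * t) := by
  obtain ⟨_, _, h3, h4⟩ := thr_pos κ γ σf hκ hκ1 hγ hσ i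
  have hd : 0 < 1 - κ / 4 := by linarith
  have ht : (0 : ℝ) ≤ t := Nat.cast_nonneg t
  refine max_le ?_ ?_
  · calc (x : ℝ) * 2 ^ (-(γ * t)) ≤ 2 ^ (thr κ γ σf (i + 1) * t) * 2 ^ (-(γ * t)) :=
          mul_le_mul_of_nonneg_right hx.le (Real.rpow_nonneg (by norm_num) _)
      _ = 2 ^ (thr κ γ σf (i + 1) * t + -(γ * t)) := (Real.rpow_add (by norm_num) _ _).symm
      _ ≤ 2 ^ (thr κ γ σf i * t) :=
          Real.rpow_le_rpow_of_exponent_le (by norm_num) (by nlinarith)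
  · calc (x : ℝ) ^ (1 - κ / 4) ≤ ((2 : ℝ) ^ (thr κ γ σf (i + 1) * t)) ^ (1 - κ / 4) :=
          Real.rpow_le_rpow (Nat.cast_nonneg x) hx.le hd.le
      _ = 2 ^ (thr κ γ σf (i + 1) * t * (1 - κ / 4)) := (Real.rpow_mul (by norm_num) _ _).symm
      _ ≤ 2 ^ (thr κ γ σf i * t) :=
          Real.rpow_le_rpow_of_exponent_le (by norm_num) (by nlinarith)

theorem nxt_le_self (κ γ : ℝ) (hκ : 0 < κ) (hκ1 : κ ≤ 1) (hγ : 0 < γ) (t x : ℕ) (hx : 1 ≤ x) :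
    nxt κ γ t x ≤ x := by
  have hx1 : (1 : ℝ) ≤ x := by exact_mod_cast hx
  have ht : (0 : ℝ) ≤ γ * t := by positivity
  refine max_le ?_ ?_
  · have h1 : (2 : ℝ) ^ (-(γ * t)) ≤ 1 :=
      Real.rpow_le_one_of_one_le_of_nonpos (by norm_num) (by linarith)
    nlinarith
  · calc (x : ℝ) ^ (1 - κ / 4) ≤ (x : ℝ) ^ (1 : ℝ) :=
          Real.rpow_le_rpow_of_exponent_le hx1 (by linarith)
      _ = x := Real.rpow_one _

end Pool.Agent.Lib.MP_9dd88f_nt.HF
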