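import Mathlib
import Pool.Agent.Lib.MP_9dd88f_nt.HF.RedA
import Pool.Agent.Lib.MP_9dd88f_nt.HF.NumY
import Pool.Agent.Lib.MP_9dd88f_nt.HF.Thr

/-!
# One reduction step
-/

namespace Pool.Agent.Lib.MP_9dd88f_nt.HF

open Finset Filter

private theorem redstep_key {N D r D0 r0 z x y y0 e e0 : ℕ} (hN : 0 < N) (h1 : N = D * e)
    (h2 : D + r = x * y) (h3 : e * y = z) (h1' : N = D0 * e0) (h2' : D0 + r0 = x * y0)
    (h3' : e0 * y0 = z) : r0 * D = r * D0 := by
  have hA : N * (D + r) = z * x * D := by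
    rw [h2, ← h3]; nth_rewrite 1 [h1]; ring
  have hB : N * (D0 + r0) = z * x * D0 := by
    rw [h2', ← h3']; nth_rewrite 1 [h1']; ring
  have hC : N * (D + r) * D0 = N * (D0 + r0) * D := by
    rw [hA, hB]; ring
  have hD : N * (r0 * D) = N * (r * D0) := by
    have : N * (D * D0) + N * (r * D0) = N * (D * D0) + N * (r0 * D) := by
      calc N * (D * D0) + N * (r * D0) = N * (D + r) * D0 := by ring
        _ = N * (D0 + r0) * D := hC
        _ = N * (D * D0) + N * (r0 * D) := by ring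
    omega
  exact Nat.eq_of_mul_eq_mul_left hN hD

private theorem redstep_event {γ : ℝ} (hγ1 : γ < 1) :
    ∀ᶠ t : ℕ in atTop, (t : ℝ) * (2 ^ ((1 - γ) / 8 * t)) ^ 2 < (2 : ℝ) ^ ((1 - γ) * t / 2) := by
  have hc : (0 : ℝ) < (1 - γ) / 4 * Real.log 2 := by
    have := Real.log_pos (by norm_num : (1 : ℝ) < 2)
    have h2 : 0 < (1 - γ) / 4 := by linarith
    positivity
  have h := (isLittleO_pow_exp_pos_mul_atTop (k := 1) hc).comp_tendsto
    (tendsto_natCast_atTop_atTop (R := ℝ))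
  have h2 := h.bound (c := 1 / 2) (by norm_num)
  filter_upwards [h2, eventually_gt_atTop 0] with t ht ht0
  have ht0' : (0 : ℝ) < t := by exact_mod_cast ht0
  simp only [Function.comp, pow_one, Real.norm_eq_abs] at ht
  rw [abs_of_pos ht0', abs_of_pos (Real.exp_pos _)] at ht
  have h3 : (t : ℝ) < Real.exp ((1 - γ) / 4 * Real.log 2 * t) := by
    have := Real.exp_pos ((1 - γ) / 4 * Real.log 2 * t)
    linarith
  have h6 : Real.exp ((1 - γ) / 4 * Real.log 2 * t) = (2 : ℝ) ^ ((1 - γ) / 4 * t) := by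
    rw [Real.rpow_def_of_pos (by norm_num)]; congr 1; ring
  rw [h6] at h3
  have h7 : ((2 : ℝ) ^ ((1 - γ) / 8 * t)) ^ 2 = 2 ^ ((1 - γ) / 4 * t) := by
    rw [← Real.rpow_natCast, ← Real.rpow_mul (by norm_num)]; congr 1; push_cast; ring
  have h8 : (2 : ℝ) ^ ((1 - γ) * t / 2) = 2 ^ ((1 - γ) / 4 * t) * 2 ^ ((1 - γ) / 4 * t) := by
    rw [← Real.rpow_add (by norm_num)]; congr 1; ring
  rw [h7, h8]
  exact mul_lt_mul_of_pos_right h3 (by positivity)

/-- **Job RedStep (c).** One step for large `t`.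

Proof. Let `j` be given by `Main1.good`, `g = g j`, `𝒮 = good K γ t x g p`, `|𝒮| ≥ 2^((1-γ)t/2)`. Let `N, Z` be given. For `S ∈ 𝒮` let `D = g sp p S`
(`D ∣ M ∣ N`, `D > 0`), `r = gap x D`, `y = (D + r)/x ≥ 1`, `n1 = (N/D) y`. Then `x / N = x y / (y N) = 1/n1 + r/(y N)`, `r ≥ 1`, `r < nxt`, `r` rough, `M ∣ yN`.
(`r < nxt ≤ x`: `nxt κ γ t x ≤ x` for `x ≥ 1`, `0 < κ ≤ 1`, `γ > 0`.)
We need `S` with `n1 ∉ Z`. For `z ∈ Z` the `S ∈ 𝒮` with `n1 = z` satisfy `N (D + r) = z x D` (multiply by `x D`), i.e. `r N = D (z x - N)` (integers), so for two such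
sets `r0 D = r D0`: by (b) there are at most `Small²` of them, `Small = #{T : sp p T < x} ≤ 2^(c t)` with `c = (1-γ)/8` (`few_small`, `x < 2^(σ1 t)`). So at most
`|Z| 2^(2ct) ≤ t 2^((1-γ) t/4) < 2^((1-γ)t/2)` sets are excluded. -/
theorem step_at (K γ σf σ1 : ℝ) (hK : 1 < K) (hK2 : K ≤ 2) (hγ : 0 < γ) (hγ1 : γ < 1)
    (hσf : 0 < σf) (hσ : σf < σ1) : ∀ᶠ t : ℕ in atTop, ∀ (J : ℕ) (p : Fin t → ℕ)
      (g : Fin J → ℕ), Main1 K γ σf σ1 t J p g → ∀ M : ℕ, (∏ i, p i) * ∏ j, g j ∣ M →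
        ∀ x : ℕ, (2 : ℝ) ^ (σf * t) ≤ x → (x : ℝ) < 2 ^ (σ1 * t) →
          StepAt (1 - 1 / K) γ t M t x := by
  classical
  have hc : (0 : ℝ) < (1 - γ) / 8 := by linarith
  filter_upwards [few_small σ1 ((1 - γ) / 8) (hσf.trans hσ) hc, redstep_event hγ1] with t hfew hev
  intro J p g hmain M hM x hx1 hx2 N hN hMN Z hZ
  have hx0 : 0 < x := by
    have : (0 : ℝ) < x := lt_of_lt_of_le (by positivity) hx1
    exact_mod_cast this
  obtain ⟨j, hj⟩ := hmain.good x hx1 hx2
  have hκ : 0 < 1 - 1 / K := by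
    have : 1 / K < 1 := by rw [div_lt_one (by linarith)]; exact hK
    linarith
  have hκ1 : 1 - 1 / K ≤ 1 := by
    have : 0 < 1 / K := by positivity
    linarith
  have hnx := nxt_le_self (1 - 1 / K) γ hκ hκ1 hγ t x hx0
  have hg0 : 0 < g j := (hmain.gprime j).1.pos
  have hpp : ∀ i, (p i).Prime := fun i => (hmain.prime i).1
  have hD0 : ∀ S : Finset (Fin t), 0 < g j * sp p S := fun S =>
    Nat.mul_pos hg0 (Finset.prod_pos (fun i _ => (hpp i).pos))
  have hDN : ∀ S : Finset (Fin t), g j * sp p S ∣ N := by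
    intro S
    refine dvd_trans ?_ (hM.trans hMN)
    rw [mul_comm]
    exact mul_dvd_mul (Finset.prod_dvd_prod_of_subset _ _ _ (Finset.subset_univ S))
      (Finset.dvd_prod_of_mem g (Finset.mem_univ j))
  have hgap : ∀ S ∈ good K γ t x (g j) p, gap x (g j * sp p S) < x := by
    intro S hS
    have h1 : (gap x (g j * sp p S) : ℝ) < nxt (1 - 1 / K) γ t x := by
      unfold good at hS
      exact (Finset.mem_filter.mp hS).2.1
    exact_mod_cast h1.trans_le hnx
  -- small sets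
  have hsmall : ((((univ : Finset (Finset (Fin t))).filter (fun T => sp p T < x)).card : ℕ) : ℝ) ≤
      2 ^ ((1 - γ) / 8 * t) := by
    refine le_trans ?_ (hfew p (fun i => (hmain.prime i).2.1))
    have : (univ : Finset (Finset (Fin t))).filter (fun T => sp p T < x) ⊆
        (univ : Finset (Finset (Fin t))).filter (fun T => (sp p T : ℝ) < 2 ^ (σ1 * t)) := by
      intro T hT
      simp only [Finset.mem_filter, Finset.mem_univ, true_and] at hT ⊢
      have h2 : (sp p T : ℝ) < x := by exact_mod_cast hT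
      exact h2.trans hx2
    exact_mod_cast Finset.card_le_card this
  -- the choice
  have hex : ∃ S ∈ good K γ t x (g j) p,
      N / (g j * sp p S) * ((g j * sp p S + gap x (g j * sp p S)) / x) ∉ Z := by
    by_contra hcon
    push Not at hcon
    have hcard := Finset.card_le_mul_card_image_of_maps_to hcon
      (((univ : Finset (Finset (Fin t))).filter (fun T => sp p T < x)).card ^ 2) (by
        intro z hz
        rcases Finset.eq_empty_or_nonempty ((good K γ t x (g j) p).filter (fun S =>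
          N / (g j * sp p S) * ((g j * sp p S + gap x (g j * sp p S)) / x) = z)) with he | hne
        · rw [he]; simp
        · obtain ⟨S0, hS0⟩ := hne
          rw [Finset.mem_filter] at hS0
          refine class_le hx0 hg0 p hmain.inj hpp S0 _ (hgap S0 hS0.1) ?_
          intro S hS
          rw [Finset.mem_filter] at hS
          refine ⟨hgap S hS.1, ?_⟩
          refine redstep_key hN (Nat.mul_div_cancel' (hDN S)).symm
            (Nat.mul_div_cancel' (gap_spec hx0 (g j * sp p S)).1).symm hS.2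
            (Nat.mul_div_cancel' (hDN S0)).symm
            (Nat.mul_div_cancel' (gap_spec hx0 (g j * sp p S0)).1).symm hS0.2)
    have h1 : ((good K γ t x (g j) p).card : ℝ) ≤
        (((univ : Finset (Finset (Fin t))).filter (fun T => sp p T < x)).card : ℝ) ^ 2 *
          (Z.card : ℝ) := by exact_mod_cast hcard
    have h2 : (Z.card : ℝ) ≤ t := by exact_mod_cast hZ
    have h3 : (((univ : Finset (Finset (Fin t))).filter (fun T => sp p T < x)).card : ℝ) ^ 2 ≤
        (2 ^ ((1 - γ) / 8 * t)) ^ 2 := by gcongr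
    have h4 : (((univ : Finset (Finset (Fin t))).filter (fun T => sp p T < x)).card : ℝ) ^ 2 *
          (Z.card : ℝ) ≤ (2 ^ ((1 - γ) / 8 * t)) ^ 2 * t := by
      exact mul_le_mul h3 h2 (by positivity) (by positivity)
    have h5 : (2 : ℝ) ^ ((1 - γ) * t / 2) ≤ t * (2 ^ ((1 - γ) / 8 * t)) ^ 2 := by
      calc (2 : ℝ) ^ ((1 - γ) * t / 2) ≤ ((good K γ t x (g j) p).card : ℝ) := hj
        _ ≤ _ := h1
        _ ≤ _ := h4
        _ = _ := mul_comm _ _
    exact absurd hev (not_lt.mpr h5)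
  obtain ⟨S, hS, hSZ⟩ := hex
  have hD := hD0 S
  obtain ⟨hg1, hg2, hg3⟩ := gap_spec hx0 (g j * sp p S)
  have hy := Nat.mul_div_cancel' hg1
  have he := Nat.mul_div_cancel' (hDN S)
  set D := g j * sp p S with hDdef
  set r := gap x D with hrdef
  set y := (D + r) / x with hydef
  set e := N / D with hedef
  have hy0 : 0 < y := by
    rcases Nat.eq_zero_or_pos y with h | h
    · rw [h] at hy; omega
    · exact h
  have he0 : 0 < e := by
    rcases Nat.eq_zero_or_pos e with h | h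
    · rw [h] at he; omega
    · exact h
  have hS' : (r : ℝ) < nxt (1 - 1 / K) γ t x ∧ Rough (Qf t) r := by
    unfold good at hS
    exact (Finset.mem_filter.mp hS).2
  refine ⟨e * y, y * N, r, Nat.mul_pos he0 hy0, hSZ, Nat.mul_pos hy0 hN,
    Dvd.dvd.mul_left hMN y, hg2, hS'.1, hS'.2, ?_⟩
  have hyq : (x : ℚ) * y = D + r := by exact_mod_cast hy
  have heq : (D : ℚ) * e = N := by exact_mod_cast he
  have e0 : (e : ℚ) ≠ 0 := by exact_mod_cast he0.ne'
  have y0 : (y : ℚ) ≠ 0 := by exact_mod_cast hy0.ne'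
  have d0 : (D : ℚ) ≠ 0 := by exact_mod_cast hD.ne'
  push_cast
  rw [← heq]
  field_simp
  linarith [hyq]

end Pool.Agent.Lib.MP_9dd88f_nt.HF
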