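import Mathlib
import Pool.Agent.Lib.MP_9dd88f_nt.HF.Thr

/-!
# Iterating the reduction
-/

namespace Pool.Agent.Lib.MP_9dd88f_nt.HF

open Finset Filter

/-- **Job Reduce (c).** Iteration.

Proof. Induction on `i`. `i = 0`: `x < 2^(σf t)`, so `x` is rough and `hfin` applies. `i + 1`: if `x < 2^(b_i t)` use the induction hypothesis and monotonicity of
`Rep` in `h`. Otherwise `x ≥ 2^(b_i t) ≥ 2^(σf t)`: `hstep` gives `n1 ∉ Z`, `N'`, `r` with `r < nxt ≤ 2^(b_i t)` (and `r < nxt ≤ x < 2^(σ1 t)`), `r` rough; apply the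
induction hypothesis to `r, N'` and `insert n1 Z`: `T` avoids `n1`, so `insert n1 T` has `≤ i + 1 + 12` elements and sum `1/n1 + r/N' = x/N`. -/
theorem reduce (κ γ σf σ1 : ℝ) (hκ : 0 < κ) (hκ1 : κ ≤ 1) (hγ : 0 < γ) (hσf : 0 < σf)
    (t M cap : ℕ)
    (hstep : ∀ x : ℕ, (2 : ℝ) ^ (σf * t) ≤ x → (x : ℝ) < 2 ^ (σ1 * t) → StepAt κ γ t M cap x)
    (hfin : ∀ x : ℕ, 1 ≤ x → (x : ℝ) < 2 ^ (σf * t) → Rough (Qf t) x → FinAt 12 M cap x)
    (i : ℕ) : ∀ x : ℕ, 1 ≤ x → (x : ℝ) < 2 ^ (thr κ γ σf i * t) → (x : ℝ) < 2 ^ (σ1 * t) →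
      (Rough (Qf t) x ∨ (2 : ℝ) ^ (σf * t) ≤ x) → ∀ N, 0 < N → M ∣ N →
        ∀ Z : Finset ℕ, Z.card + i ≤ cap → Rep (i + 12) x N Z := by
  have h2 : (1 : ℝ) ≤ 2 := by norm_num
  have ht : (0 : ℝ) ≤ t := Nat.cast_nonneg t
  induction i with
  | zero =>
    intro x hx hxb _ hR N hN hMN Z hZ
    have hx' : (x : ℝ) < 2 ^ (σf * t) := hxb
    have hr : Rough (Qf t) x := by
      rcases hR with h | h
      · exact h
      · exact absurd hx' (not_lt.2 h)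
    have := hfin x hx hx' hr N hN hMN Z (by omega)
    simpa using this
  | succ i ih =>
    intro x hx hxb hx1 hR N hN hMN Z hZ
    rcases lt_or_ge (x : ℝ) (2 ^ (thr κ γ σf i * t)) with hlt | hge
    · obtain ⟨T, hT, h1, h3⟩ := ih x hx hlt hx1 hR N hN hMN Z (by omega)
      exact ⟨T, by omega, h1, h3⟩
    · have hpos := thr_pos κ γ σf hκ hκ1 hγ hσf i
      have hsx : (2 : ℝ) ^ (σf * t) ≤ x := by
        refine le_trans ?_ hge
        exact Real.rpow_le_rpow_of_exponent_le h2 (mul_le_mul_of_nonneg_right hpos.1 ht)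
      obtain ⟨n1, N', r, hn1, hn1Z, hN', hMN', hr1, hrn, hrR, hsum⟩ := hstep x hsx hx1 N hN hMN Z (by omega)
      have hn := nxt_le κ γ σf hκ hκ1 hγ hσf t x i hxb
      have hns := nxt_le_self κ γ hκ hκ1 hγ t x hx
      have hr2 : (r : ℝ) < 2 ^ (thr κ γ σf i * t) := lt_of_lt_of_le hrn hn
      have hr3 : (r : ℝ) < 2 ^ (σ1 * t) := lt_of_lt_of_le hrn (hns.trans hx1.le)
      have hcard : (insert n1 Z).card ≤ Z.card + 1 := card_insert_le n1 Z
      obtain ⟨T, hT, h1, h3⟩ := ih r hr1 hr2 hr3 (Or.inl hrR) N' hN' hMN' (insert n1 Z) (by omega)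
      have hn1T : n1 ∉ T := fun h => (h1 n1 h).2 (mem_insert_self n1 Z)
      refine ⟨insert n1 T, ?_, ?_, ?_⟩
      · rw [card_insert_of_notMem hn1T]
        omega
      · intro n hnT
        rcases mem_insert.1 hnT with h | h
        · rw [h]
          exact ⟨hn1, hn1Z⟩
        · exact ⟨(h1 n h).1, fun h' => (h1 n h).2 (mem_insert_of_mem h')⟩
      · rw [sum_insert hn1T, h3, hsum]

end Pool.Agent.Lib.MP_9dd88f_nt.HF
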