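import Mathlib
import Pool.Agent.Lib.MP_9dd88f_nt.HF.Prop1
import Pool.Agent.Lib.MP_9dd88f_nt.HF.Prop2
import Pool.Agent.Lib.MP_9dd88f_nt.HF.RedStep
import Pool.Agent.Lib.MP_9dd88f_nt.HF.RedFin
import Pool.Agent.Lib.MP_9dd88f_nt.HF.Reduce
import Pool.Agent.Lib.MP_9dd88f_nt.HF.Frame
import Pool.Agent.Lib.MP_9dd88f_nt.HF.Bits
import Pool.Agent.Lib.MP_9dd88f_nt.HF.CountK

/-!
# Short solutions with an element with many divisors
-/

namespace Pool.Agent.Lib.MP_9dd88f_nt.HF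

open Finset Filter

private theorem mainsol_beta (j : ℕ) (hj : 1 ≤ j) :
    (2 : ℝ) ^ (j - 1) ≤ Real.logb 2 ((syl j + 1 : ℕ) : ℝ) ∧
      Real.logb 2 ((syl j + 1 : ℕ) : ℝ) ≤ 2 ^ j := by
  obtain ⟨i, rfl⟩ : ∃ i, j = i + 1 := ⟨j - 1, by omega⟩
  have h1 := (syl_size i).1
  have h2 := (syl_size (i + 1)).2
  have hB : (0 : ℝ) < ((syl (i + 1) + 1 : ℕ) : ℝ) := by positivity
  constructor
  · rw [Real.le_logb_iff_rpow_le (by norm_num) hB]
    have h3 : (2 : ℕ) ^ 2 ^ i ≤ syl (i + 1) + 1 := by omega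
    have h4 : ((2 ^ 2 ^ i : ℕ) : ℝ) ≤ ((syl (i + 1) + 1 : ℕ) : ℝ) := by exact_mod_cast h3
    rw [Nat.add_sub_cancel]
    have h5 : (2 : ℝ) ^ ((2 : ℝ) ^ i) = ((2 ^ 2 ^ i : ℕ) : ℝ) := by
      push_cast
      rw [← Real.rpow_natCast 2 (2 ^ i)]
      push_cast
      rfl
    rw [h5]
    exact h4
  · rw [Real.logb_le_iff_le_rpow (by norm_num) hB]
    have h4 : ((syl (i + 1) + 1 : ℕ) : ℝ) ≤ ((2 ^ 2 ^ (i + 1) : ℕ) : ℝ) := by exact_mod_cast h2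
    have h5 : (2 : ℝ) ^ ((2 : ℝ) ^ (i + 1)) = ((2 ^ 2 ^ (i + 1) : ℕ) : ℝ) := by
      push_cast
      rw [← Real.rpow_natCast 2 (2 ^ (i + 1))]
      push_cast
      rfl
    rw [h5]
    exact h4

private theorem mainsol_lin (a : ℝ) : ∀ᶠ τ : ℕ in atTop, a * τ ≤ 2 ^ τ := by
  have h := tendsto_pow_const_div_const_pow_of_one_lt 1 (r := (2 : ℝ)) (by norm_num)
  have h2 : (0 : ℝ) < 1 / (|a| + 1) := by positivity
  filter_upwards [h.eventually_lt_const h2] with τ h1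
  have h3 : (0 : ℝ) < 2 ^ τ := by positivity
  rw [pow_one, div_lt_div_iff₀ h3 (by positivity), one_mul] at h1
  have h4 : a * τ ≤ τ * (|a| + 1) := by
    have := le_abs_self a
    have h5 : (0 : ℝ) ≤ τ := Nat.cast_nonneg _
    nlinarith
  linarith

theorem main_sol (ε : ℝ) (hε : 0 < ε) : ∀ᶠ τ : ℕ in atTop, ∃ k M : ℕ,
    (k : ℝ) ≤ (2 + ε) * τ ∧ 2 ≤ M ∧ 2 ^ 2 ^ τ ≤ M.divisors.card ∧ SolDvd k M := by
  -- constants
  obtain ⟨e, he0, he4, heε⟩ : ∃ e : ℝ, 0 < e ∧ e ≤ 1 / 4 ∧ e ≤ ε / 8 :=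
    ⟨min (1 / 4) (ε / 8), lt_min (by norm_num) (by linarith), min_le_left _ _, min_le_right _ _⟩
  obtain ⟨K, hKdef⟩ : ∃ K : ℝ, K = 1 + e := ⟨_, rfl⟩
  obtain ⟨γ, hγdef⟩ : ∃ γ : ℝ, γ = 1 - e := ⟨_, rfl⟩
  obtain ⟨θ, hθdef⟩ : ∃ θ : ℝ, θ = e / 41 := ⟨_, rfl⟩
  obtain ⟨σf, hσfdef⟩ : ∃ σf : ℝ, σf = θ / 20 := ⟨_, rfl⟩
  obtain ⟨κ, hκdef⟩ : ∃ κ : ℝ, κ = 1 - 1 / K := ⟨_, rfl⟩
  have hK1 : 1 < K := by linarith
  have hK2 : K ≤ 2 := by linarith
  have hγ0 : 0 < γ := by linarith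
  have hγ1 : γ < 1 := by linarith
  have hθ0 : 0 < θ := by rw [hθdef]; positivity
  have hθ1 : θ ≤ 1 := by rw [hθdef]; linarith
  have hσf0 : 0 < σf := by rw [hσfdef]; positivity
  have hσf1 : σf ≤ 1 := by rw [hσfdef]; linarith
  have hκ0 : 0 < κ := by
    rw [hκdef, sub_pos, div_lt_one (by linarith)]
    exact hK1
  have hκ1 : κ ≤ 1 := by
    rw [hκdef]
    have : 0 < 1 / K := by positivity
    linarith
  have hK' : K + 41 * θ = 1 + 2 * e := by rw [hKdef, hθdef]; ring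
  have hK'γ : (K + 41 * θ) / γ ≤ 1 + ε / 2 := by
    rw [hK', div_le_iff₀ hγ0, hγdef]
    nlinarith
  obtain ⟨C, hC⟩ := thr_grow κ γ σf hκ0 hκ1 hγ0 hσf0
  obtain ⟨s, hs1, hcount⟩ := count_le (K + 41 * θ) γ ε C (by linarith) hγ0 hε hK'γ
  obtain ⟨σ1, hσ1def⟩ : ∃ σ1 : ℝ, σ1 = 2 ^ s + 1 := ⟨_, rfl⟩
  have h2s : (1 : ℝ) ≤ 2 ^ s := one_le_pow₀ (by norm_num)
  have hσ1 : σf < σ1 := by linarith
  obtain ⟨J, hJ⟩ := prop1 K γ σf σ1 hK1 hK2 hγ0 hγ1 hσf0 hσ1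
  have hP2 := prop2 θ hθ0 hθ1
  have hstep := step_at K γ σf σ1 hK1 hK2 hγ0 hγ1 hσf0 hσ1
  have hfin := fin_at_main θ hθ0 hθ1
  have hbits := bits_le K γ σf σ1 θ J hK1 (by linarith) hθ0
  have htend : Tendsto (fun τ : ℕ => 2 ^ τ) atTop atTop :=
    tendsto_pow_atTop_atTop_of_one_lt (by norm_num)
  filter_upwards [htend.eventually hJ, htend.eventually hP2, htend.eventually hstep,
    htend.eventually hfin, htend.eventually hbits, hcount, mainsol_lin (2 * (2 + ε)),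
    eventually_ge_atTop 1] with τ hJ hP2 hstep hfin hbits hcount hlin hτ1
  obtain ⟨t, ht⟩ : ∃ t : ℕ, t = 2 ^ τ := ⟨_, rfl⟩
  simp only [← ht] at hJ hP2 hstep hfin hbits
  obtain ⟨p, g, hM1⟩ := hJ
  obtain ⟨v, hM2⟩ := hP2
  have htR : (t : ℝ) = 2 ^ τ := by rw [ht]; push_cast; rfl
  have ht0 : (0 : ℝ) < t := by rw [htR]; positivity
  have hτR : (1 : ℝ) ≤ τ := by exact_mod_cast hτ1
  set M : ℕ := (∏ i, p i) * (∏ j, g j) * (∏ i, v i) ^ 2 with hM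
  have hMpos : 0 < M := by
    refine Nat.mul_pos (Nat.mul_pos ?_ ?_) (Nat.pow_pos ?_)
    · exact prod_pos fun i _ => (hM1.prime i).1.pos
    · exact prod_pos fun i _ => (hM1.gprime i).1.pos
    · exact prod_pos fun i _ => (hM2.prime i).1.pos
  have hMbits : (M : ℝ) ≤ 2 ^ ((K + 41 * θ) * t * τ) := by
    have h := hbits p g v hM1 hM2
    have hlog : Real.logb 2 (t : ℝ) = τ := by
      rw [htR, Real.logb_pow, Real.logb_self_eq_one (by norm_num), mul_one]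
    rwa [hlog] at h
  -- the frame data
  set B : ℕ := syl (τ + s) + 1 with hB
  have hBpos : (0 : ℝ) < B := by rw [hB]; positivity
  obtain ⟨β, hβ⟩ : ∃ β : ℝ, β = Real.logb 2 (B : ℝ) := ⟨_, rfl⟩
  have hβ1 : (2 : ℝ) ^ (τ + s - 1) ≤ β := by
    rw [hβ]; exact (mainsol_beta (τ + s) (by omega)).1
  have hβ2 : β ≤ 2 ^ (τ + s) := by
    rw [hβ]; exact (mainsol_beta (τ + s) (by omega)).2
  have hβt : (t : ℝ) ≤ β := by
    refine le_trans ?_ hβ1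
    rw [htR]
    exact pow_le_pow_right₀ (by norm_num) (by omega)
  have hβ0 : 0 < β := by linarith
  have hBβ : (B : ℝ) = 2 ^ β := by
    rw [hβ, Real.rpow_logb (by norm_num) (by norm_num) hBpos]
  obtain ⟨L, hL⟩ : ∃ L : ℕ, L = ⌈(K + 41 * θ) * 2 ^ τ * τ / β⌉₊ := ⟨_, rfl⟩
  obtain ⟨m, hm⟩ : ∃ m : ℕ, m = ⌈(β + 1) / (γ * 2 ^ τ)⌉₊ := ⟨_, rfl⟩
  have hKpos : 0 < K + 41 * θ := by linarith
  have hL1 : 1 ≤ L := by
    rw [hL, Nat.one_le_iff_ne_zero, ← Nat.pos_iff_ne_zero, Nat.ceil_pos]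
    positivity
  have hLle : (L : ℝ) ≤ (K + 41 * θ) * 2 ^ τ * τ / β + 1 := by
    rw [hL]
    exact (Nat.ceil_lt_add_one (by positivity)).le
  have hLge : (K + 41 * θ) * 2 ^ τ * τ / β ≤ L := by
    rw [hL]
    exact Nat.le_ceil _
  have hmle : (m : ℝ) ≤ (β + 1) / (γ * 2 ^ τ) + 1 := by
    rw [hm]
    exact (Nat.ceil_lt_add_one (by positivity)).le
  have hmge : (β + 1) / (γ * 2 ^ τ) ≤ m := by
    rw [hm]
    exact Nat.le_ceil _
  have hcnt := hcount β hβ1 hβ2 L (C + m + 12) hLle (by push_cast; linarith)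
  have hcntN : (((τ + s) + L + 1 + L * (C + m + 12) : ℕ) : ℝ) ≤ (2 + ε) * τ := by
    push_cast at hcnt ⊢
    linarith
  have hCm : ((C + m : ℕ) : ℝ) ≤ (2 + ε) * τ := by
    refine le_trans ?_ hcntN
    have : C + m ≤ (τ + s) + L + 1 + L * (C + m + 12) := by nlinarith
    exact_mod_cast this
  have hcap : (τ + s) + L + 1 + L * (C + m + 12) + (C + m) ≤ t := by
    have h : (((τ + s) + L + 1 + L * (C + m + 12) + (C + m) : ℕ) : ℝ) ≤ (t : ℝ) := by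
      rw [htR]
      push_cast at hcntN hCm ⊢
      linarith
    exact_mod_cast h
  have hML : M ≤ B ^ L := by
    have h : (M : ℝ) ≤ ((B ^ L : ℕ) : ℝ) := by
      refine hMbits.trans ?_
      push_cast
      rw [hBβ, ← Real.rpow_natCast ((2 : ℝ) ^ β) L, ← Real.rpow_mul (by norm_num)]
      apply Real.rpow_le_rpow_of_exponent_le (by norm_num)
      rw [htR]
      rw [div_le_iff₀ hβ0] at hLge
      linarith
    exact_mod_cast h
  have hdvd1 : (∏ i, p i) * ∏ j, g j ∣ M := Dvd.intro _ rfl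
  have hdvd2 : (∏ i, v i) ^ 2 ∣ M := Dvd.intro_left _ rfl
  have hred : ∀ x, B ≤ x → x < 2 * B → ∀ N, 0 < N → M ∣ N →
      ∀ Z : Finset ℕ, Z.card ≤ t - (C + m) → Rep (C + m + 12) x N Z := by
    intro x hx1 hx2 N hN hMN Z hZ
    have hx1' : (B : ℝ) ≤ x := by exact_mod_cast hx1
    have hx2' : (x : ℝ) < 2 * B := by exact_mod_cast hx2
    have hx3 : (x : ℝ) < 2 ^ (β + 1) := by
      rw [Real.rpow_add (by norm_num), Real.rpow_one, ← hBβ]
      linarith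
    refine reduce κ γ σf σ1 hκ0 hκ1 hγ0 hσf0 t M t ?_ ?_ (C + m) x ?_ ?_ ?_ ?_ N hN hMN Z ?_
    · intro y hy1 hy2
      rw [hκdef]
      exact hstep J p g hM1 M hdvd1 y hy1 hy2
    · intro y hy1 hy2 hy3
      refine hfin v hM2 M hdvd2 y hy1 ?_ hy3
      have e1 : θ * (t : ℝ) / 20 = σf * t := by rw [hσfdef]; ring
      rw [e1]
      exact hy2
    · have : 1 ≤ B := by omega
      omega
    · refine hx3.trans_le ?_
      apply Real.rpow_le_rpow_of_exponent_le (by norm_num)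
      have h1 := hC m
      rw [div_le_iff₀ (by positivity)] at hmge
      rw [htR]
      have h2 : (0 : ℝ) < 2 ^ τ := by positivity
      nlinarith
    · refine hx3.trans_le ?_
      apply Real.rpow_le_rpow_of_exponent_le (by norm_num)
      have h1 : (2 : ℝ) ^ (τ + s) = 2 ^ s * t := by rw [htR, pow_add]; ring
      have h2 : (1 : ℝ) ≤ t := by rw [htR]; exact one_le_pow₀ (by norm_num)
      rw [hσ1def]
      nlinarith
    · right
      refine le_trans ?_ hx1'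
      rw [hBβ]
      apply Real.rpow_le_rpow_of_exponent_le (by norm_num)
      nlinarith
    · omega
  obtain ⟨k, hk, hsol⟩ := frame hMpos (by omega : 1 ≤ τ + s) hL1 hML hred
    (by omega : (τ + s) + L + 1 + L * (C + m + 12) ≤ t - (C + m))
  have hdiv : 2 ^ 2 ^ τ ≤ M.divisors.card := by
    have h := two_pow_le_divisors hMpos p hM1.inj (fun i => (hM1.prime i).1)
      ((Dvd.intro _ rfl : (∏ i, p i) ∣ (∏ i, p i) * ∏ j, g j).trans hdvd1)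
    exact h
  refine ⟨k, M, ?_, ?_, hdiv, hsol⟩
  · have : (k : ℝ) ≤ (((τ + s) + L + 1 + L * (C + m + 12) : ℕ) : ℝ) := by exact_mod_cast hk
    linarith
  · have h1 : 2 ≤ 2 ^ 2 ^ τ := by
      calc 2 = 2 ^ 1 := by norm_num
        _ ≤ 2 ^ 2 ^ τ := Nat.pow_le_pow_right (by norm_num) Nat.one_le_two_pow
    exact h1.trans (hdiv.trans (Nat.card_divisors_le_self M))

end Pool.Agent.Lib.MP_9dd88f_nt.HF
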