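import Mathlib
import Pool.Agent.Lib.MP_9dd88f_nt.Chain
import Pool.Agent.Lib.MP_9dd88f_nt.HF.Defs

/-!
# From one solution to many
-/

namespace Pool.Agent.Lib.MP_9dd88f_nt.HF

open Finset Filter

private theorem solcard_split_max {m : ℕ} (hm : 0 < m) :
    (1 : ℚ) / ((m + 1 : ℕ) : ℚ) + 1 / ((m * (m + 1) : ℕ) : ℚ) = 1 / (m : ℚ) := by
  have hmq : (0 : ℚ) < m := by exact_mod_cast hm
  push_cast
  field_simp

private theorem solcard_split {A B : ℕ} (hA : 0 < A) (hB : 0 < B) :
    (1 : ℚ) / ((A * B + B : ℕ) : ℚ) + 1 / ((A * B * (A + 1) : ℕ) : ℚ) = 1 / ((A * B : ℕ) : ℚ) := by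
  have hAq : (0 : ℚ) < A := by exact_mod_cast hA
  have hBq : (0 : ℚ) < B := by exact_mod_cast hB
  push_cast
  field_simp

/-- **Job SolCard (a).** A solution of size `k` with an element divisible by `M` gives one of size `k + 1`.

Proof. Let `m = max S`; `m ≥ 2` (if all elements are `≤ 1` then `S = {1}`, so `M = 1`; excluded by `2 ≤ M`: then the element divisible by `M` is `≥ 2`). Replace `m` by `m + 1`
and `m (m + 1)` (both `> m`, distinct): `1/m = 1/(m+1) + 1/(m(m+1))`. If the element divisible by `M` is `m`, then `M ∣ m (m+1)`. -/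
theorem solDvd_succ {k M : ℕ} (hM : 2 ≤ M) (h : SolDvd k M) : SolDvd (k + 1) M := by
  classical
  obtain ⟨S, hcard, hpos, ⟨n0, hn0, hMn0⟩, hsum⟩ := h
  have hne : S.Nonempty := ⟨n0, hn0⟩
  obtain ⟨m, hmS, hmax⟩ : ∃ m ∈ S, ∀ n ∈ S, n ≤ m := ⟨S.max' hne, S.max'_mem hne, fun n hn => S.le_max' n hn⟩
  have hn0M : M ≤ n0 := Nat.le_of_dvd (hpos n0 hn0) hMn0
  have hm2 : 2 ≤ m := hM.trans (hn0M.trans (hmax n0 hn0))
  have hlt1 : m < m + 1 := Nat.lt_succ_self m
  have hlt2 : m + 1 < m * (m + 1) := by nlinarith
  have hn1 : m * (m + 1) ∉ S.erase m := fun h' => by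
    have := hmax _ (Finset.mem_of_mem_erase h')
    omega
  have hn2 : m + 1 ∉ insert (m * (m + 1)) (S.erase m) := by
    rw [Finset.mem_insert, not_or]
    refine ⟨hlt2.ne, fun h' => ?_⟩
    have := hmax _ (Finset.mem_of_mem_erase h')
    omega
  refine ⟨insert (m + 1) (insert (m * (m + 1)) (S.erase m)), ?_, ?_, ?_, ?_⟩
  · rw [Finset.card_insert_of_notMem hn2, Finset.card_insert_of_notMem hn1,
      Finset.card_erase_of_mem hmS, hcard]
    have : 0 < k := by
      rw [← hcard]
      exact Finset.card_pos.mpr hne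
    omega
  · intro n hn
    rw [Finset.mem_insert, Finset.mem_insert] at hn
    rcases hn with rfl | rfl | hn
    · omega
    · positivity
    · exact hpos n (Finset.mem_of_mem_erase hn)
  · by_cases hnm : n0 = m
    · refine ⟨m * (m + 1), ?_, ?_⟩
      · rw [Finset.mem_insert, Finset.mem_insert]
        exact Or.inr (Or.inl rfl)
      · rw [← hnm]
        exact hMn0.mul_right _
    · refine ⟨n0, ?_, hMn0⟩
      rw [Finset.mem_insert, Finset.mem_insert]
      exact Or.inr (Or.inr (Finset.mem_erase.mpr ⟨hnm, hn0⟩))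
  · rw [Finset.sum_insert hn2, Finset.sum_insert hn1]
    have h1 := Finset.sum_erase_add S (fun s : ℕ => (1 : ℚ) / s) hmS
    have h2 := solcard_split_max (by omega : 0 < m)
    linarith

/-- **Job SolCard (b).** `d(M) ≤ F(k+1) + 2k + 2`.

Proof. Let `S` be a solution of size `k`, `n ∈ S`, `M ∣ n`. For a divisor `A ≥ 2` of `M` (so `A ∣ n`): `1/n = 1/(n + n/A) + 1/(n (A+1))`. The two new numbers are different
(`n/A < n A`). If neither is in `S \ {n}` (each `s` excludes at most one `A` for each of the two: `A ↦ n/A` and `A ↦ n (A+1)` are injective on divisors), then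
`T_A = (S \ {n}) ∪ {n + n/A, n(A+1)}` is a solution of size `k + 1` (neither equals `n`). `A ↦ T_A` is injective: `T_A \ (S \ {n})` is the pair and its larger element is
`n (A+1)`. So `d(M) - 1 - 2(k-1) ≤ F(k+1)` (`sols_finite` in Chain.lean or its imports; compare `chain_card` in DE/ChainBasic.lean). -/
theorem solDvd_card {k M : ℕ} (hM : 0 < M) (h : SolDvd k M) :
    M.divisors.card ≤ F (k + 1) + 2 * k + 2 := by
  classical
  obtain ⟨S, hcard, hpos, ⟨n, hn, hMn⟩, hsum⟩ := h
  have hn0 : 0 < n := hpos n hn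
  set E : Finset ℕ := S.erase n with hE
  have hEcard : E.card + 1 = k := by
    rw [hE, Finset.card_erase_of_mem hn, hcard]
    have : 0 < k := by
      rw [← hcard]
      exact Finset.card_pos.mpr ⟨n, hn⟩
    omega
  have hEsum : ∑ s ∈ E, (1 : ℚ) / s + 1 / n = 1 := by
    rw [hE, Finset.sum_erase_add S _ hn]
    exact hsum
  set D : Finset ℕ := M.divisors.erase 1 with hD
  have hDcard : D.card + 1 = M.divisors.card :=
    Finset.card_erase_add_one (Nat.one_mem_divisors.mpr hM.ne')
  have hmem : ∀ A ∈ D, 2 ≤ A ∧ ∃ B, n = A * B ∧ 1 ≤ B := by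
    intro A hA
    rw [hD, Finset.mem_erase, Nat.mem_divisors] at hA
    obtain ⟨hA1, hAM, -⟩ := hA
    have hApos : 0 < A := Nat.pos_of_dvd_of_pos hAM hM
    obtain ⟨B, hB⟩ := hAM.trans hMn
    refine ⟨by omega, B, hB, ?_⟩
    rcases Nat.eq_zero_or_pos B with h0 | h0
    · rw [h0, mul_zero] at hB
      omega
    · exact h0
  -- the two sets of excluded divisors
  have hbad1 : (D.filter (fun A => n + n / A ∈ E)).card ≤ E.card := by
    apply Finset.card_le_card_of_injOn (fun A => n + n / A)
    · intro A hA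
      rw [Finset.mem_coe, Finset.mem_filter] at hA
      exact hA.2
    · intro A hA A' hA' heq
      rw [Finset.mem_coe, Finset.mem_filter] at hA hA'
      obtain ⟨hA2, B, hB, hB1⟩ := hmem A hA.1
      obtain ⟨hA2', B', hB', hB1'⟩ := hmem A' hA'.1
      have h1 : n / A = B := by
        rw [hB]
        exact Nat.mul_div_cancel_left _ (by omega)
      have h2 : n / A' = B' := by
        rw [hB']
        exact Nat.mul_div_cancel_left _ (by omega)
      simp only [h1, h2] at heq
      have hBB : B = B' := by omega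
      have h3 : A * B = A' * B := by rw [← hB, hBB, ← hB']
      exact Nat.eq_of_mul_eq_mul_right (by omega) h3
  have hbad2 : (D.filter (fun A => n * (A + 1) ∈ E)).card ≤ E.card := by
    apply Finset.card_le_card_of_injOn (fun A => n * (A + 1))
    · intro A hA
      rw [Finset.mem_coe, Finset.mem_filter] at hA
      exact hA.2
    · intro A _ A' _ heq
      have h3 : A + 1 = A' + 1 := Nat.eq_of_mul_eq_mul_left hn0 heq
      omega
  set G : Finset ℕ := D.filter (fun A => n + n / A ∉ E ∧ n * (A + 1) ∉ E) with hG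
  have hsplit : D.card ≤ G.card + (D.filter (fun A => n + n / A ∈ E)).card +
      (D.filter (fun A => n * (A + 1) ∈ E)).card := by
    have hsub : D ⊆ (G ∪ D.filter (fun A => n + n / A ∈ E)) ∪
        D.filter (fun A => n * (A + 1) ∈ E) := by
      intro A hA
      simp only [hG, Finset.mem_union, Finset.mem_filter]
      by_cases h1 : n + n / A ∈ E
      · exact Or.inl (Or.inr ⟨hA, h1⟩)
      · by_cases h2 : n * (A + 1) ∈ E
        · exact Or.inr ⟨hA, h2⟩
        · exact Or.inl (Or.inl ⟨hA, h1, h2⟩)
    refine (Finset.card_le_card hsub).trans ?_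
    refine (Finset.card_union_le _ _).trans ?_
    exact Nat.add_le_add_right (Finset.card_union_le _ _) _
  have hGF : G.card ≤ F (k + 1) := by
    rw [F, ← Set.ncard_coe_finset]
    apply Set.ncard_le_ncard_of_injOn (fun A => insert (n + n / A) (insert (n * (A + 1)) E)) _ _
      (sols_finite _ _)
    · intro A hA
      rw [Finset.mem_coe, hG, Finset.mem_filter] at hA
      obtain ⟨hAD, hnot1, hnot2⟩ := hA
      obtain ⟨hA2, B, hB, hB1⟩ := hmem A hAD
      have h1 : n / A = B := by
        rw [hB]
        exact Nat.mul_div_cancel_left _ (by omega)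
      have hBn : B < n := by rw [hB]; nlinarith
      have hlt : n + B < n * (A + 1) := by nlinarith
      have hn2 : n + n / A ∉ insert (n * (A + 1)) E := by
        rw [Finset.mem_insert, not_or]
        exact ⟨by rw [h1]; exact hlt.ne, hnot1⟩
      refine ⟨?_, ?_, ?_⟩
      · rw [Finset.card_insert_of_notMem hn2, Finset.card_insert_of_notMem hnot2]
        omega
      · intro s hs
        rw [Finset.mem_insert, Finset.mem_insert] at hs
        rcases hs with rfl | rfl | hs
        · omega
        · positivity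
        · exact hpos s (Finset.mem_of_mem_erase hs)
      · rw [Finset.sum_insert hn2, Finset.sum_insert hnot2, h1]
        have h4 := solcard_split (by omega : 0 < A) hB1
        rw [← hB] at h4
        linarith
    · intro A hA A' hA' heq
      rw [Finset.mem_coe, hG, Finset.mem_filter] at hA hA'
      obtain ⟨hAD, hnot1, hnot2⟩ := hA
      obtain ⟨hAD', hnot1', hnot2'⟩ := hA'
      obtain ⟨hA2, B, hB, hB1⟩ := hmem A hAD
      obtain ⟨hA2', B', hB', hB1'⟩ := hmem A' hAD'
      have h2 : n / A' = B' := by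
        rw [hB']
        exact Nat.mul_div_cancel_left _ (by omega)
      simp only at heq
      have hin : n * (A + 1) ∈ insert (n + n / A) (insert (n * (A + 1)) E) := by
        rw [Finset.mem_insert, Finset.mem_insert]
        exact Or.inr (Or.inl rfl)
      rw [heq, Finset.mem_insert, Finset.mem_insert, h2] at hin
      rcases hin with h' | h' | h'
      · have hBn : B' < n := by rw [hB']; nlinarith
        nlinarith
      · have h3 : A + 1 = A' + 1 := Nat.eq_of_mul_eq_mul_left hn0 h'
        omega
      · exact absurd h' hnot2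
  omega

end Pool.Agent.Lib.MP_9dd88f_nt.HF
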