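import Mathlib
import Pool.Agent.Lib.MP_9dd88f_nt.HF.MainSol
import Pool.Agent.Lib.MP_9dd88f_nt.HF.SolCard
import Pool.Agent.Lib.MP_9dd88f_nt.HF.LastNum

/-!
# The lower bound `F k ≥ exp (2 ^ ((1 / 2 - ε) k))`
-/

namespace Pool.Agent.Lib.MP_9dd88f_nt.HF

open Finset Filter

private theorem final_add {k M : ℕ} (hM : 2 ≤ M) (h : SolDvd k M) (j : ℕ) : SolDvd (k + j) M := by
  induction j with
  | zero => exact h
  | succ j ih => exact solDvd_succ hM ih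

private theorem final_tendsto (ε : ℝ) (hε : 0 < ε) :
    Tendsto (fun k : ℕ => ⌊((k : ℝ) - 1) / (2 + ε)⌋₊) atTop atTop := by
  refine tendsto_nat_floor_atTop.comp ?_
  refine Tendsto.atTop_div_const (by linarith) ?_
  exact tendsto_atTop_add_const_right _ _ tendsto_natCast_atTop_atTop

theorem lower_half (ε : ℝ) (hε : 0 < ε) : ∀ᶠ k : ℕ in atTop,
    Real.exp (2 ^ ((1 / 2 - ε) * k)) ≤ (F k : ℝ) := by
  filter_upwards [last_num ε hε, (final_tendsto ε hε).eventually (main_sol ε hε),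
    eventually_ge_atTop 1] with k hlast hmain hk1
  obtain ⟨k0, M, hk0, hM, hd, hs⟩ := hmain
  have hk1' : (1 : ℝ) ≤ k := by exact_mod_cast hk1
  have hfl : ((⌊((k : ℝ) - 1) / (2 + ε)⌋₊ : ℕ) : ℝ) ≤ ((k : ℝ) - 1) / (2 + ε) :=
    Nat.floor_le (div_nonneg (by linarith) (by linarith))
  have h1 : (k0 : ℝ) ≤ (k : ℝ) - 1 := by
    have h2 : (2 + ε) * ((⌊((k : ℝ) - 1) / (2 + ε)⌋₊ : ℕ) : ℝ) ≤
        (2 + ε) * (((k : ℝ) - 1) / (2 + ε)) :=
      mul_le_mul_of_nonneg_left hfl (by linarith)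
    have h3 : (2 + ε) * (((k : ℝ) - 1) / (2 + ε)) = (k : ℝ) - 1 := by
      field_simp
    linarith
  have h2 : k0 + 1 ≤ k := by
    have : ((k0 + 1 : ℕ) : ℝ) ≤ (k : ℝ) := by push_cast; linarith
    exact_mod_cast this
  obtain ⟨j, hj⟩ : ∃ j, k = k0 + j + 1 := ⟨k - (k0 + 1), by omega⟩
  have h3 := solDvd_card (by omega) (final_add hM hs j)
  rw [← hj] at h3
  have h4 : 2 ^ 2 ^ ⌊((k : ℝ) - 1) / (2 + ε)⌋₊ ≤ F k + 2 * k := by
    refine hd.trans (h3.trans ?_)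
    omega
  have h5 : ((2 : ℝ) ^ (2 ^ ⌊((k : ℝ) - 1) / (2 + ε)⌋₊)) ≤ (F k : ℝ) + 2 * k := by
    exact_mod_cast h4
  linarith

end Pool.Agent.Lib.MP_9dd88f_nt.HF
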